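import Pool.Agent.Hhelper2.LocalCore

/-!
# Splitting off the factors of local type
-/

namespace Pool.Agent.Hhelper2

universe u v

namespace QStr

/-- The product of a family of quaternionic structures. -/
def pi {ι : Type v} (L : ι → QStr.{u}) : QStr.{max u v} where
  G := ∀ i, (L i).G
  neg := fun i => (L i).neg
  Split x y := ∀ i, (L i).Split (x i) (y i)

/-- Structures of local type: the relation `Split` is given by a nondegenerate symmetric bilinear
form with values in a group of order two. -/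
structure IsLocal (S : QStr.{u}) : Prop where
  sq : ∀ a : S.G, a * a = 1
  symm : ∀ a b, S.Split a b → S.Split b a
  one : ∀ a, S.Split a 1
  neg : ∀ a, S.Split a (S.neg * a)
  mul : ∀ a b c, S.Split a b → S.Split a c → S.Split a (b * c)
  index : ∀ a b c, ¬ S.Split a b → ¬ S.Split a c → S.Split a (b * c)
  nondeg : ∀ a, a ≠ 1 → ∃ b, ¬ S.Split a b

end QStr

namespace LocalCore

open Module Submodule Codim Additive Tower

section field

variable {F : Type u} [Field F] [Finite (SqClass F)] {Q : Type u} [AddCommGroup Q]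
  [Module (ZMod 2) Q] [Finite Q]
  {β : Additive (SqClass F) →ₗ[ZMod 2] Additive (SqClass F) →ₗ[ZMod 2] Q}

omit [Finite Q] in
/-- The local factor theorem for fields. -/
theorem field_splits (h2 : (2 : F) ≠ 0)
    (hβ : ∀ a b : SqClass F, β (ofMul a) (ofMul b) = 0 ↔ FieldSplit F a b)
    (symm : ∀ x y, β x y = β y x)
    (cs : ∀ a b c d, β a b = β c d → ∃ w, β a w = β a b ∧ β c w = β a b)
    {m m' : Additive (SqClass F)} {q : Q} (hq : q ≠ 0) (hm : m ∈ Lq β q) (hm' : m' ∈ Lq β q)
    (hmm : β m m' = q) :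
    ∃ W b, Splits β q W b := by
  have hfin : Finite (Additive (SqClass F)) := inferInstanceAs (Finite (SqClass F))
  have hSp : ∀ x y, β x y = 0 ↔ Sp F x y := fun x y => hβ (toMul x) (toMul y)
  have w3 : ∀ w, (∀ y, β w y ≠ q) → ∀ x y, β m x = β w y → β m x = 0 := by
    intro w hw x y h
    rcases hm x with h1 | h1
    · exact h1
    · exact absurd (h.symm.trans h1) (hw y)
  have w4 : ∀ w, (∀ y, β w y ≠ q) → ∀ g, ∃ g', β w g' = 0 ∧ β m g' = β m g := by
    intro w hw g
    rcases hm g with h1 | h1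
    · exact ⟨0, map_zero _, by rw [map_zero, h1]⟩
    · refine ⟨m', ?_, by rw [hmm, h1]⟩
      rcases hm' w with h3 | h3
      · rw [symm, h3]
      · exact absurd (by rw [symm]; exact h3) (hw m')
  let W : Submodule (ZMod 2) (Additive (SqClass F)) :=
    { carrier := {w | ∀ y, β w y ≠ q}
      add_mem' := by
        intro w a hw ha y h
        obtain ⟨z, h1, h3⟩ := cs _ _ _ _ (h.trans hmm.symm)
        rw [h] at h1 h3
        rw [map_add, LinearMap.add_apply] at h1
        have h4 := I3t' β cs (w3 w hw) (w4 w hw) (w3 a ha) (w4 a ha) (h3.trans h1.symm)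
        rw [h3] at h4
        exact hq h4
      zero_mem' := by
        intro y h
        rw [map_zero, LinearMap.zero_apply] at h
        exact hq h.symm
      smul_mem' := by
        intro c w hw y h
        have key : ∀ c : ZMod 2, c = 0 ∨ c = 1 := by decide
        rcases key c with rfl | rfl
        · rw [zero_smul, map_zero, LinearMap.zero_apply] at h
          exact hq h.symm
        · rw [one_smul] at h
          exact hw y h }
  have hW : ∀ x, x ∈ W ↔ ∀ y, β x y ≠ q := fun x => Iff.rfl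
  have H : Hyp (Sp F) m W {x | x ∉ W} (fun z => β m z = q) := by
    refine ⟨?_, ?_, ?_, ?_, ?_⟩
    · intro x hx w hw h
      apply hx
      have := W.add_mem h hw
      rwa [add_assoc, add_self, add_zero] at this
    · intro y z h h1
      rw [← hSp, map_add] at h
      rw [← eq_of_add_eq_zero h]
      exact h1
    · intro w hw y h
      rw [← hSp, map_add, LinearMap.add_apply] at h
      exact (hSp _ _).1 (w3 w hw y y (eq_of_add_eq_zero h))
    · intro w hw g
      obtain ⟨g', h1, h3⟩ := w4 w hw g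
      exact ⟨g', (hSp _ _).1 h1, (hSp _ _).1 (by rw [map_add, h3, add_self])⟩
    · intro d hd
      have : ∃ y, β d y = q := by
        by_contra hcon
        push Not at hcon
        exact hd hcon
      obtain ⟨y, hy⟩ := this
      obtain ⟨z, h1, h3⟩ := cs _ _ _ _ (hy.trans hmm.symm)
      rw [hy] at h1 h3
      exact ⟨z, (hSp _ _).1 (by rw [map_add, LinearMap.add_apply, h1, h3, add_self]), h3⟩
  obtain ⟨hC, hB⟩ := tower _ F h2 m W _ _ H le_rfl
  obtain ⟨b, h1, h3, h4, h5⟩ := hB m' (by
    rw [← hSp, hmm]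
    exact hq)
  refine ⟨W, b, splits symm cs hmm W hW ?_ b h1 (fun x y h => h3 x y ((hSp _ _).1 h)) h4 h5⟩
  intro d hd
  obtain ⟨z, h6, h7, h8⟩ := hC d hd
  refine ⟨z, fun w hw => (hSp _ _).2 (h7 w hw), ?_⟩
  rw [← hSp, map_add, LinearMap.add_apply] at h6
  rw [← eq_of_add_eq_zero h6]
  exact h8

end field

/-! ### The decomposition -/

section decomposition

variable {V : Type u} {Q : Type v} [AddCommGroup V] [Module (ZMod 2) V]
  [AddCommGroup Q] [Module (ZMod 2) Q]
  (β : V →ₗ[ZMod 2] V →ₗ[ZMod 2] Q)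

/-- The values which split off a factor of local type. -/
def LocVal : Type v := {q : Q // q ≠ 0 ∧ ∃ m ∈ Lq β q, ∃ m' ∈ Lq β q, β m m' = q}

instance [Finite Q] : Finite (LocVal β) := Subtype.finite

/-- The data of all the splittings. -/
structure AllSplit where
  /-- a complement of the radical -/
  C : Submodule (ZMod 2) V
  compl : IsCompl (LinearMap.ker β) C
  /-- the complementary factors -/
  W : LocVal β → Submodule (ZMod 2) V
  /-- the forms -/
  b : LocVal β → V →ₗ[ZMod 2] V →ₗ[ZMod 2] ZMod 2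
  splits : ∀ q, Splits β q.1 (W q) (b q)

variable {β}

namespace AllSplit

variable (A : AllSplit β)

/-- The factor of local type. -/
def L (q : LocVal β) : Submodule (ZMod 2) V := Lq β q.1 ⊓ A.C

/-- The intersection of the complementary factors. -/
def WW : Submodule (ZMod 2) V := ⨅ q, A.W q

/-- The core. -/
def T : Submodule (ZMod 2) V := A.WW ⊓ A.C

lemma mem_WW {x : V} : x ∈ A.WW ↔ ∀ q, x ∈ A.W q := by
  unfold WW
  rw [Submodule.mem_iInf]

lemma rad_le_W (q : LocVal β) : LinearMap.ker β ≤ A.W q := by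
  intro x hx
  rw [(A.splits q).memW]
  intro y h
  rw [LinearMap.mem_ker.1 hx, LinearMap.zero_apply] at h
  exact q.2.1 h.symm

lemma rad_le_WW : LinearMap.ker β ≤ A.WW := by
  intro x hx
  rw [mem_WW]
  exact fun q => A.rad_le_W q hx

lemma rad_le_Lq (q : Q) : LinearMap.ker β ≤ Lq β q := by
  intro x hx y
  left
  rw [LinearMap.mem_ker.1 hx, LinearMap.zero_apply]

lemma L_le_W {q q' : LocVal β} (h : q ≠ q') : A.L q ≤ A.W q' := by
  intro x hx
  rw [(A.splits q').memW]
  intro y hy
  rcases hx.1 y with h1 | h1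
  · exact q'.2.1 (hy.symm.trans h1)
  · exact h (Subtype.ext (h1.symm.trans hy))

lemma inf_rad {q : LocVal β} {x : V} (h1 : x ∈ Lq β q.1) (h2 : x ∈ A.W q) : β x = 0 := by
  ext y
  rcases h1 y with h3 | h3
  · rw [h3, LinearMap.zero_apply]
  · exact absurd h3 (((A.splits q).memW x).1 h2 y)

lemma eq_zero_of_C {x : V} (h1 : β x = 0) (h2 : x ∈ A.C) : x = 0 := by
  have := A.compl.disjoint.le_bot (⟨LinearMap.mem_ker.2 h1, h2⟩ : x ∈ LinearMap.ker β ⊓ A.C)
  exact (Submodule.mem_bot _).1 this

/-- Decomposition with respect to one value. -/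
lemma exists_L (q : LocVal β) (x : V) : ∃ l ∈ A.L q, x + l ∈ A.W q := by
  have h1 : x ∈ Lq β q.1 ⊔ A.W q := by rw [(A.splits q).sup]; trivial
  obtain ⟨l, hl, w, hw, rfl⟩ := Submodule.mem_sup.1 h1
  have h2 : l ∈ LinearMap.ker β ⊔ A.C := by rw [A.compl.sup_eq_top]; trivial
  obtain ⟨r, hr, c, hc, rfl⟩ := Submodule.mem_sup.1 h2
  refine ⟨c, ⟨?_, hc⟩, ?_⟩
  · have := (Lq β q.1).add_mem hl (rad_le_Lq q.1 hr)
    rwa [add_comm r c, add_assoc, add_self, add_zero] at this
  · have : r + c + w + c = r + w + (c + c) := by abel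
    rw [this, add_self, add_zero]
    exact (A.W q).add_mem (A.rad_le_W q hr) hw

/-- The decomposition map. -/
noncomputable def f [Fintype (LocVal β)] :
    ((A.T × LinearMap.ker β) × (∀ q, A.L q)) →ₗ[ZMod 2] V where
  toFun x := (x.1.1 : V) + x.1.2 + ∑ q, (x.2 q : V)
  map_add' := by
    intro x y
    simp only [Prod.fst_add, Prod.snd_add, Submodule.coe_add, Pi.add_apply,
      Finset.sum_add_distrib]
    abel
  map_smul' := by
    intro c x
    simp only [Prod.smul_fst, Prod.smul_snd, Submodule.coe_smul, Pi.smul_apply,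
      RingHom.id_apply, smul_add, Finset.smul_sum]

variable [Fintype (LocVal β)]

lemma f_apply (x : (A.T × LinearMap.ker β) × (∀ q, A.L q)) :
    A.f x = (x.1.1 : V) + x.1.2 + ∑ q, (x.2 q : V) := rfl

lemma mem_W (x : (A.T × LinearMap.ker β) × (∀ q, A.L q)) (q : LocVal β) :
    A.f x + x.2 q ∈ A.W q := by
  classical
  rw [f_apply, ← Finset.add_sum_erase _ _ (Finset.mem_univ q)]
  have : (x.1.1 : V) + x.1.2 + ((x.2 q : V) + ∑ q' ∈ Finset.univ.erase q, (x.2 q' : V)) + x.2 q =
    (x.1.1 : V) + x.1.2 + (∑ q' ∈ Finset.univ.erase q, (x.2 q' : V)) +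
      ((x.2 q : V) + x.2 q) := by abel
  rw [this, add_self, add_zero]
  apply (A.W q).add_mem
  · apply (A.W q).add_mem
    · exact A.mem_WW.1 x.1.1.2.1 q
    · exact A.rad_le_W q x.1.2.2
  · apply Submodule.sum_mem
    intro q' hq'
    exact A.L_le_W (Finset.ne_of_mem_erase hq') (x.2 q').2

lemma f_injective : Function.Injective A.f := by
  rw [← LinearMap.ker_eq_bot, LinearMap.ker_eq_bot']
  intro x hx
  have h1 : ∀ q, x.2 q = 0 := by
    intro q
    have h2 := A.mem_W x q
    rw [hx, zero_add] at h2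
    exact Subtype.ext (A.eq_zero_of_C (A.inf_rad (x.2 q).2.1 h2) (x.2 q).2.2)
  rw [f_apply] at hx
  simp only [h1, ZeroMemClass.coe_zero, Finset.sum_const_zero, add_zero] at hx
  have h3 : (x.1.1 : V) = x.1.2 := eq_of_add_eq_zero hx
  have h4 : (x.1.1 : V) = 0 := by
    apply A.eq_zero_of_C _ x.1.1.2.2
    rw [h3]
    exact x.1.2.2
  have h5 : (x.1.2 : V) = 0 := by rw [← h3, h4]
  exact Prod.ext (Prod.ext (Subtype.ext h4) (Subtype.ext h5)) (funext h1)

lemma f_surjective : Function.Surjective A.f := by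
  classical
  intro x
  choose l hl hxl using fun q => A.exists_L q x
  set w := x + ∑ q, l q with hw
  have hwW : w ∈ A.WW := by
    rw [mem_WW]
    intro q
    rw [hw, ← Finset.add_sum_erase _ _ (Finset.mem_univ q), ← add_assoc]
    apply (A.W q).add_mem (hxl q)
    apply Submodule.sum_mem
    intro q' hq'
    exact A.L_le_W (Finset.ne_of_mem_erase hq') (hl q')
  have h2 : w ∈ LinearMap.ker β ⊔ A.C := by rw [A.compl.sup_eq_top]; trivial
  obtain ⟨r, hr, c, hc, hrc⟩ := Submodule.mem_sup.1 h2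
  have hcT : c ∈ A.T := by
    refine ⟨?_, hc⟩
    have := A.WW.add_mem hwW (A.rad_le_WW hr)
    rw [← hrc, add_comm r c, add_assoc, add_self, add_zero] at this
    exact this
  refine ⟨((⟨c, hcT⟩, ⟨r, hr⟩), fun q => ⟨l q, hl q⟩), ?_⟩
  rw [f_apply]
  show c + r + ∑ q, l q = x
  rw [add_comm c r, hrc, hw, add_assoc, add_self, add_zero]

/-- The symbol in terms of the decomposition. -/
lemma beta_f (symm : ∀ x y, β x y = β y x) (x y : (A.T × LinearMap.ker β) × (∀ q, A.L q)) :
    β (A.f x) (A.f y) = β (x.1.1 : V) y.1.1 + ∑ q, β (x.2 q : V) (y.2 q) := by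
  classical
  have hr1 : ∀ (r : LinearMap.ker β) (z : V), β (r : V) z = 0 := fun r z => by
    rw [LinearMap.mem_ker.1 r.2, LinearMap.zero_apply]
  have hr2 : ∀ (r : LinearMap.ker β) (z : V), β z (r : V) = 0 := fun r z => by
    rw [symm, hr1]
  have hT : ∀ (t : A.T) (q) (l : A.L q), β (l : V) (t : V) = 0 := fun t q l =>
    (A.splits q).orth symm l.2.1 (A.mem_WW.1 t.2.1 q)
  have hL : ∀ (q q') (l : A.L q) (l' : A.L q'), q ≠ q' → β (l : V) (l' : V) = 0 :=
    fun q q' l l' h => (A.splits q).orth symm l.2.1 (A.L_le_W (Ne.symm h) l'.2)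
  rw [f_apply, f_apply]
  have hT' : ∀ (t : A.T) (q) (l : A.L q), β (t : V) (l : V) = 0 := fun t q l => by
    rw [symm, hT]
  simp only [map_add, LinearMap.add_apply, hr1, hr2, add_zero, map_sum, LinearMap.sum_apply,
    hT, hT', Finset.sum_const_zero, zero_add]
  congr 1
  apply Finset.sum_congr rfl
  intro q _
  rw [Finset.sum_eq_single q]
  · intro q' _ hne
    exact hL _ _ _ _ hne
  · intro h
    exact absurd (Finset.mem_univ q) h

lemma split_iff (symm : ∀ x y, β x y = β y x) (x y : (A.T × LinearMap.ker β) × (∀ q, A.L q)) :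
    β (A.f x) (A.f y) = 0 ↔ β (x.1.1 : V) y.1.1 = 0 ∧ ∀ q, β (x.2 q : V) (y.2 q) = 0 := by
  rw [A.beta_f symm]
  constructor
  · intro h
    have h1 : ∀ q, β (x.2 q : V) (y.2 q) = 0 := by
      intro q
      rcases (x.2 q).2.1 (y.2 q) with h3 | h3
      · exact h3
      exfalso
      have h4 := (A.splits q).bq _ _ h3
      have h5 : A.b q (A.f x) (A.f y) = 0 := by
        apply (A.splits q).bsp
        rw [A.beta_f symm, h]
      have e1 : A.b q (A.f x + x.2 q) = 0 := ((A.splits q).ker _).1 (A.mem_W x q)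
      have e2 : A.b q (A.f y + y.2 q) = 0 := ((A.splits q).ker _).1 (A.mem_W y q)
      rw [map_add] at e1 e2
      rw [eq_of_add_eq_zero e1, (A.splits q).bs, eq_of_add_eq_zero e2, (A.splits q).bs, h4] at h5
      exact one_ne_zero h5
    refine ⟨?_, h1⟩
    simpa [h1] using h
  · rintro ⟨h1, h3⟩
    rw [h1, Finset.sum_eq_zero (fun q _ => h3 q), add_zero]

/-- The decomposition as a linear equivalence. -/
noncomputable def equiv : ((A.T × LinearMap.ker β) × (∀ q, A.L q)) ≃ₗ[ZMod 2] V :=
  LinearEquiv.ofBijective A.f ⟨A.f_injective, A.f_surjective⟩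

end AllSplit

end decomposition

end LocalCore

end Pool.Agent.Hhelper2
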