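import Mathlib

/-!
# Quaternionic structures of fields

Data of a quaternionic structure, isomorphisms, direct products, group extensions, restriction to a
subgroup, the quaternionic structure of a field, and the class of structures of elementary type.
-/

namespace Pool.Agent.Hhelper2

universe u v w

/-- The data of a quaternionic structure: an (abelian) group `G`, the class `neg` of `-1`, and the
relation `Split a b` which says that the quaternion algebra `(a, b)` is split. -/
structure QStr : Type (u + 1) where
  /-- the group of square classes -/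
  G : Type u
  [grp : CommGroup G]
  /-- the class of `-1` -/
  neg : G
  /-- the relation: the quaternion algebra `(a, b)` is split -/
  Split : G → G → Prop

attribute [instance] QStr.grp

namespace QStr

/-- Isomorphisms of quaternionic structures: group isomorphisms which respect the class of `-1` and
the splitting of quaternion algebras. -/
structure Iso (S : QStr.{u}) (T : QStr.{v}) where
  /-- the underlying group isomorphism -/
  e : S.G ≃* T.G
  map_neg : e S.neg = T.neg
  map_split : ∀ a b, S.Split a b ↔ T.Split (e a) (e b)

/-- identity -/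
def Iso.refl (S : QStr.{u}) : Iso S S := ⟨MulEquiv.refl _, rfl, fun _ _ => Iff.rfl⟩

/-- inverse -/
def Iso.symm {S : QStr.{u}} {T : QStr.{v}} (f : Iso S T) : Iso T S where
  e := f.e.symm
  map_neg := by rw [← f.map_neg]; simp
  map_split a b := by rw [f.map_split]; simp

/-- composition -/
def Iso.trans {S : QStr.{u}} {T : QStr.{v}} {U : QStr.{w}} (f : Iso S T) (g : Iso T U) :
    Iso S U where
  e := f.e.trans g.e
  map_neg := by simp [f.map_neg, g.map_neg]
  map_split a b := by rw [f.map_split, g.map_split]; simp

/-- The direct product of two quaternionic structures (corresponding to the fibre product of Witt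
rings over `ℤ / 2`). -/
def prod (S : QStr.{u}) (T : QStr.{v}) : QStr.{max u v} where
  G := S.G × T.G
  neg := (S.neg, T.neg)
  Split x y := S.Split x.1 y.1 ∧ T.Split x.2 y.2

/-- The group extension of a quaternionic structure by a group `{1, t}` of order two
(corresponding to the group ring extension `R ↦ R[C₂]` of Witt rings; it is the quaternionic
structure of the Laurent series field `F((t))` if `S` is that of `F`): for `a, b ∈ G` the
algebra `(a, b)` is split if it is split in `S`, the algebra `(a, b t)` is split only if `a = 1`,
and `(a t, b t)` is split only if `b = - a`. -/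
def ext (S : QStr.{u}) : QStr.{u} where
  G := S.G × Multiplicative (ZMod 2)
  neg := (S.neg, 1)
  Split x y := (x.2 = 1 ∧ y.2 = 1 ∧ S.Split x.1 y.1) ∨ x = 1 ∨ y = 1 ∨
    (x.2 ≠ 1 ∧ y.2 ≠ 1 ∧ y.1 = S.neg * x.1)

/-- The `m`-fold group extension. -/
def extPow (S : QStr.{u}) : ℕ → QStr.{u}
  | 0 => S
  | m + 1 => (extPow S m).ext

/-- The restriction of a structure to a subgroup `H` of `G` that contains the class of `-1`. -/
def restrict (S : QStr.{u}) (H : Subgroup S.G) (h : S.neg ∈ H) : QStr.{u} where
  G := H
  neg := ⟨S.neg, h⟩
  Split a b := S.Split a b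

/-- Functoriality of the group extension. -/
def Iso.ext {S : QStr.{u}} {T : QStr.{v}} (f : Iso S T) : Iso S.ext T.ext where
  e := f.e.prodCongr (MulEquiv.refl _)
  map_neg := by
    show (f.e S.neg, (1 : Multiplicative (ZMod 2))) = (T.neg, 1)
    rw [f.map_neg]
  map_split := by
    rintro ⟨a, i⟩ ⟨b, j⟩
    have h1 : ∀ (a : S.G) (i : Multiplicative (ZMod 2)), ((a, i) = (1 : S.G × _)) ↔
        ((f.e a, i) = (1 : T.G × _)) := by
      intro a i
      simp [Prod.ext_iff]
    have h2 : b = S.neg * a ↔ f.e b = T.neg * f.e a := by
      rw [← f.map_neg, ← map_mul, f.e.injective.eq_iff]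
    show (_ ∨ _ ∨ _ ∨ _) ↔ (_ ∨ _ ∨ _ ∨ _)
    rw [h1 a i, h1 b j, h2, f.map_split]
    exact Iff.rfl

end QStr

/-! ### The quaternionic structure of a field -/

/-- The group `Fˣ / Fˣ²` of square classes of a field. -/
abbrev SqClass (F : Type u) [Field F] : Type u := Fˣ ⧸ Subgroup.square Fˣ

/-- The square class of a nonzero element. -/
abbrev sqClass {F : Type u} [Field F] (x : Fˣ) : SqClass F := QuotientGroup.mk x

/-- The quaternion algebra `(a, b)` over `F` is split, where `a, b` are square classes:
`x X ^ 2 + y Y ^ 2 = 1` is solvable in `F`, where `x, y` represent `a, b`. -/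
def FieldSplit (F : Type u) [Field F] (a b : SqClass F) : Prop :=
  ∃ x y : Fˣ, sqClass x = a ∧ sqClass y = b ∧ ∃ X Y : F, (x : F) * X ^ 2 + (y : F) * Y ^ 2 = 1

/-- The quaternionic structure of a field `F` of characteristic not two. -/
def QStr.ofField (F : Type u) [Field F] : QStr.{u} where
  G := SqClass F
  neg := sqClass (-1)
  Split := FieldSplit F

/-- Quaternionic structures of elementary type: the smallest class of structures, closed under
isomorphism, which contains the structures of `ℂ`, `ℝ`, `𝔽₃` and of all finite extensions of `ℚ₂`,
and which is closed under direct products and group extensions. -/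
inductive IsElementary : QStr.{u} → Prop
  | complex (S : QStr.{u}) : Nonempty (S.Iso (QStr.ofField ℂ)) → IsElementary S
  | real (S : QStr.{u}) : Nonempty (S.Iso (QStr.ofField ℝ)) → IsElementary S
  | three (S : QStr.{u}) : Nonempty (S.Iso (QStr.ofField (ZMod 3))) → IsElementary S
  | dyadic (S : QStr.{u}) (K : Type) [Field K] [Algebra ℚ_[2] K] [FiniteDimensional ℚ_[2] K] :
      Nonempty (S.Iso (QStr.ofField K)) → IsElementary S
  | prod (S T U : QStr.{u}) : IsElementary S → IsElementary T → Nonempty (U.Iso (S.prod T)) →
      IsElementary U
  | ext (S U : QStr.{u}) : IsElementary S → Nonempty (U.Iso S.ext) → IsElementary U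

end Pool.Agent.Hhelper2
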