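import Pool.Agent.Hhelper2.LocalFactor

/-!
# The decomposition of the quaternionic structure of a field
-/

namespace Pool.Agent.Hhelper2

universe u v

namespace QStr

/-- The class `a` is small: the group of all `x` such that `(a, x)` is split has index at most
two. -/
def IsSmall (S : QStr.{u}) (a : S.G) : Prop :=
  ∀ x y, ¬ S.Split a x → ¬ S.Split a y → S.Split a (x * y)

end QStr

namespace LocalCore

open Module Submodule Codim Additive Tower

/-- The quaternionic structure given by a subspace. -/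
def sub {V : Type u} {Q : Type v} [AddCommGroup V] [Module (ZMod 2) V]
    [AddCommGroup Q] [Module (ZMod 2) Q] (β : V →ₗ[ZMod 2] V →ₗ[ZMod 2] Q)
    (M : Submodule (ZMod 2) V) (n : M) : QStr.{u} where
  G := Multiplicative M
  neg := Multiplicative.ofAdd n
  Split x y := β (Multiplicative.toAdd x : M) (Multiplicative.toAdd y : M) = 0

section

variable {V : Type u} {Q : Type v} [AddCommGroup V] [Module (ZMod 2) V]
  [AddCommGroup Q] [Module (ZMod 2) Q] {β : V →ₗ[ZMod 2] V →ₗ[ZMod 2] Q}
  (symm : ∀ x y, β x y = β y x) (e : V) (he : ∀ x, β x x = β x e)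
  (A : AllSplit β) [Fintype (LocVal β)]

include symm

lemma beta_L {q : LocVal β} {a : V} (ha : a ∈ A.L q)
    (x : (A.T × LinearMap.ker β) × (∀ q, A.L q)) :
    β a (A.f x) = β a (x.2 q) := by
  have h1 := (A.splits q).orth symm ha.1 (A.mem_W x q)
  rw [map_add] at h1
  exact eq_of_add_eq_zero h1

lemma beta_T (a : A.T) (x : (A.T × LinearMap.ker β) × (∀ q, A.L q)) :
    β (a : V) (A.f x) = β (a : V) x.1.1 := by
  have h := A.beta_f symm ((a, 0), 0) x
  have h1 : A.f ((a, 0), 0) = (a : V) := by
    rw [A.f_apply]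
    simp
  rw [h1] at h
  rw [h]
  simp

include he in
theorem isLocal (q : LocVal β) : (sub β (A.L q) ((A.equiv.symm e).2 q)).IsLocal where
  sq a := by
    apply Multiplicative.toAdd.injective
    exact add_self (E := A.L q) (Multiplicative.toAdd a)
  symm a b h := by
    show β _ _ = 0
    rw [symm]
    exact h
  one a := by
    show β _ ((0 : A.L q) : V) = 0
    rw [ZeroMemClass.coe_zero, map_zero]
  neg a := by
    show β ((Multiplicative.toAdd a : A.L q) : V)
      (((A.equiv.symm e).2 q + (Multiplicative.toAdd a : A.L q) : A.L q) : V) = 0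
    have h1 := beta_L symm A (Multiplicative.toAdd a : A.L q).2 (A.equiv.symm e)
    have h2 : A.f (A.equiv.symm e) = e := A.equiv.apply_symm_apply e
    rw [Submodule.coe_add, map_add, he, ← h1, h2, add_self]
  mul a b c h h' := by
    show β ((Multiplicative.toAdd a : A.L q) : V)
      (((Multiplicative.toAdd b : A.L q) + (Multiplicative.toAdd c : A.L q) : A.L q) : V) = 0
    rw [Submodule.coe_add, map_add]
    have e1 : β ((Multiplicative.toAdd a : A.L q) : V) (Multiplicative.toAdd b : A.L q) = 0 := h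
    have e2 : β ((Multiplicative.toAdd a : A.L q) : V) (Multiplicative.toAdd c : A.L q) = 0 := h'
    rw [e1, e2, add_zero]
  index a b c h h' := by
    show β ((Multiplicative.toAdd a : A.L q) : V)
      (((Multiplicative.toAdd b : A.L q) + (Multiplicative.toAdd c : A.L q) : A.L q) : V) = 0
    rw [Submodule.coe_add, map_add]
    have e1 : β ((Multiplicative.toAdd a : A.L q) : V) (Multiplicative.toAdd b : A.L q) ≠ 0 := h
    have e2 : β ((Multiplicative.toAdd a : A.L q) : V) (Multiplicative.toAdd c : A.L q) ≠ 0 := h'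
    have h3 := (Multiplicative.toAdd a : A.L q).2.1
    rw [(h3 _).resolve_left e1, (h3 _).resolve_left e2, add_self]
  nondeg a ha := by
    have ha0 : ((Multiplicative.toAdd a : A.L q) : V) ≠ 0 := by
      intro h
      apply ha
      apply Multiplicative.toAdd.injective
      exact Subtype.ext h
    have h1 : β ((Multiplicative.toAdd a : A.L q) : V) ≠ 0 := fun h =>
      ha0 (A.eq_zero_of_C h (Multiplicative.toAdd a : A.L q).2.2)
    obtain ⟨y, hy⟩ : ∃ y, β ((Multiplicative.toAdd a : A.L q) : V) y ≠ 0 := by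
      by_contra hcon
      push Not at hcon
      exact h1 (LinearMap.ext hcon)
    obtain ⟨x, rfl⟩ := A.f_surjective y
    rw [beta_L symm A (Multiplicative.toAdd a : A.L q).2] at hy
    exact ⟨Multiplicative.ofAdd (x.2 q), hy⟩

theorem T_nondeg (n : A.T) (t : (sub β A.T n).G) (ht : t ≠ 1) :
    ∃ t', ¬ (sub β A.T n).Split t t' := by
  have ha0 : ((Multiplicative.toAdd t : A.T) : V) ≠ 0 := by
    intro h
    apply ht
    apply Multiplicative.toAdd.injective
    exact Subtype.ext h
  have h1 : β ((Multiplicative.toAdd t : A.T) : V) ≠ 0 := fun h =>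
    ha0 (A.eq_zero_of_C h (Multiplicative.toAdd t : A.T).2.2)
  obtain ⟨y, hy⟩ : ∃ y, β ((Multiplicative.toAdd t : A.T) : V) y ≠ 0 := by
    by_contra hcon
    push Not at hcon
    exact h1 (LinearMap.ext hcon)
  obtain ⟨x, rfl⟩ := A.f_surjective y
  rw [beta_T symm A] at hy
  exact ⟨Multiplicative.ofAdd x.1.1, hy⟩

theorem T_small (n : A.T) (s t : (sub β A.T n).G) (hs : (sub β A.T n).IsSmall s)
    (ht : (sub β A.T n).IsSmall t) : (sub β A.T n).Split s t := by
  by_contra hcon
  set q : Q := β ((Multiplicative.toAdd s : A.T) : V) (Multiplicative.toAdd t : A.T) with hq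
  have hq0 : q ≠ 0 := hcon
  have key : ∀ s t : (sub β A.T n).G, (sub β A.T n).IsSmall s →
      β ((Multiplicative.toAdd s : A.T) : V) (Multiplicative.toAdd t : A.T) = q →
      ((Multiplicative.toAdd s : A.T) : V) ∈ Lq β q := by
    intro s t hs hst y
    obtain ⟨x, rfl⟩ := A.f_surjective y
    rw [beta_T symm A]
    by_cases h : β ((Multiplicative.toAdd s : A.T) : V) x.1.1 = 0
    · exact Or.inl h
    · right
      have h1 := hs (Multiplicative.ofAdd x.1.1) t h (fun h' => hq0 (by rw [← hst]; exact h'))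
      have h2 : β ((Multiplicative.toAdd s : A.T) : V)
        ((x.1.1 + (Multiplicative.toAdd t : A.T) : A.T) : V) = 0 := h1
      rw [Submodule.coe_add, map_add, hst] at h2
      exact eq_of_add_eq_zero h2
  have hsL := key s t hs rfl
  have htL := key t s ht (by rw [symm])
  let q' : LocVal β := ⟨q, hq0, _, hsL, _, htL, rfl⟩
  have h3 := A.mem_WW.1 (Multiplicative.toAdd s : A.T).2.1 q'
  exact ((A.splits q').memW _).1 h3 _ rfl

omit symm [Fintype (LocVal β)] in
/-- The bound for the core. -/
theorem finrank_T_le [Finite V] {ι : Type} [Fintype ι] {u v : ι → V}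
    {B R : Submodule (ZMod 2) V} (symm : ∀ x y, β x y = β y x) (h4 : ∀ r ∈ R, ∀ y, β r y = 0)
    (h5 : ∀ i, ∀ b ∈ B, β (u i) b = 0 ∧ β (v i) b = 0)
    (h6 : ∀ i j, β (u i) (u j) = 0 ∧ β (v i) (v j) = 0) (h7 : ∀ i j, i ≠ j → β (u i) (v j) = 0)
    (h8 : ∀ i, β (u i) (v i) ≠ 0)
    (h9 : Function.Bijective (fun t : B × R × (ι → ZMod 2) × (ι → ZMod 2) =>
        (t.1 : V) + t.2.1 + ∑ i, t.2.2.1 i • u i + ∑ i, t.2.2.2 i • v i)) :
    finrank (ZMod 2) A.T ≤ finrank (ZMod 2) B := by
  classical
  -- the values of `u i` and `v i`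
  have hu : ∀ i (b : B) (r : R) (a c : ι → ZMod 2),
      β (u i) ((b : V) + r + ∑ i, a i • u i + ∑ i, c i • v i) = c i • β (u i) (v i) := by
    intro i b r a c
    rw [map_add, map_add, map_add, (h5 i b b.2).1, symm (u i) (r : V), h4 r r.2, map_sum, map_sum,
      Finset.sum_eq_zero (fun j _ => by rw [map_smul, (h6 i j).1, smul_zero]),
      Finset.sum_eq_single i (fun j _ hj => by rw [map_smul, h7 i j (Ne.symm hj), smul_zero])
        (fun h => absurd (Finset.mem_univ i) h), map_smul]
    simp
  have hv : ∀ i (b : B) (r : R) (a c : ι → ZMod 2),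
      β (v i) ((b : V) + r + ∑ i, a i • u i + ∑ i, c i • v i) = a i • β (u i) (v i) := by
    intro i b r a c
    rw [map_add, map_add, map_add, (h5 i b b.2).2, symm (v i) (r : V), h4 r r.2, map_sum, map_sum,
      Finset.sum_eq_single i (fun j _ hj => by
        rw [map_smul, symm (v i), h7 j i hj, smul_zero])
        (fun h => absurd (Finset.mem_univ i) h),
      Finset.sum_eq_zero (fun j _ => by rw [map_smul, (h6 i j).2, smul_zero]), map_smul,
      symm (v i)]
    simp
  have key2 : ∀ (c : ZMod 2) (q : Q), c • q = 0 ∨ c • q = q := by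
    intro c q
    have key : ∀ c : ZMod 2, c = 0 ∨ c = 1 := by decide
    rcases key c with rfl | rfl
    · left; exact zero_smul _ _
    · right; exact one_smul _ _
  have huL : ∀ i, u i ∈ Lq β (β (u i) (v i)) := by
    intro i y
    obtain ⟨⟨b, r, a, c⟩, rfl⟩ := h9.2 y
    show β (u i) _ = 0 ∨ β (u i) _ = _
    rw [hu]
    exact key2 _ _
  have hvL : ∀ i, v i ∈ Lq β (β (u i) (v i)) := by
    intro i y
    obtain ⟨⟨b, r, a, c⟩, rfl⟩ := h9.2 y
    show β (v i) _ = 0 ∨ β (v i) _ = _
    rw [hv]
    exact key2 _ _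
  have hTle : A.T ≤ B ⊔ R := by
    intro w hw
    obtain ⟨⟨b, r, a, c⟩, rfl⟩ := h9.2 w
    have ha : a = 0 := by
      funext i
      have h10 := A.mem_WW.1 hw.1 ⟨β (u i) (v i), h8 i, _, huL i, _, hvL i, rfl⟩
      have h11 := ((A.splits _).memW _).1 h10 (v i)
      rw [symm] at h11
      have h12 : a i • β (u i) (v i) ≠ β (u i) (v i) := by
        rw [← hv i b r a c]
        exact h11
      have key : ∀ c : ZMod 2, c = 0 ∨ c = 1 := by decide
      rcases key (a i) with h13 | h13
      · exact h13
      · rw [h13, one_smul] at h12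
        exact absurd rfl h12
    have hc : c = 0 := by
      funext i
      have h10 := A.mem_WW.1 hw.1 ⟨β (u i) (v i), h8 i, _, huL i, _, hvL i, rfl⟩
      have h11 := ((A.splits _).memW _).1 h10 (u i)
      rw [symm] at h11
      have h12 : c i • β (u i) (v i) ≠ β (u i) (v i) := by
        rw [← hu i b r a c]
        exact h11
      have key : ∀ c : ZMod 2, c = 0 ∨ c = 1 := by decide
      rcases key (c i) with h13 | h13
      · exact h13
      · rw [h13, one_smul] at h12
        exact absurd rfl h12
    rw [ha, hc]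
    simp only [Pi.zero_apply, zero_smul, Finset.sum_const_zero, add_zero]
    exact Submodule.add_mem_sup b.2 r.2
  have hdisj : A.T ⊓ R = ⊥ := by
    rw [eq_bot_iff]
    rintro x ⟨h1, h2⟩
    rw [Submodule.mem_bot]
    exact A.eq_zero_of_C (LinearMap.ext (h4 x h2)) h1.2
  have e1 := Submodule.finrank_sup_add_finrank_inf_eq A.T R
  rw [hdisj, finrank_bot, add_zero] at e1
  have e2 := Submodule.finrank_mono (sup_le hTle (le_sup_right : R ≤ B ⊔ R))
  have e3 := Submodule.finrank_add_le_finrank_add_finrank B R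
  omega

end

end LocalCore

end Pool.Agent.Hhelper2
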