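import Pool.Agent.Hhelper2.Core
import Pool.Agent.Hhelper2.LocalMain

/-!
# The decomposition of the quaternionic structure of a field, second form
-/

namespace Pool.Agent.Hhelper2

universe u v w

namespace SmallEl

open Module Submodule Codim LocalCore Additive

section

variable {V : Type u} {Q : Type v} [AddCommGroup V] [Module (ZMod 2) V]
  [AddCommGroup Q] [Module (ZMod 2) Q] {β : V →ₗ[ZMod 2] V →ₗ[ZMod 2] Q}

/-- The product decomposition into a core, a totally split factor and the factors of local type. -/
theorem local_iso (symm : ∀ x y, β x y = β y x) (e : V) (A : AllSplit β) [Fintype (LocVal β)] :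
    Nonempty ((str β e).Iso (((sub β A.T (A.equiv.symm e).1.1).prod
      (sub β (LinearMap.ker β) (A.equiv.symm e).1.2)).prod
        (QStr.pi fun q => sub β (A.L q) ((A.equiv.symm e).2 q)))) := by
  refine ⟨⟨?_, ?_, ?_⟩⟩
  · exact
      { toFun := fun x => ((Multiplicative.ofAdd (A.equiv.symm (Multiplicative.toAdd x)).1.1,
            Multiplicative.ofAdd (A.equiv.symm (Multiplicative.toAdd x)).1.2),
            fun q => Multiplicative.ofAdd ((A.equiv.symm (Multiplicative.toAdd x)).2 q))
        invFun := fun y => Multiplicative.ofAdd (A.equiv ((Multiplicative.toAdd y.1.1,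
          Multiplicative.toAdd y.1.2), fun q => Multiplicative.toAdd (y.2 q)))
        left_inv := by
          intro x
          show Multiplicative.ofAdd (A.equiv (A.equiv.symm (Multiplicative.toAdd x))) = x
          rw [LinearEquiv.apply_symm_apply]
          rfl
        right_inv := by
          intro y
          show ((Multiplicative.ofAdd (A.equiv.symm (A.equiv _)).1.1,
            Multiplicative.ofAdd (A.equiv.symm (A.equiv _)).1.2),
            fun q => Multiplicative.ofAdd ((A.equiv.symm (A.equiv _)).2 q)) = y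
          rw [LinearEquiv.symm_apply_apply]
          rfl
        map_mul' := by
          intro x y
          have h : A.equiv.symm (Multiplicative.toAdd (x * y)) =
            A.equiv.symm (Multiplicative.toAdd x) + A.equiv.symm (Multiplicative.toAdd y) := by
            rw [← map_add]
            rfl
          show ((Multiplicative.ofAdd (A.equiv.symm (Multiplicative.toAdd (x * y))).1.1,
            Multiplicative.ofAdd (A.equiv.symm (Multiplicative.toAdd (x * y))).1.2),
            fun q => Multiplicative.ofAdd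
              ((A.equiv.symm (Multiplicative.toAdd (x * y))).2 q)) = _
          rw [h]
          rfl }
  · rfl
  · intro x y
    have h := A.split_iff symm (A.equiv.symm (Multiplicative.toAdd x))
      (A.equiv.symm (Multiplicative.toAdd y))
    have e1 : ∀ z, A.f (A.equiv.symm z) = z := fun z => A.equiv.apply_symm_apply z
    rw [e1, e1] at h
    constructor
    · intro hxy
      obtain ⟨h3, h4⟩ := h.1 hxy
      refine ⟨⟨h3, ?_⟩, h4⟩
      show β ((A.equiv.symm (Multiplicative.toAdd x)).1.2 : V) _ = 0
      rw [LinearMap.mem_ker.1 (A.equiv.symm (Multiplicative.toAdd x)).1.2.2,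
        LinearMap.zero_apply]
    · rintro ⟨⟨h3, -⟩, h4⟩
      exact h.2 ⟨h3, h4⟩

lemma fac_T (symm : ∀ x y, β x y = β y x) (A : AllSplit β) [Fintype (LocVal β)] :
    Fac β A.T := by
  intro y
  obtain ⟨x, rfl⟩ := A.f_surjective y
  exact ⟨x.1.1, fun a => beta_T symm A a x⟩

/-- Small elements in the sense of quaternionic structures. -/
lemma small_eq_one (e : V) (hnd : ∀ x, (∀ y, β x y = 0) → x = 0) (hs : ∀ m q, ¬ Sm β m q)
    (a : (str β e).G) (ha : (str β e).IsSmall a) : a = 1 := by
  by_contra h
  have ha0 : (Multiplicative.toAdd a : V) ≠ 0 := fun h0 => h (Multiplicative.toAdd.injective h0)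
  have hex : ∃ y, β (Multiplicative.toAdd a : V) y ≠ 0 := by
    by_contra hcon
    push Not at hcon
    exact ha0 (hnd _ hcon)
  obtain ⟨y, hy⟩ := hex
  refine hs (Multiplicative.toAdd a) (β (Multiplicative.toAdd a : V) y) ⟨hy, ?_, ⟨y, rfl⟩⟩
  intro x
  by_cases hx : β (Multiplicative.toAdd a : V) x = 0
  · exact Or.inl hx
  · right
    have h1 : β (Multiplicative.toAdd a : V) (x + y) = 0 :=
      ha (Multiplicative.ofAdd x) (Multiplicative.ofAdd y) hx hy
    rw [map_add] at h1
    exact eq_of_add_eq_zero h1

end

/-- The bound for the order of the core. -/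
noncomputable def cbound (s : ℕ) : ℕ :=
  2 ^ ((bnd (s ^ 2) (s ^ 2) 0 + 2 ^ (s ^ 2)) * (s ^ 2 + 1) + 2 * 2 ^ (s ^ 2) + 1)

theorem main_decomp (F : Type u) [Field F] (h2 : (2 : F) ≠ 0) [Finite (SqClass F)] (N : ℕ)
    (hN : ∀ a : SqClass F,
      Nat.card (SqClass F) ≤ N * Nat.card {b : SqClass F // FieldSplit F a b}) :
    ∃ (Q : Type u) (_ : AddCommGroup Q) (_ : Module (ZMod 2) Q) (_ : Finite Q)
      (V' : Type u) (_ : AddCommGroup V') (_ : Module (ZMod 2) V') (_ : Finite V')
      (β' : V' →ₗ[ZMod 2] V' →ₗ[ZMod 2] Q) (e' : V') (κ : Type) (_ : Finite κ)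
      (E : κ → QStr.{u}) (ι : Type u) (_ : Finite ι) (L : ι → QStr.{u}) (R : QStr.{u}),
      Good β' e' ∧ (∀ x, (∀ y, β' x y = 0) → x = 0) ∧ (∀ m q, ¬ Sm β' m q) ∧
      (∀ a, Nat.card (LinearMap.range (β' a)) ≤ N) ∧ (∀ i, IsE Q N (E i)) ∧
      (∀ i, (L i).IsLocal) ∧ (∀ a b, R.Split a b) ∧ (∀ a : R.G, a * a = 1) ∧
      Nonempty ((QStr.ofField F).Iso
        ((((str β' e').prod (QStr.pi E)).prod R).prod (QStr.pi L))) ∧
      ∀ s : ℕ, (∀ a : SqClass F,
        Nat.card (SqClass F) ≤ s * Nat.card {b : SqClass F // FieldSplit F a b}) →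
        Nat.card ((str β' e').prod (QStr.pi E)).G ≤ cbound s := by
  have hfin : Finite (Additive (SqClass F)) := inferInstanceAs (Finite (SqClass F))
  obtain ⟨Q, _, _, _, β, hβ0, hsymm, hcs, hspan, huniv⟩ := exists_univ F h2
  have hG := good_field h2 hβ0 hsymm hcs huniv
  set e : Additive (SqClass F) := Additive.ofMul (sqClass (-1)) with he'
  obtain ⟨C, hC⟩ := Submodule.exists_isCompl (LinearMap.ker β)
  have hex : ∀ q : LocVal β, ∃ W b, Splits β q.1 W b := by
    rintro ⟨q, hq, m, hm, m', hm', hmm⟩
    exact field_splits h2 hβ0 hsymm hcs hq hm hm' hmm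
  choose W b hWb using hex
  let A : AllSplit β := ⟨C, hC, W, b, hWb⟩
  have := Fintype.ofFinite (LocVal β)
  have hFT : Fac β A.T := fac_T hsymm A
  set n : A.T := (A.equiv.symm e).1.1 with hn
  have hGT : Good (res β A.T) n := by
    apply hFT.good hG
    intro a
    have h := beta_T hsymm A a (A.equiv.symm e)
    have e1 : A.f (A.equiv.symm e) = e := A.equiv.apply_symm_apply e
    rw [e1] at h
    exact h
  have hcard : ∀ s : ℕ, (∀ a : SqClass F,
      Nat.card (SqClass F) ≤ s * Nat.card {b : SqClass F // FieldSplit F a b}) →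
      ∀ a, Nat.card (Additive (SqClass F)) ≤ s * Nat.card (LinearMap.ker (β a)) := by
    intro s hs a
    refine (hs (Additive.toMul a)).trans (le_of_eq ?_)
    congr 1
    apply Nat.card_congr
    exact
      { toFun := fun b => ⟨Additive.ofMul b.1, (hβ0 _ _).2 b.2⟩
        invFun := fun b => ⟨Additive.toMul b.1, (hβ0 _ _).1 b.2⟩
        left_inv := fun _ => rfl
        right_inv := fun _ => rfl }
  have hrange : ∀ a, Nat.card (LinearMap.range (β a)) ≤ N := by
    intro a
    have h5 := hcard N hN a
    have h3 : Nat.card (LinearMap.range (β a)) * Nat.card (LinearMap.ker (β a)) =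
        Nat.card (Additive (SqClass F)) := by
      have e1 := Module.natCard_eq_pow_finrank (K := ZMod 2) (V := LinearMap.range (β a))
      have e2 := Module.natCard_eq_pow_finrank (K := ZMod 2) (V := LinearMap.ker (β a))
      have e3 := Module.natCard_eq_pow_finrank (K := ZMod 2) (V := Additive (SqClass F))
      rw [e1, e2, e3, ← pow_add, LinearMap.finrank_range_add_finrank_ker]
    rw [← h3] at h5
    exact Nat.le_of_mul_le_mul_right h5 Nat.card_pos
  obtain ⟨κ, _, V', _, _, _, β', e', E, hG', hnd', hs', hr', hE, ⟨iso⟩⟩ :=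
    core_decomp N _ A.T (res β A.T) n hGT
      (by
        intro x hx
        apply Subtype.ext
        apply A.eq_zero_of_C _ x.2.2
        ext y
        obtain ⟨y', hy'⟩ := hFT y
        rw [hy' x, LinearMap.zero_apply]
        exact hx y')
      (by
        intro r hr u hu v hv h
        have hu' : (u : Additive (SqClass F)) ∈ Lq β r := by
          intro y
          obtain ⟨y', hy'⟩ := hFT y
          rw [hy' u]
          exact hu y'
        have hv' : (v : Additive (SqClass F)) ∈ Lq β r := by
          intro y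
          obtain ⟨y', hy'⟩ := hFT y
          rw [hy' v]
          exact hv y'
        have h1 : (u : Additive (SqClass F)) ∈ A.W ⟨r, hr, u, hu', v, hv', h⟩ :=
          A.mem_WW.1 u.2.1 _
        exact ((A.splits _).memW _).1 h1 v h)
      (by
        intro a
        rw [hFT.range_eq]
        exact hrange a)
      le_rfl
  obtain ⟨iso1⟩ := local_iso hsymm e A
  let iso0 : (QStr.ofField F).Iso (str β e) :=
    { e := MulEquiv.refl _
      map_neg := rfl
      map_split := fun x y => (hβ0 x y).symm }
  refine ⟨Q, inferInstance, inferInstance, inferInstance, V', inferInstance, inferInstance,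
    inferInstance, β', e', κ, inferInstance, E, LocVal β, inferInstance,
    fun q => sub β (A.L q) ((A.equiv.symm e).2 q),
    sub β (LinearMap.ker β) (A.equiv.symm e).1.2, hG', hnd', hs', hr', hE, ?_, ?_, ?_, ?_, ?_⟩
  · exact fun q => isLocal hsymm e hG.he A q
  · intro a b
    show β ((Multiplicative.toAdd a : LinearMap.ker β) : Additive (SqClass F)) _ = 0
    rw [LinearMap.mem_ker.1 (Multiplicative.toAdd a : LinearMap.ker β).2, LinearMap.zero_apply]
  · intro a
    apply Multiplicative.toAdd.injective
    exact add_self (E := LinearMap.ker β) (Multiplicative.toAdd a)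
  · exact ⟨iso0.trans (iso1.trans ((iso.prodMap (QStr.Iso.refl _)).prodMap (QStr.Iso.refl _)))⟩
  · intro s hs
    have h0 : Nat.card ((str β' e').prod (QStr.pi E)).G = Nat.card A.T :=
      Nat.card_congr iso.symm.e.toEquiv
    rw [h0]
    have hk : Module.finrank (ZMod 2) Q ≤ s ^ 2 :=
      finrank_le_sq β hsymm hspan s (hcard s hs)
    have hN := small_span β hsymm hcs hk
    obtain ⟨ι, _, u, v, B, R, h1, h3, h4, h5, h6, h7, h8, h9⟩ :=
      exists_structure hsymm e hG.he hk hN
    have h10 : finrank (ZMod 2) A.T ≤ finrank (ZMod 2) B := by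
      refine finrank_T_le A hsymm h4 h5 h6 h7 ?_ h9
      intro i
      obtain ⟨b, hb, b', hb', h10, h11⟩ := h8 i
      rw [h10]
      exact h11
    show Nat.card A.T ≤ _
    rw [Module.natCard_eq_pow_finrank (K := ZMod 2) (V := A.T)]
    simp only [Nat.card_zmod]
    exact Nat.pow_le_pow_right (by norm_num) (h10.trans h3)

end SmallEl

end Pool.Agent.Hhelper2
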