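import Pool.Agent.Hhelper2.Unique

/-!
# The basic part of a quaternionic structure
-/

namespace Pool.Agent.Hhelper2

universe u

open Finset Classical

namespace QStr

variable {S : QStr.{u}}

/-- `t` is birigid: `t ≠ ± 1`, `D⟨1, - t⟩ = {1, - t}` and `D⟨1, t⟩ = {1, t}`. -/
def Birigid (S : QStr.{u}) (t : S.G) : Prop :=
  t ≠ 1 ∧ t ≠ S.neg ∧ (∀ x, S.Split t x ↔ x = 1 ∨ x = S.neg * t) ∧
    (∀ x, S.Split (S.neg * t) x ↔ x = 1 ∨ x = t)

namespace Axioms

variable (h : S.Axioms)
include h

lemma neg_neg (t : S.G) : S.neg * (S.neg * t) = t := h.mulsq _ _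

lemma mul_eq_one {a b : S.G} (he : a * b = 1) : a = b := by
  rw [← mul_one a, ← h.sq b, ← mul_assoc, he, one_mul]

lemma birigid_neg {t : S.G} (ht : S.Birigid t) : S.Birigid (S.neg * t) := by
  obtain ⟨h1, h2, h3, h4⟩ := ht
  refine ⟨?_, ?_, ?_, ?_⟩
  · intro he
    exact h2 (h.mul_eq_one he).symm
  · intro he
    apply h1
    rwa [mul_eq_left] at he
  · intro x
    rw [h4, h.neg_neg]
  · intro x
    rw [h.neg_neg, h3]

section fin
variable [Fintype S.G]

omit h in
lemma birigid_dg {t : S.G} (ht : S.Birigid t) : dg t ≤ 2 := by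
  have : univ.filter (S.Split t) ⊆ {1, S.neg * t} := by
    intro x hx
    simp only [mem_filter, mem_univ, true_and] at hx
    simpa using (ht.2.2.1 x).1 hx
  exact (card_le_card this).trans card_le_two

/-- If `t` is birigid and `u ≠ ± 1` is not rigid, then `t u` is rigid. -/
lemma rigid_mul {t u : S.G} (ht : S.Birigid t) (hu0 : u ≠ 1) (hu1 : u ≠ S.neg) (hu : 3 ≤ dg u)
    (g : S.G) (hg : S.Split (t * u) g) : g = 1 ∨ g = S.neg * (t * u) := by
  have hut : u ≠ t := by
    rintro rfl
    have := birigid_dg ht
    omega
  have hunt : u ≠ S.neg * t := by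
    rintro rfl
    have := birigid_dg (h.birigid_neg ht)
    omega
  obtain ⟨ht1, ht2, ht3, ht4⟩ := ht
  have htu : ¬ S.Split u t := by
    intro hh
    rcases (ht3 u).1 (h.symm _ _ hh) with h1 | h1
    · exact hu0 h1
    · exact hunt h1
  have hntu : ¬ S.Split u (S.neg * t) := by
    intro hh
    rcases (ht4 u).1 (h.symm _ _ hh) with h1 | h1
    · exact hu0 h1
    · exact hut h1
  have caseB : ∀ g, S.Split (t * u) g → g ≠ 1 → g ≠ S.neg * (t * u) → ∀ v, S.Split u v →
      S.Split (S.neg * t * g) v := by
    intro g hg hg1 hg2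
    have hns : ¬ S.Split t g := by
      intro hh
      rcases (ht3 g).1 hh with h1 | h1
      · exact hg1 h1
      · subst h1
        exact hntu (h.cancel_left hh hg)
    have hl : S.Lk t g u g :=
      ⟨g, by rw [h.sq]; exact h.one _, by rw [h.sq]; exact h.one _, hg⟩
    have hAB : ∀ v, S.Split u v → S.Split g (g * v * t) ∨ S.Split (S.neg * t * g) v := by
      intro v hv
      have hlv : S.Lk t g u (g * v) := h.lk_move hl (by rw [h.mulsq]; exact hv)
      have hlv' : S.Lk t g (g * v) u := h.lk_swap _ _ _ _ hns hlv
      by_cases he : t = g * v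
      · left
        rw [← he, h.sq]; exact h.one _
      · obtain ⟨x, hx1, hx2⟩ := h.lk_common _ _ _ _ _ _ hns (h.lk_self t g) hlv' he
        have hx3 := h.lk_eq _ _ _ _ _ hns (h.lk_self t g) hx1
        rcases (ht3 _).1 hx3 with h1 | h1
        · left
          have hxg : g = x := h.mul_eq_one h1
          subst hxg
          have := h.lk_eq _ _ _ _ _ hns (h.lk_swap _ _ _ _ hns hx2)
            (h.lk_swap _ _ _ _ hns (h.lk_self t g))
          exact this
        · right
          have hxg : x = S.neg * t * g := by
            rw [← h1, mul_comm g x, mul_assoc, h.sq, mul_one]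
          subst hxg
          have h3 : S.Lk t g (S.neg * t * g) t := h.lk_swap _ _ _ _ hns
            (h.lk_move (h.lk_self t g) hx3)
          have h4 := h.lk_eq _ _ _ _ _ hns h3 (h.lk_swap _ _ _ _ hns hx2)
          have h5 := h.neg (S.neg * t * g)
          rw [mul_assoc S.neg t g, h.neg_neg, ← mul_assoc S.neg t g] at h5
          exact h.cancel h5 (by rw [mul_assoc t g v]; exact h4)
    have hA1 : ¬ S.Split g (g * t) := by
      intro hh
      have h1 := h.mul _ _ _ (h.neg g) hh
      rw [mul_assoc, h.mulsq] at h1
      rcases (ht4 g).1 (h.symm _ _ h1) with h2 | h2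
      · exact hg1 h2
      · subst h2
        have h3 := h.mul _ _ _ (h.neg g) (h.symm _ _ hg)
        rw [mul_assoc, h.mulsq] at h3
        rcases (ht3 _).1 h3 with h4 | h4
        · exact hu1 (h.mul_eq_one h4).symm
        · exact hut (mul_left_cancel h4)
    by_contra hcon
    push Not at hcon
    obtain ⟨v0, hv0, hv0B⟩ := hcon
    have hv0A : S.Split g (g * v0 * t) := (hAB v0 hv0).resolve_right hv0B
    have hBone : ∀ v, S.Split u v → S.Split (S.neg * t * g) v → v = 1 := by
      intro v hv hB
      have h1 : S.Split g (g * (v * v0) * t) := by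
        refine (hAB (v * v0) (h.mul _ _ _ hv hv0)).resolve_right fun h2 => hv0B ?_
        exact h.cancel hB h2
      have h2 := h.mul _ _ _ h1 hv0A
      have e : g * (v * v0) * t * (g * v0 * t) = v := by
        calc g * (v * v0) * t * (g * v0 * t) = v * (g * g) * (v0 * v0) * (t * t) := by
              simp only [mul_comm, mul_left_comm]
          _ = v := by rw [h.sq, h.sq, h.sq]; simp
      rw [e] at h2
      have h3 : S.Split (S.neg * t) v := by
        have := h.mul_left hB h2
        rwa [mul_assoc, h.sq, mul_one] at this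
      rcases (ht4 v).1 h3 with h4 | h4
      · exact h4
      · subst h4
        exact absurd hv htu
    have hsub : univ.filter (S.Split u) ⊆ {1, v0} := by
      intro v hv
      simp only [mem_filter, mem_univ, true_and] at hv
      simp only [mem_insert, mem_singleton]
      by_cases hB : S.Split (S.neg * t * g) v
      · exact Or.inl (hBone v hv hB)
      · right
        have hA := (hAB v hv).resolve_right hB
        have hvv := h.mul _ _ _ hv hv0
        by_cases hB' : S.Split (S.neg * t * g) (v * v0)
        · exact h.mul_eq_one (hBone _ hvv hB')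
        · exfalso
          have hA' := (hAB _ hvv).resolve_right hB'
          have h2 := h.mul _ _ _ hA' hA
          have e : g * (v * v0) * t * (g * v * t) = v0 := by
            calc g * (v * v0) * t * (g * v * t) = v0 * (g * g) * (v * v) * (t * t) := by
                  simp only [mul_comm, mul_left_comm]
              _ = v0 := by rw [h.sq, h.sq, h.sq]; simp
          rw [e] at h2
          apply hA1
          have h3 := h.mul _ _ _ h2 hv0A
          have e' : v0 * (g * v0 * t) = g * t := by
            calc v0 * (g * v0 * t) = (v0 * v0) * (g * t) := by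
                  simp only [mul_comm, mul_left_comm]
              _ = g * t := by rw [h.sq, one_mul]
          rwa [e'] at h3
    have : dg u ≤ 2 := (card_le_card hsub).trans card_le_two
    omega
  by_contra hcon
  push Not at hcon
  obtain ⟨hg1, hg2⟩ := hcon
  set k := S.neg * (t * u) * g with hk
  have hk0 : S.Split (t * u) k := h.mul _ _ _ (h.neg _) hg
  have hk1 : k ≠ 1 := by
    intro he
    exact hg2 (h.mul_eq_one he).symm
  have hk2 : k ≠ S.neg * (t * u) := by
    intro he
    apply hg1
    rwa [hk, mul_eq_left] at he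
  have hsub : univ.filter (S.Split u) ⊆ {1} := by
    intro v hv
    simp only [mem_filter, mem_univ, true_and] at hv
    simp only [mem_singleton]
    have h1 := caseB g hg hg1 hg2 v hv
    have h2 := caseB k hk0 hk1 hk2 v hv
    have h3 := h.mul_left (h.mul_left h1 h2) hv
    have e : S.neg * t * g * (S.neg * t * k) * u = S.neg * t := by
      rw [hk]
      calc S.neg * t * g * (S.neg * t * (S.neg * (t * u) * g)) * u
          = (S.neg * t) * (S.neg * S.neg) * (t * t) * (g * g) * (u * u) := by
            simp only [mul_comm, mul_left_comm]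
        _ = S.neg * t := by rw [h.sq, h.sq, h.sq, h.sq]; simp
    rw [e] at h3
    rcases (ht4 v).1 h3 with h4 | h4
    · exact h4
    · subst h4
      exact absurd hv htu
  have : dg u ≤ 1 := (card_le_card hsub).trans (by simp)
  omega

lemma two_le_dg {u : S.G} (hu1 : u ≠ S.neg) : 2 ≤ dg u := by
  have : ({1, S.neg * u} : Finset S.G) ⊆ univ.filter (S.Split u) := by
    intro x hx
    simp only [mem_insert, mem_singleton] at hx
    simp only [mem_filter, mem_univ, true_and]
    rcases hx with rfl | rfl
    · exact h.one _
    · exact h.neg _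
  calc 2 = ({1, S.neg * u} : Finset S.G).card := by
        rw [card_pair]
        intro he
        exact hu1 (h.mul_eq_one he.symm).symm
    _ ≤ _ := card_le_card this

/-- An element `u ≠ -1` with at most two elements in `N(u)` is rigid. -/
lemma rigid_of_dg {u : S.G} (hu1 : u ≠ S.neg) (hu : dg u ≤ 2) (x : S.G) :
    S.Split u x ↔ x = 1 ∨ x = S.neg * u := by
  constructor
  · intro hx
    by_contra hcon
    push Not at hcon
    have : ({1, S.neg * u, x} : Finset S.G) ⊆ univ.filter (S.Split u) := by
      intro y hy
      simp only [mem_insert, mem_singleton] at hy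
      simp only [mem_filter, mem_univ, true_and]
      rcases hy with rfl | rfl | rfl
      · exact h.one _
      · exact h.neg _
      · exact hx
    have h3 : ({1, S.neg * u, x} : Finset S.G).card = 3 := by
      rw [card_eq_three]
      refine ⟨_, _, _, ?_, fun he => hcon.1 he.symm, fun he => hcon.2 he.symm, rfl⟩
      intro he
      exact hu1 (h.mul_eq_one he.symm).symm
    have := card_le_card this
    rw [h3] at this
    exact absurd (this.trans hu) (by norm_num)
  · rintro (rfl | rfl)
    · exact h.one _
    · exact h.neg _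

/-- The product of a birigid and a non-birigid element is birigid. -/
lemma birigid_mul {t u : S.G} (ht : S.Birigid t) (hu : ¬ S.Birigid u) : S.Birigid (t * u) := by
  by_cases hu0 : u = 1
  · subst hu0; rwa [mul_one]
  by_cases hu1 : u = S.neg
  · subst hu1; rw [mul_comm]; exact h.birigid_neg ht
  have hnn : S.neg * u ≠ S.neg := by
    intro he
    exact hu0 (by rwa [mul_eq_left] at he)
  have hn1 : S.neg * u ≠ 1 := by
    intro he
    exact hu1 (h.mul_eq_one he).symm
  -- `u` or `-u` is not rigid
  have hor : 3 ≤ dg u ∨ 3 ≤ dg (S.neg * u) := by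
    by_contra hcon
    push Not at hcon
    apply hu
    refine ⟨hu0, hu1, h.rigid_of_dg hu1 (by omega), ?_⟩
    intro x
    rw [h.rigid_of_dg hnn (by omega), h.neg_neg]
  have hr : (∀ g, S.Split (t * u) g → g = 1 ∨ g = S.neg * (t * u)) ∧
      (∀ g, S.Split (S.neg * (t * u)) g → g = 1 ∨ g = t * u) := by
    rcases hor with h3 | h3
    · refine ⟨h.rigid_mul ht hu0 hu1 h3, ?_⟩
      intro g hg
      rw [← mul_assoc] at hg
      have := h.rigid_mul (h.birigid_neg ht) hu0 hu1 h3 g hg
      rwa [mul_assoc, h.neg_neg] at this
    · have e1 : S.neg * t * (S.neg * u) = t * u := by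
        rw [mul_mul_mul_comm, h.sq, one_mul]
      have e2 : t * (S.neg * u) = S.neg * (t * u) := by rw [mul_left_comm]
      constructor
      · intro g hg
        rw [← e1] at hg
        have := h.rigid_mul (h.birigid_neg ht) hn1 hnn h3 g hg
        rwa [e1] at this
      · intro g hg
        rw [← e2] at hg
        have := h.rigid_mul ht hn1 hnn h3 g hg
        rwa [e2, h.neg_neg] at this
  refine ⟨?_, ?_, ?_, ?_⟩
  · intro he
    apply hu
    rw [← h.mul_eq_one he]; exact ht
  · intro he
    apply hu
    have : S.neg * t = u := by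
      rw [← he, mul_comm t u, mul_assoc, h.sq, mul_one]
    rw [← this]; exact h.birigid_neg ht
  · intro x
    refine ⟨hr.1 x, ?_⟩
    rintro (rfl | rfl)
    · exact h.one _
    · exact h.neg _
  · intro x
    refine ⟨hr.2 x, ?_⟩
    rintro (rfl | rfl)
    · exact h.one _
    · have := h.neg (S.neg * (t * u))
      rwa [h.neg_neg] at this

/-- The basic part: the subgroup of all elements which are not birigid. -/
def B : Subgroup S.G where
  carrier := {u | ¬ S.Birigid u}
  mul_mem' := by
    intro u v hu hv huv
    have h1 := h.birigid_mul huv hv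
    rw [mul_assoc, h.sq, mul_one] at h1
    exact hu h1
  one_mem' := fun h1 => h1.1 rfl
  inv_mem' := by
    intro x hx
    rw [h.inv]; exact hx

lemma mem_B {u : S.G} : u ∈ h.B ↔ ¬ S.Birigid u := Iff.rfl

lemma neg_mem_B : S.neg ∈ h.B := fun h1 => h1.2.1 rfl

end fin
end Axioms
end QStr
end Pool.Agent.Hhelper2
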