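import Pool.Agent.Hhelper2.QStr

/-!
# Iterated group extensions
-/

namespace Pool.Agent.Hhelper2

universe u v

namespace QStr

/-- Functoriality of iterated group extensions. -/
def Iso.extPow {S : QStr.{u}} {T : QStr.{v}} (f : Iso S T) : ∀ m, Iso (S.extPow m) (T.extPow m)
  | 0 => f
  | m + 1 => (Iso.extPow f m).ext

lemma c2_mul : ∀ i j : Multiplicative (ZMod 2), i ≠ 1 → j ≠ 1 → i * j = 1 := by decide

/-- The homomorphism from the group of order two which sends the generator to `t`. -/
def c2Hom {G : Type u} [CommGroup G] (t : G) (ht : t * t = 1) : Multiplicative (ZMod 2) →* G where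
  toFun i := if i = 1 then 1 else t
  map_one' := by simp
  map_mul' i j := by
    by_cases hi : i = 1
    · subst hi; simp
    · by_cases hj : j = 1
      · subst hj; simp
      · rw [c2_mul i j hi hj]; simp [hi, hj, ht]

/-- If all elements outside `H` are rigid, the structure is an iterated group extension of its
restriction to `H`. -/
theorem exists_extPow : ∀ (n : ℕ) (S : QStr.{u}) (_ : Finite S.G) (_ : Nat.card S.G = n)
    (_ : ∀ a : S.G, a * a = 1) (_ : ∀ a b, S.Split a b → S.Split b a)
    (_ : ∀ a, S.Split a 1) (H : Subgroup S.G) (hn : S.neg ∈ H)
    (_ : ∀ t ∉ H, ∀ x, S.Split t x ↔ x = 1 ∨ x = S.neg * t),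
    ∃ m, Nonempty (S.Iso ((S.restrict H hn).extPow m)) := by
  intro n
  induction n using Nat.strong_induction_on with
  | _ n ih =>
  intro S hfin hcard hsq hsymm hone H hn hH
  by_cases htop : H = ⊤
  · refine ⟨0, ⟨?_⟩⟩
    subst htop
    exact
      { e := Subgroup.topEquiv.symm
        map_neg := rfl
        map_split := fun a b => Iff.rfl }
  · obtain ⟨t, ht⟩ : ∃ t, t ∉ H := by
      by_contra hcon
      push Not at hcon
      exact htop (eq_top_iff.2 fun x _ => hcon x)
    have hinv : ∀ a : S.G, a⁻¹ = a := fun a => inv_eq_of_mul_eq_one_left (hsq a)
    -- a maximal subgroup containing `H` but not `t`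
    have hfs : {K : Subgroup S.G | H ≤ K ∧ t ∉ K}.Finite := Set.toFinite _
    obtain ⟨K, hHK, hK⟩ := hfs.exists_le_maximal (a := H) ⟨le_rfl, ht⟩
    have htK : t ∉ K := hK.prop.2
    have hdich : ∀ g, g ∈ K ∨ t * g ∈ K := by
      intro g
      by_contra hcon
      push Not at hcon
      let K' : Subgroup S.G :=
        { carrier := {x | x ∈ K ∨ g * x ∈ K}
          mul_mem' := by
            rintro x y (hx | hx) (hy | hy)
            · exact Or.inl (K.mul_mem hx hy)
            · exact Or.inr (by rw [mul_left_comm]; exact K.mul_mem hx hy)
            · exact Or.inr (by rw [← mul_assoc]; exact K.mul_mem hx hy)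
            · left
              have := K.mul_mem hx hy
              rwa [mul_mul_mul_comm, hsq, one_mul] at this
          one_mem' := Or.inl K.one_mem
          inv_mem' := by
            intro x hx
            rw [hinv]; exact hx }
      have hKK' : K ≤ K' := fun x hx => Or.inl hx
      have hgK' : g ∈ K' := Or.inr (by rw [hsq]; exact K.one_mem)
      have : t ∈ K' := by
        by_contra htK'
        exact hcon.1 (hK.le_of_ge ⟨hHK.trans hKK', htK'⟩ hKK' hgK')
      rcases this with h1 | h1
      · exact htK h1
      · exact hcon.2 (by rw [mul_comm]; exact h1)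
    have hnK : S.neg ∈ K := hHK hn
    -- the isomorphism with the group extension
    let φ : K × Multiplicative (ZMod 2) →* S.G := MonoidHom.coprod K.subtype (c2Hom t (hsq t))
    have hφ : ∀ (a : K) (i : Multiplicative (ZMod 2)), φ (a, i) = a * (if i = 1 then 1 else t) :=
      fun a i => rfl
    have hnot : ∀ a : K, (a : S.G) * t ∉ K := by
      intro a ha
      exact htK ((K.mul_mem_cancel_left a.2).1 ha)
    have hbij : Function.Bijective φ := by
      constructor
      · rw [injective_iff_map_eq_one]
        rintro ⟨a, i⟩ he
        rw [hφ] at he
        by_cases hi : i = 1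
        · subst hi
          rw [if_pos rfl, mul_one] at he
          rw [Prod.mk_eq_one]
          exact ⟨Subtype.ext he, rfl⟩
        · rw [if_neg hi] at he
          exact absurd (he ▸ K.one_mem) (hnot a)
      · intro g
        rcases hdich g with hg | hg
        · exact ⟨(⟨g, hg⟩, 1), by rw [hφ]; simp⟩
        · refine ⟨(⟨t * g, hg⟩, Multiplicative.ofAdd 1), ?_⟩
          rw [hφ, if_neg (by decide)]
          show t * g * t = g
          rw [mul_comm t g, mul_assoc, hsq, mul_one]
    have key : ∀ (a b : K) (i j : Multiplicative (ZMod 2)),
        (i = 1 ∧ j = 1 ∧ S.Split (a : S.G) (b : S.G)) ∨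
          (a, i) = (1 : K × Multiplicative (ZMod 2)) ∨
          (b, j) = (1 : K × Multiplicative (ZMod 2)) ∨
          (i ≠ 1 ∧ j ≠ 1 ∧ b = (⟨S.neg, hnK⟩ : K) * a) ↔
        S.Split (φ (a, i)) (φ (b, j)) := by
      intro a b i j
      have hrig : ∀ (c : K) x, S.Split (c * t) x ↔ x = 1 ∨ x = S.neg * (c * t) :=
        fun c => hH _ fun hh => hnot c (hHK hh)
      rw [hφ, hφ, Prod.mk_eq_one, Prod.mk_eq_one]
      by_cases hi : i = 1
      · by_cases hj : j = 1
        · subst hi hj
          simp only [ne_eq, not_true_eq_false, false_and, or_false, true_and, if_true, mul_one,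
            and_true]
          constructor
          · rintro (h1 | rfl | rfl)
            · exact h1
            · exact hsymm _ _ (hone _)
            · exact hone _
          · exact fun h1 => Or.inl h1
        · subst hi
          simp only [ne_eq, not_true_eq_false, false_and, or_false, true_and, if_true, mul_one,
            and_true, hj, and_false, false_or, if_false]
          constructor
          · rintro rfl
            exact hsymm _ _ (hone _)
          · intro h1
            rcases (hrig b a).1 (hsymm _ _ h1) with h2 | h2
            · exact Subtype.ext h2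
            · exfalso
              apply hnot (⟨S.neg, hnK⟩ * b)
              show S.neg * (b : S.G) * t ∈ K
              rw [mul_assoc, ← h2]; exact a.2
      · by_cases hj : j = 1
        · subst hj
          simp only [ne_eq, not_true_eq_false, false_and, or_false, if_true, mul_one,
            and_true, hi, and_false, false_or, if_false]
          constructor
          · rintro rfl
            exact hone _
          · intro h1
            rcases (hrig a b).1 h1 with h2 | h2
            · exact Subtype.ext h2
            · exfalso
              apply hnot (⟨S.neg, hnK⟩ * a)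
              show S.neg * (a : S.G) * t ∈ K
              rw [mul_assoc, ← h2]; exact b.2
        · simp only [ne_eq, hi, hj, not_false_eq_true, true_and, false_and, and_false, false_or,
            if_false]
          rw [hrig a]
          constructor
          · rintro rfl
            right
            show S.neg * (a : S.G) * t = _
            rw [mul_assoc]
          · rintro (h1 | h1)
            · exact absurd (h1 ▸ K.one_mem) (hnot b)
            · apply Subtype.ext
              show (b : S.G) = S.neg * a
              rw [← mul_assoc] at h1
              exact mul_right_cancel h1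
    have iso1 : S.Iso (S.restrict K hnK).ext := by
      refine Iso.symm
        { e := MulEquiv.ofBijective φ hbij
          map_neg := ?_
          map_split := ?_ }
      · show φ (⟨S.neg, hnK⟩, 1) = S.neg
        rw [hφ]; simp
      · rintro ⟨a, i⟩ ⟨b, j⟩
        exact key a b i j
    -- induction hypothesis for `K`
    have hlt : Nat.card K < n := by
      rw [← hcard]
      have h1 : K ≠ ⊤ := by
        rintro rfl
        exact htK (Subgroup.mem_top t)
      refine lt_of_le_of_ne (Subgroup.card_le_card_group K) fun he => h1 ?_
      exact Subgroup.eq_top_of_card_eq K he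
    obtain ⟨m, ⟨f⟩⟩ := ih (Nat.card K) hlt (S.restrict K hnK) (inferInstanceAs (Finite K)) rfl
      (fun a => Subtype.ext (hsq a.1)) (fun a b => hsymm a.1 b.1) (fun a => hone a.1)
      (H.subgroupOf K) (by
        show (⟨S.neg, hnK⟩ : K) ∈ H.subgroupOf K
        rw [Subgroup.mem_subgroupOf]; exact hn)
      (by
        intro s hs x
        have hs' : (s : K).1 ∉ H := hs
        have := hH s.1 hs' x.1
        constructor
        · intro h1
          rcases this.1 h1 with h2 | h2
          · exact Or.inl (Subtype.ext h2)
          · exact Or.inr (Subtype.ext h2)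
        · rintro (rfl | rfl)
          · exact this.2 (Or.inl rfl)
          · exact this.2 (Or.inr rfl))
    refine ⟨m + 1, ⟨?_⟩⟩
    refine iso1.trans (Iso.ext (f.trans (Iso.extPow ?_ m)))
    exact
      { e := Subgroup.subgroupOfEquivOfLe hHK
        map_neg := rfl
        map_split := fun a b => Iff.rfl }

end QStr

end Pool.Agent.Hhelper2
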