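import Pool.Agent.Hhelper2.Assemble

/-!
# Symbols all of whose value groups have order at most four
-/

namespace Pool.Agent.Hhelper2

universe u v w

namespace SmallEl

open Module Submodule Codim

section ext

variable {V : Type u} {Q : Type v} [AddCommGroup V] [Module (ZMod 2) V]
  [AddCommGroup Q] [Module (ZMod 2) Q] {β : V →ₗ[ZMod 2] V →ₗ[ZMod 2] Q}

/-- A criterion for group extensions. -/
theorem ext_iso (symm : ∀ x y, β x y = β y x) (e : V) (he : ∀ x, β x x = β x e)
    (f : Dual (ZMod 2) V) (t : V) (ht : f t = 1) (hfe : f e = 0)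
    (h1 : ∀ s, f s = 0 → s ≠ 0 → ∀ y, β s y = 0 → f y = 0)
    (h2 : ∀ a, f a = 1 → ∀ y, β a y = 0 → y = 0 ∨ y = e + a) :
    Nonempty ((str β e).Iso (str (res β (LinearMap.ker f)) ⟨e, hfe⟩).ext) := by
  have key : ∀ i : ZMod 2, i = 0 ∨ i = 1 := by decide
  have hS : ∀ s : LinearMap.ker f, f (s : V) = 0 := fun s => s.2
  let g : Multiplicative (LinearMap.ker f) × Multiplicative (ZMod 2) →* Multiplicative V :=
    { toFun := fun x => Multiplicative.ofAdd (((Multiplicative.toAdd x.1 : LinearMap.ker f) : V) +
        (Multiplicative.toAdd x.2 : ZMod 2) • t)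
      map_one' := by
        apply Multiplicative.toAdd.injective
        show ((0 : LinearMap.ker f) : V) + (0 : ZMod 2) • t = 0
        rw [zero_smul, add_zero, ZeroMemClass.coe_zero]
      map_mul' := by
        intro x y
        apply Multiplicative.toAdd.injective
        show (((Multiplicative.toAdd x.1 : LinearMap.ker f) +
          (Multiplicative.toAdd y.1 : LinearMap.ker f) : LinearMap.ker f) : V) +
            ((Multiplicative.toAdd x.2 : ZMod 2) + (Multiplicative.toAdd y.2 : ZMod 2)) • t =
          ((Multiplicative.toAdd x.1 : LinearMap.ker f) +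
            (Multiplicative.toAdd x.2 : ZMod 2) • t) +
          ((Multiplicative.toAdd y.1 : LinearMap.ker f) + (Multiplicative.toAdd y.2 : ZMod 2) • t)
        rw [Submodule.coe_add, add_smul, add_add_add_comm] }
  have hg : Function.Bijective g := by
    constructor
    · rw [injective_iff_map_eq_one]
      rintro ⟨s, i⟩ h
      have h3 : ((Multiplicative.toAdd s : LinearMap.ker f) : V) +
        (Multiplicative.toAdd i : ZMod 2) • t = 0 := congrArg (fun x : Multiplicative V =>
          (Multiplicative.toAdd x : V)) h
      have h4 : (Multiplicative.toAdd i : ZMod 2) = 0 := by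
        have := congrArg f h3
        rw [map_add, map_smul, ht, map_zero, hS, zero_add, smul_eq_mul, mul_one] at this
        exact this
      rw [h4, zero_smul, add_zero] at h3
      exact Prod.ext (Multiplicative.toAdd.injective (Subtype.ext h3))
        (Multiplicative.toAdd.injective h4)
    · intro x
      rcases key (f (Multiplicative.toAdd x)) with h | h
      · refine ⟨(Multiplicative.ofAdd ⟨Multiplicative.toAdd x, h⟩, 1), ?_⟩
        apply Multiplicative.toAdd.injective
        show (Multiplicative.toAdd x : V) + (0 : ZMod 2) • t = _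
        rw [zero_smul, add_zero]
      · refine ⟨(Multiplicative.ofAdd ⟨Multiplicative.toAdd x + t, ?_⟩,
          Multiplicative.ofAdd 1), ?_⟩
        · show f _ = 0
          rw [map_add, h, ht]
          decide
        · apply Multiplicative.toAdd.injective
          show (Multiplicative.toAdd x : V) + t + (1 : ZMod 2) • t = _
          rw [one_smul, add_self_cancel]
  have r01 : ∀ s s' : LinearMap.ker f, β (s : V) ((s' : V) + t) = 0 → s = 0 := by
    intro s s' h
    by_contra hs
    have h3 := h1 s (hS s) (fun h0 => hs (Subtype.ext h0)) _ h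
    rw [map_add, hS s', ht, zero_add] at h3
    exact one_ne_zero h3
  have r11 : ∀ s s' : LinearMap.ker f, β ((s : V) + t) ((s' : V) + t) = 0 ↔ (s' : V) = e + s := by
    intro s s'
    have hf1 : f ((s : V) + t) = 1 := by rw [map_add, hS s, ht, zero_add]
    constructor
    · intro h
      rcases h2 _ hf1 _ h with h3 | h3
      · exfalso
        have h4 : f ((s' : V) + t) = 1 := by rw [map_add, hS s', ht, zero_add]
        rw [h3, map_zero] at h4
        exact zero_ne_one h4
      · linear_combination (norm := ((try simp only [map_add, LinearMap.add_apply, map_smul, LinearMap.smul_apply]); match_scalars <;> (first | rfl | decide))) ((1 : ZMod 2) • (h3))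
    · intro h
      have h3 := he ((s : V) + t)
      rw [h]
      linear_combination (norm := ((try simp only [map_add, LinearMap.add_apply, map_smul, LinearMap.smul_apply]); match_scalars <;> (first | rfl | decide))) ((1 : ZMod 2) • (h3))
  let F : ((str (res β (LinearMap.ker f)) ⟨e, hfe⟩).ext).Iso (str β e) :=
    { e := MulEquiv.ofBijective g hg
      map_neg := by
        apply Multiplicative.toAdd.injective
        show e + (0 : ZMod 2) • t = e
        rw [zero_smul, add_zero]
      map_split := by
        have key' : ∀ i : Multiplicative (ZMod 2), i = 1 ∨ i = Multiplicative.ofAdd 1 := by decide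
        have hne : (Multiplicative.ofAdd 1 : Multiplicative (ZMod 2)) ≠ 1 := by decide
        rintro ⟨s, i⟩ ⟨s', i'⟩
        have hL : (str β e).Split (g (s, i)) (g (s', i')) ↔
          β (((Multiplicative.toAdd s : LinearMap.ker f) : V) +
              (Multiplicative.toAdd i : ZMod 2) • t)
            (((Multiplicative.toAdd s' : LinearMap.ker f) : V) +
              (Multiplicative.toAdd i' : ZMod 2) • t) = 0 := Iff.rfl
        show _ ↔ (str β e).Split (g (s, i)) (g (s', i'))
        rw [hL]
        show ((i = 1 ∧ i' = 1 ∧ β (Multiplicative.toAdd s : LinearMap.ker f)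
          (Multiplicative.toAdd s' : LinearMap.ker f) = 0) ∨ (s, i) = 1 ∨ (s', i') = 1 ∨
            (i ≠ 1 ∧ i' ≠ 1 ∧ s' = (str (res β (LinearMap.ker f)) ⟨e, hfe⟩).neg * s)) ↔ _
        rcases key' i with rfl | rfl <;> rcases key' i' with rfl | rfl
        · have e1 : (Multiplicative.toAdd (1 : Multiplicative (ZMod 2)) : ZMod 2) • t = 0 :=
            zero_smul _ _
          rw [e1, add_zero, add_zero]
          constructor
          · rintro (h | h | h | h)
            · exact h.2.2
            · have h3 : s = 1 := congrArg Prod.fst h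
              rw [h3]
              show β ((0 : LinearMap.ker f) : V) _ = 0
              rw [ZeroMemClass.coe_zero, map_zero, LinearMap.zero_apply]
            · have h3 : s' = 1 := congrArg Prod.fst h
              rw [h3]
              show β _ ((0 : LinearMap.ker f) : V) = 0
              rw [ZeroMemClass.coe_zero, map_zero]
            · exact absurd rfl h.1
          · intro h
            exact Or.inl ⟨rfl, rfl, h⟩
        · have e1 : (Multiplicative.toAdd (1 : Multiplicative (ZMod 2)) : ZMod 2) • t = 0 :=
            zero_smul _ _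
          have e2 : (Multiplicative.toAdd (Multiplicative.ofAdd 1 : Multiplicative (ZMod 2)) :
            ZMod 2) • t = t := one_smul _ _
          rw [e1, e2, add_zero]
          constructor
          · rintro (h | h | h | h)
            · exact absurd h.2.1 hne
            · have h3 : s = 1 := congrArg Prod.fst h
              rw [h3]
              show β ((0 : LinearMap.ker f) : V) _ = 0
              rw [ZeroMemClass.coe_zero, map_zero, LinearMap.zero_apply]
            · exact absurd (congrArg Prod.snd h) hne
            · exact absurd rfl h.1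
          · intro h
            have h3 : s = 1 := r01 _ _ h
            right; left
            rw [h3]
            rfl
        · have e1 : (Multiplicative.toAdd (1 : Multiplicative (ZMod 2)) : ZMod 2) • t = 0 :=
            zero_smul _ _
          have e2 : (Multiplicative.toAdd (Multiplicative.ofAdd 1 : Multiplicative (ZMod 2)) :
            ZMod 2) • t = t := one_smul _ _
          rw [e1, e2, add_zero]
          constructor
          · rintro (h | h | h | h)
            · exact absurd h.1 hne
            · exact absurd (congrArg Prod.snd h) hne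
            · have h3 : s' = 1 := congrArg Prod.fst h
              rw [h3]
              show β _ ((0 : LinearMap.ker f) : V) = 0
              rw [ZeroMemClass.coe_zero, map_zero]
            · exact absurd rfl h.2.1
          · intro h
            rw [symm] at h
            have h3 : s' = 1 := r01 _ _ h
            right; right; left
            rw [h3]
            rfl
        · have e2 : (Multiplicative.toAdd (Multiplicative.ofAdd 1 : Multiplicative (ZMod 2)) :
            ZMod 2) • t = t := one_smul _ _
          rw [e2, r11]
          constructor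
          · rintro (h | h | h | h)
            · exact absurd h.1 hne
            · exact absurd (congrArg Prod.snd h) hne
            · exact absurd (congrArg Prod.snd h) hne
            · rw [h.2.2]
              rfl
          · intro h
            right; right; right
            exact ⟨hne, hne, Multiplicative.toAdd.injective (Subtype.ext h)⟩ }
  exact ⟨F.symm⟩

end ext

section count

variable {V : Type u} {Q : Type v} [AddCommGroup V] [Module (ZMod 2) V] [Finite V]
  [AddCommGroup Q] [Module (ZMod 2) Q] {β : V →ₗ[ZMod 2] V →ₗ[ZMod 2] Q} {e : V}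

omit [Finite V] in
/-- If `x` and `y` have the same values, then the kernels of `x + y` and `y` generate everything. -/
lemma same_range (P : Pre β e) {x y : V}
    (h : LinearMap.range (β x) = LinearMap.range (β y)) (z : V) :
    ∃ z₁ z₂, β (x + y) z₁ = 0 ∧ β y z₂ = 0 ∧ z₁ + z₂ = z := by
  have h1 : β y z ∈ LinearMap.range (β x) := by
    rw [h]
    exact ⟨z, rfl⟩
  obtain ⟨z', hz'⟩ := h1
  obtain ⟨v, h2, h3⟩ := P.cs' hz' rfl
  exact ⟨v, v + z, by linear_combination (norm := ((try simp only [map_add, LinearMap.add_apply, map_smul, LinearMap.smul_apply]); match_scalars <;> (first | rfl | decide))) ((1 : ZMod 2) • (h2) + (1 : ZMod 2) • (h3)), by linear_combination (norm := ((try simp only [map_add, LinearMap.add_apply, map_smul, LinearMap.smul_apply]); match_scalars <;> (first | rfl | decide))) ((1 : ZMod 2) • (h3)), by linear_combination (norm := ((try simp only [map_add, LinearMap.add_apply, map_smul, LinearMap.smul_apply]); match_scalars <;> (first | rfl | decide))) ((1 : ZMod 2) • ((rfl : v = v)))⟩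

lemma range_eq_of_le (h2 : ∀ x : V, x ≠ 0 → finrank (ZMod 2) (LinearMap.range (β x)) = 2)
    {x y : V} (hx : x ≠ 0) (hy : y ≠ 0)
    (h : LinearMap.range (β x) ≤ LinearMap.range (β y)) :
    LinearMap.range (β x) = LinearMap.range (β y) :=
  Submodule.eq_of_le_of_finrank_eq h ((h2 x hx).trans (h2 y hy).symm)

lemma same_range_add (P : Pre β e)
    (h2 : ∀ x : V, x ≠ 0 → finrank (ZMod 2) (LinearMap.range (β x)) = 2)
    {x y : V} (hx : x ≠ 0) (hxy : x ≠ y)
    (h : LinearMap.range (β x) = LinearMap.range (β y)) :
    LinearMap.range (β (x + y)) = LinearMap.range (β y) := by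
  rw [← h]
  apply range_eq_of_le h2 (fun h0 => hxy (eq_of_add_eq_zero h0)) hx
  rintro _ ⟨z, rfl⟩
  obtain ⟨z₁, z₂, h3, h4, rfl⟩ := same_range P h z
  refine ⟨z₂, ?_⟩
  linear_combination (norm := ((try simp only [map_add, LinearMap.add_apply, map_smul, LinearMap.smul_apply]); match_scalars <;> (first | rfl | decide))) ((1 : ZMod 2) • (h3) + (1 : ZMod 2) • (h4))

/-- The elements with the same values as `y`. -/
def Xs (P : Pre β e) (h2 : ∀ x : V, x ≠ 0 → finrank (ZMod 2) (LinearMap.range (β x)) = 2)
    (y : V) : Submodule (ZMod 2) V where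
  carrier := {x | x = 0 ∨ LinearMap.range (β x) = LinearMap.range (β y)}
  add_mem' := by
    rintro a b (rfl | ha) (rfl | hb)
    · left; rw [add_zero]
    · right; rw [zero_add]; exact hb
    · right; rw [add_zero]; exact ha
    · by_cases hab : a = b
      · left; rw [hab]; exact add_self b
      by_cases ha0 : a = 0
      · right; rw [ha0, zero_add]; exact hb
      · right
        rw [same_range_add P h2 ha0 hab (ha.trans hb.symm)]
        exact hb
  zero_mem' := Or.inl rfl
  smul_mem' := by
    intro c a ha
    have key : ∀ c : ZMod 2, c = 0 ∨ c = 1 := by decide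
    rcases key c with rfl | rfl
    · left; exact zero_smul _ _
    · rw [one_smul]; exact ha

/-- If two different elements of `X` are given, their kernels generate everything. -/
lemma ker_sup (P : Pre β e) (h2 : ∀ x : V, x ≠ 0 → finrank (ZMod 2) (LinearMap.range (β x)) = 2)
    {x y : V} (hx : x ≠ 0) (hxy : x ≠ y)
    (h : LinearMap.range (β x) = LinearMap.range (β y)) :
    LinearMap.ker (β x) ⊔ LinearMap.ker (β y) = ⊤ := by
  rw [eq_top_iff]
  intro z _
  have h3 := same_range_add P h2 hx hxy h
  obtain ⟨z₁, z₂, h4, h5, rfl⟩ := same_range P h3 z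
  rw [add_self_cancel] at h4
  exact Submodule.add_mem_sup h4 h5

/-- The dimension is at most three. -/
theorem finrank_le_three [Finite Q] (P : Pre β e)
    (h2 : ∀ x : V, x ≠ 0 → finrank (ZMod 2) (LinearMap.range (β x)) = 2) :
    finrank (ZMod 2) V ≤ 3 := by
  classical
  by_contra hcon
  push Not at hcon
  obtain ⟨k, hk⟩ : ∃ k, finrank (ZMod 2) V = k + 4 := ⟨finrank (ZMod 2) V - 4, by omega⟩
  have := Fintype.ofFinite V
  have hcard : ∀ (M : Submodule (ZMod 2) V), Nat.card M = 2 ^ finrank (ZMod 2) M := by
    intro M
    have := Module.natCard_eq_pow_finrank (K := ZMod 2) (V := M)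
    rwa [Nat.card_zmod] at this
  have hcV : Fintype.card V = 16 * 2 ^ k := by
    have := Module.natCard_eq_pow_finrank (K := ZMod 2) (V := V)
    rw [Nat.card_zmod, hk, Nat.card_eq_fintype_card] at this
    rw [this, pow_add]
    ring
  have hker : ∀ x : V, x ≠ 0 → finrank (ZMod 2) (LinearMap.ker (β x)) = k + 2 := by
    intro x hx
    have h3 := LinearMap.finrank_range_add_finrank_ker (β x)
    rw [h2 x hx, hk] at h3
    omega
  obtain ⟨y, hy⟩ : ∃ y : V, y ≠ 0 := by
    have : Nontrivial V := by
      rw [← Module.finrank_pos_iff (R := ZMod 2)]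
      omega
    exact exists_ne 0
  -- intersections of kernels
  set I : V → ℕ := fun x => Nat.card (LinearMap.ker (β x) ⊓ LinearMap.ker (β y) :
    Submodule (ZMod 2) V) with hI
  have hIy : I y = 4 * 2 ^ k := by
    show Nat.card (LinearMap.ker (β y) ⊓ LinearMap.ker (β y) : Submodule (ZMod 2) V) = _
    rw [inf_idem, hcard, hker y hy, pow_add]
    ring
  have hdim : ∀ x, x ≠ 0 → finrank (ZMod 2) (LinearMap.ker (β x) ⊔ LinearMap.ker (β y) :
      Submodule (ZMod 2) V) + finrank (ZMod 2) (LinearMap.ker (β x) ⊓ LinearMap.ker (β y) :
      Submodule (ZMod 2) V) = 2 * k + 4 := by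
    intro x hx
    rw [Submodule.finrank_sup_add_finrank_inf_eq, hker x hx, hker y hy]
    ring
  have hIX : ∀ x, x ≠ 0 → x ≠ y → LinearMap.range (β x) = LinearMap.range (β y) →
      I x = 2 ^ k := by
    intro x hx hxy h
    show Nat.card (LinearMap.ker (β x) ⊓ LinearMap.ker (β y) : Submodule (ZMod 2) V) = _
    rw [hcard]
    congr 1
    have h3 := hdim x hx
    rw [ker_sup P h2 hx hxy h, finrank_top, hk] at h3
    omega
  have hIle : ∀ x q, x ≠ 0 → x ≠ y → q ≠ 0 → (∃ z, β x z = q) → (∃ z, β y z = q) →
      I x ≤ 2 * 2 ^ k := by
    rintro x q hx hxy hq ⟨z₁, h3⟩ ⟨z₂, h4⟩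
    obtain ⟨z, h5, h6⟩ := P.cs' h3 h4
    show Nat.card (LinearMap.ker (β x) ⊓ LinearMap.ker (β y) : Submodule (ZMod 2) V) ≤ _
    rw [hcard, ← pow_succ']
    apply Nat.pow_le_pow_right (by norm_num)
    have hxy0 : x + y ≠ 0 := fun h0 => hxy (eq_of_add_eq_zero h0)
    have h7 : (LinearMap.ker (β x) ⊓ LinearMap.ker (β y) : Submodule (ZMod 2) V) <
        LinearMap.ker (β (x + y)) := by
      rw [SetLike.lt_iff_le_and_exists]
      constructor
      · rintro v ⟨h8, h9⟩
        have h8' : β x v = 0 := h8
        have h9' : β y v = 0 := h9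
        show β (x + y) v = 0
        linear_combination (norm := ((try simp only [map_add, LinearMap.add_apply, map_smul, LinearMap.smul_apply]); match_scalars <;> (first | rfl | decide))) ((1 : ZMod 2) • (h8') + (1 : ZMod 2) • (h9'))
      · refine ⟨z, ?_, ?_⟩
        · show β (x + y) z = 0
          linear_combination (norm := ((try simp only [map_add, LinearMap.add_apply, map_smul, LinearMap.smul_apply]); match_scalars <;> (first | rfl | decide))) ((1 : ZMod 2) • (h5) + (1 : ZMod 2) • (h6))
        · rintro ⟨h8, -⟩
          have h8' : β x z = 0 := h8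
          exact hq (h5.symm.trans h8')
    have h8 := Submodule.finrank_lt_finrank_of_lt h7
    rw [hker _ hxy0] at h8
    omega
  -- counting the pairs with value `q`
  have hcos : ∀ (x : V) (q : Q) (z₀ : V), β x z₀ = q →
      (Finset.univ.filter (fun z => β x z = q)).card = Nat.card (LinearMap.ker (β x)) := by
    intro x q z₀ h0
    rw [← Fintype.card_coe, ← Nat.card_eq_fintype_card]
    apply Nat.card_congr
    exact
      { toFun := fun z => ⟨z.1 + z₀, by
          have hz := (Finset.mem_filter.1 z.2).2
          show β x (z.1 + z₀) = 0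
          linear_combination (norm := ((try simp only [map_add, LinearMap.add_apply, map_smul, LinearMap.smul_apply]); match_scalars <;> (first | rfl | decide))) ((1 : ZMod 2) • (hz) + (1 : ZMod 2) • (h0))⟩
        invFun := fun z => ⟨z.1 + z₀, by
          rw [Finset.mem_filter]
          refine ⟨Finset.mem_univ _, ?_⟩
          have hz : β x z.1 = 0 := z.2
          linear_combination (norm := ((try simp only [map_add, LinearMap.add_apply, map_smul, LinearMap.smul_apply]); match_scalars <;> (first | rfl | decide))) ((1 : ZMod 2) • (hz) + (1 : ZMod 2) • (h0))⟩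
        left_inv := fun z => Subtype.ext (add_self_cancel _ _)
        right_inv := fun z => Subtype.ext (add_self_cancel _ _) }
  have hcount : ∀ q, q ≠ 0 → (∃ z, β y z = q) →
      ∑ x ∈ Finset.univ.filter (fun x => ∃ z, β x z = q), I x = 16 * 2 ^ k * 2 ^ k := by
    rintro q hq ⟨z₀, hz₀⟩
    let r : V → V → Prop := fun z x => β y z = q ∧ β x z = q
    have hdc := Finset.sum_card_bipartiteAbove_eq_sum_card_bipartiteBelow
      (s := (Finset.univ : Finset V)) (t := (Finset.univ : Finset V)) r
    have hA : ∀ z, (Finset.bipartiteAbove r Finset.univ z).card =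
        if β y z = q then 4 * 2 ^ k else 0 := by
      intro z
      by_cases h : β y z = q
      · rw [if_pos h]
        have hz0 : z ≠ 0 := by
          rintro rfl
          rw [map_zero] at h
          exact hq h.symm
        have e1 : Finset.bipartiteAbove r Finset.univ z =
            Finset.univ.filter (fun x => β z x = q) := by
          ext x
          rw [Finset.mem_bipartiteAbove, Finset.mem_filter, P.symm z x]
          exact ⟨fun h => ⟨h.1, h.2.2⟩, fun h' => ⟨h'.1, h, h'.2⟩⟩
        rw [e1, hcos z q y (by rw [P.symm]; exact h), hcard, hker z hz0, pow_add]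
        ring
      · rw [if_neg h, Finset.card_eq_zero]
        ext x
        rw [Finset.mem_bipartiteAbove]
        constructor
        · exact fun h' => absurd h'.2.1 h
        · exact fun h' => absurd h' (Finset.notMem_empty _)
    have hB : ∀ x, (Finset.bipartiteBelow r Finset.univ x).card =
        if (∃ z, β x z = q) then I x else 0 := by
      intro x
      by_cases h : ∃ z, β x z = q
      · rw [if_pos h]
        obtain ⟨z₁, hz₁⟩ := h
        obtain ⟨z, h3, h4⟩ := P.cs' hz₁ hz₀
        rw [← Fintype.card_coe, ← Nat.card_eq_fintype_card]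
        apply Nat.card_congr
        exact
          { toFun := fun v => ⟨v.1 + z, by
              have hv := (Finset.mem_bipartiteBelow r).1 v.2
              have e1 : β x v.1 = q := hv.2.2
              have e2 : β y v.1 = q := hv.2.1
              constructor
              · show β x (v.1 + z) = 0
                linear_combination (norm := ((try simp only [map_add, LinearMap.add_apply, map_smul, LinearMap.smul_apply]); match_scalars <;> (first | rfl | decide))) ((1 : ZMod 2) • (e1) + (1 : ZMod 2) • (h3))
              · show β y (v.1 + z) = 0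
                linear_combination (norm := ((try simp only [map_add, LinearMap.add_apply, map_smul, LinearMap.smul_apply]); match_scalars <;> (first | rfl | decide))) ((1 : ZMod 2) • (e2) + (1 : ZMod 2) • (h4))⟩
            invFun := fun v => ⟨v.1 + z, by
              have e1 : β x v.1 = 0 := v.2.1
              have e2 : β y v.1 = 0 := v.2.2
              rw [Finset.mem_bipartiteBelow]
              refine ⟨Finset.mem_univ _, ?_, ?_⟩
              · linear_combination (norm := ((try simp only [map_add, LinearMap.add_apply, map_smul, LinearMap.smul_apply]); match_scalars <;> (first | rfl | decide))) ((1 : ZMod 2) • (e2) + (1 : ZMod 2) • (h4))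
              · linear_combination (norm := ((try simp only [map_add, LinearMap.add_apply, map_smul, LinearMap.smul_apply]); match_scalars <;> (first | rfl | decide))) ((1 : ZMod 2) • (e1) + (1 : ZMod 2) • (h3))⟩
            left_inv := fun v => Subtype.ext (add_self_cancel _ _)
            right_inv := fun v => Subtype.ext (add_self_cancel _ _) }
      · rw [if_neg h, Finset.card_eq_zero]
        ext z
        rw [Finset.mem_bipartiteBelow]
        constructor
        · exact fun h' => absurd ⟨z, h'.2.2⟩ h
        · exact fun h' => absurd h' (Finset.notMem_empty _)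
    rw [Finset.sum_congr rfl (fun z _ => hA z), Finset.sum_congr rfl (fun x _ => hB x),
      ← Finset.sum_filter, ← Finset.sum_filter, Finset.sum_const, hcos y q z₀ hz₀, hcard,
      hker y hy, smul_eq_mul] at hdc
    rw [← hdc, pow_add]
    ring
  -- the group `X`
  set X : Finset V := Finset.univ.filter (fun x => x ∈ Xs P h2 y) with hX
  have hXm : ∀ x, x ∈ X ↔ x = 0 ∨ LinearMap.range (β x) = LinearMap.range (β y) := by
    intro x
    rw [hX, Finset.mem_filter]
    exact ⟨fun h => h.2, fun h => ⟨Finset.mem_univ _, h⟩⟩
  have hXc : X.card = Nat.card (Xs P h2 y) := by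
    rw [← Fintype.card_coe, ← Nat.card_eq_fintype_card]
    apply Nat.card_congr
    exact Equiv.subtypeEquivRight (fun x => by rw [hX, Finset.mem_filter]; simp)
  have h0X : (0 : V) ∈ X := (hXm 0).2 (Or.inl rfl)
  have hyX : y ∈ X := (hXm y).2 (Or.inr rfl)
  -- the sum over `X`
  have hsumX : ∑ x ∈ (X.erase 0).erase y, I x = (X.card - 2) * 2 ^ k := by
    rw [Finset.sum_congr rfl (fun x hx => ?_), Finset.sum_const, smul_eq_mul,
      Finset.card_erase_of_mem (Finset.mem_erase.2 ⟨hy, hyX⟩),
      Finset.card_erase_of_mem h0X]
    · rfl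
    · have h3 := Finset.mem_erase.1 hx
      have h4 := Finset.mem_erase.1 h3.2
      exact hIX x h4.1 h3.1 (((hXm x).1 h4.2).resolve_left h4.1)
  have hX2 : 2 ≤ X.card := by
    have : ({0, y} : Finset V) ⊆ X := by
      intro x hx
      rw [Finset.mem_insert, Finset.mem_singleton] at hx
      rcases hx with rfl | rfl
      · exact h0X
      · exact hyX
    have h3 := Finset.card_le_card this
    rwa [Finset.card_pair (Ne.symm hy)] at h3
  have hpos : 0 < 2 ^ k := Nat.two_pow_pos k
  -- the inequality for one value
  have hone : ∀ q, q ≠ 0 → (∃ z, β y z = q) →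
      16 * 2 ^ k * 2 ^ k = 4 * 2 ^ k + (X.card - 2) * 2 ^ k +
        ∑ x ∈ Finset.univ.filter (fun x => x ∉ X ∧ ∃ z, β x z = q), I x := by
    intro q hq hex
    rw [← hcount q hq hex]
    have e1 : Finset.univ.filter (fun x => ∃ z, β x z = q) =
        (X.erase 0) ∪ Finset.univ.filter (fun x => x ∉ X ∧ ∃ z, β x z = q) := by
      ext x
      rw [Finset.mem_union, Finset.mem_filter, Finset.mem_filter, Finset.mem_erase]
      constructor
      · rintro ⟨-, h⟩
        by_cases hx : x ∈ X
        · left
          refine ⟨?_, hx⟩
          rintro rfl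
          obtain ⟨z, hz⟩ := h
          rw [map_zero, LinearMap.zero_apply] at hz
          exact hq hz.symm
        · right
          exact ⟨Finset.mem_univ _, hx, h⟩
      · rintro (⟨h0, hx⟩ | ⟨-, -, h⟩)
        · refine ⟨Finset.mem_univ _, ?_⟩
          have h3 := ((hXm x).1 hx).resolve_left h0
          obtain ⟨z, hz⟩ := hex
          have h4 : q ∈ LinearMap.range (β x) := by
            rw [h3]
            exact ⟨z, hz⟩
          exact h4
        · exact ⟨Finset.mem_univ _, h⟩
    rw [e1, Finset.sum_union, ← Finset.add_sum_erase (X.erase 0) I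
      (Finset.mem_erase.2 ⟨hy, hyX⟩), hIy, hsumX]
    rw [Finset.disjoint_left]
    intro x hx hx'
    exact (Finset.mem_filter.1 hx').2.1 (Finset.mem_of_mem_erase hx)
  have hone' : ∀ q, q ≠ 0 → (∃ z, β y z = q) →
      16 * 2 ^ k ≤ 2 + X.card +
        2 * (Finset.univ.filter (fun x => x ∉ X ∧ ∃ z, β x z = q)).card := by
    intro q hq hex
    have h3 := hone q hq hex
    have h4 : ∑ x ∈ Finset.univ.filter (fun x => x ∉ X ∧ ∃ z, β x z = q), I x ≤
        (Finset.univ.filter (fun x => x ∉ X ∧ ∃ z, β x z = q)).card * (2 * 2 ^ k) := by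
      rw [← smul_eq_mul, ← Finset.sum_const]
      apply Finset.sum_le_sum
      intro x hx
      have h5 := (Finset.mem_filter.1 hx).2
      refine hIle x q ?_ ?_ hq h5.2 hex
      · rintro rfl
        exact h5.1 h0X
      · rintro rfl
        exact h5.1 hyX
    have h5 : 16 * 2 ^ k * 2 ^ k ≤ (2 + X.card +
        2 * (Finset.univ.filter (fun x => x ∉ X ∧ ∃ z, β x z = q)).card) * 2 ^ k := by
      have h6 : 4 * 2 ^ k + (X.card - 2) * 2 ^ k = (2 + X.card) * 2 ^ k := by
        rw [← add_mul]
        congr 1
        omega
      rw [h6] at h3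
      nlinarith
    exact Nat.le_of_mul_le_mul_right h5 hpos
  -- the values of `y`
  obtain ⟨q₁, q₂, h1y, h2y, h10, h20, h12⟩ : ∃ q₁ q₂ : Q, (∃ z, β y z = q₁) ∧ (∃ z, β y z = q₂) ∧
      q₁ ≠ 0 ∧ q₂ ≠ 0 ∧ q₁ ≠ q₂ := by
    have h3 := Module.natCard_eq_pow_finrank (K := ZMod 2) (V := LinearMap.range (β y))
    rw [Nat.card_zmod, h2 y hy] at h3
    have := Fintype.ofFinite (LinearMap.range (β y))
    rw [Nat.card_eq_fintype_card] at h3
    have h4 : 2 < Fintype.card (LinearMap.range (β y)) := by rw [h3]; norm_num
    obtain ⟨a, b, c, hab, hac, hbc⟩ := Fintype.two_lt_card_iff.1 h4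
    by_cases ha : (a : Q) = 0
    · exact ⟨b, c, b.2, c.2, fun h => hab (Subtype.ext (ha.trans h.symm)),
        fun h => hac (Subtype.ext (ha.trans h.symm)), fun h => hbc (Subtype.ext h)⟩
    · by_cases hb : (b : Q) = 0
      · exact ⟨a, c, a.2, c.2, ha, fun h => hbc (Subtype.ext (hb.trans h.symm)),
          fun h => hac (Subtype.ext h)⟩
      · exact ⟨a, b, a.2, b.2, ha, hb, fun h => hab (Subtype.ext h)⟩
  have h30 : q₁ + q₂ ≠ 0 := fun h => h12 (eq_of_add_eq_zero h)
  have h3y : ∃ z, β y z = q₁ + q₂ := by
    obtain ⟨z₁, hz₁⟩ := h1y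
    obtain ⟨z₂, hz₂⟩ := h2y
    exact ⟨z₁ + z₂, by rw [map_add, hz₁, hz₂]⟩
  -- two values determine the value group
  have htwo : ∀ x, x ∉ X → ∀ a b : Q, a ≠ 0 → b ≠ 0 → a ≠ b → (∃ z, β y z = a) →
      (∃ z, β y z = b) → (∃ z, β x z = a) → (∃ z, β x z = b) → False := by
    intro x hx a b ha hb hab hya hyb hxa hxb
    apply hx
    rw [hXm]
    have hx0 : x ≠ 0 := by
      rintro rfl
      exact hx h0X
    right
    -- both are the span of `a` and `b`
    have hs : ∀ z : V, z ≠ 0 → (∃ v, β z v = a) → (∃ v, β z v = b) →
        span (ZMod 2) {a, b} = LinearMap.range (β z) := by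
      intro z hz hza hzb
      apply Submodule.eq_of_le_of_finrank_le
      · rw [span_le]
        intro r hr
        rcases hr with rfl | hr
        · exact hza
        · rw [Set.mem_singleton_iff] at hr
          rw [hr]
          exact hzb
      · rw [h2 z hz]
        have hli : LinearIndependent (ZMod 2) ![a, b] := by
          rw [LinearIndependent.pair_iff]
          intro c d hcd
          have key : ∀ c : ZMod 2, c = 0 ∨ c = 1 := by decide
          rcases key c with rfl | rfl <;> rcases key d with rfl | rfl
          · exact ⟨rfl, rfl⟩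
          · rw [zero_smul, one_smul, zero_add] at hcd
            exact absurd hcd hb
          · rw [zero_smul, one_smul, add_zero] at hcd
            exact absurd hcd ha
          · rw [one_smul, one_smul] at hcd
            exact absurd (eq_of_add_eq_zero hcd) hab
        have h3 := finrank_span_eq_card hli
        rw [Matrix.range_cons, Matrix.range_cons, Matrix.range_empty, Set.union_empty] at h3
        simp only [Fintype.card_fin] at h3
        have e1 : ({a} ∪ {b} : Set Q) = {a, b} := Set.singleton_union
        rw [e1] at h3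
        omega
    rw [← hs x hx0 hxa hxb, hs y hy hya hyb]
  by_cases hXT : Xs P h2 y = ⊤
  · -- all elements have the same values
    have h3 := hone q₁ h10 h1y
    have hXu : X = Finset.univ := by
      ext x
      simp only [hX, Finset.mem_filter, hXT, Submodule.mem_top, Finset.mem_univ, and_self]
    have h4 : Finset.univ.filter (fun x => x ∉ X ∧ ∃ z, β x z = q₁) = ∅ := by
      ext x
      rw [Finset.mem_filter]
      constructor
      · rintro ⟨-, h, -⟩
        exact absurd (by rw [hXu]; exact Finset.mem_univ _) h
      · exact fun h => absurd h (Finset.notMem_empty _)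
    rw [h4, Finset.sum_empty, hXu, Finset.card_univ, hcV, add_zero] at h3
    have h6 : 4 * 2 ^ k + (16 * 2 ^ k - 2) * 2 ^ k = (16 * 2 ^ k + 2) * 2 ^ k := by
      rw [← add_mul]
      congr 1
      omega
    rw [h6] at h3
    have h7 := Nat.eq_of_mul_eq_mul_right hpos h3
    omega
  · -- `X` has index at least two
    have hX8 : X.card ≤ 8 * 2 ^ k := by
      rw [hXc, hcard]
      have h3 := Submodule.finrank_lt hXT
      rw [hk] at h3
      have e1 : 8 * 2 ^ k = 2 ^ (k + 3) := by rw [pow_add]; ring
      rw [e1]
      exact Nat.pow_le_pow_right (by norm_num) (by omega)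
    have ha := hone' q₁ h10 h1y
    have hb := hone' q₂ h20 h2y
    have hc := hone' (q₁ + q₂) h30 h3y
    -- the three sets are disjoint
    set S₁ := Finset.univ.filter (fun x => x ∉ X ∧ ∃ z, β x z = q₁) with hS₁
    set S₂ := Finset.univ.filter (fun x => x ∉ X ∧ ∃ z, β x z = q₂) with hS₂
    set S₃ := Finset.univ.filter (fun x => x ∉ X ∧ ∃ z, β x z = q₁ + q₂) with hS₃
    have hne1 : q₁ ≠ q₁ + q₂ := fun h => h20 (left_eq_add.1 h)
    have hne2 : q₂ ≠ q₁ + q₂ := fun h => h10 (by
      rw [add_comm] at h
      exact left_eq_add.1 h)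
    have d12 : Disjoint S₁ S₂ := by
      rw [Finset.disjoint_left]
      intro x hx hx'
      have h3 := (Finset.mem_filter.1 hx).2
      have h4 := (Finset.mem_filter.1 hx').2
      exact htwo x h3.1 q₁ q₂ h10 h20 h12 h1y h2y h3.2 h4.2
    have d13 : Disjoint (S₁ ∪ S₂) S₃ := by
      rw [Finset.disjoint_left]
      intro x hx hx'
      have h4 := (Finset.mem_filter.1 hx').2
      rcases Finset.mem_union.1 hx with h | h
      · have h3 := (Finset.mem_filter.1 h).2
        exact htwo x h3.1 q₁ (q₁ + q₂) h10 h30 hne1 h1y h3y h3.2 h4.2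
      · have h3 := (Finset.mem_filter.1 h).2
        exact htwo x h3.1 q₂ (q₁ + q₂) h20 h30 hne2 h2y h3y h3.2 h4.2
    have hsub : S₁ ∪ S₂ ∪ S₃ ⊆ Finset.univ \ X := by
      intro x hx
      rw [Finset.mem_sdiff]
      refine ⟨Finset.mem_univ _, ?_⟩
      rcases Finset.mem_union.1 hx with hx | hx
      · rcases Finset.mem_union.1 hx with hx | hx
        · exact (Finset.mem_filter.1 hx).2.1
        · exact (Finset.mem_filter.1 hx).2.1
      · exact (Finset.mem_filter.1 hx).2.1
    have h5 := Finset.card_le_card hsub
    rw [Finset.card_union_of_disjoint d13, Finset.card_union_of_disjoint d12,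
      Finset.card_sdiff_of_subset (Finset.subset_univ _), Finset.card_univ, hcV] at h5
    omega

end count


section classify

variable {V : Type u} {Q : Type v} [AddCommGroup V] [Module (ZMod 2) V] [Finite V]
  [AddCommGroup Q] [Module (ZMod 2) Q] {β : V →ₗ[ZMod 2] V →ₗ[ZMod 2] Q} {e : V}

omit [Finite V] in
/-- A criterion for structures of local type. -/
lemma isLocal_of (symm : ∀ x y, β x y = β y x) (he : ∀ x, β x x = β x e)
    (hr : ∀ x b c, β x b ≠ 0 → β x c ≠ 0 → β x (b + c) = 0)
    (hnd : ∀ x, (∀ y, β x y = 0) → x = 0) : (str β e).IsLocal where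
  sq a := by
    apply Multiplicative.toAdd.injective
    exact add_self (E := V) (Multiplicative.toAdd a)
  symm a b h := by
    show β _ _ = 0
    rw [symm]
    exact h
  one a := map_zero _
  neg a := by
    show β (Multiplicative.toAdd a) (e + (Multiplicative.toAdd a : V)) = 0
    rw [map_add, he, add_self]
  mul a b c h h' := by
    show β (Multiplicative.toAdd a) ((Multiplicative.toAdd b : V) + (Multiplicative.toAdd c : V)) = 0
    have e1 : β (Multiplicative.toAdd a : V) (Multiplicative.toAdd b : V) = 0 := h
    have e2 : β (Multiplicative.toAdd a : V) (Multiplicative.toAdd c : V) = 0 := h'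
    rw [map_add, e1, e2, add_zero]
  index a b c h h' := hr _ _ _ h h'
  nondeg a ha := by
    by_contra hcon
    push Not at hcon
    exact ha (Multiplicative.toAdd.injective (hnd _ (fun y => hcon (Multiplicative.ofAdd y))))

/-- Spaces with two-dimensional value spaces of dimension three. -/
theorem three_dim (P : Pre β e)
    (h2 : ∀ x : V, x ≠ 0 → finrank (ZMod 2) (LinearMap.range (β x)) = 2)
    (h3 : finrank (ZMod 2) V ≤ 3) (hV : ∃ y : V, y ≠ 0) :
    ∃ S : QStr.{u}, S.IsLocal ∧ Nat.card S.G = 4 ∧ Nonempty ((str β e).Iso S.ext) := by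
  classical
  obtain ⟨y, hy⟩ := hV
  have hn : finrank (ZMod 2) V = 3 := by
    have h4 := LinearMap.finrank_range_add_finrank_ker (β y)
    rw [h2 y hy] at h4
    by_contra hne
    have h5 : finrank (ZMod 2) V = 2 := by omega
    -- all kernels are trivial
    have h6 : ∀ x : V, x ≠ 0 → x = e := by
      intro x hx
      have h7 := LinearMap.finrank_range_add_finrank_ker (β x)
      rw [h2 x hx, h5] at h7
      have h8 : LinearMap.ker (β x) = ⊥ := Submodule.finrank_eq_zero.1 (by omega)
      have h9 : x + e ∈ LinearMap.ker (β x) := by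
        show β x (x + e) = 0
        linear_combination (norm := ((try simp only [map_add, LinearMap.add_apply, map_smul, LinearMap.smul_apply]); match_scalars <;> (first | rfl | decide))) ((1 : ZMod 2) • (P.he x))
      rw [h8, Submodule.mem_bot] at h9
      exact eq_of_add_eq_zero h9
    have := Fintype.ofFinite V
    have h7 := Module.natCard_eq_pow_finrank (K := ZMod 2) (V := V)
    rw [Nat.card_zmod, h5, Nat.card_eq_fintype_card] at h7
    have h8 : 2 < Fintype.card V := by rw [h7]; norm_num
    obtain ⟨a, b, c, hab, hac, hbc⟩ := Fintype.two_lt_card_iff.1 h8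
    by_cases ha : a = 0
    · exact hbc ((h6 b (fun h => hab (ha.trans h.symm))).trans
        (h6 c (fun h => hac (ha.trans h.symm))).symm)
    · by_cases hb : b = 0
      · exact hac ((h6 a ha).trans (h6 c (fun h => hbc (hb.trans h.symm))).symm)
      · exact hab ((h6 a ha).trans (h6 b hb).symm)
  have hker : ∀ x : V, x ≠ 0 → finrank (ZMod 2) (LinearMap.ker (β x)) = 1 := by
    intro x hx
    have h4 := LinearMap.finrank_range_add_finrank_ker (β x)
    rw [h2 x hx, hn] at h4
    omega
  -- two nonzero elements of a kernel are equal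
  have huniq : ∀ x a b : V, x ≠ 0 → β x a = 0 → β x b = 0 → a ≠ 0 → b ≠ 0 → a = b := by
    intro x a b hx ha hb ha0 hb0
    have h4 := (finrank_eq_one_iff_of_nonzero' (⟨a, ha⟩ : LinearMap.ker (β x))
      (fun h => ha0 (congrArg Subtype.val h))).1 (hker x hx) ⟨b, hb⟩
    obtain ⟨c, hc⟩ := h4
    have h5 : c • a = b := congrArg Subtype.val hc
    have key : ∀ c : ZMod 2, c = 0 ∨ c = 1 := by decide
    rcases key c with rfl | rfl
    · rw [zero_smul] at h5
      exact absurd h5.symm hb0
    · rwa [one_smul] at h5
  have hxe : ∀ x : V, β x (x + e) = 0 := fun x => by linear_combination (norm := ((try simp only [map_add, LinearMap.add_apply, map_smul, LinearMap.smul_apply]); match_scalars <;> (first | rfl | decide))) ((1 : ZMod 2) • (P.he x))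
  have hK : ∀ x z : V, x ≠ 0 → x ≠ e → β x z = 0 → z = 0 ∨ z = x + e := by
    intro x z hx hxe' hz
    by_cases hz0 : z = 0
    · exact Or.inl hz0
    · right
      exact huniq x z (x + e) hx hz (hxe x) hz0 (fun h => hxe' (eq_of_add_eq_zero h))
  have hKe : e ≠ 0 → ∀ z : V, β e z = 0 → z = 0 ∨ z = e := by
    intro he0 z hz
    by_cases hz0 : z = 0
    · exact Or.inl hz0
    · right
      by_contra hze
      have h4 : β z e = 0 := by rw [P.symm]; exact hz
      rcases hK z e hz0 hze h4 with h5 | h5
      · exact he0 h5
      · apply hz0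
        have : z = (z + e) + e := (add_self_cancel z e).symm
        rw [this, ← h5]
        exact add_self e
  -- a hyperplane containing `e`
  obtain ⟨f, hfe, t, ht⟩ : ∃ f : Dual (ZMod 2) V, f e = 0 ∧ ∃ t, f t = 1 := by
    have h4 : ∃ x : V, x ∉ span (ZMod 2) {e} := by
      by_contra hcon
      push Not at hcon
      have h5 : span (ZMod 2) {e} = ⊤ := by
        rw [eq_top_iff]
        exact fun x _ => hcon x
      have h6 := finrank_span_le_card (R := ZMod 2) ({e} : Set V)
      rw [h5, finrank_top, hn] at h6
      simp at h6
    obtain ⟨x, hx⟩ := h4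
    obtain ⟨f, hf, hk⟩ := Submodule.exists_le_ker_of_notMem hx
    refine ⟨f, hk (mem_span_singleton_self e), x, ?_⟩
    have key : ∀ c : ZMod 2, c ≠ 0 → c = 1 := by decide
    exact key _ hf
  have h1 : ∀ s, f s = 0 → s ≠ 0 → ∀ y, β s y = 0 → f y = 0 := by
    intro s hs hs0 y hy
    by_cases hse : s = e
    · rw [hse] at hs0 hy
      rcases hKe hs0 y hy with h | h
      · rw [h, map_zero]
      · rw [h, hfe]
    · rcases hK s y hs0 hse hy with h | h
      · rw [h, map_zero]
      · rw [h, map_add, hs, hfe, add_zero]
  obtain ⟨iso⟩ := ext_iso P.symm e P.he f t ht hfe h1 (by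
    intro a ha y hy
    have ha0 : a ≠ 0 := by
      rintro rfl
      rw [map_zero] at ha
      exact zero_ne_one ha
    have hae : a ≠ e := by
      rintro rfl
      rw [hfe] at ha
      exact zero_ne_one ha
    rcases hK a y ha0 hae hy with h | h
    · exact Or.inl h
    · right
      rw [h, add_comm])
  -- the dimension of the kernel of `f`
  have hf2 : finrank (ZMod 2) (LinearMap.ker f) = 2 := by
    have h4 := LinearMap.finrank_range_add_finrank_ker f
    have h5 : LinearMap.range f = ⊤ := by
      rw [eq_top_iff]
      intro c _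
      exact ⟨c • t, by rw [map_smul, ht, smul_eq_mul, mul_one]⟩
    rw [h5, finrank_top, hn, Module.finrank_self] at h4
    omega
  have hr1 : ∀ x : LinearMap.ker f, x ≠ 0 →
      finrank (ZMod 2) (LinearMap.ker (res β (LinearMap.ker f) x)) ≤ 1 := by
    intro x hx
    rw [← hker x (fun h => hx (Subtype.ext h))]
    let g : LinearMap.ker (res β (LinearMap.ker f) x) →ₗ[ZMod 2] LinearMap.ker (β (x : V)) :=
      { toFun := fun z => ⟨z.1, z.2⟩
        map_add' := fun _ _ => rfl
        map_smul' := fun _ _ => rfl }
    apply LinearMap.finrank_le_finrank_of_injective (f := g)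
    intro z z' h
    have h4 : ((z : LinearMap.ker f) : V) = z' :=
      congrArg (fun t : LinearMap.ker (β (x : V)) => (t : V)) h
    exact Subtype.ext (Subtype.ext h4)
  have hloc : (str (res β (LinearMap.ker f)) ⟨e, hfe⟩).IsLocal := by
    refine isLocal_of (fun x y => P.symm _ _) (fun x => P.he _) ?_ ?_
    · intro x b c hb hc
      have hx : x ≠ 0 := by
        rintro rfl
        exact hb (by rw [map_zero, LinearMap.zero_apply])
      -- `ker f` is the union of the kernel and of a coset
      by_contra hbc
      have hx0 : (x : V) ≠ 0 := fun h => hx (Subtype.ext h)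
      -- a nonzero element of the kernel in `ker f`
      obtain ⟨k, hk0, hk⟩ : ∃ k : LinearMap.ker f, k ≠ 0 ∧ β (x : V) k = 0 := by
        have h4 : 0 < finrank (ZMod 2) (LinearMap.ker (β (x : V))) := by rw [hker _ hx0]; norm_num
        rw [Module.finrank_pos_iff] at h4
        obtain ⟨k, hk⟩ := exists_ne (0 : LinearMap.ker (β (x : V)))
        exact ⟨⟨k, h1 x x.2 hx0 k k.2⟩, fun h => hk (Subtype.ext
          (congrArg (fun t : LinearMap.ker f => (t : V)) h)), k.2⟩
      -- `0, k, b, c, b + c` are distinct
      have hcard : Nat.card (LinearMap.ker f) = 4 := by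
        have := Module.natCard_eq_pow_finrank (K := ZMod 2) (V := LinearMap.ker f)
        rw [Nat.card_zmod, hf2] at this
        exact this
      have := Fintype.ofFinite (LinearMap.ker f)
      rw [Nat.card_eq_fintype_card] at hcard
      have h0 : ∀ z : LinearMap.ker f, res β (LinearMap.ker f) x z ≠ 0 → z ≠ 0 := by
        rintro z hz rfl
        exact hz (map_zero _)
      have hkn : ∀ z : LinearMap.ker f, res β (LinearMap.ker f) x z ≠ 0 → z ≠ k := by
        rintro z hz rfl
        exact hz hk
      have hb0 := h0 b hb
      have hc0 := h0 c hc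
      have hbc' : b ≠ c := by
        rintro rfl
        exact hbc (by rw [add_self, map_zero])
      have h5 : ({0, k, b, c, b + c} : Finset (LinearMap.ker f)).card = 5 := by
        rw [Finset.card_insert_of_notMem, Finset.card_insert_of_notMem,
          Finset.card_insert_of_notMem, Finset.card_insert_of_notMem, Finset.card_singleton]
        · rw [Finset.mem_singleton]
          intro h
          exact hb0 (right_eq_add.1 h)
        · rw [Finset.mem_insert, Finset.mem_singleton]
          rintro (h | h)
          · exact hbc' h
          · exact hc0 (left_eq_add.1 h)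
        · rw [Finset.mem_insert, Finset.mem_insert, Finset.mem_singleton]
          rintro (h | h | h)
          · exact hkn b hb h.symm
          · exact hkn c hc h.symm
          · exact hkn _ hbc h.symm
        · rw [Finset.mem_insert, Finset.mem_insert, Finset.mem_insert, Finset.mem_singleton]
          rintro (h | h | h | h)
          · exact hk0 h.symm
          · exact hb0 h.symm
          · exact hc0 h.symm
          · exact h0 _ hbc h.symm
      have h6 := Finset.card_le_univ ({0, k, b, c, b + c} : Finset (LinearMap.ker f))
      omega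
    · intro x hx
      by_contra hx0
      have h4 := hr1 x hx0
      have h5 : LinearMap.ker (res β (LinearMap.ker f) x) = ⊤ := by
        rw [eq_top_iff]
        intro z _
        exact hx z
      rw [h5, finrank_top, hf2] at h4
      omega
  refine ⟨_, hloc, ?_, ⟨iso⟩⟩
  show Nat.card (LinearMap.ker f) = 4
  have := Module.natCard_eq_pow_finrank (K := ZMod 2) (V := LinearMap.ker f)
  rw [Nat.card_zmod, hf2] at this
  exact this

end classify

end SmallEl

/-- Structures of elementary type: the smallest class of structures, closed under isomorphism, which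
contains the structures of local type and the totally split structures and which is closed under
direct products and group extensions. -/
inductive ElemType : QStr.{u} → Prop
  | local (S : QStr.{u}) : S.IsLocal → ElemType S
  | split (S : QStr.{u}) : (∀ a b, S.Split a b) → (∀ a : S.G, a * a = 1) → ElemType S
  | prod (S T U : QStr.{u}) : ElemType S → ElemType T → Nonempty (U.Iso (S.prod T)) → ElemType U
  | ext (S U : QStr.{u}) : ElemType S → Nonempty (U.Iso S.ext) → ElemType U

theorem ElemType.congr {S U : QStr.{u}} (h : ElemType S) (f : U.Iso S) : ElemType U :=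
  ElemType.prod S ⟨PUnit, 1, fun _ _ => True⟩ U h
    (ElemType.split _ (fun _ _ => trivial) (fun _ => rfl))
    ⟨f.trans (QStr.Iso.ofProdTrivial _ _ (fun _ => rfl) trivial).symm⟩

end Pool.Agent.Hhelper2
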