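import Pool.Agent.Hhelper2.Codim

/-!
# Families of symmetric forms with the gluing property

A finite family of symmetric bilinear forms `F B` on a finite vector space over the field with two
elements, parametrised linearly by `B`, such that `F B x = F C z` implies the existence of `D` with
`F D x = F B x` and `F D z = F C z`.  The vectors `x` for which the functionals `F B x` span a space
of dimension at most one generate a subspace whose codimension is bounded by a function of the
dimension of the family.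
-/

namespace Pool.Agent.Hhelper2.Codim

open Module Submodule

universe u v

variable {V : Type u} {Bb : Type v} [AddCommGroup V] [Module (ZMod 2) V] [Finite V]
  [AddCommGroup Bb] [Module (ZMod 2) Bb] [Finite Bb]

instance dualFinite : Finite (Dual (ZMod 2) V) :=
  Finite.of_injective (fun f => (f : V → ZMod 2)) DFunLike.coe_injective

/-- The kernel of the form `F B` inside `H`. -/
def Rk (F : Bb →ₗ[ZMod 2] V →ₗ[ZMod 2] Dual (ZMod 2) V) (H : Submodule (ZMod 2) V) (B : Bb) :
    Submodule (ZMod 2) V := H ⊓ LinearMap.ker (F B)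

/-- Symmetric families with the gluing property, with at most `2 ^ k` members. -/
structure Hyp (F : Bb →ₗ[ZMod 2] V →ₗ[ZMod 2] Dual (ZMod 2) V) (k : ℕ) : Prop where
  symm : ∀ B x y, F B x y = F B y x
  glue : ∀ B C x z, F B x = F C z → ∃ D, F D x = F B x ∧ F D z = F C z
  card : Nat.card Bb ≤ 2 ^ k

/-- The form `F B` vanishes on `H`. -/
def Null (F : Bb →ₗ[ZMod 2] V →ₗ[ZMod 2] Dual (ZMod 2) V) (H : Submodule (ZMod 2) V) (B : Bb) :
    Prop := ∀ x ∈ H, F B x = 0

/-- The kernels of the nonvanishing members of the family have large codimension in `H`. -/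
structure Gap (F : Bb →ₗ[ZMod 2] V →ₗ[ZMod 2] Dual (ZMod 2) V) (H : Submodule (ZMod 2) V)
    (k i M : ℕ) : Prop extends Hyp F k where
  codim : finrank (ZMod 2) V ≤ finrank (ZMod 2) H + i
  gap : ∀ B, cd (Rk F H B) H ≤ M → Null F H B
  hM : i + 5 * k ≤ M

section

variable {F : Bb →ₗ[ZMod 2] V →ₗ[ZMod 2] Dual (ZMod 2) V} {H : Submodule (ZMod 2) V} {k i M : ℕ}

theorem add_self {E : Type*} [AddCommGroup E] [Module (ZMod 2) E] (x : E) : x + x = 0 := by
  have : (2 : ZMod 2) • x = x + x := two_smul _ x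
  rw [← this]
  have h2 : (2 : ZMod 2) = 0 := rfl
  rw [h2, zero_smul]

theorem eq_of_add_eq_zero {E : Type*} [AddCommGroup E] [Module (ZMod 2) E] {x y : E}
    (h : x + y = 0) : x = y := by
  have := add_self y
  rw [← this] at h
  exact add_right_cancel h

theorem neg_eq {E : Type*} [AddCommGroup E] [Module (ZMod 2) E] (x : E) : -x = x := by
  rw [neg_eq_iff_add_eq_zero]
  exact add_self x

omit [Finite V] [Finite Bb] in
theorem mem_Rk {B : Bb} {x : V} : x ∈ Rk F H B ↔ x ∈ H ∧ F B x = 0 := Iff.rfl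

omit [Finite V] [Finite Bb] in
theorem Rk_le {B : Bb} : Rk F H B ≤ H := inf_le_left

theorem Gap.lemV (h : Gap F H k i M) {m : ℕ} (hm : i + m + k ≤ M) {C D : Bb}
    (hc : cd (Rk F H D) (Rk F H C) ≤ m) :
    cd (Rk F H D) (Rk F H C) ≤ k ∧ cd (Rk F H D ⊔ Rk F H (C + D)) H ≤ i + m + k := by
  obtain ⟨P, hP⟩ : ∃ P : Submodule (ZMod 2) (V × V), ∀ p, p ∈ P ↔
      (p.1 ∈ H ∧ p.2 ∈ H) ∧ F D p.1 = F C p.2 := by
    refine ⟨(H.prod H) ⊓ LinearMap.ker ((F D).comp (LinearMap.fst (ZMod 2) V V) -
      (F C).comp (LinearMap.snd (ZMod 2) V V)), ?_⟩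
    intro p
    rw [Submodule.mem_inf, Submodule.mem_prod, LinearMap.mem_ker, LinearMap.sub_apply, sub_eq_zero]
    rfl
  have hPT : ∀ T : Bb, ∃ Q : Submodule (ZMod 2) (V × V), ∀ p, p ∈ Q ↔
      F T p.1 = F D p.1 ∧ F T p.2 = F C p.2 := by
    intro T
    refine ⟨LinearMap.ker ((F T - F D).comp (LinearMap.fst (ZMod 2) V V)) ⊓
      LinearMap.ker ((F T - F C).comp (LinearMap.snd (ZMod 2) V V)), ?_⟩
    intro p
    rw [Submodule.mem_inf, LinearMap.mem_ker, LinearMap.mem_ker, LinearMap.comp_apply,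
      LinearMap.comp_apply, LinearMap.sub_apply, LinearMap.sub_apply, sub_eq_zero, sub_eq_zero]
    rfl
  choose PT hPT using hPT
  obtain ⟨T, hT⟩ := exists_cd_le h.card P PT (by
    intro p hp
    obtain ⟨T, h1, h2⟩ := h.glue D C p.1 p.2 ((hP p).1 hp).2
    exact ⟨T, (hPT T p).2 ⟨h1, h2⟩⟩)
  -- the image of `P` under the first projection
  obtain ⟨P1, hP1⟩ : ∃ P1 : Submodule (ZMod 2) V, ∀ x, x ∈ P1 ↔
      x ∈ H ∧ ∃ y ∈ H, F C y = F D x := by
    refine ⟨H ⊓ (H.map (F C)).comap (F D), ?_⟩
    intro x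
    rw [Submodule.mem_inf, Submodule.mem_comap, Submodule.mem_map]
  have ha : cd P1 H ≤ i + m := by
    set Z : Submodule (ZMod 2) (Dual (ZMod 2) V) :=
      (Rk F H D ⊓ Rk F H C : Submodule (ZMod 2) V).dualAnnihilator with hZ
    have h1 : cd P1 H ≤ cd (H.map (F C)) Z := by
      apply cd_comap_le (F D)
      · intro x hx
        rw [hZ, Submodule.mem_dualAnnihilator]
        intro r hr
        rw [h.symm, (mem_Rk.1 hr.1).2]
        rfl
      · intro x hx hx'
        rw [hP1]
        obtain ⟨y, hy, hyx⟩ := hx'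
        exact ⟨hx, y, hy, hyx⟩
    have hWZ : H.map (F C) ≤ Z := by
      rintro _ ⟨x, hx, rfl⟩
      rw [hZ, Submodule.mem_dualAnnihilator]
      intro r hr
      rw [h.symm, (mem_Rk.1 hr.2).2]
      rfl
    have h2 := cd_add' (H.map (F C)) Z
    rw [sup_eq_right.2 hWZ] at h2
    have h3 := Subspace.finrank_add_finrank_dualAnnihilator_eq
      (Rk F H D ⊓ Rk F H C : Submodule (ZMod 2) V)
    have h4 := finrank_map_add (F C) H
    have h5 := cd_add (Rk F H D) (Rk F H C)
    have h6 := h.codim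
    have h7 : finrank (ZMod 2) (H ⊓ LinearMap.ker (F C) : Submodule (ZMod 2) V) =
      finrank (ZMod 2) (Rk F H C) := rfl
    have h8 : finrank (ZMod 2) Z = finrank (ZMod 2)
      (Rk F H D ⊓ Rk F H C : Submodule (ZMod 2) V).dualAnnihilator := by rw [hZ]
    omega
  -- `T + D` vanishes on `H`
  have hb : cd (Rk F H (T + D)) P1 ≤ k := by
    refine (cd_map_le (LinearMap.fst (ZMod 2) V V) (K := PT T) (L := P) ?_ ?_).trans hT
    · intro y hy
      obtain ⟨h1, z, hz, hzy⟩ := (hP1 y).1 hy
      exact ⟨(y, z), (hP _).2 ⟨⟨h1, hz⟩, hzy.symm⟩, rfl⟩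
    · intro p hp hp'
      refine mem_Rk.2 ⟨((hP p).1 hp).1.1, ?_⟩
      rw [map_add, LinearMap.add_apply]
      show F T p.1 + F D p.1 = 0
      rw [((hPT T p).1 hp').1]
      exact add_self _
  have hTD : Null F H (T + D) := by
    apply h.gap
    have := cd_trans (Rk F H (T + D)) P1 H
    omega
  have hTD' : ∀ x ∈ H, F T x = F D x := by
    intro x hx
    have := hTD x hx
    rw [map_add, LinearMap.add_apply] at this
    exact eq_of_add_eq_zero this
  constructor
  · refine (cd_comap_le (LinearMap.inr (ZMod 2) V V) (K := PT T) (L := P) ?_ ?_).trans hT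
    · intro y hy
      rw [hP]
      refine ⟨⟨H.zero_mem, (mem_Rk.1 hy).1⟩, ?_⟩
      show F D 0 = F C y
      rw [(mem_Rk.1 hy).2, map_zero]
    · intro y hy hy'
      refine mem_Rk.2 ⟨(mem_Rk.1 hy).1, ?_⟩
      have h1 : F T y = F C y := ((hPT T _).1 hy').2
      rw [← hTD' y (mem_Rk.1 hy).1, h1, (mem_Rk.1 hy).2]
  · have hd : cd (Rk F H D ⊔ Rk F H (C + D)) P1 ≤ k := by
      refine (cd_map_le (LinearMap.fst (ZMod 2) V V) (K := PT T) (L := P) ?_ ?_).trans hT
      · intro y hy
        obtain ⟨h1, z, hz, hzy⟩ := (hP1 y).1 hy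
        exact ⟨(y, z), (hP _).2 ⟨⟨h1, hz⟩, hzy.symm⟩, rfl⟩
      · intro p hp hp'
        obtain ⟨⟨h1, h2⟩, h3⟩ := (hP p).1 hp
        obtain ⟨h4, h5⟩ := (hPT T p).1 hp'
        have h6 : p.1 = (p.1 - p.2) + p.2 := by abel
        show p.1 ∈ _
        rw [h6]
        apply Submodule.add_mem_sup
        · refine mem_Rk.2 ⟨H.sub_mem h1 h2, ?_⟩
          rw [map_sub, h3, ← h5, hTD' _ h2, sub_self]
        · refine mem_Rk.2 ⟨h2, ?_⟩
          rw [map_add, LinearMap.add_apply, ← h5, hTD' _ h2]
          exact add_self _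
    have := cd_trans (Rk F H D ⊔ Rk F H (C + D)) P1 H
    omega

theorem Hyp.lemP (h : Hyp F k) (H : Submodule (ZMod 2) V) (B C : Bb) :
    ∃ D, cd (Rk F H D) (Rk F H B) ≤ k ∧ cd (Rk F H D) (Rk F H C) ≤ k ∧
      cd (Rk F H (D + B)) (Rk F H (B + C)) ≤ k ∧ cd (Rk F H (D + C)) (Rk F H (B + C)) ≤ k := by
  set A := B + C with hA
  have hAx : ∀ x ∈ Rk F H A, F B x = F C x := by
    intro x hx
    have h1 := (mem_Rk.1 hx).2
    rw [hA, map_add, LinearMap.add_apply] at h1
    exact eq_of_add_eq_zero h1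
  set P : Submodule (ZMod 2) (V × V × V) := (Rk F H A).prod ((Rk F H B).prod (Rk F H C)) with hP
  have hPT : ∀ D : Bb, ∃ Q : Submodule (ZMod 2) (V × V × V), ∀ p, p ∈ Q ↔
      F D (p.1 + p.2.1) = F B p.1 ∧ F D (p.1 + p.2.2) = F C p.1 := by
    intro D
    refine ⟨LinearMap.ker ((F D).comp (LinearMap.fst (ZMod 2) V (V × V) +
        (LinearMap.fst (ZMod 2) V V).comp (LinearMap.snd (ZMod 2) V (V × V))) -
        (F B).comp (LinearMap.fst (ZMod 2) V (V × V))) ⊓
      LinearMap.ker ((F D).comp (LinearMap.fst (ZMod 2) V (V × V) +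
        (LinearMap.snd (ZMod 2) V V).comp (LinearMap.snd (ZMod 2) V (V × V))) -
        (F C).comp (LinearMap.fst (ZMod 2) V (V × V))), ?_⟩
    intro p
    rw [Submodule.mem_inf, LinearMap.mem_ker, LinearMap.mem_ker, LinearMap.sub_apply,
      LinearMap.sub_apply, sub_eq_zero, sub_eq_zero]
    rfl
  choose PT hPT using hPT
  obtain ⟨D, hD⟩ := exists_cd_le h.card P PT (by
    rintro ⟨r1, r2, r3⟩ hp
    obtain ⟨h1, h2, h3⟩ : r1 ∈ Rk F H A ∧ r2 ∈ Rk F H B ∧ r3 ∈ Rk F H C := hp
    have e1 : F B (r1 + r2) = F B r1 := by rw [map_add, (mem_Rk.1 h2).2, add_zero]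
    have e2 : F C (r1 + r3) = F C r1 := by rw [map_add, (mem_Rk.1 h3).2, add_zero]
    obtain ⟨D, h4, h5⟩ := h.glue B C (r1 + r2) (r1 + r3) (by rw [e1, e2, hAx r1 h1])
    exact ⟨D, (hPT D _).2 ⟨by rw [← e1]; exact h4, by rw [← e2]; exact h5⟩⟩)
  refine ⟨D, ?_, ?_, ?_, ?_⟩
  · refine (cd_comap_le ((LinearMap.inr (ZMod 2) V (V × V)).comp (LinearMap.inl (ZMod 2) V V))
      (K := PT D) (L := P) ?_ ?_).trans hD
    · intro y hy
      exact ⟨(Rk F H A).zero_mem, hy, (Rk F H C).zero_mem⟩
    · intro y hy hy'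
      have h1 : F D (0 + y) = F B 0 := ((hPT D _).1 hy').1
      rw [zero_add, map_zero] at h1
      exact mem_Rk.2 ⟨(mem_Rk.1 hy).1, h1⟩
  · refine (cd_comap_le ((LinearMap.inr (ZMod 2) V (V × V)).comp (LinearMap.inr (ZMod 2) V V))
      (K := PT D) (L := P) ?_ ?_).trans hD
    · intro y hy
      exact ⟨(Rk F H A).zero_mem, (Rk F H B).zero_mem, hy⟩
    · intro y hy hy'
      have h1 : F D (0 + y) = F C 0 := ((hPT D _).1 hy').2
      rw [zero_add, map_zero] at h1
      exact mem_Rk.2 ⟨(mem_Rk.1 hy).1, h1⟩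
  · refine (cd_comap_le (LinearMap.inl (ZMod 2) V (V × V))
      (K := PT D) (L := P) ?_ ?_).trans hD
    · intro y hy
      exact ⟨hy, (Rk F H B).zero_mem, (Rk F H C).zero_mem⟩
    · intro y hy hy'
      have h1 : F D (y + 0) = F B y := ((hPT D _).1 hy').1
      rw [add_zero] at h1
      refine mem_Rk.2 ⟨(mem_Rk.1 hy).1, ?_⟩
      rw [map_add, LinearMap.add_apply, h1]
      exact add_self _
  · refine (cd_comap_le (LinearMap.inl (ZMod 2) V (V × V))
      (K := PT D) (L := P) ?_ ?_).trans hD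
    · intro y hy
      exact ⟨hy, (Rk F H B).zero_mem, (Rk F H C).zero_mem⟩
    · intro y hy hy'
      have h1 : F D (y + 0) = F C y := ((hPT D _).1 hy').2
      rw [add_zero] at h1
      refine mem_Rk.2 ⟨(mem_Rk.1 hy).1, ?_⟩
      rw [map_add, LinearMap.add_apply, h1]
      exact add_self _

omit [Finite V] [Finite Bb] in
theorem Rk_congr {A B : Bb} (h : Null F H (A + B)) : Rk F H A = Rk F H B := by
  have key : ∀ x ∈ H, F A x = F B x := by
    intro x hx
    have := h x hx
    rw [map_add, LinearMap.add_apply] at this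
    exact eq_of_add_eq_zero this
  ext x
  rw [mem_Rk, mem_Rk]
  constructor
  · rintro ⟨h1, h2⟩
    exact ⟨h1, by rw [← key x h1, h2]⟩
  · rintro ⟨h1, h2⟩
    exact ⟨h1, by rw [key x h1, h2]⟩

omit [Finite V] [Finite Bb] in
theorem Null.add {A B : Bb} (hA : Null F H A) (hB : Null F H B) : Null F H (A + B) := by
  intro x hx
  rw [map_add, LinearMap.add_apply, hA x hx, hB x hx, add_zero]

omit [Finite V] [Finite Bb] in
theorem null_zero : Null F H 0 := by
  intro x _
  rw [map_zero, LinearMap.zero_apply]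

omit [Finite V] [Finite Bb] in
theorem Null.rk {A : Bb} (hA : Null F H A) : Rk F H A = H := by
  apply le_antisymm Rk_le
  intro x hx
  exact mem_Rk.2 ⟨hx, hA x hx⟩

omit [Finite V] [Finite Bb] in
theorem null_of_le {A : Bb} (hA : H ≤ Rk F H A) : Null F H A := fun _ hx => (mem_Rk.1 (hA hx)).2

/-- `A` divides `B`: the kernel of `A` contains the kernel of `B` up to codimension `k`. -/
def Dv (F : Bb →ₗ[ZMod 2] V →ₗ[ZMod 2] Dual (ZMod 2) V) (H : Submodule (ZMod 2) V) (k : ℕ)
    (A B : Bb) : Prop := cd (Rk F H A) (Rk F H B) ≤ k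

omit [Finite Bb] in
theorem dv_refl (A : Bb) : Dv F H k A A := by
  unfold Dv
  rw [cd_eq_zero le_rfl]
  exact Nat.zero_le _

theorem Gap.dv_of_le (h : Gap F H k i M) {A B : Bb} {m : ℕ} (hm : m ≤ 4 * k)
    (hc : cd (Rk F H A) (Rk F H B) ≤ m) : Dv F H k A B := by
  have := h.hM
  exact (h.lemV (by omega) hc).1

theorem Gap.dv_trans (h : Gap F H k i M) {A B C : Bb} (h1 : Dv F H k A B) (h2 : Dv F H k B C) :
    Dv F H k A C := by
  apply h.dv_of_le (m := 2 * k) (by omega)
  have := cd_trans (Rk F H A) (Rk F H B) (Rk F H C)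
  unfold Dv at h1 h2
  omega

omit [Finite Bb] in
theorem dv_add {A B : Bb} (h1 : Dv F H k A B) : Dv F H k (A + B) B := by
  refine (cd_le_of_inf ?_).trans h1
  rintro x ⟨hx1, hx2⟩
  refine mem_Rk.2 ⟨(mem_Rk.1 hx1).1, ?_⟩
  rw [map_add, LinearMap.add_apply, (mem_Rk.1 hx1).2, (mem_Rk.1 hx2).2, add_zero]

/-- the sum of the kernels of complementary divisors is large -/
theorem Gap.dv_sup (h : Gap F H k i M) {A B : Bb} (h1 : Dv F H k A B) :
    cd (Rk F H A ⊔ Rk F H (B + A)) H ≤ i + 2 * k := by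
  have := h.hM
  have := (h.lemV (m := k) (by omega) h1).2
  omega

omit [Finite V] [Finite Bb] in
theorem Gap.null_of_dv (h : Gap F H k i M) {A B : Bb} (h1 : Dv F H k A B) (h2 : Null F H B) :
    Null F H A := by
  apply h.gap
  unfold Dv at h1
  rw [h2.rk] at h1
  have := h.hM
  omega

theorem Gap.lemU (h : Gap F H k i M) {A B : Bb} (h1 : Dv F H k A B) (h2 : Dv F H k B A) :
    Null F H (A + B) := by
  apply h.gap
  have h3 := h.dv_sup h1
  rw [add_comm B A] at h3
  -- the kernel of `A + B` contains most of the kernel of `A`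
  have h4 : Dv F H k (A + B) A := by
    rw [add_comm]
    exact dv_add h2
  have h5 := cd_trans (Rk F H (A + B)) (Rk F H A ⊔ Rk F H (A + B)) H
  have h6 := cd_sup (Rk F H (A + B)) (Rk F H A) (Rk F H (A + B))
  have h7 := cd_eq_zero (le_refl (Rk F H (A + B)))
  unfold Dv at h4
  have := h.hM
  omega

/-- Atoms of the divisibility order. -/
structure IsAt (F : Bb →ₗ[ZMod 2] V →ₗ[ZMod 2] Dual (ZMod 2) V) (H : Submodule (ZMod 2) V)
    (k : ℕ) (C : Bb) : Prop where
  ne : ¬ Null F H C
  min : ∀ T, Dv F H k T C → Null F H T ∨ Null F H (T + C)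

theorem Gap.star_excl (h : Gap F H k i M) {C A : Bb} (hC : ¬ Null F H C) (h1 : Dv F H k C A)
    (h2 : Dv F H k C (C + A)) : False := by
  apply hC
  apply h.gap
  have h3 := h.dv_sup h1
  rw [add_comm A C] at h3
  have h5 := cd_trans (Rk F H C) (Rk F H C ⊔ Rk F H (C + A)) H
  have h6 := cd_sup (Rk F H C) (Rk F H C) (Rk F H (C + A))
  have h7 := cd_eq_zero (le_refl (Rk F H C))
  unfold Dv at h2
  have := h.hM
  omega

theorem Gap.star (h : Gap F H k i M) {C : Bb} (hC : IsAt F H k C) (A : Bb) :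
    (Dv F H k C A ∧ Dv F H k (C + A) A) ∨ (Dv F H k C (C + A) ∧ Dv F H k A (C + A)) := by
  obtain ⟨D, h1, h2, h3, h4⟩ := h.toHyp.lemP H C A
  -- `D` divides `C` and `A`; `D + C` and `D + A` divide `C + A`
  rcases hC.min D h1 with hn | hn
  · right
    constructor
    · have : Rk F H (D + C) = Rk F H C := by
        apply Rk_congr
        have e : D + C + C = D := by rw [add_assoc, add_self, add_zero]
        rw [e]; exact hn
      rw [this] at h3
      exact h3
    · have : Rk F H (D + A) = Rk F H A := by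
        apply Rk_congr
        have e : D + A + A = D := by rw [add_assoc, add_self, add_zero]
        rw [e]; exact hn
      rw [this] at h4
      exact h4
  · left
    have e0 : Rk F H D = Rk F H C := Rk_congr hn
    have hCA : Dv F H k C A := by
      unfold Dv
      rw [← e0]
      exact h2
    exact ⟨hCA, dv_add hCA⟩

theorem Gap.star' (h : Gap F H k i M) {C : Bb} (hC : IsAt F H k C) {A : Bb}
    (hA : ¬ Dv F H k C A) : Dv F H k C (C + A) ∧ Dv F H k A (C + A) := by
  rcases h.star hC A with h1 | h1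
  · exact absurd h1.1 hA
  · exact h1

theorem Gap.lemW (h : Gap F H k i M) {C : Bb} (hC : IsAt F H k C) {A E : Bb}
    (hCE : Dv F H k C E) (hAE : Dv F H k A E) (hCA : ¬ Dv F H k C A) : Dv F H k A (E + C) := by
  -- apply `lemP` to `A` and `E + A + C` with sum `E + C`
  obtain ⟨D, h1, h2, h3, h4⟩ := h.toHyp.lemP H A (E + A + C)
  have e1 : A + (E + A + C) = E + C := by
    have : A + (E + A + C) = (A + A) + (E + C) := by abel
    rw [this, add_self, zero_add]
  rw [e1] at h3 h4
  -- `D` divides `A` and `E + A + C`, so it is null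
  have hCA' := (h.star' hC hCA).2
  have hsum : Dv F H k (C + A) E := by
    have hle : cd (Rk F H (C + A)) (Rk F H E) ≤ 2 * k := by
      have h5 := cd_inf (Rk F H C) (Rk F H A) (Rk F H E)
      have h6 : cd (Rk F H (C + A)) (Rk F H E) ≤ cd (Rk F H C ⊓ Rk F H A) (Rk F H E) := by
        apply cd_mono_left
        rintro x ⟨hx1, hx2⟩
        refine mem_Rk.2 ⟨(mem_Rk.1 hx1).1, ?_⟩
        rw [map_add, LinearMap.add_apply, (mem_Rk.1 hx1).2, (mem_Rk.1 hx2).2, add_zero]
      unfold Dv at hCE hAE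
      omega
    exact h.dv_of_le (by omega) hle
  have h7 := h.dv_sup hsum
  have e2 : E + (C + A) = E + A + C := by abel
  rw [e2] at h7
  have hD : Null F H D := by
    apply h.gap
    have h8 := cd_trans (Rk F H D) (Rk F H (C + A) ⊔ Rk F H (E + A + C)) H
    have h9 := cd_sup (Rk F H D) (Rk F H (C + A)) (Rk F H (E + A + C))
    have h10 := cd_trans (Rk F H D) (Rk F H A) (Rk F H (C + A))
    unfold Dv at hCA'
    have := h.hM
    omega
  have h11 : Rk F H (D + A) = Rk F H A := by
    apply Rk_congr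
    have e : D + A + A = D := by rw [add_assoc, add_self, add_zero]
    rw [e]; exact hD
  rw [h11] at h3
  exact h3

theorem Gap.prime (h : Gap F H k i M) {C : Bb} (hC : IsAt F H k C) {A B : Bb}
    (hA : ¬ Dv F H k C A) (hB : ¬ Dv F H k C B) : ¬ Dv F H k C (A + B) := by
  intro hAB
  obtain ⟨D, h1, h2, h3, h4⟩ := h.toHyp.lemP H A B
  -- replace `A`, `B` by `D + A`, `D + B`, which divide `A + B`
  have hA' : Dv F H k (D + A) A := dv_add h1
  have hB' : Dv F H k (D + B) B := dv_add h2
  have hnA : ¬ Dv F H k C (D + A) := fun hh => hA (h.dv_trans hh hA')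
  have hnB : ¬ Dv F H k C (D + B) := fun hh => hB (h.dv_trans hh hB')
  have w1 := h.lemW hC hAB h3 hnA
  have w2 := h.lemW hC hAB h4 hnB
  have hE : Dv F H k (A + B) (A + B + C) := by
    apply h.dv_of_le (m := 2 * k) (by omega)
    have h5 := cd_inf (Rk F H (D + A)) (Rk F H (D + B)) (Rk F H (A + B + C))
    have h6 : cd (Rk F H (A + B)) (Rk F H (A + B + C)) ≤
        cd (Rk F H (D + A) ⊓ Rk F H (D + B)) (Rk F H (A + B + C)) := by
      apply cd_mono_left
      rintro x ⟨hx1, hx2⟩
      refine mem_Rk.2 ⟨(mem_Rk.1 hx1).1, ?_⟩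
      have e : A + B = (D + A) + (D + B) := by
        have : (D + A) + (D + B) = (D + D) + (A + B) := by abel
        rw [this, add_self, zero_add]
      rw [e, map_add, LinearMap.add_apply, (mem_Rk.1 hx1).2, (mem_Rk.1 hx2).2, add_zero]
    unfold Dv at w1 w2
    omega
  have hfin := h.dv_trans hAB hE
  rw [add_comm (A + B) C] at hfin
  exact h.star_excl hC.ne hAB hfin

theorem Gap.exists_atom (h : Gap F H k i M) (B : Bb) (hB : ¬ Null F H B) :
    ∃ C, IsAt F H k C ∧ Dv F H k C B := by
  classical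
  have := Fintype.ofFinite Bb
  -- minimise the number of divisors
  obtain ⟨C, hC, hmin⟩ := Finset.exists_min_image
    (Finset.univ.filter (fun C : Bb => Dv F H k C B ∧ ¬ Null F H C))
    (fun C : Bb => (Finset.univ.filter (fun T => Dv F H k T C)).card)
    ⟨B, by simp only [Finset.mem_filter, Finset.mem_univ, true_and]; exact ⟨dv_refl B, hB⟩⟩
  simp only [Finset.mem_filter, Finset.mem_univ, true_and] at hC hmin
  refine ⟨C, ⟨hC.2, fun T hT => ?_⟩, hC.1⟩
  by_cases hTn : Null F H T
  · exact Or.inl hTn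
  right
  have h1 := hmin T ⟨h.dv_trans hT hC.1, hTn⟩
  have h2 : Finset.univ.filter (fun S => Dv F H k S T) ⊆
      Finset.univ.filter (fun S => Dv F H k S C) := by
    intro S hS
    simp only [Finset.mem_filter, Finset.mem_univ, true_and] at hS ⊢
    exact h.dv_trans hS hT
  have h3 := Finset.eq_of_subset_of_card_le h2 h1
  have h4 : C ∈ Finset.univ.filter (fun S => Dv F H k S T) := by
    rw [h3]
    simp only [Finset.mem_filter, Finset.mem_univ, true_and]
    exact dv_refl C
  simp only [Finset.mem_filter, Finset.mem_univ, true_and] at h4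
  exact h.lemU hT h4

/-- A complete set of inequivalent atoms. -/
structure Basis (F : Bb →ₗ[ZMod 2] V →ₗ[ZMod 2] Dual (ZMod 2) V) (H : Submodule (ZMod 2) V)
    (k : ℕ) (J : Finset Bb) : Prop where
  atom : ∀ C ∈ J, IsAt F H k C
  ineq : ∀ C ∈ J, ∀ C' ∈ J, C ≠ C' → ¬ Null F H (C' + C)
  span : ∀ B, ∃ J' ⊆ J, Null F H (B + ∑ C ∈ J', C)

theorem Gap.dv_sum (h : Gap F H k i M) {J : Finset Bb} (hat : ∀ C ∈ J, IsAt F H k C)
    (hineq : ∀ C ∈ J, ∀ C' ∈ J, C ≠ C' → ¬ Null F H (C' + C)) {C : Bb} (hC : C ∈ J)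
    (J' : Finset Bb) (hJ' : J' ⊆ J) : Dv F H k C (∑ C' ∈ J', C') ↔ C ∈ J' := by
  classical
  induction J' using Finset.induction_on with
  | empty =>
    simp only [Finset.sum_empty, Finset.notMem_empty, iff_false]
    intro hd
    exact (hat C hC).ne (h.null_of_dv hd null_zero)
  | insert C' J' hC' ih =>
    rw [Finset.sum_insert hC', Finset.mem_insert]
    have hC'J : C' ∈ J := hJ' (Finset.mem_insert_self _ _)
    have ih' := ih (fun x hx => hJ' (Finset.mem_insert_of_mem hx))
    by_cases he : C = C'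
    · subst he
      simp only [true_or, iff_true]
      by_contra hcon
      have h1 : ¬ Dv F H k C (∑ x ∈ J', x) := by
        rw [ih']; exact hC'
      have h2 := h.prime (hat C hC) hcon h1
      rw [add_assoc, add_self, add_zero] at h2
      exact h2 (dv_refl C)
    · have h0 : ¬ Dv F H k C C' := by
        intro hd
        rcases (hat C' hC'J).min C hd with h1 | h1
        · exact (hat C hC).ne h1
        · exact hineq C' hC'J C hC (Ne.symm he) h1
      rw [← ih']
      simp only [he, false_or]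
      constructor
      · intro hd
        by_contra hcon
        exact h.prime (hat C hC) h0 hcon hd
      · intro hd
        by_contra hcon
        have h2 := h.prime (hat C hC) h0 hcon
        rw [← add_assoc, add_self, zero_add] at h2
        exact h2 hd

theorem Gap.exists_basis (h : Gap F H k i M) : ∃ J, Basis F H k J := by
  classical
  have := Fintype.ofFinite Bb
  obtain ⟨J, hJ, hmax⟩ := Finset.exists_max_image
    (Finset.univ.filter (fun J : Finset Bb => (∀ C ∈ J, IsAt F H k C) ∧
      (∀ C ∈ J, ∀ C' ∈ J, C ≠ C' → ¬ Null F H (C' + C)))) (fun J : Finset Bb => J.card)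
    ⟨∅, by simp⟩
  simp only [Finset.mem_filter, Finset.mem_univ, true_and] at hJ hmax
  obtain ⟨hat, hineq⟩ := hJ
  -- every atom is equivalent to a member of `J`
  have hrep : ∀ C, IsAt F H k C → ∃ C' ∈ J, Null F H (C + C') := by
    intro C hC
    by_contra hcon
    push Not at hcon
    have hCJ : C ∉ J := by
      intro hCJ
      apply hcon C hCJ
      rw [add_self]
      exact null_zero
    have h1 := hmax (insert C J) ⟨?_, ?_⟩
    · rw [Finset.card_insert_of_notMem hCJ] at h1
      omega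
    · intro D hD
      rcases Finset.mem_insert.1 hD with rfl | hD
      · exact hC
      · exact hat D hD
    · intro D hD D' hD' hne
      rcases Finset.mem_insert.1 hD with rfl | hD1
      · rcases Finset.mem_insert.1 hD' with rfl | hD'1
        · exact absurd rfl hne
        · rw [add_comm]
          exact hcon D' hD'1
      · rcases Finset.mem_insert.1 hD' with rfl | hD'1
        · exact hcon D hD1
        · exact hineq D hD1 D' hD'1 hne
  refine ⟨J, hat, hineq, fun B => ⟨J.filter (fun C => Dv F H k C B), Finset.filter_subset _ _, ?_⟩⟩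
  by_contra hcon
  obtain ⟨C, hC, hCd⟩ := h.exists_atom _ hcon
  obtain ⟨C', hC', hCC'⟩ := hrep C hC
  have hCd' : Dv F H k C' (B + ∑ C ∈ J.filter (fun C => Dv F H k C B), C) := by
    unfold Dv at hCd ⊢
    rw [← Rk_congr hCC']
    exact hCd
  have h1 := h.dv_sum hat hineq hC' (J.filter (fun C => Dv F H k C B)) (Finset.filter_subset _ _)
  by_cases hd : Dv F H k C' B
  · have h2 : C' ∈ J.filter (fun C => Dv F H k C B) := Finset.mem_filter.2 ⟨hC', hd⟩
    rw [← h1] at h2
    -- neither of the two sums differing by `C'` ...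
    have e1 : Dv F H k C' (B + ∑ C ∈ (J.filter (fun C => Dv F H k C B)).erase C', C + C') := by
      have : ∑ C ∈ J.filter (fun C => Dv F H k C B), C =
          ∑ C ∈ (J.filter (fun C => Dv F H k C B)).erase C', C + C' :=
        (Finset.sum_erase_add _ _ (Finset.mem_filter.2 ⟨hC', hd⟩)).symm
      rw [this, ← add_assoc] at hCd'
      exact hCd'
    have e2 : ¬ Dv F H k C' (∑ C ∈ (J.filter (fun C => Dv F H k C B)).erase C', C) := by
      rw [h.dv_sum hat hineq hC' _ ((Finset.erase_subset _ _).trans (Finset.filter_subset _ _))]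
      exact Finset.notMem_erase _ _
    have e3 : Dv F H k C' (B + ∑ C ∈ (J.filter (fun C => Dv F H k C B)).erase C', C) := by
      by_contra hn
      have h5 := h.prime (hat C' hC') hn e2
      rw [add_assoc, add_self, add_zero] at h5
      exact h5 hd
    have e4 : ¬ Dv F H k C' (C' + (B + ∑ C ∈ (J.filter (fun C => Dv F H k C B)).erase C', C)) :=
      fun hh => h.star_excl (hat C' hC').ne e3 hh
    rw [add_comm] at e4
    exact e4 e1
  · have h2 : C' ∉ J.filter (fun C => Dv F H k C B) := fun hh => hd (Finset.mem_filter.1 hh).2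
    rw [← h1] at h2
    exact h.prime (hat C' hC') hd h2 hCd'

/-- The common kernel in `H` of the members of `J`. -/
def Kr (F : Bb →ₗ[ZMod 2] V →ₗ[ZMod 2] Dual (ZMod 2) V) (H : Submodule (ZMod 2) V)
    (J : Finset Bb) : Submodule (ZMod 2) V := H ⊓ ⨅ C ∈ J, LinearMap.ker (F C)

omit [Finite V] [Finite Bb] in
theorem mem_Kr {J : Finset Bb} {x : V} : x ∈ Kr F H J ↔ x ∈ H ∧ ∀ C ∈ J, F C x = 0 := by
  unfold Kr
  rw [Submodule.mem_inf]
  simp only [Submodule.mem_iInf, LinearMap.mem_ker]

/-- The vectors `x` for which the functionals `F B x` span a space of dimension at most one. -/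
def Good (F : Bb →ₗ[ZMod 2] V →ₗ[ZMod 2] Dual (ZMod 2) V) : Set V :=
  {x | ∀ B C, F B x = 0 ∨ F C x = 0 ∨ F B x = F C x}

omit [Finite Bb] in
theorem cd_Kr (J' : Finset Bb) (S : Bb) (hS : ∀ C ∈ J', Dv F H k C S) :
    cd (Kr F H J') (Rk F H S) ≤ J'.card * k := by
  classical
  induction J' using Finset.induction_on with
  | empty =>
    rw [cd_eq_zero]
    · exact Nat.zero_le _
    · intro x hx
      exact mem_Kr.2 ⟨(mem_Rk.1 hx).1, by simp⟩
  | insert C J' hC ih =>
    rw [Finset.card_insert_of_notMem hC, add_mul, one_mul]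
    have h1 := ih (fun x hx => hS x (Finset.mem_insert_of_mem hx))
    have h2 := hS C (Finset.mem_insert_self _ _)
    have h3 := cd_inf (Kr F H J') (Rk F H C) (Rk F H S)
    have h4 : cd (Kr F H (insert C J')) (Rk F H S) ≤
        cd (Kr F H J' ⊓ Rk F H C) (Rk F H S) := by
      apply cd_mono_left
      rintro x ⟨hx1, hx2⟩
      refine mem_Kr.2 ⟨(mem_Kr.1 hx1).1, ?_⟩
      intro D hD
      rcases Finset.mem_insert.1 hD with rfl | hD
      · exact (mem_Rk.1 hx2).2
      · exact (mem_Kr.1 hx1).2 D hD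
    unfold Dv at h2
    omega

theorem Gap.cd_atom (h : Gap F H k i M) {J : Finset Bb} (hJ : Basis F H k J) [DecidableEq Bb]
    {C : Bb} (hC : C ∈ J) :
    cd (Kr F H (J.erase C) ⊔ Rk F H C) H ≤ i + 2 * k + J.card * k := by
  set S : Bb := ∑ D ∈ J.erase C, D with hS
  have h1 : ¬ Dv F H k C S := by
    rw [h.dv_sum hJ.atom hJ.ineq hC _ (Finset.erase_subset _ _)]
    exact Finset.notMem_erase _ _
  have h2 := (h.star' (hJ.atom C hC) h1).1
  have h3 := h.dv_sup h2
  have e : C + S + C = S := by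
    rw [add_comm C S, add_assoc, add_self, add_zero]
  rw [e] at h3
  have h4 : cd (Kr F H (J.erase C)) (Rk F H S) ≤ (J.erase C).card * k := by
    apply cd_Kr
    intro D hD
    rw [hS, h.dv_sum hJ.atom hJ.ineq (Finset.mem_of_mem_erase hD) _ (Finset.erase_subset _ _)]
    exact hD
  have h5 : (J.erase C).card * k ≤ J.card * k :=
    Nat.mul_le_mul_right _ (Finset.card_le_card (Finset.erase_subset _ _))
  have h6 := cd_trans (Kr F H (J.erase C) ⊔ Rk F H C) (Rk F H C ⊔ Rk F H S) H
  have h7 := cd_sup (Kr F H (J.erase C) ⊔ Rk F H C) (Rk F H C) (Rk F H S)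
  have h8 := cd_eq_zero (le_sup_right : Rk F H C ≤ Kr F H (J.erase C) ⊔ Rk F H C)
  have h9 := cd_mono_left (Rk F H S) (le_sup_left : Kr F H (J.erase C) ≤
    Kr F H (J.erase C) ⊔ Rk F H C)
  omega

omit [Finite V] [Finite Bb] in
theorem good_of_mem {J : Finset Bb} (hJ : Basis F H k J) [DecidableEq Bb] {C : Bb} {x : V}
    (hx : x ∈ Kr F H (J.erase C)) : x ∈ Good F := by
  have key : ∀ B, F B x = 0 ∨ F B x = F C x := by
    intro B
    obtain ⟨J', hJ', hn⟩ := hJ.span B
    have h1 := hn x (mem_Kr.1 hx).1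
    rw [map_add, LinearMap.add_apply] at h1
    have h2 := eq_of_add_eq_zero h1
    rw [map_sum, LinearMap.sum_apply] at h2
    by_cases hC : C ∈ J'
    · right
      rw [h2]
      apply Finset.sum_eq_single_of_mem C hC
      intro D hD hne
      exact (mem_Kr.1 hx).2 D (Finset.mem_erase.2 ⟨hne, hJ' hD⟩)
    · left
      rw [h2]
      apply Finset.sum_eq_zero
      intro D hD
      refine (mem_Kr.1 hx).2 D (Finset.mem_erase.2 ⟨?_, hJ' hD⟩)
      rintro rfl
      exact hC hD
  intro A B
  rcases key A with h1 | h1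
  · exact Or.inl h1
  · rcases key B with h2 | h2
    · exact Or.inr (Or.inl h2)
    · exact Or.inr (Or.inr (by rw [h1, h2]))

/-- The bound in the presence of the gap condition. -/
def base (k i : ℕ) : ℕ := 2 ^ k * (i + 2 * k + 2 ^ k * k) + i

theorem Gap.bound (h : Gap F H k i M) :
    finrank (ZMod 2) V ≤ finrank (ZMod 2) (span (ZMod 2) (Good F)) + base k i := by
  classical
  have := Fintype.ofFinite Bb
  obtain ⟨J, hJ⟩ := h.exists_basis
  set c := i + 2 * k + J.card * k with hc
  have key : ∀ J' ⊆ J, cd (span (ZMod 2) (Good F) ⊔ Kr F H J') H ≤ J'.card * c := by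
    intro J'
    induction J' using Finset.induction_on with
    | empty =>
      intro _
      rw [cd_eq_zero]
      · exact Nat.zero_le _
      · refine le_trans ?_ le_sup_right
        intro x hx
        exact mem_Kr.2 ⟨hx, by simp⟩
    | insert C J' hC ih =>
      intro hsub
      rw [Finset.card_insert_of_notMem hC, add_mul, one_mul]
      have hCJ : C ∈ J := hsub (Finset.mem_insert_self _ _)
      have h1 := ih (fun x hx => hsub (Finset.mem_insert_of_mem hx))
      set W := span (ZMod 2) (Good F) with hW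
      have hgood : Kr F H (J.erase C) ≤ W := by
        intro x hx
        exact Submodule.subset_span (good_of_mem hJ hx)
      have h2 := cd_trans (W ⊔ Kr F H (insert C J')) (W ⊔ Kr F H J') H
      have h3 := h.cd_atom hJ hCJ
      -- inside `Kr J'`
      have h4 : cd (W ⊔ Kr F H (insert C J')) (W ⊔ Kr F H J') ≤
          cd (Kr F H (J.erase C) ⊔ Rk F H C) H := by
        have h5 : cd (W ⊔ Kr F H (insert C J')) (W ⊔ Kr F H J') ≤
            cd (W ⊔ Kr F H (insert C J')) (Kr F H J') := by
          have h6 := cd_sup (W ⊔ Kr F H (insert C J')) W (Kr F H J')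
          have h7 := cd_eq_zero (le_sup_left : W ≤ W ⊔ Kr F H (insert C J'))
          omega
        refine h5.trans (le_trans ?_ (cd_mono_right (Kr F H (J.erase C) ⊔ Rk F H C)
          (fun x hx => (mem_Kr.1 hx).1 : Kr F H J' ≤ H)))
        apply cd_le_of_inf
        rintro x ⟨hx1, hx2⟩
        obtain ⟨y, hy, z, hz, hyz⟩ := Submodule.mem_sup.1 hx1
        rw [← hyz]
        apply Submodule.add_mem_sup (hgood hy)
        have hyJ : y ∈ Kr F H J' := by
          refine mem_Kr.2 ⟨(mem_Kr.1 hy).1, fun D hD => ?_⟩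
          refine (mem_Kr.1 hy).2 D (Finset.mem_erase.2 ⟨?_, hsub (Finset.mem_insert_of_mem hD)⟩)
          rintro rfl
          exact hC hD
        have hzJ : z ∈ Kr F H J' := by
          have : z = x - y := by rw [← hyz]; abel
          rw [this]
          exact Submodule.sub_mem _ hx2 hyJ
        refine mem_Kr.2 ⟨(mem_Kr.1 hzJ).1, fun D hD => ?_⟩
        rcases Finset.mem_insert.1 hD with rfl | hD
        · exact (mem_Rk.1 hz).2
        · exact (mem_Kr.1 hzJ).2 D hD
      omega
  have h1 := key J (Finset.Subset.refl _)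
  have h2 : Kr F H J ≤ span (ZMod 2) (Good F) := by
    intro x hx
    apply Submodule.subset_span
    intro A B
    left
    obtain ⟨J', hJ', hn⟩ := hJ.span A
    have h1 := hn x (mem_Kr.1 hx).1
    rw [map_add, LinearMap.add_apply] at h1
    rw [eq_of_add_eq_zero h1, map_sum, LinearMap.sum_apply]
    exact Finset.sum_eq_zero (fun D hD => (mem_Kr.1 hx).2 D (hJ' hD))
  rw [sup_eq_left.2 h2] at h1
  have h3 := cd_add' (span (ZMod 2) (Good F)) ⊤
  have h4 := cd_trans (span (ZMod 2) (Good F)) H ⊤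
  have h5 := cd_add H ⊤
  rw [inf_top_eq, finrank_top] at h5
  rw [sup_top_eq, finrank_top] at h3
  have h6 := h.codim
  have h7 : J.card ≤ 2 ^ k := by
    refine (Finset.card_le_univ J).trans ?_
    rw [← Nat.card_eq_fintype_card]
    exact h.card
  have h8 : J.card * c ≤ 2 ^ k * (i + 2 * k + 2 ^ k * k) := by
    rw [hc]
    apply Nat.mul_le_mul h7
    apply Nat.add_le_add_left
    exact Nat.mul_le_mul_right _ h7
  unfold base
  omega

/-- The bound. -/
def bnd (k : ℕ) : ℕ → ℕ → ℕ
  | 0, i => base k i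
  | n + 1, i => base k i + bnd k n (2 * i + 5 * k)

/-- The members of the family vanishing on `H`. -/
def nulls (F : Bb →ₗ[ZMod 2] V →ₗ[ZMod 2] Dual (ZMod 2) V) (H : Submodule (ZMod 2) V) :
    Submodule (ZMod 2) Bb where
  carrier := {B | Null F H B}
  add_mem' := fun ha hb => ha.add hb
  zero_mem' := null_zero
  smul_mem' := by
    intro c B hB x hx
    rw [map_smul, LinearMap.smul_apply, hB x hx, smul_zero]

theorem Hyp.bound (h : Hyp F k) (n i : ℕ) (H : Submodule (ZMod 2) V)
    (hi : finrank (ZMod 2) V ≤ finrank (ZMod 2) H + i)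
    (hn : finrank (ZMod 2) Bb ≤ finrank (ZMod 2) (nulls F H) + n) :
    finrank (ZMod 2) V ≤ finrank (ZMod 2) (span (ZMod 2) (Good F)) + bnd k n i := by
  induction n generalizing i H with
  | zero =>
    have h1 : nulls F H = ⊤ := by
      apply Submodule.eq_top_of_finrank_eq
      have := Submodule.finrank_le (nulls F H)
      omega
    have hg : Gap F H k i (i + 5 * k) :=
      { h with
        codim := hi
        gap := by
          intro B _
          have : B ∈ nulls F H := by rw [h1]; trivial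
          exact this
        hM := le_rfl }
    exact hg.bound
  | succ n ih =>
    by_cases hgap : ∀ B, cd (Rk F H B) H ≤ i + 5 * k → Null F H B
    · have hg : Gap F H k i (i + 5 * k) :=
        { h with
          codim := hi
          gap := hgap
          hM := le_rfl }
      have := hg.bound
      unfold bnd
      omega
    · push Not at hgap
      obtain ⟨B, hB, hBn⟩ := hgap
      have h1 : nulls F H < nulls F (Rk F H B) := by
        apply lt_of_le_of_ne
        · intro C hC x hx
          exact hC x (mem_Rk.1 hx).1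
        · intro he
          apply hBn
          have : B ∈ nulls F (Rk F H B) := fun x hx => (mem_Rk.1 hx).2
          rw [← he] at this
          exact this
      have h2 := Submodule.finrank_lt_finrank_of_lt h1
      have h3 := cd_add (Rk F H B) H
      rw [inf_eq_left.2 Rk_le] at h3
      have := ih (2 * i + 5 * k) (Rk F H B) (by omega) (by omega)
      show _ ≤ _ + (base k i + bnd k n (2 * i + 5 * k))
      omega

end

/-- Main theorem on families of forms with the gluing property. -/
theorem main_bound (F : Bb →ₗ[ZMod 2] V →ₗ[ZMod 2] Dual (ZMod 2) V) (k : ℕ)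
    (hk : finrank (ZMod 2) Bb ≤ k) (symm : ∀ B x y, F B x y = F B y x)
    (glue : ∀ B C x z, F B x = F C z → ∃ D, F D x = F B x ∧ F D z = F C z) :
    finrank (ZMod 2) V ≤ finrank (ZMod 2) (span (ZMod 2) (Good F)) + bnd k k 0 := by
  have hcard : Nat.card Bb ≤ 2 ^ k := by
    have := Module.natCard_eq_pow_finrank (K := ZMod 2) (V := Bb)
    rw [this]
    simp only [Nat.card_zmod]
    exact Nat.pow_le_pow_right (by norm_num) hk
  apply Hyp.bound ⟨symm, glue, hcard⟩ k 0 ⊤
  · rw [finrank_top]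
    omega
  · omega

end Pool.Agent.Hhelper2.Codim
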