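import Pool.Agent.Hhelper2.BasicPart
import Pool.Agent.Hhelper2.ExtTower

/-!
# A bound for the order of the basic part
-/

namespace Pool.Agent.Hhelper2

universe u

open Finset Classical

namespace QStr

variable {S : QStr.{u}}

namespace Axioms

variable (h : S.Axioms)
include h

section fin
variable [Fintype S.G]

/-- Two different elements of large degree, whose quaternion algebra is not split, give rise to a
quadrangle of slots. -/
lemma exists_square {y z : S.G} (hyz : y ≠ z) (hns : ¬ S.Split y z) (hy : 3 ≤ dg y)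
    (hz : 3 ≤ dg z) :
    ∃ c w, (c = S.neg ∨ 3 ≤ dg c) ∧ c ≠ 1 ∧ S.Lk y z c w ∧
      ∃ ν c', ν ≠ 1 ∧ c' ≠ c ∧ S.Split c ν ∧ S.Split ν c' ∧ S.Split (c * c') w := by
  by_contra hcon
  have huniq : ∀ c c' w w', c ≠ c' → S.Lk y z c w → S.Lk y z c' w → S.Lk y z c w' →
      S.Lk y z c' w' → w = w' := by
    intro c c' w w' hcc h1 h2 h3 h4
    by_contra hww
    apply hcon
    have hν : w * w' ≠ 1 := fun he => hww (h.mul_eq_one he)
    have hc1 : c ≠ 1 := h.slot_ne_one hns h1
    have hc1' : c' ≠ 1 := h.slot_ne_one hns h2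
    have s1 : S.Split c (w * w') := h.lk_eq _ _ _ _ _ hns h1 h3
    have s2 : S.Split c' (w * w') := h.lk_eq _ _ _ _ _ hns h2 h4
    have s3 : S.Split w (c * c') :=
      h.lk_eq _ _ _ _ _ hns (h.lk_swap _ _ _ _ hns h1) (h.lk_swap _ _ _ _ hns h2)
    by_cases hc : c = S.neg ∨ 3 ≤ dg c
    · exact ⟨c, w, hc, hc1, h1, w * w', c', hν, hcc.symm, s1, h.symm _ _ s2, h.symm _ _ s3⟩
    · by_cases hc' : c' = S.neg ∨ 3 ≤ dg c'
      · exact ⟨c', w, hc', hc1', h2, w * w', c, hν, hcc, s2, h.symm _ _ s1,
          by rw [mul_comm]; exact h.symm _ _ s3⟩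
      · exfalso
        push Not at hc hc'
        rcases (h.rigid_of_dg hc.1 (by omega) _).1 s1 with e1 | e1
        · exact hν e1
        · rcases (h.rigid_of_dg hc'.1 (by omega) _).1 s2 with e2 | e2
          · exact hν e2
          · exact hcc (mul_left_cancel (e1.symm.trans e2))
  have := h.unique_slots hns huniq ⟨y, z, h.lk_self y z⟩ hy
    ⟨z, y, h.lk_swap _ _ _ _ hns (h.lk_self y z)⟩ (fun he => hyz (congrArg Subtype.val he).symm)
  exact absurd this.2.1 (by show ¬ dg z ≤ 2; omega)

/-- Number of representations of a quaternion algebra. -/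
lemma card_reps (r : ℕ) (hr : ∀ a : S.G, a ≠ 1 → dg a ≤ r) {c w : S.G} (hns : ¬ S.Split c w) :
    (univ.filter (fun p : S.G × S.G => S.Lk c w p.1 p.2)).card ≤ r ^ 3 := by
  have hsub : univ.filter (fun p : S.G × S.G => S.Lk c w p.1 p.2) ⊆
      (univ.filter (S.Split c)).biUnion (fun n => (univ.filter (S.Split (w * n))).biUnion
        (fun m => (univ.filter (S.Lk c w (c * m))).image (fun z => (c * m, z)))) := by
    rintro ⟨y, z⟩ hp
    simp only [mem_filter, mem_univ, true_and] at hp
    simp only [mem_biUnion, mem_filter, mem_univ, true_and, mem_image]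
    obtain ⟨v, h1, h2, h3⟩ := id hp
    refine ⟨w * v, h1, c * y, ?_, z, ?_, ?_⟩
    · rw [h.mulsq]; exact h.symm _ _ h3
    · rw [h.mulsq]; exact hp
    · rw [h.mulsq]
  refine (card_le_card hsub).trans ?_
  have hc1 : c ≠ 1 := h.nonsplit_ne_one hns
  have h1 : ((univ.filter (S.Split c)).biUnion (fun n => (univ.filter (S.Split (w * n))).biUnion
        (fun m => (univ.filter (S.Lk c w (c * m))).image (fun z => (c * m, z))))).card ≤
      (univ.filter (S.Split c)).card * (r * r) := by
    apply card_biUnion_le_card_mul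
    intro n hn
    simp only [mem_filter, mem_univ, true_and] at hn
    have hwn : w * n ≠ 1 := by
      intro he
      apply hns
      rw [h.mul_eq_one he]; exact hn
    have h2 : ((univ.filter (S.Split (w * n))).biUnion
        (fun m => (univ.filter (S.Lk c w (c * m))).image (fun z => (c * m, z)))).card ≤
        (univ.filter (S.Split (w * n))).card * r := by
      apply card_biUnion_le_card_mul
      intro m _
      refine card_image_le.trans ?_
      by_cases hex : ∃ d, S.Lk c w (c * m) d
      · obtain ⟨d, hd⟩ := hex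
        rw [h.card_nb hns hd]
        exact hr _ (h.slot_ne_one hns hd)
      · rw [Finset.filter_false_of_mem]
        · simp
        · intro z _ hz
          exact hex ⟨z, hz⟩
    exact h2.trans (Nat.mul_le_mul_right _ (hr _ hwn))
  calc _ ≤ _ := h1
    _ ≤ r * (r * r) := Nat.mul_le_mul_right _ (hr _ hc1)
    _ = r ^ 3 := by ring

/-- The elements, different from `± 1`, which are not rigid. -/
noncomputable def NR (S : QStr.{u}) [Fintype S.G] : Finset S.G :=
  univ.filter (fun a => a ≠ 1 ∧ a ≠ S.neg ∧ 3 ≤ dg a)

/-- The number of non-rigid elements is bounded. -/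
lemma card_NR (r : ℕ) (hr : ∀ a : S.G, a ≠ 1 → dg a ≤ r) : (NR S).card ≤ r ^ 6 + r := by
  set t := (NR S).card with ht
  let P := ((NR S) ×ˢ (NR S)).filter (fun p => p.1 ≠ p.2 ∧ ¬ S.Split p.1 p.2)
  let W : S.G → Finset S.G := fun c => ((univ.filter (S.Split c)).erase 1).biUnion
    (fun ν => ((univ.filter (S.Split ν)).erase c).biUnion (fun c' => univ.filter (S.Split (c * c'))))
  have hW : ∀ c, c ≠ 1 → (W c).card ≤ r ^ 3 := by
    intro c hc
    have h1 : (W c).card ≤ ((univ.filter (S.Split c)).erase 1).card * (r * r) := by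
      apply card_biUnion_le_card_mul
      intro ν hν
      simp only [mem_erase, mem_filter, mem_univ, true_and] at hν
      have h2 : (((univ.filter (S.Split ν)).erase c).biUnion
          (fun c' => univ.filter (S.Split (c * c')))).card ≤
          ((univ.filter (S.Split ν)).erase c).card * r := by
        apply card_biUnion_le_card_mul
        intro c' hc'
        simp only [mem_erase, mem_filter, mem_univ, true_and] at hc'
        exact hr _ fun he => hc'.1 (h.mul_eq_one he).symm
      refine h2.trans (Nat.mul_le_mul_right _ ?_)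
      exact (card_le_card (erase_subset _ _)).trans (hr _ hν.1)
    calc _ ≤ _ := h1
      _ ≤ r * (r * r) := by
        refine Nat.mul_le_mul_right _ ?_
        exact (card_le_card (erase_subset _ _)).trans (hr _ hc)
      _ = r ^ 3 := by ring
  have hP : P.card ≤ (t + 1) * (r ^ 3 * r ^ 3) := by
    have hsub : P ⊆ ((insert S.neg (NR S)).erase 1).biUnion (fun c => (W c).biUnion (fun w =>
        if S.Split c w then ∅ else univ.filter (fun p : S.G × S.G => S.Lk c w p.1 p.2))) := by
      rintro ⟨y, z⟩ hp
      simp only [P, mem_filter, mem_product, NR, mem_univ, true_and] at hp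
      obtain ⟨⟨⟨_, _, hy⟩, ⟨_, _, hz⟩⟩, hyz, hns⟩ := hp
      obtain ⟨c, w, hc, hc1, hl, ν, c', hν, hcc, s1, s2, s3⟩ := h.exists_square hyz hns hy hz
      simp only [mem_biUnion]
      refine ⟨c, ?_, w, ?_, ?_⟩
      · simp only [mem_erase, mem_insert, NR, mem_filter, mem_univ, true_and]
        refine ⟨hc1, ?_⟩
        by_cases hcn : c = S.neg
        · exact Or.inl hcn
        · exact Or.inr ⟨hc1, hcn, hc.resolve_left hcn⟩
      · simp only [W, mem_biUnion, mem_erase, mem_filter, mem_univ, true_and]
        exact ⟨ν, ⟨hν, s1⟩, c', ⟨hcc, s2⟩, s3⟩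
      · have hns' : ¬ S.Split c w := h.lk_nonsplit _ _ _ _ hns hl
        rw [if_neg hns']
        simp only [mem_filter, mem_univ, true_and]
        exact lk_symm hl
    refine (card_le_card hsub).trans ?_
    have h1 := card_biUnion_le_card_mul ((insert S.neg (NR S)).erase 1)
      (fun c => (W c).biUnion (fun w =>
        if S.Split c w then ∅ else univ.filter (fun p : S.G × S.G => S.Lk c w p.1 p.2)))
      (r ^ 3 * r ^ 3) (by
        intro c hc
        have hc1 : c ≠ 1 := (mem_erase.1 hc).1
        have h2 := card_biUnion_le_card_mul (W c) (fun w =>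
          if S.Split c w then ∅ else univ.filter (fun p : S.G × S.G => S.Lk c w p.1 p.2))
          (r ^ 3) (by
            intro w _
            split_ifs with hs
            · simp
            · exact h.card_reps r hr hs)
        exact h2.trans (Nat.mul_le_mul_right _ (hW c hc1)))
    refine h1.trans (Nat.mul_le_mul_right _ ?_)
    exact (card_le_card (erase_subset _ _)).trans (card_insert_le _ _)
  have hQ : (((NR S) ×ˢ (NR S)).filter (fun p => ¬ (p.1 ≠ p.2 ∧ ¬ S.Split p.1 p.2))).card ≤
      t * r := by
    have hsub : ((NR S) ×ˢ (NR S)).filter (fun p => ¬ (p.1 ≠ p.2 ∧ ¬ S.Split p.1 p.2)) ⊆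
        (NR S).biUnion (fun y => (insert y ((univ.filter (S.Split y)).erase 1)).image
          (fun z => (y, z))) := by
      rintro ⟨y, z⟩ hp
      simp only [mem_filter, mem_product, not_and, not_not] at hp
      simp only [mem_biUnion, mem_image, mem_insert, mem_erase, mem_filter, mem_univ, true_and]
      refine ⟨y, hp.1.1, z, ?_, rfl⟩
      by_cases hyz : y = z
      · exact Or.inl hyz.symm
      · right
        have hz : z ≠ 1 := by
          have := hp.1.2
          simp only [NR, mem_filter] at this
          exact this.2.1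
        exact ⟨hz, hp.2 hyz⟩
    refine (card_le_card hsub).trans ?_
    apply card_biUnion_le_card_mul
    intro y hy
    have hy1 : y ≠ 1 := by
      simp only [NR, mem_filter] at hy
      exact hy.2.1
    refine card_image_le.trans ((card_insert_le _ _).trans ?_)
    rw [card_erase_of_mem (by simp [h.one])]
    have h1 : 1 ≤ (univ.filter (S.Split y)).card :=
      card_pos.2 ⟨1, by simp [h.one]⟩
    have h2 := hr y hy1
    unfold dg at h2
    omega
  have htot : t * t ≤ (t + 1) * (r ^ 3 * r ^ 3) + t * r := by
    have := card_filter_add_card_filter_not (s := (NR S) ×ˢ (NR S))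
      (fun p => p.1 ≠ p.2 ∧ ¬ S.Split p.1 p.2)
    rw [card_product, ← ht] at this
    calc t * t = _ := this.symm
      _ ≤ _ := Nat.add_le_add hP hQ
  by_contra hlt
  push Not at hlt
  have h6 : r ^ 3 * r ^ 3 = r ^ 6 := by ring
  rw [h6] at htot
  nlinarith [htot, hlt]

/-- The order of the basic part is bounded. -/
theorem card_B_le (r : ℕ) (hr : ∀ a : S.G, a ≠ 1 → dg a ≤ r) :
    Nat.card h.B ≤ 2 * r ^ 6 + 2 * r + 2 := by
  have e1 : Nat.card h.B = (univ.filter (fun n => n ∈ h.B)).card := by
    rw [Nat.card_eq_fintype_card, Fintype.card_subtype]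
  have hsub : univ.filter (fun n => n ∈ h.B) ⊆
      insert 1 (insert S.neg ((NR S) ∪ (NR S).image (fun a => S.neg * a))) := by
    intro u hu
    simp only [mem_filter, mem_univ, true_and] at hu
    simp only [mem_insert, mem_union, mem_image]
    by_cases hu0 : u = 1
    · exact Or.inl hu0
    by_cases hu1 : u = S.neg
    · exact Or.inr (Or.inl hu1)
    right; right
    have hnn : S.neg * u ≠ S.neg := by
      intro he
      exact hu0 (by rwa [mul_eq_left] at he)
    have hn1 : S.neg * u ≠ 1 := by
      intro he
      exact hu1 (h.mul_eq_one he).symm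
    have hor : 3 ≤ dg u ∨ 3 ≤ dg (S.neg * u) := by
      by_contra hcon
      push Not at hcon
      apply hu
      refine ⟨hu0, hu1, h.rigid_of_dg hu1 (by omega), ?_⟩
      intro x
      rw [h.rigid_of_dg hnn (by omega), h.neg_neg]
    rcases hor with h3 | h3
    · left
      simp only [NR, mem_filter, mem_univ, true_and]
      exact ⟨hu0, hu1, h3⟩
    · right
      refine ⟨S.neg * u, ?_, h.neg_neg u⟩
      simp only [NR, mem_filter, mem_univ, true_and]
      exact ⟨hn1, hnn, h3⟩
  have h1 := h.card_NR r hr
  rw [e1]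
  calc _ ≤ _ := card_le_card hsub
    _ ≤ (NR S).card + (NR S).card + 1 + 1 := by
      refine (card_insert_le _ _).trans (Nat.add_le_add_right ?_ 1)
      refine (card_insert_le _ _).trans (Nat.add_le_add_right ?_ 1)
      refine (card_union_le _ _).trans (Nat.add_le_add_left card_image_le _)
    _ ≤ 2 * r ^ 6 + 2 * r + 2 := by omega

/-- A structure is an iterated group extension of its basic part. -/
theorem exists_extPow_B :
    ∃ m, Nonempty (S.Iso ((S.restrict h.B h.neg_mem_B).extPow m)) := by
  refine exists_extPow (Nat.card S.G) S inferInstance rfl h.sq h.symm h.one h.B h.neg_mem_B ?_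
  intro t ht x
  have : S.Birigid t := by
    by_contra hcon
    exact ht hcon
  exact this.2.2.1 x

end fin
end Axioms
end QStr
end Pool.Agent.Hhelper2
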