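import Pool.Agent.Hhelper2.FieldDecomp

/-!
# Fields whose value groups of binary forms have bounded index

Let `F` be a field of characteristic not two with finitely many square classes and suppose that all
the groups `D⟨1, - a⟩` have index at most `s` in `G = F^* / F^* ^ 2`.  Then `G` is the orthogonal
direct sum (with respect to the symbol given by quaternion algebras) of a subgroup `B ∋ - 1` whose
order is bounded by a function of `s`, of hyperbolic planes `{1, u, v, u v}` attached to quaternion
algebras with slots in `B`, and of a subgroup of the radical.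
-/

namespace Pool.Agent.Hhelper2.BoundedIndexOld

open Pool.Agent.Hhelper2 Pool.Agent.Hhelper2.Codim

universe u

/-- The subgroup given by a subspace of the square classes. -/
def toSub {F : Type u} [Field F] (S : Submodule (ZMod 2) (Additive (SqClass F))) :
    Subgroup (SqClass F) where
  carrier := {a | Additive.ofMul a ∈ S}
  mul_mem' := fun ha hb => S.add_mem ha hb
  one_mem' := S.zero_mem
  inv_mem' := fun ha => S.neg_mem ha

/-- The identification of `Fin 2` with `ZMod 2`. -/
def tz (c : Fin 2) : ZMod 2 := c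

/-- The product map of the decomposition of the group of square classes. -/
def prodMap {F : Type u} [Field F] {ι : Type} [Fintype ι] (u v : ι → SqClass F)
    (B R : Subgroup (SqClass F)) (t : B × R × (ι → Fin 2) × (ι → Fin 2)) : SqClass F :=
  (t.1 : SqClass F) * t.2.1 * (∏ i, u i ^ (t.2.2.1 i : ℕ)) * ∏ i, v i ^ (t.2.2.2 i : ℕ)

/-- `G = F^* / F^* ^ 2` is the direct product of a subgroup `B ∋ - 1`, of a subgroup `R` of the
radical, and of the groups `{1, u i, v i, u i * v i}` of order four; these factors are orthogonal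
with respect to quaternion algebras, `(u i, u i)` and `(v i, v i)` are split, and `(u i, v i)` is
isomorphic to a nonsplit algebra `(b, b')` with `b, b' ∈ B`. -/
structure IsDecomp {F : Type u} [Field F] {ι : Type} [Fintype ι] (u v : ι → SqClass F)
    (B R : Subgroup (SqClass F)) : Prop where
  neg_mem : sqClass (-1) ∈ B
  rad : ∀ r ∈ R, ∀ x : SqClass F, FieldSplit F r x
  orth : ∀ i, ∀ b ∈ B, FieldSplit F (u i) b ∧ FieldSplit F (v i) b
  uu : ∀ i j, FieldSplit F (u i) (u j)
  vv : ∀ i j, FieldSplit F (v i) (v j)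
  uv : ∀ i j, i ≠ j → FieldSplit F (u i) (v j)
  attached : ∀ i, ∃ b ∈ B, ∃ b' ∈ B, ¬ FieldSplit F b b' ∧
    (QStr.ofField F).Lk (u i) (v i) b b'
  prod : Function.Bijective (prodMap u v B R)

theorem result : ∃ c : ℕ → ℕ, ∀ (F : Type u) [Field F], (2 : F) ≠ 0 → Finite (SqClass F) →
    ∀ s : ℕ, (∀ a : SqClass F,
      Nat.card (SqClass F) ≤ s * Nat.card {b : SqClass F // FieldSplit F a b}) →
    ∃ (ι : Type) (_ : Fintype ι) (u v : ι → SqClass F) (B R : Subgroup (SqClass F)),
      Nat.card B ≤ c s ∧ IsDecomp u v B R := by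
  refine ⟨fun s => 2 ^ ((bnd (s ^ 2) (s ^ 2) 0 + 2 ^ (s ^ 2)) * (s ^ 2 + 1) +
    2 * 2 ^ (s ^ 2) + 1), ?_⟩
  intro F _ h2 _ s hs
  have hfin : Finite (Additive (SqClass F)) := inferInstanceAs (Finite (SqClass F))
  obtain ⟨Q, _, _, _, β, hβ0, hsymm, hcs, hlk, hspan⟩ := exists_bilin F h2
  have ax := QStr.ofField_axioms F h2
  have hk : Module.finrank (ZMod 2) Q ≤ s ^ 2 := by
    apply finrank_le_sq β hsymm hspan s
    intro a
    refine (hs (Additive.toMul a)).trans (le_of_eq ?_)
    congr 1
    apply Nat.card_congr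
    exact
      { toFun := fun b => ⟨Additive.ofMul b.1, (hβ0 _ _).2 b.2⟩
        invFun := fun b => ⟨Additive.toMul b.1, (hβ0 _ _).1 b.2⟩
        left_inv := fun _ => rfl
        right_inv := fun _ => rfl }
  have hN := small_span β hsymm hcs hk
  have he : ∀ x : Additive (SqClass F), β x x = β x (Additive.ofMul (sqClass (-1))) := by
    intro x
    have h3 : β x (Additive.ofMul (sqClass (-1)) + x) = 0 :=
      (hβ0 (Additive.toMul x) (sqClass (-1) * Additive.toMul x)).2 (ax.neg _)
    rw [map_add] at h3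
    exact (eq_of_add_eq_zero h3).symm
  obtain ⟨ι, _, u, v, B, R, h1, h3, h4, h5, h6, h7, h8, h9⟩ :=
    exists_structure hsymm (Additive.ofMul (sqClass (-1))) he hk hN
  refine ⟨ι, inferInstance, fun i => Additive.toMul (u i), fun i => Additive.toMul (v i),
    toSub B, toSub R, ?_, h1, ?_, ?_, ?_, ?_, ?_, ?_, ?_⟩
  · have h10 : Nat.card (toSub B) = Nat.card B :=
      Nat.card_congr
        { toFun := fun b => ⟨Additive.ofMul b.1, b.2⟩
          invFun := fun b => ⟨Additive.toMul b.1, b.2⟩
          left_inv := fun _ => rfl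
          right_inv := fun _ => rfl }
    rw [h10, Module.natCard_eq_pow_finrank (K := ZMod 2) (V := B)]
    simp only [Nat.card_zmod]
    exact Nat.pow_le_pow_right (by norm_num) h3
  · intro r hr x
    exact (hβ0 r x).1 (h4 _ hr _)
  · intro i b hb
    exact ⟨(hβ0 _ _).1 (h5 i _ hb).1, (hβ0 _ _).1 (h5 i _ hb).2⟩
  · intro i j
    exact (hβ0 _ _).1 (h6 i j).1
  · intro i j
    exact (hβ0 _ _).1 (h6 i j).2
  · intro i j hij
    exact (hβ0 _ _).1 (h7 i j hij)
  · intro i
    obtain ⟨b, hb, b', hb', h10, h11⟩ := h8 i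
    refine ⟨Additive.toMul b, hb, Additive.toMul b', hb', ?_, hlk _ _ _ _ h10⟩
    rw [← hβ0]
    exact h11
  · -- the bijection
    have hsm : ∀ (c : Fin 2) (x : Additive (SqClass F)),
        tz c • x = Additive.ofMul (Additive.toMul x ^ (c : ℕ)) := by
      intro c x
      have key : ∀ c : Fin 2, c = 0 ∨ c = 1 := by decide
      rcases key c with rfl | rfl
      · show (0 : ZMod 2) • x = Additive.ofMul (Additive.toMul x ^ 0)
        rw [zero_smul, pow_zero]
        rfl
      · show (1 : ZMod 2) • x = Additive.ofMul (Additive.toMul x ^ 1)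
        rw [one_smul, pow_one]
        rfl
    have hval : ∀ t : toSub B × toSub R × (ι → Fin 2) × (ι → Fin 2),
        Additive.ofMul (prodMap (fun i => Additive.toMul (u i)) (fun i => Additive.toMul (v i))
          (toSub B) (toSub R) t) =
        (Additive.ofMul (t.1 : SqClass F)) + Additive.ofMul (t.2.1 : SqClass F) +
          ∑ i, tz (t.2.2.1 i) • u i + ∑ i, tz (t.2.2.2 i) • v i := by
      intro t
      unfold prodMap
      rw [ofMul_mul, ofMul_mul, ofMul_mul, ofMul_prod, ofMul_prod]
      simp only [hsm]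
    constructor
    · rintro ⟨b, r, a, c⟩ ⟨b', r', a', c'⟩ h
      have h10 := congrArg Additive.ofMul h
      rw [hval, hval] at h10
      have h11 := @h9.1 (⟨Additive.ofMul b.1, b.2⟩, ⟨Additive.ofMul r.1, r.2⟩, a, c)
        (⟨Additive.ofMul b'.1, b'.2⟩, ⟨Additive.ofMul r'.1, r'.2⟩, a', c') h10
      simp only [Prod.mk.injEq, Subtype.mk.injEq] at h11
      obtain ⟨e3, e4, e5, e6⟩ := h11
      simp only [Prod.mk.injEq]
      exact ⟨Subtype.ext e3, Subtype.ext e4, e5, e6⟩
    · intro x
      obtain ⟨⟨b, r, a, c⟩, hx⟩ := h9.2 (Additive.ofMul x)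
      refine ⟨(⟨Additive.toMul b.1, b.2⟩, ⟨Additive.toMul r.1, r.2⟩, a, c), ?_⟩
      apply Additive.ofMul.injective
      rw [← hx]
      exact hval (⟨Additive.toMul b.1, b.2⟩, ⟨Additive.toMul r.1, r.2⟩, a, c)

end Pool.Agent.Hhelper2.BoundedIndexOld
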