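import Pool.Agent.Hhelper2.FieldAxioms
import Pool.Agent.Hhelper2.Bound

/-!
# Fields whose value groups of binary forms are bounded

Let `F` be a field of characteristic not two with finitely many square classes and suppose that
`|D⟨1, - a⟩| ≤ r` for all `a ≠ 1` in `G = F^* / F^* ^ 2`. Then there is a subgroup `B ∋ - 1` of `G`
of order at most `2 r ^ 6 + 2 r + 2` such that all elements outside `B` are rigid, and the
quaternionic structure of `F` is an iterated group extension of its restriction to `B`.
-/

namespace Pool.Agent.Hhelper2.BoundedValueGroupsOld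

open Pool.Agent.Hhelper2

universe u

theorem result (F : Type u) [Field F] (h2 : (2 : F) ≠ 0) [Finite (SqClass F)] (r : ℕ)
    (hr : ∀ a : SqClass F, a ≠ 1 → Nat.card {b : SqClass F // FieldSplit F a b} ≤ r) :
    ∃ (B : Subgroup (SqClass F)) (hB : (QStr.ofField F).neg ∈ B),
      Nat.card B ≤ 2 * r ^ 6 + 2 * r + 2 ∧
      (∀ u : SqClass F, u ∉ B → ∀ x : SqClass F,
        FieldSplit F u x ↔ x = 1 ∨ x = sqClass (-1) * u) ∧
      ∃ m : ℕ, Nonempty ((QStr.ofField F).Iso (((QStr.ofField F).restrict B hB).extPow m)) := by
  have h : (QStr.ofField F).Axioms := QStr.ofField_axioms F h2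
  have : Finite (QStr.ofField F).G := inferInstanceAs (Finite (SqClass F))
  have : Fintype (QStr.ofField F).G := Fintype.ofFinite _
  have hr' : ∀ a : (QStr.ofField F).G, a ≠ 1 → QStr.dg a ≤ r := by
    intro a ha
    refine le_trans (le_of_eq ?_) (hr a ha)
    classical
    show (Finset.univ.filter ((QStr.ofField F).Split a)).card =
      Nat.card {b : (QStr.ofField F).G // (QStr.ofField F).Split a b}
    rw [Nat.card_eq_fintype_card, Fintype.card_subtype]
  refine ⟨h.B, h.neg_mem_B, h.card_B_le r hr', ?_, h.exists_extPow_B⟩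
  intro u hu x
  have : (QStr.ofField F).Birigid u := by
    by_contra hcon
    exact hu hcon
  exact this.2.2.1 x

end Pool.Agent.Hhelper2.BoundedValueGroupsOld
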