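import Mathlib

/-!
# Relative codimensions of subspaces over the field with two elements
-/

namespace Pool.Agent.Hhelper2.Codim

open Module Submodule

universe u v

section basic

variable {V : Type u} {W : Type v} [AddCommGroup V] [Module (ZMod 2) V] [Finite V]
  [AddCommGroup W] [Module (ZMod 2) W] [Finite W]

/-- The codimension of `K ⊓ L` in `L`. -/
noncomputable def cd (K L : Submodule (ZMod 2) V) : ℕ :=
  finrank (ZMod 2) L - finrank (ZMod 2) (K ⊓ L : Submodule (ZMod 2) V)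

theorem cd_add (K L : Submodule (ZMod 2) V) :
    cd K L + finrank (ZMod 2) (K ⊓ L : Submodule (ZMod 2) V) = finrank (ZMod 2) L := by
  have : finrank (ZMod 2) (K ⊓ L : Submodule (ZMod 2) V) ≤ finrank (ZMod 2) L :=
    Submodule.finrank_mono inf_le_right
  unfold cd
  omega

theorem cd_add' (K L : Submodule (ZMod 2) V) :
    cd K L + finrank (ZMod 2) K = finrank (ZMod 2) (K ⊔ L : Submodule (ZMod 2) V) := by
  have h1 := cd_add K L
  have h2 := Submodule.finrank_sup_add_finrank_inf_eq K L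
  omega

theorem cd_eq_zero {K L : Submodule (ZMod 2) V} (h : L ≤ K) : cd K L = 0 := by
  have h1 := cd_add K L
  rw [inf_eq_right.2 h] at h1
  omega

theorem le_of_cd_eq_zero {K L : Submodule (ZMod 2) V} (h : cd K L = 0) : L ≤ K := by
  have h1 := cd_add K L
  rw [h, zero_add] at h1
  have := Submodule.eq_of_le_of_finrank_eq (inf_le_right : K ⊓ L ≤ L) h1
  exact inf_eq_right.1 this

theorem cd_mono_right (K : Submodule (ZMod 2) V) {L L' : Submodule (ZMod 2) V} (h : L' ≤ L) :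
    cd K L' ≤ cd K L := by
  have h1 := cd_add' K L
  have h2 := cd_add' K L'
  have h3 : finrank (ZMod 2) (K ⊔ L' : Submodule (ZMod 2) V) ≤
      finrank (ZMod 2) (K ⊔ L : Submodule (ZMod 2) V) :=
    Submodule.finrank_mono (sup_le_sup_left h K)
  omega

theorem cd_mono_left {K K' : Submodule (ZMod 2) V} (L : Submodule (ZMod 2) V) (h : K ≤ K') :
    cd K' L ≤ cd K L := by
  have h1 := cd_add K L
  have h2 := cd_add K' L
  have h3 : finrank (ZMod 2) (K ⊓ L : Submodule (ZMod 2) V) ≤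
      finrank (ZMod 2) (K' ⊓ L : Submodule (ZMod 2) V) :=
    Submodule.finrank_mono (inf_le_inf_right L h)
  omega

/-- Only the part of `K` inside `L` matters. -/
theorem cd_le_of_inf {K K' L : Submodule (ZMod 2) V} (h : K ⊓ L ≤ K') : cd K' L ≤ cd K L := by
  have h1 := cd_add K L
  have h2 := cd_add K' L
  have h3 : finrank (ZMod 2) (K ⊓ L : Submodule (ZMod 2) V) ≤
      finrank (ZMod 2) (K' ⊓ L : Submodule (ZMod 2) V) :=
    Submodule.finrank_mono (le_inf h inf_le_right)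
  omega

theorem cd_sup (K L L' : Submodule (ZMod 2) V) : cd K (L ⊔ L') ≤ cd K L + cd K L' := by
  have h1 := cd_add' K L
  have h2 := cd_add' K L'
  have h3 := cd_add' K (L ⊔ L')
  have h4 := Submodule.finrank_sup_add_finrank_inf_eq (K ⊔ L) (K ⊔ L')
  have h5 : (K ⊔ L) ⊔ (K ⊔ L') = K ⊔ (L ⊔ L') := sup_sup_distrib_left K L L' ▸ rfl
  have h6 : finrank (ZMod 2) K ≤
      finrank (ZMod 2) ((K ⊔ L) ⊓ (K ⊔ L') : Submodule (ZMod 2) V) :=
    Submodule.finrank_mono (le_inf le_sup_left le_sup_left)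
  rw [h5] at h4
  omega

theorem cd_inf (K K' L : Submodule (ZMod 2) V) : cd (K ⊓ K') L ≤ cd K L + cd K' L := by
  have h1 := cd_add K L
  have h2 := cd_add K' L
  have h3 := cd_add (K ⊓ K') L
  have h4 := Submodule.finrank_sup_add_finrank_inf_eq (K ⊓ L) (K' ⊓ L)
  have h5 : (K ⊓ L) ⊓ (K' ⊓ L) = (K ⊓ K') ⊓ L := by
    rw [inf_inf_inf_comm, inf_idem]
  have h6 : finrank (ZMod 2) ((K ⊓ L) ⊔ (K' ⊓ L) : Submodule (ZMod 2) V) ≤
      finrank (ZMod 2) L :=
    Submodule.finrank_mono (sup_le inf_le_right inf_le_right)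
  rw [h5] at h4
  omega

theorem cd_trans (J K L : Submodule (ZMod 2) V) : cd J L ≤ cd J K + cd K L := by
  have h0 := cd_mono_right J (le_sup_right : L ≤ K ⊔ L)
  have h1 := cd_add' J (K ⊔ L)
  have h2 := cd_add' (J ⊔ K) L
  have h3 := cd_add' J K
  have h4 := cd_mono_left L (le_sup_right : K ≤ J ⊔ K)
  rw [sup_assoc] at h2
  omega

/-- enlarging both spaces by the same space -/
theorem cd_sup_sup (K L W : Submodule (ZMod 2) V) : cd (W ⊔ K) (W ⊔ L) ≤ cd K L := by
  refine (cd_sup _ _ _).trans ?_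
  rw [cd_eq_zero (le_sup_left : W ≤ W ⊔ K), zero_add]
  exact cd_mono_left _ le_sup_right

omit [Finite W] in
theorem finrank_map_add (f : V →ₗ[ZMod 2] W) (L : Submodule (ZMod 2) V) :
    finrank (ZMod 2) (L.map f) + finrank (ZMod 2) (L ⊓ LinearMap.ker f : Submodule (ZMod 2) V) =
      finrank (ZMod 2) L := by
  have h := LinearMap.finrank_range_add_finrank_ker (f.domRestrict L)
  have h1 : LinearMap.range (f.domRestrict L) = L.map f := by
    ext x
    simp [Submodule.mem_map]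
  have h2 : (LinearMap.ker (f.domRestrict L)).map L.subtype = L ⊓ LinearMap.ker f := by
    ext x
    simp only [Submodule.mem_map, LinearMap.mem_ker, LinearMap.domRestrict_apply,
      Submodule.subtype_apply, Subtype.exists, Submodule.mem_inf]
    constructor
    · rintro ⟨a, ha, h, rfl⟩
      exact ⟨ha, h⟩
    · rintro ⟨ha, h⟩
      exact ⟨x, ha, h, rfl⟩
  rw [h1] at h
  rw [← h2, Submodule.finrank_map_subtype_eq]
  exact h

/-- Images of subspaces. -/
theorem cd_map_le (f : V →ₗ[ZMod 2] W) {K L : Submodule (ZMod 2) V}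
    {K' L' : Submodule (ZMod 2) W} (hL : ∀ y ∈ L', ∃ x ∈ L, f x = y)
    (hK : ∀ x ∈ L, x ∈ K → f x ∈ K') : cd K' L' ≤ cd K L := by
  have h1 : cd K' L' ≤ cd K' (L.map f) := cd_mono_right _ (fun y hy => hL y hy)
  have h2 : cd K' (L.map f) ≤ cd ((K ⊓ L).map f) (L.map f) := by
    apply cd_mono_left
    rintro _ ⟨x, hx, rfl⟩
    exact hK x hx.2 hx.1
  have h3 := cd_add ((K ⊓ L).map f) (L.map f)
  rw [inf_eq_left.2 (Submodule.map_mono inf_le_right)] at h3
  have h4 := cd_add K L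
  have h5 := finrank_map_add f L
  have h6 := finrank_map_add f (K ⊓ L)
  have h7 : finrank (ZMod 2) ((K ⊓ L) ⊓ LinearMap.ker f : Submodule (ZMod 2) V) ≤
      finrank (ZMod 2) (L ⊓ LinearMap.ker f : Submodule (ZMod 2) V) :=
    Submodule.finrank_mono (inf_le_inf_right _ inf_le_right)
  omega

/-- Preimages of subspaces. -/
theorem cd_comap_le (f : W →ₗ[ZMod 2] V) {K L : Submodule (ZMod 2) V}
    {K' L' : Submodule (ZMod 2) W} (hL : ∀ x ∈ L', f x ∈ L)
    (hK : ∀ x ∈ L', f x ∈ K → x ∈ K') : cd K' L' ≤ cd K L := by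
  have h1 : cd K (L'.map f) ≤ cd K L := by
    apply cd_mono_right
    rintro _ ⟨x, hx, rfl⟩
    exact hL x hx
  refine le_trans ?_ h1
  have h2 := cd_add K (L'.map f)
  have h3 := cd_add K' L'
  have h4 := finrank_map_add f L'
  have h5 := finrank_map_add f (L' ⊓ K.comap f)
  have h6 : (L' ⊓ K.comap f).map f = K ⊓ L'.map f := by
    ext y
    constructor
    · rintro ⟨x, ⟨hx1, hx2⟩, rfl⟩
      exact ⟨hx2, x, hx1, rfl⟩
    · rintro ⟨hy, x, hx, rfl⟩
      exact ⟨x, ⟨hx, hy⟩, rfl⟩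
  have h7 : (L' ⊓ K.comap f) ⊓ LinearMap.ker f = L' ⊓ LinearMap.ker f := by
    ext x
    constructor
    · rintro ⟨⟨hx, -⟩, hk⟩
      exact ⟨hx, hk⟩
    · rintro ⟨hx, hk⟩
      refine ⟨⟨hx, ?_⟩, hk⟩
      show f x ∈ K
      rw [LinearMap.mem_ker.1 hk]
      exact K.zero_mem
  have h8 : finrank (ZMod 2) (L' ⊓ K.comap f : Submodule (ZMod 2) W) ≤
      finrank (ZMod 2) (K' ⊓ L' : Submodule (ZMod 2) W) :=
    Submodule.finrank_mono (fun x hx => ⟨hK x hx.1 hx.2, hx.1⟩)
  rw [h6, h7] at h5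
  omega

/-- If a space is covered by at most `2 ^ k` subspaces, one of them has codimension at most `k`. -/
theorem exists_cd_le {ι : Type*} [Finite ι] {k : ℕ} (hk : Nat.card ι ≤ 2 ^ k)
    (P : Submodule (ZMod 2) V) (PT : ι → Submodule (ZMod 2) V) (hc : ∀ p ∈ P, ∃ t, p ∈ PT t) :
    ∃ t, cd (PT t) P ≤ k := by
  classical
  by_contra hcon
  push Not at hcon
  have := Fintype.ofFinite ι
  have hcard : ∀ L : Submodule (ZMod 2) V, Nat.card L = 2 ^ finrank (ZMod 2) L := by
    intro L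
    have := Module.natCard_eq_pow_finrank (K := ZMod 2) (V := L)
    simpa using this
  have h1 : ∀ t, 2 ^ (k + 1) * Nat.card (PT t ⊓ P : Submodule (ZMod 2) V) ≤ Nat.card P := by
    intro t
    rw [hcard, hcard, ← pow_add]
    apply Nat.pow_le_pow_right (by norm_num)
    have := cd_add (PT t) P
    have := hcon t
    omega
  have h2 : Nat.card P ≤ ∑ t, Nat.card (PT t ⊓ P : Submodule (ZMod 2) V) := by
    rw [← Nat.card_sigma]
    apply Nat.card_le_card_of_surjective
      (f := fun x : (Σ t, (PT t ⊓ P : Submodule (ZMod 2) V)) =>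
        (⟨x.2.1, x.2.2.2⟩ : P))
    rintro ⟨p, hp⟩
    obtain ⟨t, ht⟩ := hc p hp
    exact ⟨⟨t, ⟨p, ht, hp⟩⟩, rfl⟩
  have h3 : 2 ^ (k + 1) * Nat.card P ≤ Nat.card ι * Nat.card P := by
    calc 2 ^ (k + 1) * Nat.card P
        ≤ 2 ^ (k + 1) * ∑ t, Nat.card (PT t ⊓ P : Submodule (ZMod 2) V) :=
          Nat.mul_le_mul_left _ h2
      _ = ∑ t, 2 ^ (k + 1) * Nat.card (PT t ⊓ P : Submodule (ZMod 2) V) := by
          rw [Finset.mul_sum]
      _ ≤ ∑ _t : ι, Nat.card P := Finset.sum_le_sum (fun t _ => h1 t)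
      _ = Nat.card ι * Nat.card P := by
          simp [Finset.card_univ, Nat.card_eq_fintype_card]
  have h4 : 0 < Nat.card P := Nat.card_pos
  have h5 : 2 ^ (k + 1) ≤ Nat.card ι := Nat.le_of_mul_le_mul_right h3 h4
  have h6 : 2 ^ k < 2 ^ (k + 1) := Nat.pow_lt_pow_right (by norm_num) (by omega)
  omega

end basic

end Pool.Agent.Hhelper2.Codim
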