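import Pool.Agent.Hhelper2.Good

/-!
# Decomposition of the core
-/

namespace Pool.Agent.Hhelper2

universe u v w

namespace QStr

/-- Products of isomorphisms. -/
def Iso.prodMap {S S' T T' : QStr.{u}} (f : Iso S S') (g : Iso T T') :
    Iso (S.prod T) (S'.prod T') where
  e := f.e.prodCongr g.e
  map_neg := Prod.ext f.map_neg g.map_neg
  map_split _ _ := and_congr (f.map_split _ _) (g.map_split _ _)

/-- Exchange of factors. -/
def swapIso (S T U : QStr.{u}) : Iso (S.prod (T.prod U)) (T.prod (S.prod U)) where
  e :=
    { toFun := fun x => (x.2.1, x.1, x.2.2)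
      invFun := fun x => (x.2.1, x.1, x.2.2)
      left_inv := fun _ => rfl
      right_inv := fun _ => rfl
      map_mul' := fun _ _ => rfl }
  map_neg := rfl
  map_split := by
    rintro ⟨a, b, c⟩ ⟨a', b', c'⟩
    exact ⟨fun h => ⟨h.2.1, h.1, h.2.2⟩, fun h => ⟨h.2.1, h.1, h.2.2⟩⟩

/-- The product over an option type. -/
def optIso {κ : Type v} (S : QStr.{u}) (E : κ → QStr.{u}) :
    Iso (S.prod (pi E)) (pi (fun o : Option κ => o.elim S E)) where
  e :=
    { toFun := fun x o => Option.rec (motive := fun o => ((o.elim S E : QStr.{u})).G) x.1 x.2 o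
      invFun := fun f => (f none, fun i => f (some i))
      left_inv := fun _ => rfl
      right_inv := by
        intro f
        funext o
        cases o <;> rfl
      map_mul' := by
        intro x y
        funext o
        cases o <;> rfl }
  map_neg := by
    funext o
    cases o <;> rfl
  map_split := by
    intro x y
    constructor
    · rintro ⟨h1, h2⟩ o
      cases o
      · exact h1
      · exact h2 _
    · intro h
      exact ⟨h none, fun i => h (some i)⟩

/-- The product over the empty type. -/
def emptyIso (S : QStr.{u}) (E : Empty → QStr.{u}) : Iso S (S.prod (pi E)) where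
  e :=
    { toFun := fun x => (x, fun i => i.elim)
      invFun := fun x => x.1
      left_inv := fun _ => rfl
      right_inv := by
        rintro ⟨x, f⟩
        exact Prod.ext rfl (funext fun i => i.elim)
      map_mul' := by
        intro x y
        exact Prod.ext rfl (funext fun i => i.elim) }
  map_neg := Prod.ext rfl (funext fun i => i.elim)
  map_split := by
    intro x y
    exact ⟨fun h => ⟨h, fun i => i.elim⟩, fun h => h.1⟩

/-- The trivial factor can be dropped. -/
def Iso.ofProdTrivial (S T : QStr.{u}) (hT : ∀ x : T.G, x = 1) (hS : T.Split 1 1) :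
    Iso (S.prod T) S where
  e :=
    { toFun := fun x => x.1
      invFun := fun x => (x, 1)
      left_inv := fun x => Prod.ext rfl (hT _).symm
      right_inv := fun _ => rfl
      map_mul' := fun _ _ => rfl }
  map_neg := rfl
  map_split := by
    rintro ⟨a, b⟩ ⟨a', b'⟩
    constructor
    · exact fun h => h.1
    · intro h
      refine ⟨h, ?_⟩
      show T.Split b b'
      rw [hT b, hT b']
      exact hS

end QStr

namespace SmallEl

open Module Submodule Codim

variable {V : Type u} {Q : Type v} [AddCommGroup V] [Module (ZMod 2) V]
  [AddCommGroup Q] [Module (ZMod 2) Q]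

/-- The quaternionic structure of a symbol. -/
def str (β : V →ₗ[ZMod 2] V →ₗ[ZMod 2] Q) (e : V) : QStr.{u} where
  G := Multiplicative V
  neg := Multiplicative.ofAdd e
  Split x y := β (Multiplicative.toAdd x) (Multiplicative.toAdd y) = 0

variable {β : V →ₗ[ZMod 2] V →ₗ[ZMod 2] Q} {e m : V} {q : Q}

/-- The product decomposition. -/
theorem prod_iso (symm : ∀ x y, β x y = β y x) {A W : Submodule (ZMod 2) V} (hc : IsCompl A W)
    (orth : ∀ a ∈ A, ∀ w ∈ W, β a w = 0)
    (ind : ∀ a ∈ A, ∀ w ∈ W, ∀ y z, β a y = β w z → β a y = 0)
    (a : A) (w : W) (he : e = a + w) :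
    Nonempty ((str β e).Iso ((str (res β A) a).prod (str (res β W) w))) := by
  let f : Multiplicative A × Multiplicative W →* Multiplicative V :=
    { toFun := fun x => Multiplicative.ofAdd ((Multiplicative.toAdd x.1 : A) +
        (Multiplicative.toAdd x.2 : W) : V)
      map_one' := by
        show Multiplicative.ofAdd (((0 : A) : V) + ((0 : W) : V)) = 1
        rw [ZeroMemClass.coe_zero, ZeroMemClass.coe_zero, add_zero]
        rfl
      map_mul' := by
        intro x y
        show Multiplicative.ofAdd ((((Multiplicative.toAdd x.1 : A) +
          (Multiplicative.toAdd y.1 : A) : A) : V) + (((Multiplicative.toAdd x.2 : W) +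
          (Multiplicative.toAdd y.2 : W) : W) : V)) = _
        rw [Submodule.coe_add, Submodule.coe_add, add_add_add_comm]
        rfl }
  have hf : Function.Bijective f := (Submodule.prodEquivOfIsCompl A W hc).bijective
  let F : ((str (res β A) a).prod (str (res β W) w)).Iso (str β e) :=
    { e := MulEquiv.ofBijective f hf
      map_neg := by
        show Multiplicative.ofAdd ((a : V) + w) = Multiplicative.ofAdd e
        rw [he]
      map_split := by
        rintro ⟨x1, x2⟩ ⟨y1, y2⟩
        have e1 := orth _ (Multiplicative.toAdd x1 : A).2 _ (Multiplicative.toAdd y2 : W).2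
        have e2 := orth _ (Multiplicative.toAdd y1 : A).2 _ (Multiplicative.toAdd x2 : W).2
        rw [symm] at e2
        show (β (Multiplicative.toAdd x1 : A) (Multiplicative.toAdd y1 : A) = 0 ∧
          β (Multiplicative.toAdd x2 : W) (Multiplicative.toAdd y2 : W) = 0) ↔
          β ((Multiplicative.toAdd x1 : A) + (Multiplicative.toAdd x2 : W) : V)
            ((Multiplicative.toAdd y1 : A) + (Multiplicative.toAdd y2 : W) : V) = 0
        constructor
        · rintro ⟨h1, h2⟩
          linear_combination (norm := ((try simp only [map_add, LinearMap.add_apply, map_smul, LinearMap.smul_apply]); match_scalars <;> (first | rfl | decide))) ((1 : ZMod 2) • (h1) + (1 : ZMod 2) • (h2) + (1 : ZMod 2) • (e1) + (1 : ZMod 2) • (e2))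
        · intro h
          have h3 : β (Multiplicative.toAdd x1 : A) (Multiplicative.toAdd y1 : A) =
              β (Multiplicative.toAdd x2 : W) (Multiplicative.toAdd y2 : W) := by
            linear_combination (norm := ((try simp only [map_add, LinearMap.add_apply, map_smul, LinearMap.smul_apply]); match_scalars <;> (first | rfl | decide))) ((1 : ZMod 2) • (h) + (1 : ZMod 2) • (e1) + (1 : ZMod 2) • (e2))
          have h4 := ind _ (Multiplicative.toAdd x1 : A).2 _ (Multiplicative.toAdd x2 : W).2 _ _ h3
          exact ⟨h4, h3 ▸ h4⟩ }
  exact ⟨F.symm⟩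

/-- The orthogonal of `m` in `A`. -/
def S0 (β : V →ₗ[ZMod 2] V →ₗ[ZMod 2] Q) (m : V) (A : Submodule (ZMod 2) V) :
    Submodule (ZMod 2) V := A ⊓ LinearMap.ker (β m)

/-- The extension factor is a group extension. -/
theorem ExtF.iso {A W : Submodule (ZMod 2) V} (X : ExtF β e m q A W) (P : Pre β e)
    (S : Sm β m q) (hc : IsCompl A W) (a : A) (w : W) (he : e = a + w)
    (ha : (a : V) ∈ S0 β m A) :
    Nonempty ((str (res β A) a).Iso (str (res β (S0 β m A)) ⟨a, ha⟩).ext) := by
  obtain ⟨t, htA, ht⟩ := X.t
  have hA0 : ∀ x : V, x ∈ A → x ∈ W → x = 0 := fun x h1 h2 =>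
    (Submodule.mem_bot _).1 (hc.disjoint.le_bot ⟨h1, h2⟩)
  have hS0A : ∀ s : S0 β m A, (s : V) ∈ A := fun s => s.2.1
  have hS0m : ∀ s : S0 β m A, β m (s : V) = 0 := fun s => s.2.2
  have key : ∀ i : ZMod 2, i = 0 ∨ i = 1 := by decide
  let f : Multiplicative (S0 β m A) × Multiplicative (ZMod 2) →* Multiplicative A :=
    { toFun := fun x => Multiplicative.ofAdd (⟨(Multiplicative.toAdd x.1 : S0 β m A) +
        (Multiplicative.toAdd x.2 : ZMod 2) • t, A.add_mem (hS0A _) (A.smul_mem _ htA)⟩ : A)
      map_one' := by
        apply Multiplicative.toAdd.injective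
        apply Subtype.ext
        show ((0 : S0 β m A) : V) + (0 : ZMod 2) • t = 0
        rw [zero_smul, add_zero, ZeroMemClass.coe_zero]
      map_mul' := by
        intro x y
        apply Multiplicative.toAdd.injective
        apply Subtype.ext
        show (((Multiplicative.toAdd x.1 : S0 β m A) + (Multiplicative.toAdd y.1 : S0 β m A) :
          S0 β m A) : V) + ((Multiplicative.toAdd x.2 : ZMod 2) +
            (Multiplicative.toAdd y.2 : ZMod 2)) • t =
          ((Multiplicative.toAdd x.1 : S0 β m A) + (Multiplicative.toAdd x.2 : ZMod 2) • t) +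
          ((Multiplicative.toAdd y.1 : S0 β m A) + (Multiplicative.toAdd y.2 : ZMod 2) • t)
        rw [Submodule.coe_add, add_smul, add_add_add_comm] }
  have hf : Function.Bijective f := by
    constructor
    · rw [injective_iff_map_eq_one]
      rintro ⟨s, i⟩ h
      have h1 : ((Multiplicative.toAdd s : S0 β m A) : V) +
        (Multiplicative.toAdd i : ZMod 2) • t = 0 := congrArg (fun x : Multiplicative A =>
          ((Multiplicative.toAdd x : A) : V)) h
      have h2 : (Multiplicative.toAdd i : ZMod 2) • q = 0 := by
        have := congrArg (β m) h1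
        rw [map_add, map_smul, ht, map_zero, hS0m, zero_add] at this
        exact this
      rcases key (Multiplicative.toAdd i) with h3 | h3
      · rw [h3, zero_smul, add_zero] at h1
        exact Prod.ext (Multiplicative.toAdd.injective (Subtype.ext h1))
          (Multiplicative.toAdd.injective h3)
      · rw [h3, one_smul] at h2
        exact absurd h2 S.q0
    · intro x
      rcases S.small ((Multiplicative.toAdd x : A) : V) with h | h
      · refine ⟨(Multiplicative.ofAdd ⟨(Multiplicative.toAdd x : A),
          (Multiplicative.toAdd x : A).2, h⟩, 1), ?_⟩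
        apply Multiplicative.toAdd.injective
        apply Subtype.ext
        show ((Multiplicative.toAdd x : A) : V) + (0 : ZMod 2) • t = _
        rw [zero_smul, add_zero]
      · refine ⟨(Multiplicative.ofAdd ⟨(Multiplicative.toAdd x : A) + t,
          A.add_mem (Multiplicative.toAdd x : A).2 htA, ?_⟩, Multiplicative.ofAdd 1), ?_⟩
        · show β m _ = 0
          linear_combination (norm := ((try simp only [map_add, LinearMap.add_apply, map_smul, LinearMap.smul_apply]); match_scalars <;> (first | rfl | decide))) ((1 : ZMod 2) • (h) + (1 : ZMod 2) • (ht))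
        · apply Multiplicative.toAdd.injective
          apply Subtype.ext
          show ((Multiplicative.toAdd x : A) : V) + t + (1 : ZMod 2) • t = _
          rw [one_smul, add_self_cancel]
  -- the four cases of the relation
  have r01 : ∀ s s' : S0 β m A, β (s : V) ((s' : V) + t) = 0 → s = 0 := by
    intro s s' h
    by_contra hs
    have h1 : (s : V) ∉ W := fun h2 => hs (Subtype.ext (hA0 _ (hS0A s) h2))
    have h2 := X.sf s (hS0A s) (hS0m s) h1 _ h
    exact S.ne ht (by linear_combination (norm := ((try simp only [map_add, LinearMap.add_apply, map_smul, LinearMap.smul_apply]); match_scalars <;> (first | rfl | decide))) ((1 : ZMod 2) • (h2) + (1 : ZMod 2) • (hS0m s')))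
  have r11 : ∀ s s' : S0 β m A, β ((s : V) + t) ((s' : V) + t) = 0 ↔ (s' : V) = a + s := by
    intro s s'
    have h1 : (s : V) + t ∈ A := A.add_mem (hS0A s) htA
    constructor
    · intro h
      rcases X.nt _ h1 (by linear_combination (norm := ((try simp only [map_add, LinearMap.add_apply, map_smul, LinearMap.smul_apply]); match_scalars <;> (first | rfl | decide))) ((1 : ZMod 2) • (hS0m s) + (1 : ZMod 2) • (ht))) _ h with h2 | h2
      · exfalso
        have h3 := hA0 _ (A.add_mem (hS0A s') htA) h2
        have h4 : β m ((s' : V) + t) = q := by linear_combination (norm := ((try simp only [map_add, LinearMap.add_apply, map_smul, LinearMap.smul_apply]); match_scalars <;> (first | rfl | decide))) ((1 : ZMod 2) • (hS0m s') + (1 : ZMod 2) • (ht))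
        rw [h3, map_zero] at h4
        exact S.q0 h4.symm
      · have h3 : (s' : V) + a + s ∈ W := by
          have h4 := W.add_mem h2 w.2
          have e1 : (s' : V) + t + (e + (s + t)) + w = s' + a + s := by
            linear_combination (norm := ((try simp only [map_add, LinearMap.add_apply, map_smul, LinearMap.smul_apply]); match_scalars <;> (first | rfl | decide))) ((1 : ZMod 2) • (he))
          rwa [e1] at h4
        have h4 := hA0 _ (A.add_mem (A.add_mem (hS0A s') a.2) (hS0A s)) h3
        linear_combination (norm := ((try simp only [map_add, LinearMap.add_apply, map_smul, LinearMap.smul_apply]); match_scalars <;> (first | rfl | decide))) ((1 : ZMod 2) • (h4))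
    · intro h
      have h2 := P.he ((s : V) + t)
      have h3 := X.orth _ h1 w w.2
      rw [h]
      rw [he] at h2
      linear_combination (norm := ((try simp only [map_add, LinearMap.add_apply, map_smul, LinearMap.smul_apply]); match_scalars <;> (first | rfl | decide))) ((1 : ZMod 2) • (h2) + (1 : ZMod 2) • (h3))
  let F : ((str (res β (S0 β m A)) ⟨a, ha⟩).ext).Iso (str (res β A) a) :=
    { e := MulEquiv.ofBijective f hf
      map_neg := by
        apply Multiplicative.toAdd.injective
        apply Subtype.ext
        show (a : V) + (0 : ZMod 2) • t = a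
        rw [zero_smul, add_zero]
      map_split := by
        have key' : ∀ i : Multiplicative (ZMod 2), i = 1 ∨ i = Multiplicative.ofAdd 1 := by decide
        have hne : (Multiplicative.ofAdd 1 : Multiplicative (ZMod 2)) ≠ 1 := by decide
        have hz : ∀ s : Multiplicative (S0 β m A),
            ((Multiplicative.toAdd s : S0 β m A) = 0 ↔ s = 1) := fun s => Iff.rfl
        rintro ⟨s, i⟩ ⟨s', i'⟩
        have hL : (str (res β A) a).Split (f (s, i)) (f (s', i')) ↔
          β ((Multiplicative.toAdd s : S0 β m A) + (Multiplicative.toAdd i : ZMod 2) • t : V)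
            ((Multiplicative.toAdd s' : S0 β m A) + (Multiplicative.toAdd i' : ZMod 2) • t : V)
              = 0 := Iff.rfl
        show _ ↔ (str (res β A) a).Split (f (s, i)) (f (s', i'))
        rw [hL]
        show ((i = 1 ∧ i' = 1 ∧ β (Multiplicative.toAdd s : S0 β m A)
          (Multiplicative.toAdd s' : S0 β m A) = 0) ∨ (s, i) = 1 ∨ (s', i') = 1 ∨
            (i ≠ 1 ∧ i' ≠ 1 ∧ s' = (str (res β (S0 β m A)) ⟨a, ha⟩).neg * s)) ↔ _
        rcases key' i with rfl | rfl <;> rcases key' i' with rfl | rfl
        · have e1 : (Multiplicative.toAdd (1 : Multiplicative (ZMod 2)) : ZMod 2) • t = 0 :=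
            zero_smul _ _
          rw [e1, add_zero, add_zero]
          constructor
          · rintro (h | h | h | h)
            · exact h.2.2
            · have h1 : s = 1 := congrArg Prod.fst h
              rw [h1]
              show β ((0 : S0 β m A) : V) _ = 0
              rw [ZeroMemClass.coe_zero, map_zero, LinearMap.zero_apply]
            · have h1 : s' = 1 := congrArg Prod.fst h
              rw [h1]
              show β _ ((0 : S0 β m A) : V) = 0
              rw [ZeroMemClass.coe_zero, map_zero]
            · exact absurd rfl h.1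
          · intro h
            exact Or.inl ⟨rfl, rfl, h⟩
        · have e1 : (Multiplicative.toAdd (1 : Multiplicative (ZMod 2)) : ZMod 2) • t = 0 :=
            zero_smul _ _
          have e2 : (Multiplicative.toAdd (Multiplicative.ofAdd 1 : Multiplicative (ZMod 2)) :
            ZMod 2) • t = t := one_smul _ _
          rw [e1, e2, add_zero]
          constructor
          · rintro (h | h | h | h)
            · exact absurd h.2.1 hne
            · have h1 : s = 1 := congrArg Prod.fst h
              rw [h1]
              show β ((0 : S0 β m A) : V) _ = 0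
              rw [ZeroMemClass.coe_zero, map_zero, LinearMap.zero_apply]
            · exact absurd (congrArg Prod.snd h) hne
            · exact absurd rfl h.1
          · intro h
            have h1 : s = 1 := r01 _ _ h
            right; left
            rw [h1]
            rfl
        · have e1 : (Multiplicative.toAdd (1 : Multiplicative (ZMod 2)) : ZMod 2) • t = 0 :=
            zero_smul _ _
          have e2 : (Multiplicative.toAdd (Multiplicative.ofAdd 1 : Multiplicative (ZMod 2)) :
            ZMod 2) • t = t := one_smul _ _
          rw [e1, e2, add_zero]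
          constructor
          · rintro (h | h | h | h)
            · exact absurd h.1 hne
            · exact absurd (congrArg Prod.snd h) hne
            · have h1 : s' = 1 := congrArg Prod.fst h
              rw [h1]
              show β _ ((0 : S0 β m A) : V) = 0
              rw [ZeroMemClass.coe_zero, map_zero]
            · exact absurd rfl h.2.1
          · intro h
            rw [P.symm] at h
            have h1 : s' = 1 := r01 _ _ h
            right; right; left
            rw [h1]
            rfl
        · have e2 : (Multiplicative.toAdd (Multiplicative.ofAdd 1 : Multiplicative (ZMod 2)) :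
            ZMod 2) • t = t := one_smul _ _
          rw [e2, r11]
          constructor
          · rintro (h | h | h | h)
            · exact absurd h.1 hne
            · exact absurd (congrArg Prod.snd h) hne
            · exact absurd (congrArg Prod.snd h) hne
            · rw [h.2.2]
              rfl
          · intro h
            right; right; right
            exact ⟨hne, hne, Multiplicative.toAdd.injective (Subtype.ext h)⟩ }
  exact ⟨F.symm⟩

/-- Group extensions of structures with nontrivial radical, with bounds. -/
def IsE (Q : Type v) [AddCommGroup Q] [Module (ZMod 2) Q] (N : ℕ) (E : QStr.{u}) : Prop :=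
  ∃ (V' : Type u) (_ : AddCommGroup V') (_ : Module (ZMod 2) V')
    (β' : V' →ₗ[ZMod 2] V' →ₗ[ZMod 2] Q) (e' : V'), Finite V' ∧ (∀ x y, β' x y = β' y x) ∧
    (∀ x, β' x x = β' x e') ∧ (∃ r ≠ 0, ∀ x, β' r x = 0) ∧ Nat.card V' ≤ N ∧
    Nonempty (E.Iso (str β' e').ext)

theorem core_decomp [Finite Q] (N : ℕ) (n : ℕ) : ∀ (V : Type u) [AddCommGroup V]
    [Module (ZMod 2) V] [Finite V] (β : V →ₗ[ZMod 2] V →ₗ[ZMod 2] Q) (e : V) (_ : Good β e)
    (_ : ∀ x, (∀ y, β x y = 0) → x = 0)
    (_ : ∀ q ≠ 0, ∀ u ∈ Lq β q, ∀ n ∈ Lq β q, β u n ≠ q)
    (_ : ∀ a, Nat.card (LinearMap.range (β a)) ≤ N) (_ : finrank (ZMod 2) V ≤ n),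
    ∃ (κ : Type) (_ : Finite κ) (V' : Type u) (_ : AddCommGroup V') (_ : Module (ZMod 2) V')
      (_ : Finite V') (β' : V' →ₗ[ZMod 2] V' →ₗ[ZMod 2] Q) (e' : V') (E : κ → QStr.{u}),
      Good β' e' ∧ (∀ x, (∀ y, β' x y = 0) → x = 0) ∧ (∀ m q, ¬ Sm β' m q) ∧
      (∀ a, Nat.card (LinearMap.range (β' a)) ≤ N) ∧ (∀ i, IsE Q N (E i)) ∧
      Nonempty ((str β e).Iso ((str β' e').prod (QStr.pi E))) := by
  induction n with
  | zero =>
    intro V _ _ _ β e G hnd hN hr hn
    refine ⟨Empty, inferInstance, V, inferInstance, inferInstance, inferInstance, β, e,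
      fun i => i.elim, G, hnd, ?_, hr, fun i => i.elim, ⟨QStr.emptyIso _ _⟩⟩
    intro m q S
    have h0 := Module.finrank_zero_iff.1 (Nat.le_zero.1 hn)
    obtain ⟨y, hy⟩ := S.ex
    have : m = 0 := Subsingleton.elim _ _
    rw [this, map_zero, LinearMap.zero_apply] at hy
    exact S.q0 hy.symm
  | succ n ih =>
    intro V _ _ _ β e G hnd hN hr hn
    by_cases hS : ∃ m q, Sm β m q
    · obtain ⟨m, q, S⟩ := hS
      obtain ⟨A, W, X⟩ := exists_extF G.toPre S (G.tw m q S) (hN q S.q0)
      have hdisj : Disjoint A W := by
        rw [Submodule.disjoint_def]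
        intro x hA hW
        apply hnd
        intro y
        have : y ∈ A ⊔ W := by rw [X.sup]; trivial
        obtain ⟨a, ha, w, hw, rfl⟩ := Submodule.mem_sup.1 this
        rw [map_add, X.orth x hA w hw, add_zero, G.symm, X.orth a ha x hW]
      have hc : IsCompl A W := ⟨hdisj, codisjoint_iff.2 X.sup⟩
      have hFA : Fac β A := fac_of_sup X.sup X.orth
      have horth' : ∀ w ∈ W, ∀ a ∈ A, β w a = 0 := fun w hw a ha => by
        rw [G.symm]; exact X.orth a ha w hw
      have hFW : Fac β W := fac_of_sup (by rw [sup_comm]; exact X.sup) horth'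
      obtain ⟨a, ha, w, hw, hew⟩ : ∃ a ∈ A, ∃ w ∈ W, a + w = e := by
        have : e ∈ A ⊔ W := by rw [X.sup]; trivial
        obtain ⟨a, ha, w, hw, h⟩ := Submodule.mem_sup.1 this
        exact ⟨a, ha, w, hw, h⟩
      have hmm : β m m = 0 := by
        rcases S.small m with h | h
        · exact h
        · exact absurd h (hN q S.q0 m S.small m S.small)
      have haS0 : a ∈ S0 β m A := by
        refine ⟨ha, ?_⟩
        have h1 := G.he m
        have h2 := X.orth m X.mA w hw
        rw [← hew] at h1
        show β m a = 0
        linear_combination (norm := ((try simp only [map_add, LinearMap.add_apply, map_smul, LinearMap.smul_apply]); match_scalars <;> (first | rfl | decide))) ((1 : ZMod 2) • (h1) + (1 : ZMod 2) • (h2) + (1 : ZMod 2) • (hmm))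
      have GW : Good (res β W) ⟨w, hw⟩ := by
        apply hFW.good G
        intro b
        show β b e = β b w
        rw [← hew, map_add, horth' b b.2 a ha, zero_add]
      have hm0 : m ≠ 0 := by
        rintro rfl
        obtain ⟨y, hy⟩ := S.ex
        rw [map_zero, LinearMap.zero_apply] at hy
        exact S.q0 hy.symm
      have hlt : finrank (ZMod 2) W ≤ n := by
        have h1 : W < ⊤ := by
          rw [lt_top_iff_ne_top]
          intro h
          apply hm0
          exact (Submodule.disjoint_def.1 hdisj) m X.mA (by rw [h]; trivial)
        have h2 := Submodule.finrank_lt h1.ne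
        omega
      obtain ⟨κ, _, V', _, _, _, β', e', E, hG', hnd', hs', hr', hE, ⟨iso⟩⟩ :=
        ih W (res β W) ⟨w, hw⟩ GW
          (by
            intro x hx
            apply Subtype.ext
            apply hnd
            intro y
            obtain ⟨y', hy'⟩ := hFW y
            rw [hy' x]
            exact hx y')
          (by
            intro r hr u hu v hv
            refine hN r hr u ?_ v ?_
            · intro y
              obtain ⟨y', hy'⟩ := hFW y
              rw [hy' u]
              exact hu y'
            · intro y
              obtain ⟨y', hy'⟩ := hFW y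
              rw [hy' v]
              exact hv y')
          (by
            intro b
            rw [hFW.range_eq]
            exact hr b)
          hlt
      have hEA : IsE Q N (str (res β A) ⟨a, ha⟩) := by
        refine ⟨S0 β m A, inferInstance, inferInstance, res β (S0 β m A), ⟨a, haS0⟩,
          inferInstance, fun x y => G.symm _ _, ?_, ?_, ?_,
          X.iso G.toPre S hc ⟨a, ha⟩ ⟨w, hw⟩ hew.symm haS0⟩
        · intro x
          show β x x = β x a
          rw [G.he, ← hew, map_add, X.orth x x.2.1 w hw, add_zero]
        · refine ⟨⟨m, X.mA, hmm⟩, ?_, ?_⟩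
          · intro h
            exact hm0 (congrArg Subtype.val h)
          · intro x
            exact x.2.2
        · obtain ⟨t, htA, ht⟩ := X.t
          refine le_trans ?_ (hr t)
          have hinj : Function.Injective (fun x : S0 β m A => (⟨β t x, x, rfl⟩ :
              LinearMap.range (β t))) := by
            intro x y h
            have h1 : β t x = β t y := congrArg Subtype.val h
            have h2 : β ((x : V) + y) t = 0 := by
              linear_combination (norm := ((try simp only [map_add, LinearMap.add_apply, map_smul, LinearMap.smul_apply]); match_scalars <;> (first | rfl | decide))) ((1 : ZMod 2) • (h1) + (1 : ZMod 2) • (G.symm x t) + (1 : ZMod 2) • (G.symm y t))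
            have h3 : β m ((x : V) + y) = 0 := by
              have e1 : β m x = 0 := x.2.2
              have e2 : β m y = 0 := y.2.2
              linear_combination (norm := ((try simp only [map_add, LinearMap.add_apply, map_smul, LinearMap.smul_apply]); match_scalars <;> (first | rfl | decide))) ((1 : ZMod 2) • (e1) + (1 : ZMod 2) • (e2))
            have h4 : (x : V) + y ∈ A := A.add_mem x.2.1 y.2.1
            by_cases h5 : (x : V) + y ∈ W
            · have h6 := (Submodule.disjoint_def.1 hdisj) _ h4 h5
              exact Subtype.ext (eq_of_add_eq_zero h6)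
            · exact absurd (X.sf _ h4 h3 h5 t h2) (S.ne ht)
          exact Nat.card_le_card_of_injective _ hinj
      obtain ⟨iso1⟩ := prod_iso G.symm hc X.orth X.ind ⟨a, ha⟩ ⟨w, hw⟩ hew.symm
      refine ⟨Option κ, inferInstance, V', inferInstance, inferInstance, inferInstance, β', e',
        fun o => o.elim (str (res β A) ⟨a, ha⟩) E, hG', hnd', hs', hr', ?_, ?_⟩
      · intro o
        cases o
        · exact hEA
        · exact hE _
      · exact ⟨((iso1.trans ((QStr.Iso.refl _).prodMap iso)).trans (QStr.swapIso _ _ _)).trans
          ((QStr.Iso.refl _).prodMap (QStr.optIso _ _))⟩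
    · push Not at hS
      exact ⟨Empty, inferInstance, V, inferInstance, inferInstance, inferInstance, β, e,
        fun i => i.elim, G, hnd, hS, hr, fun i => i.elim, ⟨QStr.emptyIso _ _⟩⟩

end SmallEl

end Pool.Agent.Hhelper2
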