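import Pool.Agent.Hhelper2.Abs

/-!
# Bilinear symbols with the common slot property

`β : V × V → Q` is a symmetric bilinear map of finite spaces over the field with two elements such
that two equal values `β a b = β c d` have a common slot `w`, `β a w = β a b = β c w`.  The
elements `x` for which `β x` has at most one nonzero value generate a subspace of bounded
codimension, and `V` is the orthogonal direct sum of a bounded subspace, of hyperbolic planes and of
a subspace of the radical.
-/

namespace Pool.Agent.Hhelper2.Codim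

open Module Submodule

universe u v

variable {V : Type u} {Q : Type v} [AddCommGroup V] [Module (ZMod 2) V] [Finite V]
  [AddCommGroup Q] [Module (ZMod 2) Q] [Finite Q]

omit [Finite Q] in
/-- gluing functionals which agree on the intersection of two subspaces -/
theorem glue_functional (U W : Submodule (ZMod 2) Q) (B C : Dual (ZMod 2) Q)
    (h : ∀ q ∈ U, q ∈ W → B q = C q) :
    ∃ D : Dual (ZMod 2) Q, (∀ q ∈ U, D q = B q) ∧ (∀ q ∈ W, D q = C q) := by
  have h1 : B - C ∈ (U ⊓ W).dualAnnihilator := by
    rw [mem_dualAnnihilator]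
    intro q hq
    rw [LinearMap.sub_apply, h q hq.1 hq.2, sub_self]
  rw [Subspace.dualAnnihilator_inf_eq] at h1
  obtain ⟨f, hf, g, hg, hfg⟩ := Submodule.mem_sup.1 h1
  rw [mem_dualAnnihilator] at hf hg
  refine ⟨B - f, ?_, ?_⟩
  · intro q hq
    rw [LinearMap.sub_apply, hf q hq, sub_zero]
  · intro q hq
    have : B - f = C + g := by
      have : B = f + g + C := by rw [hfg]; abel
      rw [this]; abel
    rw [this, LinearMap.add_apply, hg q hq, add_zero]

omit [Finite Q] in
/-- separating two different nonzero vectors -/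
theorem exists_sep {q q' : Q} (hq' : q' ≠ 0) (hne : q' ≠ q) :
    ∃ B : Dual (ZMod 2) Q, B q' = 1 ∧ B q = 0 := by
  have hmem : q' ∉ span (ZMod 2) {q} := by
    rw [mem_span_singleton]
    rintro ⟨c, rfl⟩
    have key : ∀ c : ZMod 2, c = 0 ∨ c = 1 := by decide
    rcases key c with rfl | rfl
    · simp at hq'
    · simp at hne
  obtain ⟨f, hf, hk⟩ := Submodule.exists_le_ker_of_notMem hmem
  refine ⟨f, ?_, hk (mem_span_singleton_self q)⟩
  have : ∀ c : ZMod 2, c ≠ 0 → c = 1 := by decide
  exact this _ hf

/-- The elements `x` for which `β x` has at most one nonzero value. -/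
def Small (β : V →ₗ[ZMod 2] V →ₗ[ZMod 2] Q) : Set V := {x | ∃ q, ∀ y, β x y = 0 ∨ β x y = q}

theorem small_span (β : V →ₗ[ZMod 2] V →ₗ[ZMod 2] Q) (symm : ∀ x y, β x y = β y x)
    (cs : ∀ a b c d, β a b = β c d → ∃ w, β a w = β a b ∧ β c w = β a b) {k : ℕ}
    (hk : finrank (ZMod 2) Q ≤ k) :
    finrank (ZMod 2) V ≤ finrank (ZMod 2) (span (ZMod 2) (Small β)) + bnd k k 0 := by
  let F : Dual (ZMod 2) Q →ₗ[ZMod 2] V →ₗ[ZMod 2] Dual (ZMod 2) V :=
    { toFun := fun B => β.compr₂ B
      map_add' := by
        intro B C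
        ext x y
        simp
      map_smul' := by
        intro c B
        ext x y
        simp }
  have hF : ∀ B x y, F B x y = B (β x y) := fun B x y => rfl
  have h1 := main_bound F k (by rw [Subspace.dual_finrank_eq]; exact hk)
    (by
      intro B x y
      rw [hF, hF, symm])
    (by
      intro B C x z h
      have hag : ∀ q ∈ LinearMap.range (β x), q ∈ LinearMap.range (β z) → B q = C q := by
        rintro _ ⟨y, rfl⟩ ⟨y', hy'⟩
        obtain ⟨w, hw1, hw2⟩ := cs x y z y' hy'.symm
        have h3 := LinearMap.congr_fun h w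
        rw [hF, hF, hw1, hw2] at h3
        exact h3
      obtain ⟨D, hD1, hD2⟩ := glue_functional _ _ B C hag
      refine ⟨D, ?_, ?_⟩
      · ext y
        rw [hF, hF]
        exact hD1 _ ⟨y, rfl⟩
      · ext y
        rw [hF, hF]
        exact hD2 _ ⟨y, rfl⟩)
  have h2 : Good F ⊆ Small β := by
    intro x hx
    by_cases h0 : ∀ y, β x y = 0
    · exact ⟨0, fun y => Or.inl (h0 y)⟩
    push Not at h0
    obtain ⟨y0, hy0⟩ := h0
    refine ⟨β x y0, fun y => ?_⟩
    by_contra hcon
    push Not at hcon
    obtain ⟨B, hB1, hB2⟩ := exists_sep hcon.1 hcon.2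
    obtain ⟨C, hC1, hC2⟩ := exists_sep hy0 (Ne.symm hcon.2)
    rcases hx B C with h | h | h
    · have := LinearMap.congr_fun h y
      rw [hF, hB1] at this
      exact one_ne_zero this
    · have := LinearMap.congr_fun h y0
      rw [hF, hC1] at this
      exact one_ne_zero this
    · have := LinearMap.congr_fun h y
      rw [hF, hF, hB1, hC2] at this
      exact one_ne_zero this
  have h3 : finrank (ZMod 2) (span (ZMod 2) (Good F)) ≤
      finrank (ZMod 2) (span (ZMod 2) (Small β)) := Submodule.finrank_mono (span_mono h2)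
  omega

/-- Orthogonal families of hyperbolic pairs of small elements. -/
structure Fam (β : V →ₗ[ZMod 2] V →ₗ[ZMod 2] Q) {ι : Type*} (u v : ι → V) (q : ι → Q) : Prop where
  uu : ∀ i j, β (u i) (u j) = 0
  vv : ∀ i j, β (v i) (v j) = 0
  uv : ∀ i, β (u i) (v i) = q i
  uv' : ∀ i j, i ≠ j → β (u i) (v j) = 0
  q0 : ∀ i, q i ≠ 0
  hu : ∀ i y, β (u i) y = 0 ∨ β (u i) y = q i
  hv : ∀ i y, β (v i) y = 0 ∨ β (v i) y = q i

/-- The orthogonal complement of a family. -/
def perp (β : V →ₗ[ZMod 2] V →ₗ[ZMod 2] Q) {ι : Type*} (u v : ι → V) : Submodule (ZMod 2) V where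
  carrier := {x | ∀ i, β (u i) x = 0 ∧ β (v i) x = 0}
  add_mem' := by
    intro a b ha hb i
    rw [map_add, map_add, (ha i).1, (ha i).2, (hb i).1, (hb i).2, add_zero]
    exact ⟨rfl, rfl⟩
  zero_mem' := fun i => ⟨map_zero _, map_zero _⟩
  smul_mem' := by
    intro c x hx i
    rw [map_smul, map_smul, (hx i).1, (hx i).2, smul_zero]
    exact ⟨rfl, rfl⟩

/-- The coefficient of a value. -/
noncomputable def coef (x : Q) : ZMod 2 := by
  classical exact if x = 0 then 0 else 1

omit [Finite Q] in
theorem coef_smul {x q : Q} (h : x = 0 ∨ x = q) : coef x • q = x := by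
  unfold coef
  split_ifs with h0
  · rw [zero_smul, h0]
  · rcases h with h | h
    · exact absurd h h0
    · rw [one_smul, h]

section fam

variable {β : V →ₗ[ZMod 2] V →ₗ[ZMod 2] Q} {ι : Type*} [Fintype ι] {u v : ι → V} {q : ι → Q}

omit [Finite V] [Finite Q] in
theorem Fam.beta_u (h : Fam β u v q) {p : V}
    (hp : p ∈ perp β u v) (a c : ι → ZMod 2) (j : ι) :
    β (u j) (p + ∑ i, a i • u i + ∑ i, c i • v i) = c j • q j := by
  classical
  rw [map_add, map_add, (hp j).1, zero_add, map_sum, map_sum]
  rw [Finset.sum_eq_zero, zero_add, Finset.sum_eq_single j]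
  · rw [map_smul, h.uv]
  · intro i _ hij
    rw [map_smul, h.uv' j i (Ne.symm hij), smul_zero]
  · intro hj
    exact absurd (Finset.mem_univ j) hj
  · intro i _
    rw [map_smul, h.uu, smul_zero]

omit [Finite V] [Finite Q] in
theorem Fam.beta_v (h : Fam β u v q) (symm : ∀ x y, β x y = β y x) {p : V}
    (hp : p ∈ perp β u v) (a c : ι → ZMod 2) (j : ι) :
    β (v j) (p + ∑ i, a i • u i + ∑ i, c i • v i) = a j • q j := by
  classical
  rw [map_add, map_add, (hp j).2, zero_add, map_sum, map_sum]
  rw [Finset.sum_eq_single j, map_smul, symm, h.uv, Finset.sum_eq_zero, add_zero]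
  · intro i _
    rw [map_smul, h.vv, smul_zero]
  · intro i _ hij
    rw [map_smul, symm, h.uv' i j hij, smul_zero]
  · intro hj
    exact absurd (Finset.mem_univ j) hj

omit [Finite V] [Finite Q] in
/-- every vector decomposes -/
theorem Fam.exists_decomp (h : Fam β u v q) (symm : ∀ x y, β x y = β y x) (x : V) :
    x + ∑ i, coef (β (v i) x) • u i + ∑ i, coef (β (u i) x) • v i ∈ perp β u v := by
  classical
  intro j
  constructor
  · rw [map_add, map_add, map_sum, map_sum]
    rw [Finset.sum_eq_zero, add_zero, Finset.sum_eq_single j]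
    · rw [map_smul, h.uv, coef_smul (h.hu j x)]
      exact add_self _
    · intro i _ hij
      rw [map_smul, h.uv' j i (Ne.symm hij), smul_zero]
    · intro hj
      exact absurd (Finset.mem_univ j) hj
    · intro i _
      rw [map_smul, h.uu, smul_zero]
  · rw [map_add, map_add, map_sum, map_sum]
    rw [Finset.sum_eq_single j, map_smul, symm (v j) (u j), h.uv, coef_smul (h.hv j x)]
    · rw [Finset.sum_eq_zero, add_zero]
      · exact add_self _
      · intro i _
        rw [map_smul, h.vv, smul_zero]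
    · intro i _ hij
      rw [map_smul, symm (v j) (u i), h.uv' i j hij, smul_zero]
    · intro hj
      exact absurd (Finset.mem_univ j) hj

omit [Finite V] [Finite Q] in
theorem Fam.exists_decomp' (h : Fam β u v q) (symm : ∀ x y, β x y = β y x) (x : V) :
    ∃ p ∈ perp β u v, ∃ a c : ι → ZMod 2, x = p + ∑ i, a i • u i + ∑ i, c i • v i := by
  refine ⟨_, h.exists_decomp symm x, fun i => coef (β (v i) x), fun i => coef (β (u i) x), ?_⟩
  have e : ∀ (x s t : V), x = x + s + t + s + t := by
    intro x s t
    have : x + s + t + s + t = x + (s + s) + (t + t) := by abel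
    rw [this, add_self, add_self, add_zero, add_zero]
  exact e x _ _

omit [Finite V] [Finite Q] in
theorem Fam.unique_decomp (h : Fam β u v q) (symm : ∀ x y, β x y = β y x) {p p' : V}
    (hp : p ∈ perp β u v) (hp' : p' ∈ perp β u v) {a c a' c' : ι → ZMod 2}
    (he : p + ∑ i, a i • u i + ∑ i, c i • v i = p' + ∑ i, a' i • u i + ∑ i, c' i • v i) :
    p = p' ∧ a = a' ∧ c = c' := by
  have hinj : ∀ j (s t : ZMod 2), s • q j = t • q j → s = t := by
    intro j s t hst
    have key : ∀ c : ZMod 2, c = 0 ∨ c = 1 := by decide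
    rcases key s with rfl | rfl <;> rcases key t with rfl | rfl
    · rfl
    · rw [zero_smul, one_smul] at hst
      exact absurd hst.symm (h.q0 j)
    · rw [zero_smul, one_smul] at hst
      exact absurd hst (h.q0 j)
    · rfl
  have hc : c = c' := by
    funext j
    apply hinj j
    rw [← h.beta_u hp a c j, he, h.beta_u hp' a' c' j]
  have ha : a = a' := by
    funext j
    apply hinj j
    rw [← h.beta_v symm hp a c j, he, h.beta_v symm hp' a' c' j]
  subst hc ha
  exact ⟨add_right_cancel (add_right_cancel he), rfl, rfl⟩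

/-- The span of the members of a family. -/
def Fam.hyp (_ : Fam β u v q) : Submodule (ZMod 2) V :=
  span (ZMod 2) (Set.range u ∪ Set.range v)

omit [Finite V] [Finite Q] in
theorem Fam.sum_mem (h : Fam β u v q) (a c : ι → ZMod 2) :
    ∑ i, a i • u i + ∑ i, c i • v i ∈ h.hyp := by
  apply Submodule.add_mem
  · apply Submodule.sum_mem
    intro i _
    exact Submodule.smul_mem _ _ (subset_span (Or.inl ⟨i, rfl⟩))
  · apply Submodule.sum_mem
    intro i _
    exact Submodule.smul_mem _ _ (subset_span (Or.inr ⟨i, rfl⟩))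

omit [Finite V] [Finite Q] in
theorem Fam.sup_eq_top (h : Fam β u v q) (symm : ∀ x y, β x y = β y x) :
    h.hyp ⊔ perp β u v = ⊤ := by
  rw [eq_top_iff]
  intro x _
  obtain ⟨p, hp, a, c, hx⟩ := h.exists_decomp' symm x
  rw [hx, add_assoc, add_comm]
  exact Submodule.add_mem_sup (h.sum_mem a c) hp

omit [Finite V] [Finite Q] [Fintype ι] in
theorem Fam.beta_hyp (h : Fam β u v q) (symm : ∀ x y, β x y = β y x) {x p : V}
    (hx : x ∈ h.hyp) (hp : p ∈ perp β u v) : β x p = 0 := by
  have : h.hyp ≤ LinearMap.ker (β p) := by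
    apply span_le.2
    rintro _ (⟨i, rfl⟩ | ⟨i, rfl⟩)
    · show β p (u i) = 0
      rw [symm]; exact (hp i).1
    · show β p (v i) = 0
      rw [symm]; exact (hp i).2
  rw [symm]
  exact this hx

omit [Finite V] [Finite Q] in
theorem Fam.inf_eq_bot (h : Fam β u v q) (symm : ∀ x y, β x y = β y x) :
    h.hyp ⊓ perp β u v = ⊥ := by
  classical
  rw [eq_bot_iff]
  rintro x ⟨hx, hp⟩
  -- write `x` as a combination
  have hc : ∀ x ∈ h.hyp, ∃ a c : ι → ZMod 2, x = ∑ i, a i • u i + ∑ i, c i • v i := by
    intro x hx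
    refine Submodule.span_induction ?_ ?_ ?_ ?_ hx
    · rintro _ (⟨i, rfl⟩ | ⟨i, rfl⟩)
      · refine ⟨Pi.single i 1, 0, ?_⟩
        rw [Finset.sum_eq_single i]
        · simp
        · intro j _ hj
          rw [Pi.single_eq_of_ne hj, zero_smul]
        · intro hi
          exact absurd (Finset.mem_univ i) hi
      · refine ⟨0, Pi.single i 1, ?_⟩
        rw [Finset.sum_eq_single (s := Finset.univ) (f := fun j => (Pi.single i 1 : ι → ZMod 2) j •
          v j) i]
        · simp
        · intro j _ hj
          rw [Pi.single_eq_of_ne hj, zero_smul]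
        · intro hi
          exact absurd (Finset.mem_univ i) hi
    · exact ⟨0, 0, by simp⟩
    · rintro x y _ _ ⟨a, c, rfl⟩ ⟨a', c', rfl⟩
      refine ⟨a + a', c + c', ?_⟩
      simp only [Pi.add_apply, add_smul, Finset.sum_add_distrib]
      abel
    · rintro t x _ ⟨a, c, rfl⟩
      refine ⟨t • a, t • c, ?_⟩
      simp only [Pi.smul_apply, smul_add, Finset.smul_sum, smul_assoc]
  obtain ⟨a, c, hxa⟩ := hc x hx
  have h0 : (0 : V) ∈ perp β u v := Submodule.zero_mem _
  have he : (0 : V) + ∑ i, a i • u i + ∑ i, c i • v i =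
      x + ∑ i, (0 : ι → ZMod 2) i • u i + ∑ i, (0 : ι → ZMod 2) i • v i := by
    simp only [Pi.zero_apply, zero_smul, Finset.sum_const_zero, add_zero, zero_add]
    exact hxa.symm
  obtain ⟨h1, -, -⟩ := h.unique_decomp symm h0 hp he
  exact h1.symm

end fam

/-- The small elements whose values are `0` or `q`. -/
def Lq (β : V →ₗ[ZMod 2] V →ₗ[ZMod 2] Q) (q : Q) : Submodule (ZMod 2) V where
  carrier := {x | ∀ y, β x y = 0 ∨ β x y = q}
  add_mem' := by
    intro a b ha hb y
    rw [map_add, LinearMap.add_apply]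
    rcases ha y with h1 | h1 <;> rcases hb y with h2 | h2 <;> rw [h1, h2]
    · left; rw [add_zero]
    · right; rw [zero_add]
    · right; rw [add_zero]
    · left; exact add_self q
  zero_mem' := fun y => Or.inl (by rw [map_zero, LinearMap.zero_apply])
  smul_mem' := by
    intro c x hx y
    have key : ∀ c : ZMod 2, c = 0 ∨ c = 1 := by decide
    rw [map_smul, LinearMap.smul_apply]
    rcases key c with rfl | rfl
    · left; rw [zero_smul]
    · rw [one_smul]; exact hx y

section final

variable {β : V →ₗ[ZMod 2] V →ₗ[ZMod 2] Q}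

omit [Finite V] [Finite Q] in
theorem Fam.injective {ι : Type*} {u v : ι → V} {q : ι → Q} (h : Fam β u v q) :
    Function.Injective u := by
  intro i j hij
  by_contra hne
  have h1 := h.uv' i j hne
  rw [hij, h.uv j] at h1
  exact h.q0 j h1

omit [Finite V] [Finite Q] in
theorem Fam.extend {n : ℕ} {u v : Fin n → V} {q : Fin n → Q} (h : Fam β u v q)
    (symm : ∀ x y, β x y = β y x) {x y : V} (hx : x ∈ perp β u v) (hy : y ∈ perp β u v)
    (hxx : β x x = 0) (hyy : β y y = 0) (hxy : β x y ≠ 0) (hxL : x ∈ Lq β (β x y))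
    (hyL : y ∈ Lq β (β x y)) :
    Fam β (Fin.cons x u : Fin (n + 1) → V) (Fin.cons y v : Fin (n + 1) → V)
      (Fin.cons (β x y) q : Fin (n + 1) → Q) where
  uu := by
    intro i j
    refine Fin.cases ?_ (fun i => ?_) i <;> refine Fin.cases ?_ (fun j => ?_) j
    · exact hxx
    · simp only [Fin.cons_zero, Fin.cons_succ]
      rw [symm]; exact (hx j).1
    · simp only [Fin.cons_zero, Fin.cons_succ]
      exact (hx i).1
    · simp only [Fin.cons_succ]
      exact h.uu i j
  vv := by
    intro i j
    refine Fin.cases ?_ (fun i => ?_) i <;> refine Fin.cases ?_ (fun j => ?_) j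
    · exact hyy
    · simp only [Fin.cons_zero, Fin.cons_succ]
      rw [symm]; exact (hy j).2
    · simp only [Fin.cons_zero, Fin.cons_succ]
      exact (hy i).2
    · simp only [Fin.cons_succ]
      exact h.vv i j
  uv := by
    intro i
    refine Fin.cases ?_ (fun i => ?_) i
    · rfl
    · simp only [Fin.cons_succ]
      exact h.uv i
  uv' := by
    intro i j
    refine Fin.cases ?_ (fun i => ?_) i <;> refine Fin.cases ?_ (fun j => ?_) j
    · intro hne; exact absurd rfl hne
    · intro _
      simp only [Fin.cons_zero, Fin.cons_succ]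
      rw [symm]; exact (hx j).2
    · intro _
      simp only [Fin.cons_zero, Fin.cons_succ]
      exact (hy i).1
    · intro hne
      simp only [Fin.cons_succ]
      exact h.uv' i j (fun he => hne (by rw [he]))
  q0 := by
    intro i
    refine Fin.cases ?_ (fun i => ?_) i
    · exact hxy
    · simp only [Fin.cons_succ]
      exact h.q0 i
  hu := by
    intro i z
    refine Fin.cases ?_ (fun i => ?_) i
    · exact hxL z
    · simp only [Fin.cons_succ]
      exact h.hu i z
  hv := by
    intro i z
    refine Fin.cases ?_ (fun i => ?_) i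
    · exact hyL z
    · simp only [Fin.cons_succ]
      exact h.hv i z

theorem cd_finset_sup {ι : Type*} (s : Finset ι) (K : Submodule (ZMod 2) V)
    (L : ι → Submodule (ZMod 2) V) {c : ℕ} (hc : ∀ i ∈ s, cd K (L i) ≤ c) :
    cd K (s.sup L) ≤ s.card * c := by
  classical
  induction s using Finset.induction_on with
  | empty =>
    rw [Finset.sup_empty, cd_eq_zero bot_le]
    exact Nat.zero_le _
  | insert i s hi ih =>
    rw [Finset.sup_insert, Finset.card_insert_of_notMem hi, add_mul, one_mul]
    have h1 := ih (fun j hj => hc j (Finset.mem_insert_of_mem hj))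
    have h2 := hc i (Finset.mem_insert_self _ _)
    have h3 := cd_sup K (L i) (s.sup L)
    omega

/-- The structure theorem for symbols with bounded codimension of the span of small elements. -/
theorem exists_structure (symm : ∀ x y, β x y = β y x) (e : V) (he : ∀ x, β x x = β x e)
    {k N : ℕ} (hk : finrank (ZMod 2) Q ≤ k)
    (hN : finrank (ZMod 2) V ≤ finrank (ZMod 2) (span (ZMod 2) (Small β)) + N) :
    ∃ (ι : Type) (_ : Fintype ι) (u v : ι → V) (B R : Submodule (ZMod 2) V),
      e ∈ B ∧ finrank (ZMod 2) B ≤ (N + 2 ^ k) * (k + 1) + 2 * 2 ^ k + 1 ∧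
      (∀ r ∈ R, ∀ y, β r y = 0) ∧
      (∀ i, ∀ b ∈ B, β (u i) b = 0 ∧ β (v i) b = 0) ∧
      (∀ i j, β (u i) (u j) = 0 ∧ β (v i) (v j) = 0) ∧ (∀ i j, i ≠ j → β (u i) (v j) = 0) ∧
      (∀ i, ∃ b ∈ B, ∃ b' ∈ B, β (u i) (v i) = β b b' ∧ β b b' ≠ 0) ∧
      Function.Bijective (fun t : B × R × (ι → ZMod 2) × (ι → ZMod 2) =>
        (t.1 : V) + t.2.1 + ∑ i, t.2.2.1 i • u i + ∑ i, t.2.2.2 i • v i) := by
  classical
  have := Fintype.ofFinite Q
  have hQcard : Nat.card Q ≤ 2 ^ k := by
    have h1 := Module.natCard_eq_pow_finrank (K := ZMod 2) (V := Q)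
    rw [h1]
    simp only [Nat.card_zmod]
    exact Nat.pow_le_pow_right (by norm_num) hk
  -- a maximal family
  obtain ⟨n, ⟨u, v, q, hF⟩, hmax⟩ : ∃ n : ℕ,
      (∃ (u v : Fin n → V) (q : Fin n → Q), Fam β u v q) ∧
      ∀ m, n < m → ¬ ∃ (u v : Fin m → V) (q : Fin m → Q), Fam β u v q := by
    set S : Set ℕ := {n | ∃ (u v : Fin n → V) (q : Fin n → Q), Fam β u v q} with hS
    have hne : S.Nonempty := by
      refine ⟨0, Fin.elim0, Fin.elim0, Fin.elim0, ?_⟩
      constructor <;> intro i <;> exact i.elim0
    have hbdd : BddAbove S := by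
      refine ⟨Nat.card V, ?_⟩
      rintro n ⟨u, v, q, h⟩
      have := Nat.card_le_card_of_injective u h.injective
      simpa using this
    refine ⟨sSup S, Nat.sSup_mem hne hbdd, ?_⟩
    intro m hm hmS
    exact absurd (le_csSup hbdd hmS) (by omega)
  set P := perp β u v with hP
  -- isotropic small elements orthogonal to the family
  set I : Q → Submodule (ZMod 2) V := fun x => Lq β x ⊓ P ⊓ LinearMap.ker (β.flip e) with hI
  have hIe : ∀ {x : V} {a : Q}, x ∈ I a → x ∈ Lq β a ∧ x ∈ P ∧ β x e = 0 :=
    fun h => ⟨h.1.1, h.1.2, h.2⟩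
  set Y : Submodule (ZMod 2) V := Finset.univ.sup I with hY
  have hYle : ∀ a, I a ≤ Y := fun a => Finset.le_sup (Finset.mem_univ a)
  have hYP : Y ≤ P := Finset.sup_le (fun a _ => inf_le_left.trans inf_le_right)
  have hII : ∀ a b : Q, ∀ x ∈ I a, ∀ y ∈ I b, β x y = 0 := by
    intro a b x hx y hy
    obtain ⟨hx1, hx2, hx3⟩ := hIe hx
    obtain ⟨hy1, hy2, hy3⟩ := hIe hy
    by_contra hne
    have ha : β x y = a := (hx1 y).resolve_left hne
    have hb : β x y = b := by
      have h1 : β y x ≠ 0 := by rw [symm]; exact hne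
      rw [symm]
      exact (hy1 x).resolve_left h1
    apply hmax (n + 1) (Nat.lt_succ_self n)
    exact ⟨_, _, _, hF.extend symm hx2 hy2 (by rw [he, hx3]) (by rw [he, hy3]) hne
      (by rw [ha]; exact hx1) (by rw [hb]; exact hy1)⟩
  have hYY : ∀ x ∈ Y, ∀ y ∈ Y, β x y = 0 := by
    have h1 : ∀ a, ∀ x ∈ I a, Y ≤ LinearMap.ker (β x) := by
      intro a x hx
      exact Finset.sup_le (fun b _ y hy => hII a b x hx y hy)
    intro x hx y hy
    have h2 : Y ≤ LinearMap.ker (β y) := by
      refine Finset.sup_le (fun a _ z hz => ?_)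
      show β y z = 0
      rw [symm]
      exact h1 a z hz hy
    rw [symm]
    exact h2 hx
  -- the large isotropic part
  set HY := hF.hyp ⊔ Y with hHY
  have hYHY : ∀ x ∈ Y, ∀ y ∈ HY, β x y = 0 := by
    intro x hx y hy
    obtain ⟨h, hh, z, hz, rfl⟩ := Submodule.mem_sup.1 hy
    rw [map_add, hYY x hx z hz, add_zero, symm]
    exact hF.beta_hyp symm hh (hYP hx)
  have hcd1 : ∀ a : Q, cd HY (Lq β a) ≤ 1 := by
    intro a
    have h1 : Lq β a ⊓ LinearMap.ker (β.flip e) ≤ HY := by
      rintro x ⟨hx1, hx2⟩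
      have hp := hF.exists_decomp symm x
      have hpL : x + ∑ i, coef (β (v i) x) • u i + ∑ i, coef (β (u i) x) • v i ∈ Lq β a := by
        have hcase : ∀ (w w' : V) (b : Q), w ∈ Lq β b → (β w' x = 0 ∨ β w' x = b) →
            coef (β w' x) • w ∈ Lq β a := by
          intro w w' b hw h
          by_cases h0 : β w' x = 0
          · rw [h0]
            unfold coef
            rw [if_pos rfl, zero_smul]
            exact Submodule.zero_mem _
          · have hb : β w' x = b := h.resolve_left h0
            have ha : β w' x = a := by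
              rw [symm]
              apply (hx1 w').resolve_left
              rw [symm]; exact h0
            apply Submodule.smul_mem
            rw [← ha, hb]
            exact hw
        apply Submodule.add_mem
        · apply Submodule.add_mem _ hx1
          exact Submodule.sum_mem _ (fun i _ => hcase _ _ _ (fun y => hF.hu i y) (hF.hv i x))
        · exact Submodule.sum_mem _ (fun i _ => hcase _ _ _ (fun y => hF.hv i y) (hF.hu i x))
      have hpe : β (x + ∑ i, coef (β (v i) x) • u i + ∑ i, coef (β (u i) x) • v i) e = 0 := by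
        rw [map_add, map_add, LinearMap.add_apply, LinearMap.add_apply, map_sum, map_sum,
          LinearMap.sum_apply, LinearMap.sum_apply]
        have h3 : β x e = 0 := hx2
        rw [h3, zero_add, Finset.sum_eq_zero, Finset.sum_eq_zero, add_zero]
        · intro i _
          rw [map_smul, LinearMap.smul_apply, ← he, hF.vv, smul_zero]
        · intro i _
          rw [map_smul, LinearMap.smul_apply, ← he, hF.uu, smul_zero]
      have hpI : x + ∑ i, coef (β (v i) x) • u i + ∑ i, coef (β (u i) x) • v i ∈ Y :=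
        hYle a ⟨⟨hpL, hp⟩, hpe⟩
      have hx' : x = (∑ i, coef (β (v i) x) • u i + ∑ i, coef (β (u i) x) • v i) +
          (x + ∑ i, coef (β (v i) x) • u i + ∑ i, coef (β (u i) x) • v i) := by
        have e1 : ∀ (x s t : V), x = (s + t) + (x + s + t) := by
          intro x s t
          have : (s + t) + (x + s + t) = x + (s + s) + (t + t) := by abel
          rw [this, add_self, add_self, add_zero, add_zero]
        exact e1 x _ _
      rw [hx']
      exact Submodule.add_mem_sup (hF.sum_mem _ _) hpI
    have h2 : cd (Lq β a ⊓ LinearMap.ker (β.flip e)) (Lq β a) ≤ 1 := by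
      have h3 := finrank_map_add (β.flip e) (Lq β a)
      have h4 : (Lq β a).map (β.flip e) ≤ span (ZMod 2) {a} := by
        rintro _ ⟨x, hx, rfl⟩
        rcases hx e with h5 | h5
        · show β x e ∈ _
          rw [h5]; exact Submodule.zero_mem _
        · show β x e ∈ _
          rw [h5]; exact mem_span_singleton_self a
      have h5 := Submodule.finrank_mono h4
      have h6 : finrank (ZMod 2) (span (ZMod 2) {a}) ≤ 1 := by
        have := finrank_span_le_card (R := ZMod 2) ({a} : Set Q)
        simpa using this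
      have h7 := cd_add (Lq β a ⊓ LinearMap.ker (β.flip e)) (Lq β a)
      rw [inf_eq_left.2 (inf_le_left : Lq β a ⊓ LinearMap.ker (β.flip e) ≤ Lq β a)] at h7
      omega
    exact (cd_mono_left _ h1).trans h2
  have hspan : span (ZMod 2) (Small β) ≤ Finset.univ.sup (Lq β) := by
    apply span_le.2
    rintro x ⟨a, ha⟩
    exact (Finset.le_sup (f := Lq β) (Finset.mem_univ a)) ha
  have hcdHY : cd HY ⊤ ≤ N + 2 ^ k := by
    have h1 := cd_trans HY (Finset.univ.sup (Lq β)) ⊤
    have h2 := cd_finset_sup Finset.univ HY (Lq β) (c := 1) (fun a _ => hcd1 a)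
    rw [Finset.card_univ, ← Nat.card_eq_fintype_card, mul_one] at h2
    have h3 := cd_add' (Finset.univ.sup (Lq β)) ⊤
    rw [sup_top_eq, finrank_top] at h3
    have h4 := Submodule.finrank_mono hspan
    omega
  set N' := N + 2 ^ k with hN'
  have hfinHY : finrank (ZMod 2) V ≤ finrank (ZMod 2) HY + N' := by
    have h3 := cd_add' HY ⊤
    rw [sup_top_eq, finrank_top] at h3
    omega
  -- `Y` is almost in the radical
  have hYrad : finrank (ZMod 2) Y ≤ finrank (ZMod 2) (LinearMap.ker β) + N' * k := by
    obtain ⟨C, hC⟩ := Submodule.exists_isCompl HY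
    have hCf : finrank (ZMod 2) C ≤ N' := by
      have := Submodule.finrank_add_eq_of_isCompl hC
      omega
    let g : V →ₗ[ZMod 2] (C →ₗ[ZMod 2] Q) :=
      { toFun := fun x => (β x).comp C.subtype
        map_add' := by
          intro x y
          ext z
          simp
        map_smul' := by
          intro c x
          ext z
          simp }
    have h1 := finrank_map_add g Y
    have h2 : finrank (ZMod 2) (Y.map g) ≤ finrank (ZMod 2) (C →ₗ[ZMod 2] Q) :=
      Submodule.finrank_le _
    rw [Module.finrank_linearMap] at h2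
    have h3 : Y ⊓ LinearMap.ker g ≤ LinearMap.ker β := by
      rintro x ⟨hx1, hx2⟩
      rw [LinearMap.mem_ker]
      ext y
      have hy : y ∈ HY ⊔ C := by rw [hC.sup_eq_top]; trivial
      obtain ⟨a, ha, c, hc, rfl⟩ := Submodule.mem_sup.1 hy
      rw [map_add, hYHY x hx1 a ha, zero_add]
      exact LinearMap.congr_fun (LinearMap.mem_ker.1 hx2) ⟨c, hc⟩
    have h4 := Submodule.finrank_mono h3
    have h5 : finrank (ZMod 2) C * finrank (ZMod 2) Q ≤ N' * k := Nat.mul_le_mul hCf hk
    omega
  have hPY : HY ⊓ P ≤ Y := by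
    rintro x ⟨hx1, hx2⟩
    obtain ⟨h, hh, z, hz, rfl⟩ := Submodule.mem_sup.1 hx1
    have h1 : h ∈ hF.hyp ⊓ perp β u v := by
      refine ⟨hh, ?_⟩
      have : h = (h + z) - z := by abel
      rw [this]
      exact Submodule.sub_mem _ hx2 (hYP hz)
    rw [hF.inf_eq_bot symm] at h1
    rw [(Submodule.mem_bot _).1 h1, zero_add]
    exact hz
  have hPdim : finrank (ZMod 2) P ≤ finrank (ZMod 2) (LinearMap.ker β) + N' * (k + 1) := by
    have h1 := cd_add HY P
    have h2 := cd_mono_right HY (le_top : P ≤ ⊤)
    have h3 := Submodule.finrank_mono hPY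
    have h4 : N' * (k + 1) = N' * k + N' := by ring
    omega
  -- reserve one pair for every value
  obtain ⟨r, hr1, hr2⟩ : ∃ r : Fin n → Fin n, (∀ i, q (r i) = q i) ∧
      ∀ i j, q i = q j → r i = r j := by
    have h1 : ∀ a : Set.range q, ∃ i, q i = a := fun a => a.2
    choose rep hrep using h1
    refine ⟨fun i => rep ⟨q i, i, rfl⟩, fun i => hrep _, ?_⟩
    intro i j hij
    have h2 : (⟨q i, i, rfl⟩ : Set.range q) = ⟨q j, j, rfl⟩ := Subtype.ext hij
    simp only [h2]
  have hrr : ∀ i, r (r i) = r i := fun i => hr2 _ _ (hr1 i)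
  set J : Finset (Fin n) := Finset.univ.filter (fun i => r i = i) with hJ
  have hJcard : J.card ≤ 2 ^ k := by
    refine le_trans ?_ hQcard
    rw [Nat.card_eq_fintype_card, ← Finset.card_univ]
    apply Finset.card_le_card_of_injOn q (fun _ _ => Finset.mem_univ _)
    intro i hi j hj hij
    rw [hJ, Finset.coe_filter] at hi hj
    have hi' : r i = i := hi.2
    have hj' : r j = j := hj.2
    rw [← hi', ← hj']
    exact hr2 i j hij
  let ι : Type := {i : Fin n // r i ≠ i}
  let u' : ι → V := fun i => u i.1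
  let v' : ι → V := fun i => v i.1
  let q' : ι → Q := fun i => q i.1
  have hF' : Fam β u' v' q' :=
    { uu := fun i j => hF.uu _ _
      vv := fun i j => hF.vv _ _
      uv := fun i => hF.uv _
      uv' := fun i j hij => hF.uv' _ _ (fun h => hij (Subtype.ext h))
      q0 := fun i => hF.q0 _
      hu := fun i y => hF.hu _ y
      hv := fun i y => hF.hv _ y }
  set P' := perp β u' v' with hP'
  set HJ : Submodule (ZMod 2) V := span (ZMod 2) ((J.image u ∪ J.image v : Finset V) : Set V)
    with hHJ
  have hHJdim : finrank (ZMod 2) HJ ≤ 2 * 2 ^ k := by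
    have h1 : finrank (ZMod 2) HJ ≤ (J.image u ∪ J.image v).card :=
      finrank_span_finset_le_card _
    have h2 := Finset.card_union_le (J.image u) (J.image v)
    have h3 := Finset.card_image_le (s := J) (f := u)
    have h4 := Finset.card_image_le (s := J) (f := v)
    omega
  have hP'le : P' ≤ P ⊔ HJ := by
    intro x hx
    have hp := hF.exists_decomp symm x
    have e1 : ∀ (x s t : V), x = (x + s + t) + (s + t) := by
      intro x s t
      have : (x + s + t) + (s + t) = x + (s + s) + (t + t) := by abel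
      rw [this, add_self, add_self, add_zero, add_zero]
    rw [e1 x (∑ i, coef (β (v i) x) • u i) (∑ i, coef (β (u i) x) • v i)]
    apply Submodule.add_mem_sup hp
    apply Submodule.add_mem
    · apply Submodule.sum_mem
      intro i _
      by_cases hi : r i = i
      · apply Submodule.smul_mem
        apply subset_span
        rw [Finset.coe_union, Finset.coe_image]
        exact Or.inl ⟨i, Finset.mem_coe.2 (Finset.mem_filter.2 ⟨Finset.mem_univ _, hi⟩), rfl⟩
      · have : β (v i) x = 0 := (hx ⟨i, hi⟩).2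
        rw [this]
        unfold coef
        rw [if_pos rfl, zero_smul]
        exact Submodule.zero_mem _
    · apply Submodule.sum_mem
      intro i _
      by_cases hi : r i = i
      · apply Submodule.smul_mem
        apply subset_span
        rw [Finset.coe_union, Finset.coe_image, Finset.coe_image]
        exact Or.inr ⟨i, Finset.mem_coe.2 (Finset.mem_filter.2 ⟨Finset.mem_univ _, hi⟩), rfl⟩
      · have : β (u i) x = 0 := (hx ⟨i, hi⟩).1
        rw [this]
        unfold coef
        rw [if_pos rfl, zero_smul]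
        exact Submodule.zero_mem _
  have hP'dim : finrank (ZMod 2) P' ≤
      finrank (ZMod 2) (LinearMap.ker β) + N' * (k + 1) + 2 * 2 ^ k := by
    have h1 := Submodule.finrank_mono hP'le
    have h2 := Submodule.finrank_add_le_finrank_add_finrank P HJ
    omega
  -- the radical part
  set rad := LinearMap.ker β with hrad
  have hradP : rad ≤ P' := by
    intro x hx i
    have h0 : ∀ y, β x y = 0 := by
      intro y
      rw [LinearMap.mem_ker.1 hx, LinearMap.zero_apply]
    exact ⟨by rw [symm]; exact h0 _, by rw [symm]; exact h0 _⟩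
  have heP : e ∈ P' := by
    intro i
    exact ⟨by rw [← he]; exact hF.uu _ _, by rw [← he]; exact hF.vv _ _⟩
  set A := span (ZMod 2) {e} with hA
  have hAP : A ≤ P' := by
    rw [hA, span_singleton_le_iff_mem]
    exact heP
  obtain ⟨R, hR1, hR2⟩ := IsModularLattice.exists_disjoint_and_sup_eq (inf_le_right : A ⊓ rad ≤ rad)
  have hRrad : R ≤ rad := by rw [← hR2]; exact le_sup_right
  have hAR : Disjoint A R := by
    rw [Submodule.disjoint_def]
    intro x hxA hxR
    rw [Submodule.disjoint_def] at hR1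
    exact hR1 x ⟨hxA, hRrad hxR⟩ hxR
  obtain ⟨C, hC1, hC2⟩ := IsModularLattice.exists_disjoint_and_sup_eq
    (sup_le hAP (hRrad.trans hradP) : A ⊔ R ≤ P')
  set B := A ⊔ C with hB
  have hBR : B ⊔ R = P' := by
    rw [hB, ← hC2]
    rw [sup_assoc, sup_comm C R, ← sup_assoc]
  have hBRd : Disjoint B R := by
    rw [Submodule.disjoint_def]
    intro x hxB hxR
    obtain ⟨a, ha, c, hc, rfl⟩ := Submodule.mem_sup.1 hxB
    rw [Submodule.disjoint_def] at hC1 hAR
    have h1 : c ∈ A ⊔ R := by
      have : c = a + (a + c) := by rw [← add_assoc, add_self, zero_add]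
      rw [this]
      exact Submodule.add_mem_sup ha hxR
    have h2 := hC1 c h1 hc
    rw [h2, add_zero] at hxR ⊢
    exact hAR a ha hxR
  have hBP : B ≤ P' := by rw [← hBR]; exact le_sup_left
  have heB : e ∈ B := by
    rw [hB]
    exact (le_sup_left : A ≤ A ⊔ C) (mem_span_singleton_self e)
  have hBdim : finrank (ZMod 2) B ≤ N' * (k + 1) + 2 * 2 ^ k + 1 := by
    have h1 := Submodule.finrank_sup_add_finrank_inf_eq B R
    rw [hBR, hBRd.eq_bot, finrank_bot, add_zero] at h1
    have h2 := Submodule.finrank_sup_add_finrank_inf_eq (A ⊓ rad) R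
    rw [hR2, hR1.eq_bot, finrank_bot, add_zero] at h2
    have h3 : finrank (ZMod 2) (A ⊓ rad : Submodule (ZMod 2) V) ≤ finrank (ZMod 2) A :=
      Submodule.finrank_mono inf_le_left
    have h4 : finrank (ZMod 2) A ≤ 1 := by
      have := finrank_span_le_card (R := ZMod 2) ({e} : Set V)
      simpa using this
    omega
  have hRz : ∀ ρ ∈ R, ∀ y, β ρ y = 0 := by
    intro ρ hρ y
    rw [LinearMap.mem_ker.1 (hRrad hρ), LinearMap.zero_apply]
  refine ⟨ι, inferInstance, u', v', B, R, heB, hBdim, hRz, ?_, ?_, ?_, ?_, ?_⟩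
  · intro i b hb
    exact hBP hb i
  · intro i j
    exact ⟨hF'.uu i j, hF'.vv i j⟩
  · exact hF'.uv'
  · intro i
    have hmemP : ∀ j : Fin n, r j = j → u j ∈ P' ∧ v j ∈ P' := by
      intro j hj
      constructor
      · intro l
        refine ⟨hF.uu _ _, ?_⟩
        show β (v l.1) (u j) = 0
        rw [symm]
        exact hF.uv' _ _ (fun h => l.2 (by rw [← h]; exact hj))
      · intro l
        refine ⟨?_, hF.vv _ _⟩
        exact hF.uv' _ _ (fun h => l.2 (by rw [h]; exact hj))
    obtain ⟨h1, h2⟩ := hmemP (r i.1) (hrr i.1)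
    rw [← hBR] at h1 h2
    obtain ⟨b, hb, ρ, hρ, hbu⟩ := Submodule.mem_sup.1 h1
    obtain ⟨b', hb', ρ', hρ', hbv⟩ := Submodule.mem_sup.1 h2
    have h3 : β b b' = q i.1 := by
      have h4 : β (u (r i.1)) (v (r i.1)) = β b b' := by
        have h5 : ∀ y, β (b + ρ) y = β b y := fun y => by
          rw [map_add, LinearMap.add_apply, hRz ρ hρ, add_zero]
        rw [← hbu, ← hbv, h5, map_add, symm b ρ', hRz ρ' hρ', add_zero]
      rw [← h4, hF.uv, hr1]
    exact ⟨b, hb, b', hb', by rw [h3]; exact hF.uv _, by rw [h3]; exact hF.q0 _⟩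
  · constructor
    · rintro ⟨b, ρ, a, c⟩ ⟨b', ρ', a', c'⟩ h
      simp only at h
      have hp : ((b : V) + ρ) ∈ P' := Submodule.add_mem _ (hBP b.2) (hradP (hRrad ρ.2))
      have hp' : ((b' : V) + ρ') ∈ P' := Submodule.add_mem _ (hBP b'.2) (hradP (hRrad ρ'.2))
      obtain ⟨h1, h2, h3⟩ := hF'.unique_decomp symm hp hp' h
      have h4 : (b : V) - b' = ρ' - ρ := by
        rw [sub_eq_sub_iff_add_eq_add, h1, add_comm]
      have h5 : (b : V) - b' = 0 := by
        rw [Submodule.disjoint_def] at hBRd
        apply hBRd _ (Submodule.sub_mem _ b.2 b'.2)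
        rw [h4]
        exact Submodule.sub_mem _ ρ'.2 ρ.2
      have h6 : (ρ' : V) - ρ = 0 := by rw [← h4, h5]
      have hb : b = b' := Subtype.ext (sub_eq_zero.1 h5)
      have hρ : ρ = ρ' := Subtype.ext (sub_eq_zero.1 h6).symm
      rw [hb, hρ, h2, h3]
    · intro x
      obtain ⟨p, hp, a, c, hx⟩ := hF'.exists_decomp' symm x
      have hp2 : p ∈ B ⊔ R := by rw [hBR]; exact hp
      obtain ⟨b, hb, ρ, hρ, hbp⟩ := Submodule.mem_sup.1 hp2
      refine ⟨(⟨b, hb⟩, ⟨ρ, hρ⟩, a, c), ?_⟩
      simp only
      rw [hbp]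
      exact hx.symm

end final

end Pool.Agent.Hhelper2.Codim
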