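import Pool.Agent.Hhelper2.QStr

/-!
# Some structures of elementary type
-/

namespace Pool.Agent.Hhelper2

universe u v

namespace QStr

/-! ### The three small fields -/

lemma sqClass_eq_one_iff {F : Type u} [Field F] (x : Fˣ) : sqClass x = 1 ↔ ∃ y : Fˣ, x = y * y := by
  rw [sqClass, QuotientGroup.eq_one_iff, Subgroup.mem_square]
  exact Iff.rfl

lemma card_complex : ∀ a : (ofField ℂ).G, a = 1 := by
  intro a
  induction a using QuotientGroup.induction_on with
  | H z =>
    show sqClass z = 1
    rw [sqClass_eq_one_iff]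
    obtain ⟨w, hw⟩ := IsAlgClosed.exists_pow_nat_eq (z : ℂ) (n := 2) (by norm_num)
    have hw0 : w ≠ 0 := by
      rintro rfl
      apply z.ne_zero
      rw [← hw]; norm_num
    refine ⟨Units.mk0 w hw0, Units.ext ?_⟩
    rw [Units.val_mul, Units.val_mk0, ← hw, _root_.sq]

/-- A structure whose group has one element is of elementary type. -/
lemma isElementary_of_trivial (S : QStr.{u}) (h : ∀ a : S.G, a = 1) (hs : S.Split 1 1) :
    IsElementary S := by
  refine IsElementary.complex S ⟨?_⟩
  exact
    { e :=
        { toFun := fun _ => 1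
          invFun := fun _ => 1
          left_inv := fun a => (h a).symm
          right_inv := fun a => (card_complex a).symm
          map_mul' := fun _ _ => (one_mul _).symm }
      map_neg := (card_complex _).symm
      map_split := by
        intro a b
        rw [h a, h b]
        constructor
        · intro _
          exact ⟨1, 1, rfl, rfl, 1, 0, by simp⟩
        · intro _
          exact hs }

lemma real_cases (a : (ofField ℝ).G) : a = 1 ∨ a = (ofField ℝ).neg := by
  induction a using QuotientGroup.induction_on with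
  | H z =>
    rcases lt_or_gt_of_ne z.ne_zero with hz | hz
    · right
      show sqClass z = sqClass (-1)
      have hw : Real.sqrt (-z) ≠ 0 := by
        rw [Real.sqrt_ne_zero']; linarith
      have : z = -1 * (Units.mk0 _ hw * Units.mk0 _ hw) := by
        apply Units.ext
        show (z : ℝ) = -1 * (Real.sqrt (-z) * Real.sqrt (-z))
        rw [Real.mul_self_sqrt (by linarith)]; ring
      rw [this, sqClass, QuotientGroup.mk_mul]
      have h1 : sqClass (Units.mk0 _ hw * Units.mk0 _ hw) = 1 := by
        rw [sqClass_eq_one_iff]; exact ⟨_, rfl⟩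
      show sqClass (-1) * sqClass (Units.mk0 _ hw * Units.mk0 _ hw) = _
      rw [h1, mul_one]
    · left
      show sqClass z = 1
      rw [sqClass_eq_one_iff]
      have hw : Real.sqrt z ≠ 0 := by
        rw [Real.sqrt_ne_zero']; exact hz
      refine ⟨Units.mk0 _ hw, ?_⟩
      apply Units.ext
      show (z : ℝ) = (Real.sqrt z * Real.sqrt z)
      rw [Real.mul_self_sqrt hz.le]

lemma real_neg_ne : (ofField ℝ).neg ≠ 1 := by
  intro h
  have : sqClass (-1 : ℝˣ) = 1 := h
  rw [sqClass_eq_one_iff] at this
  obtain ⟨y, hy⟩ := this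
  have h1 : (-1 : ℝ) = y * y := by
    have := congrArg Units.val hy
    simpa using this
  nlinarith [mul_self_nonneg (y : ℝ)]

lemma real_not_split : ¬ (ofField ℝ).Split (ofField ℝ).neg (ofField ℝ).neg := by
  rintro ⟨x, y, hx, hy, X, Y, h⟩
  have key : ∀ x : ℝˣ, sqClass x = (ofField ℝ).neg → (x : ℝ) < 0 := by
    intro x hx
    have : sqClass (x * (-1)) = 1 := by
      have h1 : sqClass (x * (-1)) = sqClass x * sqClass (-1) := rfl
      rw [h1, hx]
      show sqClass (-1) * sqClass (-1) = 1
      have h2 : sqClass (-1 : ℝˣ) * sqClass (-1) = sqClass ((-1) * (-1)) := rfl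
      rw [h2, sqClass_eq_one_iff]
      exact ⟨-1, rfl⟩
    rw [sqClass_eq_one_iff] at this
    obtain ⟨y, hy⟩ := this
    have h1 := congrArg Units.val hy
    simp only [mul_neg, mul_one, Units.val_neg, Units.val_mul] at h1
    have h2 : (0 : ℝ) < y * y := mul_self_pos.2 y.ne_zero
    linarith
  have h1 := key x hx
  have h2 := key y hy
  nlinarith [sq_nonneg X, sq_nonneg Y]

lemma three_cases (a : (ofField (ZMod 3)).G) : a = 1 ∨ a = (ofField (ZMod 3)).neg := by
  induction a using QuotientGroup.induction_on with
  | H z =>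
    have : ∀ z : (ZMod 3)ˣ, z = 1 ∨ z = -1 := by decide
    rcases this z with rfl | rfl
    · exact Or.inl rfl
    · exact Or.inr rfl

lemma three_neg_ne : (ofField (ZMod 3)).neg ≠ 1 := by
  intro h
  have : sqClass (-1 : (ZMod 3)ˣ) = 1 := h
  rw [sqClass_eq_one_iff] at this
  revert this
  decide

lemma three_split : (ofField (ZMod 3)).Split (ofField (ZMod 3)).neg (ofField (ZMod 3)).neg :=
  ⟨-1, -1, rfl, rfl, 1, 1, by decide⟩

/-- The isomorphism of structures with two square classes `1, -1`. -/
lemma iso_of_two (S : QStr.{u}) (T : QStr.{v}) (hS : ∀ a : S.G, a = 1 ∨ a = S.neg)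
    (hT : ∀ a : T.G, a = 1 ∨ a = T.neg) (hS1 : S.neg ≠ 1) (hT1 : T.neg ≠ 1)
    (sq1 : S.neg * S.neg = 1) (sq2 : T.neg * T.neg = 1)
    (s1 : ∀ a, S.Split 1 a) (s2 : ∀ a, S.Split a 1) (t1 : ∀ a, T.Split 1 a) (t2 : ∀ a, T.Split a 1)
    (hiff : S.Split S.neg S.neg ↔ T.Split T.neg T.neg) : Nonempty (S.Iso T) := by
  classical
  refine ⟨
    { e :=
        { toFun := fun a => if a = 1 then 1 else T.neg
          invFun := fun a => if a = 1 then 1 else S.neg
          left_inv := ?_
          right_inv := ?_
          map_mul' := ?_ }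
      map_neg := ?_
      map_split := ?_ }⟩
  · intro a
    rcases hS a with rfl | rfl
    · simp
    · simp [hS1, hT1]
  · intro a
    rcases hT a with rfl | rfl
    · simp
    · simp [hS1, hT1]
  · intro a b
    rcases hS a with rfl | rfl <;> rcases hS b with rfl | rfl
    · simp
    · simp [hS1]
    · simp [hS1]
    · simp [hS1, sq1, sq2]
  · show (if S.neg = 1 then 1 else T.neg) = T.neg
    rw [if_neg hS1]
  · intro a b
    show S.Split a b ↔ T.Split (if a = 1 then 1 else T.neg) (if b = 1 then 1 else T.neg)
    rcases hS a with rfl | rfl <;> rcases hS b with rfl | rfl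
    · simp [s1, t1]
    · simp [s1, t1]
    · simp [s2, t2]
    · simpa [hS1] using hiff

lemma ofField_sq (F : Type u) [Field F] (a : (ofField F).G) : a * a = 1 := by
  induction a using QuotientGroup.induction_on with
  | H z =>
    show sqClass (z * z) = 1
    rw [sqClass_eq_one_iff]
    exact ⟨z, rfl⟩

lemma ofField_one_split (F : Type u) [Field F] (a : (ofField F).G) : (ofField F).Split 1 a := by
  induction a using QuotientGroup.induction_on with
  | H z => exact ⟨1, z, rfl, rfl, 1, 0, by simp⟩

lemma ofField_split_one (F : Type u) [Field F] (a : (ofField F).G) : (ofField F).Split a 1 := by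
  induction a using QuotientGroup.induction_on with
  | H z => exact ⟨z, 1, rfl, rfl, 0, 1, by simp⟩

/-- A structure whose group is `{1, -1}` is of elementary type. -/
lemma isElementary_of_two (S : QStr.{u}) (hS : ∀ a : S.G, a = 1 ∨ a = S.neg)
    (sq1 : S.neg * S.neg = 1) (s1 : ∀ a, S.Split 1 a) (s2 : ∀ a, S.Split a 1) :
    IsElementary S := by
  by_cases hS1 : S.neg = 1
  · refine isElementary_of_trivial S ?_ (s1 1)
    intro a
    rcases hS a with h | h
    · exact h
    · rw [h, hS1]
  · by_cases hsp : S.Split S.neg S.neg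
    · refine IsElementary.three S (iso_of_two S _ hS three_cases hS1 three_neg_ne sq1
        (ofField_sq _ _) s1 s2 (ofField_one_split _) (ofField_split_one _) ?_)
      exact ⟨fun _ => three_split, fun _ => hsp⟩
    · refine IsElementary.real S (iso_of_two S _ hS real_cases hS1 real_neg_ne sq1
        (ofField_sq _ _) s1 s2 (ofField_one_split _) (ofField_split_one _) ?_)
      exact ⟨fun h => absurd h hsp, fun h => absurd h real_not_split⟩

/-- Group extensions of structures of elementary type. -/
lemma isElementary_extPow (S : QStr.{u}) (h : IsElementary S) : ∀ m, IsElementary (S.extPow m)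
  | 0 => h
  | m + 1 => IsElementary.ext _ _ (isElementary_extPow S h m) ⟨Iso.refl _⟩

/-- Elementary type is invariant under isomorphism. -/
lemma isElementary_of_iso (S U : QStr.{u}) (h : IsElementary S) (f : Nonempty (U.Iso S)) :
    IsElementary U := by
  obtain ⟨f⟩ := f
  cases h with
  | complex _ g => obtain ⟨g⟩ := g; exact IsElementary.complex U ⟨f.trans g⟩
  | real _ g => obtain ⟨g⟩ := g; exact IsElementary.real U ⟨f.trans g⟩
  | three _ g => obtain ⟨g⟩ := g; exact IsElementary.three U ⟨f.trans g⟩
  | dyadic _ K g => obtain ⟨g⟩ := g; exact IsElementary.dyadic U K ⟨f.trans g⟩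
  | prod A B _ hA hB g => obtain ⟨g⟩ := g; exact IsElementary.prod A B U hA hB ⟨f.trans g⟩
  | ext A _ hA g => obtain ⟨g⟩ := g; exact IsElementary.ext A U hA ⟨f.trans g⟩

/-- A subgroup `K` of index two which contains `H` but not `t`. -/
lemma exists_index_two {G : Type u} [CommGroup G] [Finite G] (hsq : ∀ a : G, a * a = 1)
    (H : Subgroup G) (t : G) (ht : t ∉ H) :
    ∃ K : Subgroup G, H ≤ K ∧ t ∉ K ∧ ∀ g, g ∈ K ∨ t * g ∈ K := by
  have hinv : ∀ a : G, a⁻¹ = a := fun a => inv_eq_of_mul_eq_one_left (hsq a)
  have hfs : {K : Subgroup G | H ≤ K ∧ t ∉ K}.Finite := Set.toFinite _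
  obtain ⟨K, hHK, hK⟩ := hfs.exists_le_maximal (a := H) ⟨le_rfl, ht⟩
  refine ⟨K, hHK, hK.prop.2, ?_⟩
  intro g
  by_contra hcon
  push Not at hcon
  let K' : Subgroup G :=
    { carrier := {x | x ∈ K ∨ g * x ∈ K}
      mul_mem' := by
        rintro x y (hx | hx) (hy | hy)
        · exact Or.inl (K.mul_mem hx hy)
        · exact Or.inr (by rw [mul_left_comm]; exact K.mul_mem hx hy)
        · exact Or.inr (by rw [← mul_assoc]; exact K.mul_mem hx hy)
        · left
          have := K.mul_mem hx hy
          rwa [mul_mul_mul_comm, hsq, one_mul] at this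
      one_mem' := Or.inl K.one_mem
      inv_mem' := by
        intro x hx
        rw [hinv]; exact hx }
  have hKK' : K ≤ K' := fun x hx => Or.inl hx
  have hgK' : g ∈ K' := Or.inr (by rw [hsq]; exact K.one_mem)
  have : t ∈ K' := by
    by_contra htK'
    exact hcon.1 (hK.le_of_ge ⟨hHK.trans hKK', htK'⟩ hKK' hgK')
  rcases this with h1 | h1
  · exact hK.prop.2 h1
  · exact hcon.2 (by rw [mul_comm]; exact h1)

lemma c2_mul' : ∀ i j : Multiplicative (ZMod 2), i ≠ 1 → j ≠ 1 → i * j = 1 := by decide

/-- The homomorphism from the group of order two which sends the generator to `t`. -/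
def c2Hom' {G : Type u} [CommGroup G] (t : G) (ht : t * t = 1) : Multiplicative (ZMod 2) →* G where
  toFun i := if i = 1 then 1 else t
  map_one' := by simp
  map_mul' i j := by
    by_cases hi : i = 1
    · subst hi; simp
    · by_cases hj : j = 1
      · subst hj; simp
      · rw [c2_mul' i j hi hj]; simp [hi, hj, ht]

/-- The totally split structure with two square classes and `-1 = 1`. -/
def c2Str : QStr.{u} where
  G := ULift.{u} (Multiplicative (ZMod 2))
  neg := 1
  Split _ _ := True

lemma isElementary_c2Str : IsElementary c2Str.{u} := by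
  let T : QStr.{u} :=
    { G := PUnit.{u + 1}
      neg := 1
      Split := fun _ _ => True }
  have hT : IsElementary T := isElementary_of_trivial T (fun _ => rfl) trivial
  refine IsElementary.ext T _ hT ⟨?_⟩
  exact
    { e :=
        { toFun := fun i => ((PUnit.unit : PUnit.{u + 1}), i.down)
          invFun := fun i => ⟨i.2⟩
          left_inv := fun _ => rfl
          right_inv := fun _ => rfl
          map_mul' := fun _ _ => rfl }
      map_neg := rfl
      map_split := by
        rintro ⟨i⟩ ⟨j⟩
        show True ↔ ((i = 1 ∧ j = 1 ∧ True) ∨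
          ((PUnit.unit, i) : PUnit.{u + 1} × Multiplicative (ZMod 2)) = 1 ∨
          ((PUnit.unit, j) : PUnit.{u + 1} × Multiplicative (ZMod 2)) = 1 ∨
          (i ≠ 1 ∧ j ≠ 1 ∧ (PUnit.unit : PUnit.{u + 1}) = 1 * PUnit.unit))
        by_cases hi : i = 1
        · by_cases hj : j = 1
          · simp [hi, hj]
          · subst hi; simp [Prod.ext_iff]
        · by_cases hj : j = 1
          · subst hj; simp [Prod.ext_iff]
          · simp [hi, hj] }

/-- Totally split finite structures are of elementary type. -/
theorem isElementary_totallySplit : ∀ (n : ℕ) (S : QStr.{u}) (_ : Finite S.G)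
    (_ : Nat.card S.G = n) (_ : ∀ a : S.G, a * a = 1) (_ : ∀ a b, S.Split a b),
    IsElementary S := by
  intro n
  induction n using Nat.strong_induction_on with
  | _ n ih =>
  intro S hfin hcard hsq hall
  by_cases hcov : ∀ a : S.G, a = 1 ∨ a = S.neg
  · exact isElementary_of_two S hcov (hsq _) (fun a => hall _ _) (fun a => hall _ _)
  · push Not at hcov
    obtain ⟨t, ht1, ht2⟩ := hcov
    let H : Subgroup S.G := Subgroup.zpowers S.neg
    have htH : t ∉ H := by
      intro hmem
      obtain ⟨k, hk⟩ := Subgroup.mem_zpowers_iff.1 hmem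
      rcases Int.even_or_odd' k with ⟨j, rfl | rfl⟩
      · apply ht1
        rw [← hk, zpow_mul]
        have : S.neg ^ (2 : ℤ) = 1 := by
          rw [zpow_ofNat, _root_.sq, hsq]
        rw [this, one_zpow]
      · apply ht2
        rw [← hk, zpow_add, zpow_mul]
        have : S.neg ^ (2 : ℤ) = 1 := by
          rw [zpow_ofNat, _root_.sq, hsq]
        rw [this, one_zpow, one_mul, zpow_one]
    obtain ⟨K, hHK, htK, hdich⟩ := exists_index_two hsq H t htH
    have hnK : S.neg ∈ K := hHK (Subgroup.mem_zpowers _)
    let φ : K × Multiplicative (ZMod 2) →* S.G := MonoidHom.coprod K.subtype (c2Hom' t (hsq t))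
    have hφ : ∀ (a : K) (i : Multiplicative (ZMod 2)), φ (a, i) = a * (if i = 1 then 1 else t) :=
      fun a i => rfl
    have hnot : ∀ a : K, (a : S.G) * t ∉ K := by
      intro a ha
      exact htK ((K.mul_mem_cancel_left a.2).1 ha)
    have hbij : Function.Bijective φ := by
      constructor
      · rw [injective_iff_map_eq_one]
        rintro ⟨a, i⟩ he
        rw [hφ] at he
        by_cases hi : i = 1
        · subst hi
          rw [if_pos rfl, mul_one] at he
          rw [Prod.mk_eq_one]
          exact ⟨Subtype.ext he, rfl⟩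
        · rw [if_neg hi] at he
          exact absurd (he ▸ K.one_mem) (hnot a)
      · intro g
        rcases hdich g with hg | hg
        · exact ⟨(⟨g, hg⟩, 1), by rw [hφ]; simp⟩
        · refine ⟨(⟨t * g, hg⟩, Multiplicative.ofAdd 1), ?_⟩
          rw [hφ, if_neg (by decide)]
          show t * g * t = g
          rw [mul_comm t g, mul_assoc, hsq, mul_one]
    have hlt : Nat.card K < n := by
      rw [← hcard]
      have h1 : K ≠ ⊤ := by
        rintro rfl
        exact htK (Subgroup.mem_top t)
      refine lt_of_le_of_ne (Subgroup.card_le_card_group K) fun he => h1 ?_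
      exact Subgroup.eq_top_of_card_eq K he
    have hKel : IsElementary (S.restrict K hnK) :=
      ih (Nat.card K) hlt (S.restrict K hnK) (inferInstanceAs (Finite K)) rfl
        (fun a => Subtype.ext (hsq a.1)) (fun a b => hall _ _)
    refine IsElementary.prod _ _ S hKel isElementary_c2Str ⟨?_⟩
    let ψ : K × ULift.{u} (Multiplicative (ZMod 2)) ≃* S.G :=
      (MulEquiv.prodCongr (MulEquiv.refl K) MulEquiv.ulift).trans (MulEquiv.ofBijective φ hbij)
    exact Iso.symm
      { e := ψ
        map_neg := by
          show φ (⟨S.neg, hnK⟩, 1) = S.neg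
          rw [hφ]; simp
        map_split := fun a b => ⟨fun _ => hall _ _, fun _ => ⟨hall _ _, trivial⟩⟩ }

end QStr

end Pool.Agent.Hhelper2
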