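import Pool.Agent.Hhelper2.QStr

/-!
# The axioms of quaternionic structures, and their verification for fields
-/

namespace Pool.Agent.Hhelper2

universe u

namespace QStr

variable (S : QStr.{u})

/-- The pairs `(a, b)` and `(c, d)` are linked: there is `w` with
`(a, b) = (a, w) = (c, w) = (c, d)`. -/
def Lk (a b c d : S.G) : Prop :=
  ∃ w, S.Split a (b * w) ∧ S.Split c (d * w) ∧ S.Split (a * c) w

/-- Axioms of quaternionic structures, in the form in which they are used. -/
structure Axioms : Prop where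
  sq : ∀ a : S.G, a * a = 1
  symm : ∀ a b, S.Split a b → S.Split b a
  one : ∀ a, S.Split a 1
  neg : ∀ a, S.Split a (S.neg * a)
  mul : ∀ a b c, S.Split a b → S.Split a c → S.Split a (b * c)
  lk_swap : ∀ a b c d, ¬ S.Split a b → S.Lk a b c d → S.Lk a b d c
  lk_eq : ∀ a b c d d', ¬ S.Split a b → S.Lk a b c d → S.Lk a b c d' → S.Split c (d * d')
  lk_common : ∀ a b c d c' d', ¬ S.Split a b → S.Lk a b c d → S.Lk a b c' d' → c ≠ c' →
    ∃ w, S.Lk a b c w ∧ S.Lk a b c' w
  lk_nonsplit : ∀ a b c d, ¬ S.Split a b → S.Lk a b c d → ¬ S.Split c d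
  lk_grp : ∀ a b c d n c' d' n', ¬ S.Split a b → S.Lk a b c d → S.Split c n →
    S.Lk a b c' d' → S.Split c' n' → ∃ c'' d'', S.Lk a b c'' d'' ∧ S.Split c'' (n * n')

end QStr

namespace FieldAx

variable {F : Type u} [Field F]

/-- `c X ^ 2 + m Y ^ 2 = 1` is solvable. -/
def Solv (c m : F) : Prop := ∃ X Y : F, c * X ^ 2 + m * Y ^ 2 = 1

lemma Solv.symm {c m : F} (h : Solv c m) : Solv m c := by
  obtain ⟨X, Y, h⟩ := h
  exact ⟨Y, X, by rw [add_comm]; exact h⟩

lemma solv_iff (h2 : (2 : F) ≠ 0) {c m : F} (hc : c ≠ 0) (hm : m ≠ 0) :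
    Solv c m ↔ ∃ p q, m = p ^ 2 - c * q ^ 2 := by
  constructor
  · rintro ⟨X, Y, h⟩
    by_cases hY : Y = 0
    · subst hY
      have hX : X ≠ 0 := by
        rintro rfl
        simp at h
      have hc' : c = 1 / X ^ 2 := by field_simp; linear_combination h
      refine ⟨(m + 1) / 2, X * ((m - 1) / 2), ?_⟩
      rw [hc']
      field_simp
      ring
    · refine ⟨1 / Y, X / Y, ?_⟩
      field_simp
      linear_combination h
  · rintro ⟨p, q, h⟩
    by_cases hp : p = 0
    · subst hp
      have hq : q ≠ 0 := by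
        rintro rfl
        apply hm
        rw [h]; ring
      refine ⟨(1 + 1 / c) / 2, (1 / c - 1) / (2 * q), ?_⟩
      rw [h]
      field_simp
      ring
    · refine ⟨q / p, 1 / p, ?_⟩
      rw [h]
      field_simp
      ring

lemma Solv.mul (h2 : (2 : F) ≠ 0) {a b c : F} (ha : a ≠ 0) (hb : b ≠ 0) (hc : c ≠ 0)
    (h : Solv a b) (h' : Solv a c) : Solv a (b * c) := by
  rw [solv_iff h2 ha hb] at h
  rw [solv_iff h2 ha hc] at h'
  rw [solv_iff h2 ha (mul_ne_zero hb hc)]
  obtain ⟨p, q, hp⟩ := h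
  obtain ⟨r, s, hr⟩ := h'
  exact ⟨p * r + a * q * s, p * s + q * r, by rw [hp, hr]; ring⟩

lemma Solv.scale {a b : F} (h : Solv a b) {s t : F} (hs : s ≠ 0) (ht : t ≠ 0) :
    Solv (a * s ^ 2) (b * t ^ 2) := by
  obtain ⟨X, Y, h⟩ := h
  refine ⟨X / s, Y / t, ?_⟩
  field_simp
  linear_combination h

/-- The ternary form `⟨u, v, -u v⟩`. -/
def Q3 (u v : F) (x : F × F × F) : F := u * x.1 ^ 2 + v * x.2.1 ^ 2 - u * v * x.2.2 ^ 2

/-- Its bilinear form. -/
def B3 (u v : F) (x y : F × F × F) : F :=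
  u * x.1 * y.1 + v * x.2.1 * y.2.1 - u * v * x.2.2 * y.2.2

/-- The vector product. -/
def cr (u v : F) (x y : F × F × F) : F × F × F :=
  (v * (x.2.2 * y.2.1 - x.2.1 * y.2.2), u * (x.1 * y.2.2 - x.2.2 * y.1),
    x.1 * y.2.1 - x.2.1 * y.1)

/-- The determinant. -/
def dt (x y z : F × F × F) : F :=
  x.1 * (y.2.1 * z.2.2 - y.2.2 * z.2.1) - x.2.1 * (y.1 * z.2.2 - y.2.2 * z.1)
    + x.2.2 * (y.1 * z.2.1 - y.2.1 * z.1)

lemma Q3_cr (u v : F) (x y : F × F × F) :
    Q3 u v (cr u v x y) = B3 u v x y ^ 2 - Q3 u v x * Q3 u v y := by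
  simp only [Q3, cr, B3]; ring

lemma B3_cr_left (u v : F) (x y : F × F × F) : B3 u v x (cr u v x y) = 0 := by
  simp only [cr, B3]; ring

lemma B3_cr_right (u v : F) (x y : F × F × F) : B3 u v y (cr u v x y) = 0 := by
  simp only [cr, B3]; ring

lemma B3_comm (u v : F) (x y : F × F × F) : B3 u v x y = B3 u v y x := by
  simp only [B3]; ring

lemma gram (u v : F) (x y z : F × F × F) :
    Q3 u v x * (Q3 u v y * Q3 u v z - B3 u v y z ^ 2)
      - B3 u v x y * (B3 u v x y * Q3 u v z - B3 u v y z * B3 u v x z)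
      + B3 u v x z * (B3 u v x y * B3 u v y z - Q3 u v y * B3 u v x z)
    = -(u * v * dt x y z) ^ 2 := by
  simp only [Q3, B3, dt]; ring

/-- The four dimensional norm form is anisotropic. -/
lemma aniso (h2 : (2 : F) ≠ 0) {u v : F} (hu : u ≠ 0) (hv : v ≠ 0) (hns : ¬ Solv u v)
    (x0 : F) (x : F × F × F) (h : x0 ^ 2 - Q3 u v x = 0) : x0 = 0 ∧ x = 0 := by
  obtain ⟨x1, x2, x3⟩ := x
  simp only [Q3] at h
  have hsq : ∀ s t : F, s ^ 2 = u * t ^ 2 → t = 0 := by
    intro s t hst
    by_contra ht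
    apply hns
    have hs : s ≠ 0 := by
      rintro rfl
      have : u * t ^ 2 = 0 := by rw [← hst]; ring
      rcases mul_eq_zero.1 this with h | h
      · exact hu h
      · exact ht (pow_eq_zero_iff (two_ne_zero) |>.1 h)
    refine ⟨t / s, 0, ?_⟩
    field_simp
    linear_combination -hst
  by_cases hn : x2 ^ 2 - u * x3 ^ 2 = 0
  · have h3 : x3 = 0 := hsq x2 x3 (by linear_combination hn)
    subst h3
    have h2' : x2 = 0 := by
      have : x2 ^ 2 = 0 := by linear_combination hn
      exact pow_eq_zero_iff (two_ne_zero) |>.1 this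
    subst h2'
    have h1 : x1 = 0 := hsq x0 x1 (by linear_combination h)
    subst h1
    have h0 : x0 = 0 := by
      have : x0 ^ 2 = 0 := by linear_combination h
      exact pow_eq_zero_iff (two_ne_zero) |>.1 this
    exact ⟨h0, rfl⟩
  · exfalso
    apply hns
    rw [solv_iff h2 hu hv]
    refine ⟨(x0 * x2 + u * x1 * x3) / (x2 ^ 2 - u * x3 ^ 2),
      (x0 * x3 + x1 * x2) / (x2 ^ 2 - u * x3 ^ 2), ?_⟩
    rw [div_pow, div_pow, mul_div_assoc', ← sub_div, eq_div_iff (pow_ne_zero 2 hn)]
    linear_combination (-(x2 ^ 2 - u * x3 ^ 2)) * h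

lemma aniso3 (h2 : (2 : F) ≠ 0) {u v : F} (hu : u ≠ 0) (hv : v ≠ 0) (hns : ¬ Solv u v)
    (x : F × F × F) (h : Q3 u v x = 0) : x = 0 :=
  (aniso h2 hu hv hns 0 x (by rw [h]; ring)).2

/-- Main computation: orthogonal complements of vectors with the same norm. -/
lemma key (h2 : (2 : F) ≠ 0) {u v : F} (hu : u ≠ 0) (hv : v ≠ 0) (hns : ¬ Solv u v)
    {c : F} (hc : c ≠ 0) {x y x' y' : F × F × F} (hx : Q3 u v x = c) (hx' : Q3 u v x' = c)
    (hxy : B3 u v x y = 0) (hxy' : B3 u v x' y' = 0) :
    ∃ p q, Q3 u v y * Q3 u v y' = p ^ 2 - c * q ^ 2 := by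
  have main : ∀ z : F × F × F, B3 u v x z = 0 →
      ∃ p q, Q3 u v y * Q3 u v z = p ^ 2 - c * q ^ 2 := by
    intro z hz
    refine ⟨B3 u v y z, u * v * dt x y z / c, ?_⟩
    have := gram u v x y z
    rw [hxy, hz, hx] at this
    field_simp
    linear_combination this
  by_cases hg : x + x' = 0
  · apply main
    have : x = -x' := eq_neg_of_add_eq_zero_left hg
    rw [this]
    simp only [B3, Prod.fst_neg, Prod.snd_neg] at hxy' ⊢
    linear_combination -hxy'
  · set g := x + x' with hgdef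
    have hQg : Q3 u v g ≠ 0 := fun h => hg (aniso3 h2 hu hv hns g h)
    have hQg' : Q3 u v g = 2 * (c + B3 u v x x') := by
      have e : Q3 u v g = Q3 u v x + Q3 u v x' + 2 * B3 u v x x' := by
        simp only [hgdef, Q3, B3, Prod.fst_add, Prod.snd_add]; ring
      rw [e, hx, hx']; ring
    have hcB : c + B3 u v x x' ≠ 0 := fun h => hQg (by rw [hQg', h, mul_zero])
    set t := 2 * B3 u v y' g / Q3 u v g with ht
    have htg : t * Q3 u v g = 2 * B3 u v y' g := by rw [ht]; field_simp
    obtain ⟨p, q, hpq⟩ := main (t • g - y') (by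
      have e1 : B3 u v x (t • g - y') = t * B3 u v x g - B3 u v x y' := by
        simp only [B3, Prod.fst_sub, Prod.snd_sub, Prod.smul_fst, Prod.smul_snd, smul_eq_mul]; ring
      have e2 : B3 u v x g = c + B3 u v x x' := by
        have : B3 u v x g = Q3 u v x + B3 u v x x' := by
          simp only [hgdef, Q3, B3, Prod.fst_add, Prod.snd_add]; ring
        rw [this, hx]
      have e3 : B3 u v y' g = B3 u v x y' := by
        have : B3 u v y' g = B3 u v x y' + B3 u v x' y' := by
          simp only [hgdef, B3, Prod.fst_add, Prod.snd_add]; ring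
        rw [this, hxy', add_zero]
      rw [e1, e2]
      have e4 : t * (c + B3 u v x x') = B3 u v x y' := by
        have : 2 * (t * (c + B3 u v x x')) = 2 * B3 u v x y' := by
          rw [← e3, ← htg, hQg']; ring
        exact mul_left_cancel₀ h2 this
      rw [e4, sub_self])
    refine ⟨p, q, ?_⟩
    rw [← hpq]
    congr 1
    have : Q3 u v (t • g - y') = t * (t * Q3 u v g) - 2 * t * B3 u v y' g + Q3 u v y' := by
      simp only [Q3, B3, Prod.fst_sub, Prod.snd_sub, Prod.smul_fst, Prod.smul_snd, smul_eq_mul]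
      ring
    rw [this, htg]; ring

/-! ### Square classes -/

lemma sqClass_eq {x y : Fˣ} : sqClass x = sqClass y ↔ ∃ s : Fˣ, y = x * s ^ 2 := by
  rw [sqClass, sqClass, QuotientGroup.eq, Subgroup.mem_square]
  constructor
  · rintro ⟨s, hs⟩
    exact ⟨s, by rw [sq, ← hs]; group⟩
  · rintro ⟨s, rfl⟩
    exact ⟨s, by rw [sq]; group⟩

lemma split_mk (x y : Fˣ) : FieldSplit F (sqClass x) (sqClass y) ↔ Solv (x : F) (y : F) := by
  constructor
  · rintro ⟨x', y', hx, hy, h⟩
    obtain ⟨s, rfl⟩ := sqClass_eq.1 hx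
    obtain ⟨t, rfl⟩ := sqClass_eq.1 hy
    have := Solv.scale (a := (x' : F)) (b := (y' : F)) h s.ne_zero t.ne_zero
    simpa using this
  · intro h
    exact ⟨x, y, rfl, rfl, h⟩

/-- Linkage of pairs of square classes. -/
def FLk (F : Type u) [Field F] (a b c d : SqClass F) : Prop :=
  ∃ w, FieldSplit F a (b * w) ∧ FieldSplit F c (d * w) ∧ FieldSplit F (a * c) w

/-- The relation of being represented by orthogonal pure vectors. -/
def R (u v : F) (c d : SqClass F) : Prop :=
  ∃ (x y : F × F × F) (c0 d0 : Fˣ), Q3 u v x = c0 ∧ Q3 u v y = d0 ∧ B3 u v x y = 0 ∧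
    sqClass c0 = c ∧ sqClass d0 = d

section
variable (h2 : (2 : F) ≠ 0) {u v : F} (hu : u ≠ 0) (hv : v ≠ 0) (hns : ¬ Solv u v)

lemma R.swap {u v : F} {c d : SqClass F} (h : R u v c d) : R u v d c := by
  obtain ⟨x, y, c0, d0, hx, hy, hxy, hc, hd⟩ := h
  exact ⟨y, x, d0, c0, hy, hx, by rw [B3_comm]; exact hxy, hd, hc⟩

include h2 hu hv hns in
lemma R.eq {c d d' : SqClass F} (h : R u v c d) (h' : R u v c d') :
    FieldSplit F c (d * d') := by
  obtain ⟨x, y, c0, d0, hx, hy, hxy, hc, hd⟩ := h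
  obtain ⟨x', y', c0', d0', hx', hy', hxy', hc', hd'⟩ := h'
  obtain ⟨s, hs⟩ := sqClass_eq.1 (hc.trans hc'.symm)
  have hx'' : Q3 u v ((s⁻¹ : Fˣ) • x' : F × F × F) = c0 := by
    have : Q3 u v ((s⁻¹ : Fˣ) • x' : F × F × F) = ((s⁻¹ : Fˣ) : F) ^ 2 * Q3 u v x' := by
      simp only [Q3, Prod.smul_fst, Prod.smul_snd, Units.smul_def, smul_eq_mul]; ring
    rw [this, hx', hs]
    push_cast
    field_simp
  obtain ⟨p, q, hpq⟩ := key h2 hu hv hns c0.ne_zero hx hx'' hxy (y' := y') (by
    have : B3 u v ((s⁻¹ : Fˣ) • x' : F × F × F) y' = ((s⁻¹ : Fˣ) : F) * B3 u v x' y' := by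
      simp only [B3, Prod.smul_fst, Prod.smul_snd, Units.smul_def, smul_eq_mul]; ring
    rw [this, hxy', mul_zero])
  rw [← hc, ← hd, ← hd', ← QuotientGroup.mk_mul]
  rw [split_mk, solv_iff h2 c0.ne_zero (d0 * d0').ne_zero]
  exact ⟨p, q, by rw [← hpq, hy, hy']; simp⟩

include h2 in
lemma R.move {c d d' : SqClass F} (h : R u v c d) (h' : FieldSplit F c (d * d')) :
    R u v c d' := by
  obtain ⟨x, y, c0, d0, hx, hy, hxy, hc, hd⟩ := h
  induction d' using QuotientGroup.induction_on with
  | H d0' =>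
    rw [← hc, ← hd, ← QuotientGroup.mk_mul, split_mk,
      solv_iff h2 c0.ne_zero (d0 * d0').ne_zero] at h'
    obtain ⟨p, q, hpq⟩ := h'
    refine ⟨x, p • y + q • cr u v x y, c0, d0 ^ 2 * d0', hx, ?_, ?_, hc, ?_⟩
    · have e : Q3 u v (p • y + q • cr u v x y) =
          p ^ 2 * Q3 u v y + q ^ 2 * Q3 u v (cr u v x y)
            + 2 * p * q * B3 u v y (cr u v x y) := by
        simp only [Q3, B3, Prod.fst_add, Prod.snd_add, Prod.smul_fst, Prod.smul_snd, smul_eq_mul]
        ring
      rw [e, Q3_cr, B3_cr_right, hxy, hx, hy]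
      push_cast at hpq ⊢
      linear_combination (-(d0 : F)) * hpq
    · have e : B3 u v x (p • y + q • cr u v x y) =
          p * B3 u v x y + q * B3 u v x (cr u v x y) := by
        simp only [B3, Prod.fst_add, Prod.snd_add, Prod.smul_fst, Prod.smul_snd, smul_eq_mul]
        ring
      rw [e, hxy, B3_cr_left]; ring
    · rw [eq_comm, sqClass_eq]
      exact ⟨d0, by rw [mul_comm]⟩

include h2 hu hv hns in
lemma R.common {c d c' d' : SqClass F} (h : R u v c d) (h' : R u v c' d') (hne : c ≠ c') :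
    ∃ w, R u v c w ∧ R u v c' w := by
  obtain ⟨x, y, c0, d0, hx, hy, hxy, hc, hd⟩ := h
  obtain ⟨x', y', c0', d0', hx', hy', hxy', hc', hd'⟩ := h'
  have hQ : Q3 u v (cr u v x x') ≠ 0 := by
    intro h0
    have h1 := aniso3 h2 hu hv hns _ h0
    -- then `x` and `x'` are proportional
    have hB : B3 u v x x' ^ 2 = (c0 : F) * c0' := by
      have := Q3_cr u v x x'
      rw [h0, hx, hx'] at this
      linear_combination -this
    apply hne
    rw [← hc, ← hc', sqClass_eq]
    have hB0 : B3 u v x x' ≠ 0 := by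
      intro h
      rw [h] at hB
      have : (c0 : F) * c0' ≠ 0 := mul_ne_zero c0.ne_zero c0'.ne_zero
      apply this
      rw [← hB]; ring
    refine ⟨Units.mk0 (B3 u v x x' / c0) (div_ne_zero hB0 c0.ne_zero), ?_⟩
    ext
    push_cast
    rw [Units.val_mk0]
    field_simp
    linear_combination -hB
  refine ⟨sqClass (Units.mk0 _ hQ), ⟨x, cr u v x x', c0, Units.mk0 _ hQ, hx, rfl,
    B3_cr_left _ _ _ _, hc, rfl⟩, ⟨x', cr u v x x', c0', Units.mk0 _ hQ, hx', rfl,
    B3_cr_right _ _ _ _, hc', rfl⟩⟩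

include h2 hu hv hns in
lemma R.nonsplit {c d : SqClass F} (h : R u v c d) : ¬ FieldSplit F c d := by
  obtain ⟨x, y, c0, d0, hx, hy, hxy, rfl, rfl⟩ := h
  rw [split_mk]
  rintro ⟨X, Y, h⟩
  have := (aniso h2 hu hv hns 1 (X • x + Y • y) (by
    have e : Q3 u v (X • x + Y • y) = X ^ 2 * Q3 u v x + Y ^ 2 * Q3 u v y
        + 2 * X * Y * B3 u v x y := by
      simp only [Q3, B3, Prod.fst_add, Prod.snd_add, Prod.smul_fst, Prod.smul_snd, smul_eq_mul]
      ring
    rw [e, hx, hy, hxy]
    linear_combination -h)).1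
  exact one_ne_zero this

lemma R.base (hu' : u ≠ 0) (hv' : v ≠ 0) :
    R u v (sqClass (Units.mk0 u hu')) (sqClass (Units.mk0 v hv')) :=
  ⟨(1, 0, 0), (0, 1, 0), Units.mk0 u hu', Units.mk0 v hv', by simp [Q3], by simp [Q3],
    by simp [B3], rfl, rfl⟩

/-- The multiplication of the quaternion algebra. -/
lemma four_mul (u v x0 y0 : F) (x y : F × F × F) :
    (x0 ^ 2 - Q3 u v x) * (y0 ^ 2 - Q3 u v y) =
      (x0 * y0 + B3 u v x y) ^ 2 - Q3 u v (x0 • y + y0 • x + cr u v x y) := by
  simp only [Q3, B3, cr, Prod.fst_add, Prod.snd_add, Prod.smul_fst, Prod.smul_snd, smul_eq_mul]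
  ring

omit h2 hv hns in
include hu in
/-- Every nonzero pure vector is orthogonal to a nonzero one. -/
lemma exists_orth (x : F × F × F) (hx : x ≠ 0) : ∃ y, y ≠ 0 ∧ B3 u v x y = 0 := by
  by_cases h1 : cr u v x (1, 0, 0) = 0
  · by_cases h2' : cr u v x (0, 1, 0) = 0
    · exfalso
      apply hx
      obtain ⟨x1, x2, x3⟩ := x
      simp only [cr, Prod.mk_eq_zero] at h1 h2'
      obtain ⟨h11, h12, h13⟩ := h1
      obtain ⟨h21, h22, h23⟩ := h2'
      have e3 : x3 = 0 := by
        rcases mul_eq_zero.1 h12 with h | h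
        · exact absurd h hu
        · linear_combination -h
      have e2 : x2 = 0 := by linear_combination -h13
      have e1 : x1 = 0 := by linear_combination h23
      rw [e1, e2, e3]; rfl
    · exact ⟨_, h2', B3_cr_left _ _ _ _⟩
  · exact ⟨_, h1, B3_cr_left _ _ _ _⟩

include h2 hu hv hns in
lemma norm_iff (n : Fˣ) : (∃ c d, R u v c d ∧ FieldSplit F c (sqClass n)) ↔
    ∃ (x0 : F) (x : F × F × F), (n : F) = x0 ^ 2 - Q3 u v x := by
  constructor
  · rintro ⟨c, d, ⟨x, y, c0, d0, hx, hy, hxy, rfl, rfl⟩, h⟩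
    rw [split_mk, solv_iff h2 c0.ne_zero n.ne_zero] at h
    obtain ⟨p, q, h⟩ := h
    refine ⟨p, q • x, ?_⟩
    have e : Q3 u v (q • x) = q ^ 2 * Q3 u v x := by
      simp only [Q3, Prod.smul_fst, Prod.smul_snd, smul_eq_mul]; ring
    rw [e, hx, h]; ring
  · rintro ⟨x0, x, h⟩
    by_cases hx : x = 0
    · subst hx
      refine ⟨_, _, R.base (u := u) (v := v) hu hv, ?_⟩
      rw [split_mk, solv_iff h2 (by simpa using hu) n.ne_zero]
      refine ⟨x0, 0, ?_⟩
      rw [h]; simp [Q3]
    · obtain ⟨y, hy, hxy⟩ := exists_orth hu x hx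
      have hQx : Q3 u v x ≠ 0 := fun h => hx (aniso3 h2 hu hv hns x h)
      have hQy : Q3 u v y ≠ 0 := fun h => hy (aniso3 h2 hu hv hns y h)
      refine ⟨_, _, ⟨x, y, Units.mk0 _ hQx, Units.mk0 _ hQy, rfl, rfl, hxy, rfl, rfl⟩, ?_⟩
      rw [split_mk, solv_iff h2 (by simpa using hQx) n.ne_zero]
      exact ⟨x0, 1, by rw [h]; simp⟩

end

end FieldAx

open FieldAx in
/-- The quaternionic structure of a field of characteristic not two satisfies the axioms. -/
theorem QStr.ofField_axioms (F : Type u) [Field F] (h2 : (2 : F) ≠ 0) :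
    (QStr.ofField F).Axioms := by
  have sq : ∀ a : SqClass F, a * a = 1 := by
    intro a
    induction a using QuotientGroup.induction_on with
    | H x =>
      rw [← QuotientGroup.mk_mul, QuotientGroup.eq_one_iff, Subgroup.mem_square]
      exact ⟨x, rfl⟩
  have symm : ∀ a b : SqClass F, FieldSplit F a b → FieldSplit F b a := by
    rintro a b ⟨x, y, hx, hy, X, Y, h⟩
    exact ⟨y, x, hy, hx, Y, X, by rw [add_comm]; exact h⟩
  have one : ∀ a : SqClass F, FieldSplit F a 1 := by
    intro a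
    induction a using QuotientGroup.induction_on with
    | H x => exact ⟨x, 1, rfl, rfl, 0, 1, by simp⟩
  have neg : ∀ a : SqClass F, FieldSplit F a (sqClass (-1) * a) := by
    intro a
    induction a using QuotientGroup.induction_on with
    | H x =>
      rw [← QuotientGroup.mk_mul, split_mk, solv_iff h2 x.ne_zero (-1 * x).ne_zero]
      exact ⟨0, 1, by simp⟩
  have mul : ∀ a b c : SqClass F, FieldSplit F a b → FieldSplit F a c →
      FieldSplit F a (b * c) := by
    intro a b c
    induction a using QuotientGroup.induction_on with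
    | H x =>
    induction b using QuotientGroup.induction_on with
    | H y =>
    induction c using QuotientGroup.induction_on with
    | H z =>
      rw [split_mk, split_mk, ← QuotientGroup.mk_mul, split_mk]
      intro h h'
      simpa using Solv.mul h2 x.ne_zero y.ne_zero z.ne_zero h h'
  -- linkage is the relation `R`
  have lkR : ∀ (x y : Fˣ), ¬ Solv (x : F) (y : F) → ∀ c d : SqClass F,
      FLk F (sqClass x) (sqClass y) c d ↔ R (x : F) (y : F) c d := by
    intro x y hns c d
    have hb : R (x : F) (y : F) (sqClass x) (sqClass y) := by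
      have := R.base (u := (x : F)) (v := (y : F)) x.ne_zero y.ne_zero
      simpa using this
    constructor
    · rintro ⟨w, h1, h3, h4⟩
      have r1 : R (x : F) (y : F) (sqClass x) w := hb.move h2 h1
      have r2 : R (x : F) (y : F) w c := r1.swap.move h2 (symm _ _ h4)
      refine r2.swap.move h2 ?_
      rw [mul_comm]; exact h3
    · intro hr
      by_cases hc : sqClass x = c
      · subst hc
        refine ⟨d, hb.eq h2 x.ne_zero y.ne_zero hns hr, ?_, ?_⟩
        · rw [sq]; exact one _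
        · rw [sq]; exact symm _ _ (one _)
      · obtain ⟨w, hw1, hw2⟩ := hb.common h2 x.ne_zero y.ne_zero hns hr hc
        refine ⟨w, hb.eq h2 x.ne_zero y.ne_zero hns hw1, hr.eq h2 x.ne_zero y.ne_zero hns hw2,
          symm _ _ (hw1.swap.eq h2 x.ne_zero y.ne_zero hns hw2.swap)⟩
  have swap : ∀ a b c d : SqClass F, ¬ FieldSplit F a b → FLk F a b c d → FLk F a b d c := by
    intro a b c d
    induction a using QuotientGroup.induction_on with
    | H x =>
    induction b using QuotientGroup.induction_on with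
    | H y =>
      intro hns h
      rw [split_mk] at hns
      rw [lkR x y hns] at h ⊢
      exact h.swap
  have eq : ∀ a b c d d' : SqClass F, ¬ FieldSplit F a b → FLk F a b c d → FLk F a b c d' →
      FieldSplit F c (d * d') := by
    intro a b c d d'
    induction a using QuotientGroup.induction_on with
    | H x =>
    induction b using QuotientGroup.induction_on with
    | H y =>
      intro hns h h'
      rw [split_mk] at hns
      rw [lkR x y hns] at h h'
      exact h.eq h2 x.ne_zero y.ne_zero hns h'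
  have common : ∀ a b c d c' d' : SqClass F, ¬ FieldSplit F a b → FLk F a b c d →
      FLk F a b c' d' → c ≠ c' → ∃ w, FLk F a b c w ∧ FLk F a b c' w := by
    intro a b c d c' d'
    induction a using QuotientGroup.induction_on with
    | H x =>
    induction b using QuotientGroup.induction_on with
    | H y =>
      intro hns h h' hne
      rw [split_mk] at hns
      rw [lkR x y hns] at h h'
      obtain ⟨w, hw⟩ := h.common h2 x.ne_zero y.ne_zero hns h' hne
      exact ⟨w, by rw [lkR x y hns, lkR x y hns]; exact hw⟩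
  have nonsplit : ∀ a b c d : SqClass F, ¬ FieldSplit F a b → FLk F a b c d →
      ¬ FieldSplit F c d := by
    intro a b c d
    induction a using QuotientGroup.induction_on with
    | H x =>
    induction b using QuotientGroup.induction_on with
    | H y =>
      intro hns h
      rw [split_mk] at hns
      rw [lkR x y hns] at h
      exact h.nonsplit h2 x.ne_zero y.ne_zero hns
  have grp : ∀ a b c d n c' d' n' : SqClass F, ¬ FieldSplit F a b → FLk F a b c d →
      FieldSplit F c n → FLk F a b c' d' → FieldSplit F c' n' →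
      ∃ c'' d'', FLk F a b c'' d'' ∧ FieldSplit F c'' (n * n') := by
    intro a b c d n c' d' n'
    induction a using QuotientGroup.induction_on with
    | H x =>
    induction b using QuotientGroup.induction_on with
    | H y =>
    induction n using QuotientGroup.induction_on with
    | H n =>
    induction n' using QuotientGroup.induction_on with
    | H n' =>
      intro hns h hn h' hn'
      rw [split_mk] at hns
      rw [lkR x y hns] at h h'
      obtain ⟨x0, z, hz⟩ := (norm_iff h2 x.ne_zero y.ne_zero hns n).1 ⟨c, d, h, hn⟩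
      obtain ⟨y0, z', hz'⟩ := (norm_iff h2 x.ne_zero y.ne_zero hns n').1 ⟨c', d', h', hn'⟩
      obtain ⟨c'', d'', hr, hs⟩ := (norm_iff h2 x.ne_zero y.ne_zero hns (n * n')).2
        ⟨_, _, by rw [Units.val_mul, hz, hz']; exact four_mul _ _ _ _ _ _⟩
      exact ⟨c'', d'', (lkR x y hns _ _).2 hr, hs⟩
  exact
    { sq := sq
      symm := symm
      one := one
      neg := neg
      mul := mul
      lk_swap := swap
      lk_eq := eq
      lk_common := common
      lk_nonsplit := nonsplit
      lk_grp := grp }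

end Pool.Agent.Hhelper2
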