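import Pool.Agent.Hhelper2.FieldAxioms

/-!
# Quaternion symbols over a field with finitely many square classes

A bilinear symbol on square classes with values in a vector space over the field with two elements,
which vanishes exactly on the split pairs, and such that equal values are linked.
-/

namespace Pool.Agent.Hhelper2.Symb

open FieldAx

universe u

variable {F : Type u} [Field F] {E : Type u} [Field E] [Algebra F E] [FiniteDimensional F E]

/-- Hilbert 90 for a subgroup of the Galois group. -/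
theorem h90 (Γ' : Subgroup Gal(E/F)) (f : Gal(E/F) → Eˣ)
    (hf : ∀ g ∈ Γ', ∀ h ∈ Γ', (f (g * h) : E) = f g * g (f h)) :
    ∃ w : E, w ≠ 0 ∧ ∀ g ∈ Γ', (f g : E) * g w = w := by
  classical
  have hfin : Finite Γ' := inferInstance
  have := Fintype.ofFinite Γ'
  have hli : LinearIndependent E (fun (g : Γ') => ((g : Gal(E/F)) : E → E)) :=
    LinearIndependent.comp (ι' := Γ') (linearIndependent_monoidHom E E)
      (fun g => ((g : Gal(E/F)) : E →* E))
      (fun x y h => by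
        apply Subtype.ext
        ext z
        exact DFunLike.ext_iff.1 h z)
  obtain ⟨z, hz⟩ : ∃ z, ∑ h : Γ', (f h : E) * (h : Gal(E/F)) z ≠ 0 := by
    by_contra hcon
    push Not at hcon
    have h1 := Fintype.linearIndependent_iff.1 hli (fun h => (f h : E)) (by
      funext z
      simpa using hcon z) 1
    exact (f ((1 : Γ') : Gal(E/F))).ne_zero h1
  refine ⟨_, hz, fun g hg => ?_⟩
  rw [map_sum, Finset.mul_sum]
  apply Fintype.sum_bijective (fun i : Γ' => ⟨g, hg⟩ * i) (Group.mulLeft_bijective _)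
  intro h
  rw [map_mul, ← mul_assoc, ← hf g hg h h.2]
  rfl


/-- The sign function: `-1` if `σ` moves `α` and `τ` moves `β`, and `1` otherwise. -/
noncomputable def sg (α β : E) (σ τ : Gal(E/F)) : Eˣ := by
  classical exact if σ α ≠ α ∧ τ β ≠ β then -1 else 1

omit [FiniteDimensional F E] in
lemma sg_val (α β : E) (σ τ : Gal(E/F)) [Decidable (σ α ≠ α ∧ τ β ≠ β)] :
    (sg α β σ τ : E) = if σ α ≠ α ∧ τ β ≠ β then -1 else 1 := by
  unfold sg
  split_ifs with h
  · simp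
  · simp

omit [FiniteDimensional F E] in
lemma neg_of_ne {α a : E} (hα : α ^ 2 = a) {σ : Gal(E/F)} (ha : σ a = a) (h : σ α ≠ α) :
    σ α = -α := by
  have h1 : (σ α) ^ 2 = α ^ 2 := by rw [← map_pow, hα, ha]
  rcases sq_eq_sq_iff_eq_or_eq_neg.1 h1 with h2 | h2
  · exact absurd h2 h
  · exact h2

/-- A trivial symbol is split over the fixed field. -/
theorem split_of_trivial (h2 : (2 : E) ≠ 0) (Γ' : Subgroup Gal(E/F)) {a b α β : E}
    (ha0 : a ≠ 0) (hb0 : b ≠ 0)
    (hα : α ^ 2 = a) (hβ : β ^ 2 = b) (ha : ∀ σ ∈ Γ', σ a = a) (hb : ∀ σ ∈ Γ', σ b = b)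
    (φ : Gal(E/F) → Eˣ)
    (hφ : ∀ σ ∈ Γ', ∀ τ ∈ Γ', (φ σ : E) * σ (φ τ) = φ (σ * τ) * sg α β σ τ) :
    ∃ p q : E, (∀ σ ∈ Γ', σ p = p) ∧ (∀ σ ∈ Γ', σ q = q) ∧ a = p ^ 2 - b * q ^ 2 := by
  classical
  have hα0 : α ≠ 0 := by
    rintro rfl
    apply ha0; rw [← hα]; ring
  have hβ0 : β ≠ 0 := by
    rintro rfl
    apply hb0; rw [← hβ]; ring
  by_cases hall : ∀ σ ∈ Γ', σ β = β
  · -- `b` is a square in the fixed field
    refine ⟨(a + 1) / 2, (a - 1) / (2 * β), ?_, ?_, ?_⟩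
    · intro σ hσ
      rw [map_div₀, map_add, ha σ hσ, map_one, map_ofNat]
    · intro σ hσ
      rw [map_div₀, map_sub, ha σ hσ, map_one, map_mul, map_ofNat, hall σ hσ]
    · rw [← hβ]
      field_simp
      ring
  push Not at hall
  obtain ⟨θ, hθ, hθβ⟩ := hall
  have hθβ' : θ β = -β := neg_of_ne hβ (hb θ hθ) hθβ
  -- the subgroup fixing `β`
  let Γ2 : Subgroup Gal(E/F) :=
    { carrier := {σ | σ ∈ Γ' ∧ σ β = β}
      mul_mem' := by
        rintro σ τ ⟨h1, h3⟩ ⟨h4, h5⟩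
        refine ⟨Γ'.mul_mem h1 h4, ?_⟩
        show σ (τ β) = β
        rw [h5, h3]
      one_mem' := ⟨Γ'.one_mem, rfl⟩
      inv_mem' := by
        rintro σ ⟨h1, h3⟩
        refine ⟨Γ'.inv_mem h1, ?_⟩
        have : σ⁻¹ (σ β) = β := by
          show (σ⁻¹ * σ) β = β
          rw [inv_mul_cancel]; rfl
        rwa [h3] at this }
  have hΓ2 : ∀ σ, σ ∈ Γ2 ↔ σ ∈ Γ' ∧ σ β = β := fun σ => Iff.rfl
  have hsg2 : ∀ σ, ∀ τ ∈ Γ2, (sg α β σ τ : E) = 1 := by
    intro σ τ hτ
    rw [sg_val, if_neg]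
    rintro ⟨_, h⟩
    exact h hτ.2
  obtain ⟨w, hw0, hw⟩ := h90 Γ2 φ (by
    intro g hg h hh
    rw [hφ g hg.1 h hh.1, hsg2 g h hh, mul_one])
  -- normalised cochain
  set ψ : Gal(E/F) → E := fun σ => φ σ * σ w / w with hψ
  have hψ2 : ∀ σ ∈ Γ2, ψ σ = 1 := by
    intro σ hσ
    show (φ σ : E) * σ w / w = 1
    rw [hw σ hσ, div_self hw0]
  have hψm : ∀ σ ∈ Γ', ∀ τ ∈ Γ', ψ σ * σ (ψ τ) = ψ (σ * τ) * sg α β σ τ := by
    intro σ hσ τ hτ
    show ((φ σ : E) * σ w / w) * σ ((φ τ : E) * τ w / w) =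
      ((φ (σ * τ) : E) * (σ * τ) w / w) * sg α β σ τ
    have h1 : (σ * τ) w = σ (τ w) := rfl
    have h3 := hφ σ hσ τ hτ
    have hσw : σ w ≠ 0 := by
      rw [Ne, map_eq_zero]; exact hw0
    rw [h1, map_div₀, map_mul]
    field_simp
    linear_combination (σ (τ w)) * h3
  have hψ0 : ψ θ ≠ 0 := by
    show (φ θ : E) * θ w / w ≠ 0
    refine div_ne_zero (mul_ne_zero (φ θ).ne_zero ?_) hw0
    rw [Ne, map_eq_zero]; exact hw0
  have hconj : ∀ σ ∈ Γ2, θ⁻¹ * σ * θ ∈ Γ2 := by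
    intro σ hσ
    refine ⟨Γ'.mul_mem (Γ'.mul_mem (Γ'.inv_mem hθ) hσ.1) hθ, ?_⟩
    show θ⁻¹ (σ (θ β)) = β
    rw [hθβ', map_neg, hσ.2, ← hθβ']
    show (θ⁻¹ * θ) β = β
    rw [inv_mul_cancel]; rfl
  have hθθ : θ * θ ∈ Γ2 := by
    refine ⟨Γ'.mul_mem hθ hθ, ?_⟩
    show θ (θ β) = β
    rw [hθβ', map_neg, hθβ', neg_neg]
  have hcos : ∀ σ ∈ Γ', σ ∈ Γ2 ∨ ∃ τ ∈ Γ2, σ = θ * τ := by
    intro σ hσ
    by_cases h : σ β = β
    · exact Or.inl ⟨hσ, h⟩
    right
    have h' : σ β = -β := neg_of_ne hβ (hb σ hσ) h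
    refine ⟨θ⁻¹ * σ, ⟨Γ'.mul_mem (Γ'.inv_mem hθ) hσ, ?_⟩, by group⟩
    show θ⁻¹ (σ β) = β
    rw [h', ← hθβ']
    show (θ⁻¹ * θ) β = β
    rw [inv_mul_cancel]; rfl
  -- the element `y`
  set y : E := ψ θ / α with hy
  have hyfix : ∀ σ ∈ Γ2, σ y = y := by
    intro σ hσ
    have h1 := hψm σ hσ.1 θ hθ
    rw [hψ2 σ hσ, one_mul] at h1
    have h3 : σ * θ = θ * (θ⁻¹ * σ * θ) := by group
    have h4 := hψm θ hθ (θ⁻¹ * σ * θ) (hconj σ hσ).1
    rw [hψ2 _ (hconj σ hσ), map_one, mul_one, hsg2 θ _ (hconj σ hσ), mul_one, ← h3] at h4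
    rw [← h4] at h1
    rw [hy, map_div₀, h1]
    rw [sg_val]
    by_cases hm : σ α = α
    · rw [if_neg (by rintro ⟨h, _⟩; exact h hm), mul_one, hm]
    · rw [if_pos ⟨hm, hθβ⟩, neg_of_ne hα (ha σ hσ.1) hm]
      field_simp
  have hyy : y * θ y * a = 1 := by
    have h1 := hψm θ hθ θ hθ
    rw [hψ2 _ hθθ, one_mul] at h1
    rw [hy, map_div₀]
    have h3 : α * θ α = a * sg α β θ θ := by
      rw [sg_val]
      by_cases hm : θ α = α
      · rw [if_neg (by rintro ⟨h, _⟩; exact h hm), mul_one, hm, ← hα]; ring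
      · rw [if_pos ⟨hm, hθβ⟩, neg_of_ne hα (ha θ hθ) hm, ← hα]; ring
    have h4 : θ α ≠ 0 := by
      rw [Ne, map_eq_zero]; exact hα0
    have h5 : (sg α β θ θ : E) ≠ 0 := (sg α β θ θ).ne_zero
    field_simp
    rw [h3]
    linear_combination a * h1
  have hθθy : θ (θ y) = y := hyfix _ hθθ
  have hθyfix : ∀ σ ∈ Γ2, σ (θ y) = θ y := by
    intro σ hσ
    have h1 := hyfix _ (hconj σ hσ)
    have h3 : σ (θ y) = θ ((θ⁻¹ * σ * θ) y) := by
      show (σ * θ) y = (θ * (θ⁻¹ * σ * θ)) y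
      congr 1
      group
    rw [h3, h1]
  have hfixall : ∀ z, (∀ σ ∈ Γ2, σ z = z) → θ z = z → ∀ σ ∈ Γ', σ z = z := by
    intro z h1 h3 σ hσ
    rcases hcos σ hσ with h | ⟨τ, hτ, rfl⟩
    · exact h1 σ h
    · show θ (τ z) = z
      rw [h1 τ hτ, h3]
  have hX : ∀ σ ∈ Γ', σ ((y + θ y) / 2) = (y + θ y) / 2 := by
    apply hfixall
    · intro σ hσ
      rw [map_div₀, map_add, hyfix σ hσ, hθyfix σ hσ, map_ofNat]
    · rw [map_div₀, map_add, hθθy, map_ofNat, add_comm]
  have hY : ∀ σ ∈ Γ', σ ((y - θ y) / (2 * β)) = (y - θ y) / (2 * β) := by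
    apply hfixall
    · intro σ hσ
      rw [map_div₀, map_sub, map_mul, hyfix σ hσ, hθyfix σ hσ, map_ofNat, hσ.2]
    · rw [map_div₀, map_sub, map_mul, hθθy, map_ofNat, hθβ']
      field_simp
      ring
  refine ⟨a * ((y + θ y) / 2), a * ((y - θ y) / (2 * β)), ?_, ?_, ?_⟩
  · intro σ hσ
    rw [map_mul, ha σ hσ, hX σ hσ]
  · intro σ hσ
    rw [map_mul, ha σ hσ, hY σ hσ]
  · rw [← hβ]
    field_simp
    linear_combination (-4 : E) * hyy

omit [FiniteDimensional F E] in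
/-- A split symbol is trivial. -/
theorem trivial_of_split {a b p q : F} {α β : E} (ha0 : a ≠ 0)
    (hα : α ^ 2 = algebraMap F E a) (hβ : β ^ 2 = algebraMap F E b)
    (hab : a = p ^ 2 - b * q ^ 2) :
    ∃ φ : Gal(E/F) → Eˣ, ∀ σ τ, (φ σ : E) * σ (φ τ) = φ (σ * τ) * sg α β σ τ := by
  classical
  have ha0' : algebraMap F E a ≠ 0 := by
    rw [Ne, map_eq_zero]; exact ha0
  have hα0 : α ≠ 0 := by
    rintro rfl
    apply ha0'; rw [← hα]; ring
  set y : E := (algebraMap F E p + algebraMap F E q * β) / algebraMap F E a with hy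
  set y' : E := (algebraMap F E p - algebraMap F E q * β) / algebraMap F E a with hy'
  have hyy : y * y' * algebraMap F E a = 1 := by
    have h1 : algebraMap F E a =
        (algebraMap F E p) ^ 2 - (algebraMap F E b) * (algebraMap F E q) ^ 2 := by
      rw [← map_pow, ← map_pow, ← map_mul, ← map_sub, ← hab]
    rw [hy, hy']
    field_simp
    linear_combination -h1 - (algebraMap F E q) ^ 2 * hβ
  have hy0 : y ≠ 0 := by
    intro h
    rw [h] at hyy
    simp at hyy
  have hay : α * y ≠ 0 := mul_ne_zero hα0 hy0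
  obtain ⟨φ, hφ1, hφ2⟩ : ∃ φ : Gal(E/F) → Eˣ, (∀ σ, σ β = β → (φ σ : E) = 1) ∧
      (∀ σ, σ β ≠ β → (φ σ : E) = α * y) := by
    refine ⟨fun σ => if σ β = β then 1 else Units.mk0 _ hay, ?_, ?_⟩
    · intro σ hσ
      simp [hσ]
    · intro σ hσ
      simp [hσ]
  refine ⟨φ, fun σ τ => ?_⟩
  have hσb : ∀ σ : Gal(E/F), σ (algebraMap F E b) = algebraMap F E b := fun σ => σ.commutes b
  have hσa : ∀ σ : Gal(E/F), σ (algebraMap F E a) = algebraMap F E a := fun σ => σ.commutes a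
  have hσβ : ∀ σ : Gal(E/F), σ β ≠ β → σ β = -β := fun σ h => neg_of_ne hβ (hσb σ) h
  have hmul : (σ * τ) β = σ (τ β) := rfl
  rw [sg_val]
  by_cases h1 : σ β = β
  · have hy1 : σ y = y := by
      rw [hy, map_div₀, map_add, map_mul, h1, AlgEquiv.commutes, AlgEquiv.commutes,
        AlgEquiv.commutes]
    by_cases h3 : τ β = β
    · have h4 : (σ * τ) β = β := by rw [hmul, h3, h1]
      rw [hφ1 _ h1, hφ1 _ h3, hφ1 _ h4, map_one, if_neg (by rintro ⟨_, h⟩; exact h h3)]
    · have h4 : (σ * τ) β ≠ β := by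
        rw [hmul, hσβ τ h3, map_neg, h1]
        rw [← hσβ τ h3]
        exact h3
      rw [hφ1 _ h1, hφ2 _ h3, hφ2 _ h4, map_mul, hy1, one_mul]
      by_cases hm : σ α = α
      · rw [if_neg (by rintro ⟨h, _⟩; exact h hm), hm, mul_one]
      · rw [if_pos ⟨hm, h3⟩, neg_of_ne hα (hσa σ) hm]
        ring
  · have hy1 : σ y = y' := by
      rw [hy, map_div₀, map_add, map_mul, hσβ σ h1, AlgEquiv.commutes, AlgEquiv.commutes,
        AlgEquiv.commutes, hy']
      ring
    by_cases h3 : τ β = β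
    · have h4 : (σ * τ) β ≠ β := by
        rw [hmul, h3]; exact h1
      rw [hφ2 _ h1, hφ1 _ h3, hφ2 _ h4, map_one, if_neg (by rintro ⟨_, h⟩; exact h h3)]
    · have h4 : (σ * τ) β = β := by
        rw [hmul, hσβ τ h3, map_neg, hσβ σ h1, neg_neg]
      rw [hφ2 _ h1, hφ2 _ h3, hφ1 _ h4, map_mul, hy1, one_mul]
      by_cases hm : σ α = α
      · rw [if_neg (by rintro ⟨h, _⟩; exact h hm), hm]
        linear_combination hyy + y * y' * hα
      · rw [if_pos ⟨hm, h3⟩, neg_of_ne hα (hσa σ) hm]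
        linear_combination -hyy - y * y' * hα

/-- Elements of the fixed field of the stabiliser of `γ`. -/
theorem fix_decomp [IsGalois F E] (h2 : (2 : E) ≠ 0) {c : F} {γ : E} (hc : c ≠ 0)
    (hγ : γ ^ 2 = algebraMap F E c) {θ : Gal(E/F)} (hθ : θ γ ≠ γ) {z : E}
    (hz : ∀ σ : Gal(E/F), σ γ = γ → σ z = z) :
    ∃ z₁ z₂ : F, z = algebraMap F E z₁ + algebraMap F E z₂ * γ := by
  have hγ0 : γ ≠ 0 := by
    rintro rfl
    apply hc
    have : algebraMap F E c = 0 := by rw [← hγ]; ring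
    rwa [map_eq_zero] at this
  have hσc : ∀ σ : Gal(E/F), σ (algebraMap F E c) = algebraMap F E c := fun σ => σ.commutes c
  have hθγ : θ γ = -γ := neg_of_ne hγ (hσc θ) hθ
  have hθi : θ⁻¹ γ = -γ := by
    have h1 : θ⁻¹ (θ γ) = γ := by
      show (θ⁻¹ * θ) γ = γ
      rw [inv_mul_cancel]; rfl
    rw [hθγ, map_neg] at h1
    rw [← h1, neg_neg]
    rw [h1]
  have key : ∀ σ : Gal(E/F), (σ γ = γ → σ z = z ∧ σ (θ z) = θ z) ∧
      (σ γ ≠ γ → σ z = θ z ∧ σ (θ z) = z) := by
    intro σ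
    constructor
    · intro h
      refine ⟨hz σ h, ?_⟩
      have h1 : (θ⁻¹ * σ * θ) z = z := by
        apply hz
        show θ⁻¹ (σ (θ γ)) = γ
        rw [hθγ, map_neg, h, map_neg, hθi, neg_neg]
      have h3 : σ (θ z) = θ ((θ⁻¹ * σ * θ) z) := by
        show (σ * θ) z = (θ * (θ⁻¹ * σ * θ)) z
        congr 1
        group
      rw [h3, h1]
    · intro h
      have h' := neg_of_ne hγ (hσc σ) h
      constructor
      · have h1 : (θ⁻¹ * σ) z = z := by
          apply hz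
          show θ⁻¹ (σ γ) = γ
          rw [h', map_neg, hθi, neg_neg]
        have h3 : σ z = θ ((θ⁻¹ * σ) z) := by
          show σ z = (θ * (θ⁻¹ * σ)) z
          congr 1
          group
        rw [h3, h1]
      · apply hz (σ * θ)
        show σ (θ γ) = γ
        rw [hθγ, map_neg, h', neg_neg]
  have e1 : ∀ σ : Gal(E/F), σ ((z + θ z) / 2) = (z + θ z) / 2 := by
    intro σ
    rw [map_div₀, map_add, map_ofNat]
    by_cases h : σ γ = γ
    · rw [((key σ).1 h).1, ((key σ).1 h).2]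
    · rw [((key σ).2 h).1, ((key σ).2 h).2, add_comm]
  have e2 : ∀ σ : Gal(E/F), σ ((z - θ z) / (2 * γ)) = (z - θ z) / (2 * γ) := by
    intro σ
    rw [map_div₀, map_sub, map_mul, map_ofNat]
    by_cases h : σ γ = γ
    · rw [((key σ).1 h).1, ((key σ).1 h).2, h]
    · rw [((key σ).2 h).1, ((key σ).2 h).2, neg_of_ne hγ (hσc σ) h]
      field_simp
      ring
  obtain ⟨z₁, hz₁⟩ := (IsGalois.mem_range_algebraMap_iff_fixed _).2 e1
  obtain ⟨z₂, hz₂⟩ := (IsGalois.mem_range_algebraMap_iff_fixed _).2 e2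
  refine ⟨z₁, z₂, ?_⟩
  rw [hz₁, hz₂]
  field_simp
  ring

/-- If the algebra `(a, b)` is not split but becomes split over `F(√c)`, then `c` is the square of
a pure quaternion. -/
theorem link_of_trivial [IsGalois F E] (h2 : (2 : F) ≠ 0) {a b c : F} {α β γ : E} (ha0 : a ≠ 0)
    (hb0 : b ≠ 0) (hc0 : c ≠ 0) (hα : α ^ 2 = algebraMap F E a) (hβ : β ^ 2 = algebraMap F E b)
    (hγ : γ ^ 2 = algebraMap F E c) (hns : ¬ Solv a b) (φ : Gal(E/F) → Eˣ)
    (hφ : ∀ σ : Gal(E/F), σ γ = γ → ∀ τ : Gal(E/F), τ γ = γ →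
      (φ σ : E) * σ (φ τ) = φ (σ * τ) * sg α β σ τ) :
    ∃ x : F × F × F, Q3 a b x = c := by
  have hinj : Function.Injective (algebraMap F E) := (algebraMap F E).injective
  have h2E : (2 : E) ≠ 0 := by
    have : algebraMap F E 2 ≠ 0 := by
      rw [Ne, map_eq_zero]; exact h2
    rwa [map_ofNat] at this
  have haE : algebraMap F E a ≠ 0 := by rw [Ne, map_eq_zero]; exact ha0
  have hbE : algebraMap F E b ≠ 0 := by rw [Ne, map_eq_zero]; exact hb0
  have hcE : algebraMap F E c ≠ 0 := by rw [Ne, map_eq_zero]; exact hc0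
  have hns' : ¬ ∃ p q : F, a = p ^ 2 - b * q ^ 2 := by
    rintro h
    apply hns
    exact Solv.symm ((solv_iff h2 hb0 ha0).2 h)
  let Γ' : Subgroup Gal(E/F) :=
    { carrier := {σ | σ γ = γ}
      mul_mem' := by
        intro σ τ h1 h3
        show σ (τ γ) = γ
        rw [h3, h1]
      one_mem' := rfl
      inv_mem' := by
        intro σ h1
        have : σ⁻¹ (σ γ) = γ := by
          show (σ⁻¹ * σ) γ = γ
          rw [inv_mul_cancel]; rfl
        rwa [h1] at this }
  obtain ⟨p, q, hp, hq, hpq⟩ := split_of_trivial h2E Γ' haE hbE hα hβ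
    (fun σ _ => σ.commutes a) (fun σ _ => σ.commutes b) φ (fun σ hσ τ hτ => hφ σ hσ τ hτ)
  by_cases hall : ∀ σ : Gal(E/F), σ γ = γ
  · exfalso
    obtain ⟨p', hp'⟩ := (IsGalois.mem_range_algebraMap_iff_fixed _).2
      (fun σ : Gal(E/F) => hp σ (hall σ))
    obtain ⟨q', hq'⟩ := (IsGalois.mem_range_algebraMap_iff_fixed _).2
      (fun σ : Gal(E/F) => hq σ (hall σ))
    apply hns'
    refine ⟨p', q', hinj ?_⟩
    rw [map_sub, map_mul, map_pow, map_pow, hp', hq', hpq]
  push Not at hall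
  obtain ⟨θ, hθ⟩ := hall
  have hθγ : θ γ = -γ := neg_of_ne hγ (θ.commutes c) hθ
  have hγ0 : γ ≠ 0 := by
    rintro rfl
    apply hcE
    rw [← hγ]; ring
  obtain ⟨p₁, p₂, hp12⟩ := fix_decomp h2E hc0 hγ hθ (fun σ hσ => hp σ hσ)
  obtain ⟨q₁, q₂, hq12⟩ := fix_decomp h2E hc0 hγ hθ (fun σ hσ => hq σ hσ)
  -- compare coefficients
  have hexp : algebraMap F E (a - (p₁ ^ 2 + c * p₂ ^ 2 - b * (q₁ ^ 2 + c * q₂ ^ 2))) =
      algebraMap F E (2 * (p₁ * p₂ - b * (q₁ * q₂))) * γ := by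
    simp only [map_sub, map_add, map_mul, map_pow, map_ofNat]
    rw [hp12, hq12] at hpq
    linear_combination hpq + ((algebraMap F E p₂) ^ 2 -
      (algebraMap F E b) * (algebraMap F E q₂) ^ 2) * hγ
  have hexp' := congrArg θ hexp
  rw [AlgEquiv.commutes, map_mul, AlgEquiv.commutes, hθγ] at hexp'
  have hB : algebraMap F E (2 * (p₁ * p₂ - b * (q₁ * q₂))) = 0 := by
    have h3 : algebraMap F E (2 * (p₁ * p₂ - b * (q₁ * q₂))) * (2 * γ) = 0 := by
      linear_combination hexp' - hexp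
    rcases mul_eq_zero.1 h3 with h4 | h4
    · exact h4
    · exact absurd h4 (mul_ne_zero h2E hγ0)
  have hB' : p₁ * p₂ - b * (q₁ * q₂) = 0 := by
    rw [map_eq_zero] at hB
    rcases mul_eq_zero.1 hB with h4 | h4
    · exact absurd h4 h2
    · exact h4
  have hA' : a = p₁ ^ 2 + c * p₂ ^ 2 - b * (q₁ ^ 2 + c * q₂ ^ 2) := by
    rw [hB, zero_mul, map_eq_zero] at hexp
    linear_combination hexp
  set N := p₂ ^ 2 - b * q₂ ^ 2 with hN
  have hN0 : N ≠ 0 := by
    intro h0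
    by_cases hq2 : q₂ = 0
    · have hp2 : p₂ = 0 := by
        rw [hN, hq2] at h0
        have : p₂ ^ 2 = 0 := by linear_combination h0
        exact pow_eq_zero_iff (two_ne_zero) |>.1 this
      apply hns'
      refine ⟨p₁, q₁, ?_⟩
      rw [hA', hp2, hq2]; ring
    · apply hns
      have hb' : b = (p₂ / q₂) ^ 2 := by
        field_simp
        linear_combination -h0
      have hp2 : p₂ ≠ 0 := by
        rintro rfl
        apply hb0
        rw [hb']; ring
      refine ⟨0, q₂ / p₂, ?_⟩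
      rw [hb']
      field_simp
      ring
  refine ⟨(N⁻¹ * p₂, N⁻¹ * (q₁ * p₂ - p₁ * q₂), N⁻¹ * q₂), ?_⟩
  have hQ : a * p₂ ^ 2 + b * (q₁ * p₂ - p₁ * q₂) ^ 2 - a * b * q₂ ^ 2 = c * N ^ 2 := by
    rw [hN]
    linear_combination (p₂ ^ 2 - b * q₂ ^ 2) * hA' +
      (p₁ * p₂ - b * (q₁ * q₂)) * hB'
  simp only [Q3]
  field_simp
  linear_combination hQ


section pack

variable (F E)

/-- The group of coboundaries of the multiplicative group. -/
def cobd : Subgroup (Gal(E/F) → Gal(E/F) → Eˣ) where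
  carrier := {f | ∃ φ : Gal(E/F) → Eˣ, ∀ σ τ, (φ σ : E) * σ (φ τ) = φ (σ * τ) * f σ τ}
  mul_mem' := by
    rintro f g ⟨φ, hφ⟩ ⟨ψ, hψ⟩
    refine ⟨φ * ψ, fun σ τ => ?_⟩
    simp only [Pi.mul_apply, Units.val_mul, map_mul]
    linear_combination (ψ σ * σ (ψ τ) : E) * hφ σ τ + (φ (σ * τ) * f σ τ : E) * hψ σ τ
  one_mem' := ⟨1, fun σ τ => by simp⟩
  inv_mem' := by
    rintro f ⟨φ, hφ⟩
    refine ⟨φ⁻¹, fun σ τ => ?_⟩
    simp only [Pi.inv_apply, Units.val_inv_eq_inv_val, map_inv₀]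
    rw [← mul_inv, ← mul_inv, hφ σ τ]

/-- Functions of two variables modulo coboundaries. -/
def H2 : Type _ := (Gal(E/F) → Gal(E/F) → Eˣ) ⧸ cobd F E

instance : CommGroup (H2 F E) := QuotientGroup.Quotient.commGroup (cobd F E)

/-- The class of a function. -/
def H2.mk : (Gal(E/F) → Gal(E/F) → Eˣ) →* H2 F E := QuotientGroup.mk' (cobd F E)

variable {F E}

omit [FiniteDimensional F E] in
lemma H2.mk_eq_one {f : Gal(E/F) → Gal(E/F) → Eˣ} : H2.mk F E f = 1 ↔ f ∈ cobd F E :=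
  QuotientGroup.eq_one_iff f

omit [FiniteDimensional F E] in
lemma mem_cobd {f : Gal(E/F) → Gal(E/F) → Eˣ} : f ∈ cobd F E ↔
    ∃ φ : Gal(E/F) → Eˣ, ∀ σ τ, (φ σ : E) * σ (φ τ) = φ (σ * τ) * f σ τ := Iff.rfl

omit [FiniteDimensional F E] in
/-- how square roots of products are moved -/
lemma move_mul {x y z : Fˣ} {s : Fˣ} (hs : z = x * y * s ^ 2) {α β γ : E}
    (hα : α ^ 2 = algebraMap F E x) (hβ : β ^ 2 = algebraMap F E y)
    (hγ : γ ^ 2 = algebraMap F E z) (h2 : (2 : E) ≠ 0) (σ : Gal(E/F)) :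
    σ γ ≠ γ ↔ ¬ (σ α ≠ α ↔ σ β ≠ β) := by
  have hx0 : algebraMap F E x ≠ 0 := by rw [Ne, map_eq_zero]; exact x.ne_zero
  have hy0 : algebraMap F E y ≠ 0 := by rw [Ne, map_eq_zero]; exact y.ne_zero
  have hs0 : algebraMap F E s ≠ 0 := by rw [Ne, map_eq_zero]; exact s.ne_zero
  have hα0 : α ≠ 0 := by
    rintro rfl
    apply hx0; rw [← hα]; ring
  have hβ0 : β ≠ 0 := by
    rintro rfl
    apply hy0; rw [← hβ]; ring
  have hsq : γ ^ 2 = (α * β * algebraMap F E s) ^ 2 := by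
    rw [hγ, hs, mul_pow, mul_pow, hα, hβ]
    push_cast
    simp
  have hne : ∀ u : E, u ≠ 0 → -u ≠ u := by
    intro u hu h
    apply hu
    have : (2 : E) * u = 0 := by linear_combination -h
    rcases mul_eq_zero.1 this with h3 | h3
    · exact absurd h3 h2
    · exact h3
  have hγ0 : γ ≠ 0 := by
    rintro rfl
    have : (α * β * algebraMap F E s) ^ 2 = 0 := by rw [← hsq]; ring
    exact (pow_ne_zero 2 (mul_ne_zero (mul_ne_zero hα0 hβ0) hs0)) this
  have hval : ∀ ε : E, (σ α * σ β = ε * (α * β)) → σ γ = ε * γ := by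
    intro ε he
    rcases sq_eq_sq_iff_eq_or_eq_neg.1 hsq with h3 | h3
    · rw [h3, map_mul, map_mul, AlgEquiv.commutes, he]; ring
    · rw [h3, map_neg, map_mul, map_mul, AlgEquiv.commutes, he]; ring
  by_cases h3 : σ α = α
  · by_cases h4 : σ β = β
    · have := hval 1 (by rw [h3, h4]; ring)
      simp [h3, h4, this]
    · have h5 := neg_of_ne hβ (σ.commutes y) h4
      have := hval (-1) (by rw [h3, h5]; ring)
      rw [neg_one_mul] at this
      simp only [h3, h4, this, ne_eq, not_true_eq_false, not_false_eq_true, iff_true]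
      exact hne γ hγ0
  · have h6 := neg_of_ne hα (σ.commutes x) h3
    by_cases h4 : σ β = β
    · have := hval (-1) (by rw [h6, h4]; ring)
      rw [neg_one_mul] at this
      simp only [h3, h4, this, ne_eq, not_true_eq_false, not_false_eq_true, iff_false,
        iff_true]
      exact hne γ hγ0
    · have h5 := neg_of_ne hβ (σ.commutes y) h4
      have := hval 1 (by rw [h6, h5]; ring)
      rw [one_mul] at this
      simp only [h3, h4, this, ne_eq, not_true_eq_false, not_false_eq_true]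

omit [FiniteDimensional F E] in
lemma sg_mul_left {α α' α'' β : E} {σ τ : Gal(E/F)}
    (h : σ α'' ≠ α'' ↔ ¬ (σ α ≠ α ↔ σ α' ≠ α')) :
    sg α'' β σ τ = sg α β σ τ * sg α' β σ τ := by
  unfold sg
  by_cases h1 : σ α ≠ α <;> by_cases h2 : σ α' ≠ α' <;> by_cases h3 : τ β ≠ β <;>
    simp [h, h1, h2, h3]

omit [FiniteDimensional F E] in
lemma sg_mul_right {α β β' β'' : E} {σ τ : Gal(E/F)}
    (h : τ β'' ≠ β'' ↔ ¬ (τ β ≠ β ↔ τ β' ≠ β')) :
    sg α β'' σ τ = sg α β σ τ * sg α β' σ τ := by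
  unfold sg
  by_cases h1 : τ β ≠ β <;> by_cases h2 : τ β' ≠ β' <;> by_cases h3 : σ α ≠ α <;>
    simp [h, h1, h2, h3]

end pack

/-- A finite Galois extension containing square roots of representatives of all square classes. -/
theorem exists_ext (F : Type u) [Field F] (h2 : (2 : F) ≠ 0) [Finite (SqClass F)] :
    ∃ (E : Type u) (_ : Field E) (_ : Algebra F E), FiniteDimensional F E ∧ IsGalois F E ∧
      ∀ a : SqClass F, ∃ z : E, z ^ 2 = algebraMap F E (a.out : Fˣ) := by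
  have h2' : NeZero ((2 : ℕ) : SeparableClosure F) := by
    constructor
    have : algebraMap F (SeparableClosure F) 2 ≠ 0 := by
      rw [Ne, map_eq_zero]; exact h2
    rw [map_ofNat] at this
    exact_mod_cast this
  have hz : ∀ a : SqClass F, ∃ z : SeparableClosure F,
      z ^ 2 = algebraMap F (SeparableClosure F) (a.out : Fˣ) :=
    fun a => IsSepClosed.exists_pow_nat_eq _ 2
  choose z hz using hz
  have hfin : Finite (Set.range z) := Set.finite_range z
  let L := FiniteGaloisIntermediateField.adjoin F (Set.range z)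
  refine ⟨L, inferInstance, inferInstance, inferInstance, inferInstance, fun a => ?_⟩
  have hmem : z a ∈ L.toIntermediateField :=
    FiniteGaloisIntermediateField.subset_adjoin F (Set.range z) ⟨a, rfl⟩
  refine ⟨⟨z a, hmem⟩, ?_⟩
  apply Subtype.ext
  exact hz a

/-- The representation by pure quaternions implies linkage. -/
theorem lk_of_R (h2 : (2 : F) ≠ 0) {x y : Fˣ} (hns : ¬ Solv (x : F) (y : F)) {c d : SqClass F}
    (hr : R (x : F) (y : F) c d) : FLk F (sqClass x) (sqClass y) c d := by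
  have ax := QStr.ofField_axioms F h2
  have hb : R (x : F) (y : F) (sqClass x) (sqClass y) := by
    have := R.base (u := (x : F)) (v := (y : F)) x.ne_zero y.ne_zero
    simpa using this
  by_cases hc : sqClass x = c
  · subst hc
    refine ⟨d, hb.eq h2 x.ne_zero y.ne_zero hns hr, ?_, ?_⟩
    · rw [show d * d = 1 from ax.sq d]; exact ax.one _
    · rw [show sqClass x * sqClass x = 1 from ax.sq _]; exact ax.symm _ _ (ax.one _)
  · obtain ⟨w, hw1, hw2⟩ := hb.common h2 x.ne_zero y.ne_zero hns hr hc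
    exact ⟨w, hb.eq h2 x.ne_zero y.ne_zero hns hw1, hr.eq h2 x.ne_zero y.ne_zero hns hw2,
      ax.symm _ _ (hw1.swap.eq h2 x.ne_zero y.ne_zero hns hw2.swap)⟩

/-- The bilinear symbol on the square classes of a field. -/
theorem exists_symbol (F : Type u) [Field F] (h2 : (2 : F) ≠ 0) [Finite (SqClass F)] :
    ∃ (Q : Type u) (_ : AddCommGroup Q) (_ : Module (ZMod 2) Q) (s : SqClass F → SqClass F → Q),
      (∀ a a' b, s (a * a') b = s a b + s a' b) ∧ (∀ a b b', s a (b * b') = s a b + s a b') ∧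
      (∀ a b, s a b = 0 ↔ FieldSplit F a b) ∧ (∀ a b c d, s a b = s c d → FLk F a b c d) := by
  have ax := QStr.ofField_axioms F h2
  obtain ⟨E, _, _, _, _, hE⟩ := exists_ext F h2
  choose rt hrt using hE
  have h2E : (2 : E) ≠ 0 := by
    have : algebraMap F E 2 ≠ 0 := by
      rw [Ne, map_eq_zero]; exact h2
    rwa [map_ofNat] at this
  have hout : ∀ a : SqClass F, sqClass (a.out : Fˣ) = a := fun a => QuotientGroup.out_eq' a
  -- the cocycle
  let f : SqClass F → SqClass F → (Gal(E/F) → Gal(E/F) → Eˣ) := fun a b => sg (rt a) (rt b)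
  have hmv : ∀ (a a' : SqClass F) (σ : Gal(E/F)), σ (rt (a * a')) ≠ rt (a * a') ↔
      ¬ (σ (rt a) ≠ rt a ↔ σ (rt a') ≠ rt a') := by
    intro a a' σ
    obtain ⟨s, hs⟩ := sqClass_eq.1 (show sqClass ((a.out : Fˣ) * (a'.out : Fˣ)) =
      sqClass ((a * a').out : Fˣ) by
        rw [hout]
        show (sqClass (a.out : Fˣ)) * (sqClass (a'.out : Fˣ)) = _
        rw [hout, hout])
    exact move_mul hs (hrt a) (hrt a') (hrt (a * a')) h2E σ
  have hfl : ∀ a a' b, f (a * a') b = f a b * f a' b := by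
    intro a a' b
    funext σ τ
    exact sg_mul_left (hmv a a' σ)
  have hfr : ∀ a b b', f a (b * b') = f a b * f a b' := by
    intro a b b'
    funext σ τ
    exact sg_mul_right (hmv b b' τ)
  -- triviality
  have htriv : ∀ a b, f a b ∈ cobd F E ↔ FieldSplit F a b := by
    intro a b
    have hsp : FieldSplit F a b ↔ Solv ((a.out : Fˣ) : F) ((b.out : Fˣ) : F) := by
      rw [← split_mk, hout, hout]
    rw [hsp]
    constructor
    · rintro ⟨φ, hφ⟩
      obtain ⟨p, q, hp, hq, hpq⟩ := split_of_trivial h2E (⊤ : Subgroup Gal(E/F))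
        (a := algebraMap F E (a.out : Fˣ)) (b := algebraMap F E (b.out : Fˣ))
        (by rw [Ne, map_eq_zero]; exact Units.ne_zero _)
        (by rw [Ne, map_eq_zero]; exact Units.ne_zero _) (hrt a) (hrt b)
        (fun σ _ => σ.commutes _) (fun σ _ => σ.commutes _) φ (fun σ _ τ _ => hφ σ τ)
      obtain ⟨p', hp'⟩ := (IsGalois.mem_range_algebraMap_iff_fixed _).2
        (fun σ : Gal(E/F) => hp σ trivial)
      obtain ⟨q', hq'⟩ := (IsGalois.mem_range_algebraMap_iff_fixed _).2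
        (fun σ : Gal(E/F) => hq σ trivial)
      apply Solv.symm
      rw [solv_iff h2 (Units.ne_zero _) (Units.ne_zero _)]
      refine ⟨p', q', (algebraMap F E).injective ?_⟩
      rw [map_sub, map_mul, map_pow, map_pow, hp', hq', hpq]
    · intro h
      obtain ⟨p, q, hpq⟩ := (solv_iff h2 (Units.ne_zero _) (Units.ne_zero _)).1 h.symm
      exact trivial_of_split (Units.ne_zero _) (hrt a) (hrt b) hpq
  -- the group of values
  let M2 := (powMonoidHom 2 : H2 F E →* H2 F E).ker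
  have hexp : ∀ x : Additive M2, 2 • x = 0 := by
    intro x
    have hx := (Additive.toMul x).2
    rw [MonoidHom.mem_ker] at hx
    have : (Additive.toMul x) ^ 2 = 1 := by
      apply Subtype.ext
      exact hx
    exact congrArg Additive.ofMul this
  let _ : Module (ZMod 2) (Additive M2) := AddCommGroup.zmodModule hexp
  have hsq : ∀ a b, f a b * f a b = 1 := by
    intro a b
    funext σ τ
    show sg (rt a) (rt b) σ τ * sg (rt a) (rt b) σ τ = 1
    unfold sg
    split_ifs <;> simp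
  have hker : ∀ a b, H2.mk F E (f a b) ∈ M2 := by
    intro a b
    rw [MonoidHom.mem_ker]
    show (H2.mk F E (f a b)) ^ 2 = 1
    rw [sq, ← map_mul, hsq, map_one]
  let s : SqClass F → SqClass F → Additive M2 := fun a b => Additive.ofMul ⟨_, hker a b⟩
  have hs0 : ∀ a b, s a b = 0 ↔ FieldSplit F a b := by
    intro a b
    rw [← htriv a b, ← H2.mk_eq_one]
    constructor
    · intro h
      exact congrArg Subtype.val (congrArg Additive.toMul h)
    · intro h
      apply Additive.toMul.injective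
      exact Subtype.ext h
  have hsl : ∀ a a' b, s (a * a') b = s a b + s a' b := by
    intro a a' b
    apply Additive.toMul.injective
    apply Subtype.ext
    show H2.mk F E (f (a * a') b) = H2.mk F E (f a b) * H2.mk F E (f a' b)
    rw [hfl, map_mul]
  have hsr : ∀ a b b', s a (b * b') = s a b + s a b' := by
    intro a b b'
    apply Additive.toMul.injective
    apply Subtype.ext
    show H2.mk F E (f a (b * b')) = H2.mk F E (f a b) * H2.mk F E (f a b')
    rw [hfr, map_mul]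
  have hself : ∀ x : Additive M2, x + x = 0 := fun x => by rw [← two_nsmul]; exact hexp x
  have hse : ∀ a b b', FieldSplit F a (b * b') ↔ s a b = s a b' := by
    intro a b b'
    rw [← hs0, hsr]
    constructor
    · intro h
      have := hself (s a b')
      rw [← this] at h
      exact add_right_cancel h
    · intro h
      rw [h]; exact hself _
  have hsel : ∀ a a' b, FieldSplit F (a * a') b ↔ s a b = s a' b := by
    intro a a' b
    rw [← hs0, hsl]
    constructor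
    · intro h
      have := hself (s a' b)
      rw [← this] at h
      exact add_right_cancel h
    · intro h
      rw [h]; exact hself _
  refine ⟨Additive M2, inferInstance, inferInstance, s, hsl, hsr, hs0, ?_⟩
  intro a b c d hsab
  by_cases hsp : FieldSplit F a b
  · have h1 : FieldSplit F c d := by
      rw [← hs0, ← hsab, hs0]; exact hsp
    refine ⟨1, ?_, ?_, ?_⟩
    · rw [mul_one]; exact hsp
    · rw [mul_one]; exact h1
    · exact ax.one _
  -- the algebra `(a, b)` splits over `F(√c)`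
  have hns : ¬ Solv ((a.out : Fˣ) : F) ((b.out : Fˣ) : F) := by
    rw [← split_mk, hout, hout]; exact hsp
  have hcob : f a b * (f c d)⁻¹ ∈ cobd F E := by
    have h1 : H2.mk F E (f a b) = H2.mk F E (f c d) :=
      congrArg Subtype.val (congrArg Additive.toMul hsab)
    rw [← H2.mk_eq_one, map_mul, map_inv, h1, mul_inv_cancel]
  obtain ⟨φ, hφ⟩ := hcob
  obtain ⟨x, hx⟩ := link_of_trivial (E := E) h2 (Units.ne_zero (a.out : Fˣ))
    (Units.ne_zero (b.out : Fˣ)) (Units.ne_zero (c.out : Fˣ)) (hrt a) (hrt b) (hrt c) hns φ (by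
      intro σ hσ τ hτ
      rw [hφ σ τ]
      have h1 : f c d σ τ = 1 := by
        show sg (rt c) (rt d) σ τ = 1
        unfold sg
        rw [if_neg]
        rintro ⟨h, _⟩
        exact h hσ
      have h3 : (f a b * (f c d)⁻¹) σ τ = sg (rt a) (rt b) σ τ := by
        show f a b σ τ * (f c d σ τ)⁻¹ = _
        rw [h1, inv_one, mul_one]
      rw [h3])
  have hx0 : x ≠ 0 := by
    rintro rfl
    simp only [Q3, Prod.fst_zero, Prod.snd_zero] at hx
    apply Units.ne_zero (c.out : Fˣ)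
    rw [← hx]; ring
  obtain ⟨y, hy, hxy⟩ := exists_orth (u := ((a.out : Fˣ) : F)) (v := ((b.out : Fˣ) : F))
    (Units.ne_zero _) x hx0
  have hQy : Q3 ((a.out : Fˣ) : F) ((b.out : Fˣ) : F) y ≠ 0 :=
    fun h => hy (aniso3 h2 (Units.ne_zero _) (Units.ne_zero _) hns y h)
  have hR : R ((a.out : Fˣ) : F) ((b.out : Fˣ) : F) c (sqClass (Units.mk0 _ hQy)) :=
    ⟨x, y, (c.out : Fˣ), Units.mk0 _ hQy, hx, rfl, hxy, hout c, rfl⟩
  have hlk := lk_of_R h2 hns hR
  rw [hout, hout] at hlk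
  obtain ⟨w, hw1, hw2, hw3⟩ := hlk
  refine ⟨w, hw1, ?_, hw3⟩
  rw [hse] at hw1
  rw [hsel] at hw3
  rw [hse, ← hsab, hw1, hw3]

end Pool.Agent.Hhelper2.Symb
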