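import Pool.Agent.Hhelper2.Decomp
import Pool.Agent.Hhelper2.Symbol

/-!
# Fields all of whose value groups have bounded index
-/

namespace Pool.Agent.Hhelper2.Codim

open Module Submodule Finset

universe u v

section count

variable {V : Type u} {Q : Type v} [AddCommGroup V] [Module (ZMod 2) V] [Finite V]
  [AddCommGroup Q] [Module (ZMod 2) Q] [Finite Q]

/-- If all kernels have index at most `s`, there are at most `s ^ 2` nonzero values. -/
theorem finrank_le_sq (β : V →ₗ[ZMod 2] V →ₗ[ZMod 2] Q) (symm : ∀ x y, β x y = β y x)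
    (hspan : span (ZMod 2) {q | ∃ a b, β a b = q} = ⊤) (s : ℕ)
    (hs : ∀ a, Nat.card V ≤ s * Nat.card (LinearMap.ker (β a))) :
    finrank (ZMod 2) Q ≤ s ^ 2 := by
  classical
  have := Fintype.ofFinite V
  have := Fintype.ofFinite Q
  -- nonzero values
  set T : Finset Q := univ.filter (fun q => q ≠ 0 ∧ ∃ a b, β a b = q) with hT
  have hspanT : span (ZMod 2) (T : Set Q) = ⊤ := by
    rw [eq_top_iff, ← hspan]
    apply span_le.2
    rintro q ⟨a, b, hab⟩
    by_cases hq : q = 0
    · rw [hq]; exact Submodule.zero_mem _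
    · exact subset_span (Finset.mem_coe.2 (mem_filter.2 ⟨mem_univ _, hq, a, b, hab⟩))
  have hrank : finrank (ZMod 2) Q ≤ T.card := by
    have h1 := finrank_span_finset_le_card (R := ZMod 2) T
    have h2 : finrank (ZMod 2) (⊤ : Submodule (ZMod 2) Q) = finrank (ZMod 2) Q := finrank_top _ _
    rw [← h2, ← hspanT]
    exact h1
  refine hrank.trans ?_
  let r : Q → V → Prop := fun q a => ∃ b, β a b = q
  have hdc := sum_card_bipartiteAbove_eq_sum_card_bipartiteBelow (s := T)
    (t := (univ : Finset V)) r
  -- every value has many slots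
  have h1 : ∀ q ∈ T, Nat.card V ≤ s * (bipartiteAbove r (univ : Finset V) q).card := by
    intro q hq
    obtain ⟨-, a, b, hab⟩ := (mem_filter.1 hq).2
    refine (hs b).trans (Nat.mul_le_mul_left s ?_)
    rw [← Fintype.card_coe, ← Nat.card_eq_fintype_card]
    apply Nat.card_le_card_of_injective (fun z : LinearMap.ker (β b) =>
      (⟨a + z, by
        rw [mem_bipartiteAbove]
        refine ⟨mem_univ _, b, ?_⟩
        rw [map_add, LinearMap.add_apply, hab, symm z b, LinearMap.mem_ker.1 z.2, add_zero]⟩ :
        {x // x ∈ bipartiteAbove r (univ : Finset V) q}))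
    intro z z' h
    have := congrArg Subtype.val h
    exact Subtype.ext (add_left_cancel this)
  -- every element is a slot of few values
  have h2 : ∀ a ∈ (univ : Finset V), (bipartiteBelow r T a).card ≤ s := by
    intro a _
    have h3 : Nat.card (LinearMap.range (β a)) * Nat.card (LinearMap.ker (β a)) = Nat.card V := by
      have e1 := Module.natCard_eq_pow_finrank (K := ZMod 2) (V := LinearMap.range (β a))
      have e2 := Module.natCard_eq_pow_finrank (K := ZMod 2) (V := LinearMap.ker (β a))
      have e3 := Module.natCard_eq_pow_finrank (K := ZMod 2) (V := V)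
      rw [e1, e2, e3, ← pow_add, LinearMap.finrank_range_add_finrank_ker]
    have h4 : Nat.card (LinearMap.range (β a)) ≤ s := by
      have h5 := hs a
      rw [← h3] at h5
      exact Nat.le_of_mul_le_mul_right h5 Nat.card_pos
    refine le_trans ?_ h4
    rw [← Fintype.card_coe, ← Nat.card_eq_fintype_card]
    apply Nat.card_le_card_of_injective (fun q : {x // x ∈ bipartiteBelow r T a} =>
      (⟨q.1, by
        obtain ⟨b, hb⟩ := ((mem_bipartiteBelow r).1 q.2).2
        exact ⟨b, hb⟩⟩ : LinearMap.range (β a)))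
    intro q q' h
    exact Subtype.ext (congrArg (fun t : LinearMap.range (β a) => (t : Q)) h)
  have h5 : T.card * Nat.card V ≤ s * (s * Nat.card V) := by
    calc T.card * Nat.card V = ∑ q ∈ T, Nat.card V := by rw [sum_const, smul_eq_mul]
      _ ≤ ∑ q ∈ T, s * (bipartiteAbove r (univ : Finset V) q).card := sum_le_sum h1
      _ = s * ∑ q ∈ T, (bipartiteAbove r (univ : Finset V) q).card := by rw [mul_sum]
      _ = s * ∑ a ∈ (univ : Finset V), (bipartiteBelow r T a).card := by rw [hdc]
      _ ≤ s * ∑ a ∈ (univ : Finset V), s := Nat.mul_le_mul_left s (sum_le_sum h2)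
      _ = s * (s * Nat.card V) := by
          rw [sum_const, smul_eq_mul, card_univ, Nat.card_eq_fintype_card]
          ring
  have h6 : T.card * Nat.card V ≤ s ^ 2 * Nat.card V := by
    rw [sq, mul_assoc]; exact h5
  exact Nat.le_of_mul_le_mul_right h6 Nat.card_pos

end count

section field

variable {F : Type u} [Field F]

theorem sqClass_mul_self (a : SqClass F) : a * a = 1 := by
  induction a using QuotientGroup.induction_on with
  | H x =>
    rw [← QuotientGroup.mk_mul, QuotientGroup.eq_one_iff, Subgroup.mem_square]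
    exact ⟨x, rfl⟩

noncomputable instance : Module (ZMod 2) (Additive (SqClass F)) :=
  AddCommGroup.zmodModule (n := 2) (fun x => by
    rw [two_nsmul]
    exact sqClass_mul_self (Additive.toMul x))

/-- A map of two variables that is additive in both is bilinear over the field with two elements. -/
def mkBilin {V Q : Type*} [AddCommGroup V] [Module (ZMod 2) V] [AddCommGroup Q]
    [Module (ZMod 2) Q] (s : V → V → Q) (h1 : ∀ a a' b, s (a + a') b = s a b + s a' b)
    (h2 : ∀ a b b', s a (b + b') = s a b + s a b') : V →ₗ[ZMod 2] V →ₗ[ZMod 2] Q :=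
  LinearMap.mk₂ (ZMod 2) s h1
    (by
      have key : ∀ c : ZMod 2, c = 0 ∨ c = 1 := by decide
      intro c a b
      have h0 : s 0 b = 0 := by
        have := h1 0 0 b
        rw [add_zero] at this
        exact left_eq_add.1 this
      rcases key c with rfl | rfl
      · rw [zero_smul, zero_smul, h0]
      · rw [one_smul, one_smul])
    h2
    (by
      have key : ∀ c : ZMod 2, c = 0 ∨ c = 1 := by decide
      intro c a b
      have h0 : s a 0 = 0 := by
        have := h2 a 0 0
        rw [add_zero] at this
        exact left_eq_add.1 this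
      rcases key c with rfl | rfl
      · rw [zero_smul, zero_smul, h0]
      · rw [one_smul, one_smul])

/-- A bilinear symbol of a field with finitely many square classes. -/
theorem exists_bilin (F : Type u) [Field F] (h2 : (2 : F) ≠ 0) [Finite (SqClass F)] :
    ∃ (Q : Type u) (_ : AddCommGroup Q) (_ : Module (ZMod 2) Q) (_ : Finite Q)
      (β : Additive (SqClass F) →ₗ[ZMod 2] Additive (SqClass F) →ₗ[ZMod 2] Q),
      (∀ a b : SqClass F, β (Additive.ofMul a) (Additive.ofMul b) = 0 ↔ FieldSplit F a b) ∧
      (∀ x y, β x y = β y x) ∧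
      (∀ a b c d, β a b = β c d → ∃ w, β a w = β a b ∧ β c w = β a b) ∧
      (∀ a b c d : SqClass F, β (Additive.ofMul a) (Additive.ofMul b) =
        β (Additive.ofMul c) (Additive.ofMul d) → (QStr.ofField F).Lk a b c d) ∧
      span (ZMod 2) {q | ∃ a b, β a b = q} = ⊤ := by
  have ax := QStr.ofField_axioms F h2
  obtain ⟨Q, _, _, s, hsl, hsr, hs0, hlk⟩ := Symb.exists_symbol F h2
  have hfin : Finite (Additive (SqClass F)) := inferInstanceAs (Finite (SqClass F))
  set W : Submodule (ZMod 2) Q := span (ZMod 2) (Set.range (fun p : SqClass F × SqClass F =>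
    s p.1 p.2)) with hW
  have hmem : ∀ a b, s a b ∈ W := fun a b => subset_span ⟨(a, b), rfl⟩
  have hWfd : FiniteDimensional (ZMod 2) W :=
    FiniteDimensional.span_of_finite (ZMod 2) (Set.finite_range _)
  have hWfin : Finite W := Module.finite_of_finite (ZMod 2)
  let β : Additive (SqClass F) →ₗ[ZMod 2] Additive (SqClass F) →ₗ[ZMod 2] W :=
    mkBilin (fun a b => ⟨s (Additive.toMul a) (Additive.toMul b), hmem _ _⟩)
      (fun a a' b => Subtype.ext (hsl _ _ _)) (fun a b b' => Subtype.ext (hsr _ _ _))
  have hβ : ∀ a b : SqClass F, ((β (Additive.ofMul a) (Additive.ofMul b) : W) : Q) = s a b :=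
    fun a b => rfl
  have hβ' : ∀ a b : Additive (SqClass F), ((β a b : W) : Q) =
    s (Additive.toMul a) (Additive.toMul b) := fun a b => rfl
  have hβ0 : ∀ a b : SqClass F, β (Additive.ofMul a) (Additive.ofMul b) = 0 ↔
      FieldSplit F a b := by
    intro a b
    rw [← hs0, ← hβ]
    exact (Submodule.coe_eq_zero).symm
  have hsymm : ∀ x y, β x y = β y x := by
    intro x y
    have h1 : ∀ a b c d : SqClass F, s a b = s c d → s a b = s c d := fun _ _ _ _ h => h
    -- `(a b, a b)`, `(a, a)` and `(b, b)` are of the form `(·, -1)`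
    have hneg : ∀ a : SqClass F, s a a = s a (sqClass (-1)) := by
      intro a
      have h3 : s a (sqClass (-1) * a) = 0 := by
        rw [hs0]
        exact ax.neg a
      rw [hsr] at h3
      exact (eq_of_add_eq_zero h3).symm
    apply Subtype.ext
    rw [hβ', hβ']
    set a := Additive.toMul x
    set b := Additive.toMul y
    have h3 := hneg (a * b)
    rw [hsl, hsl, hsr, hsr, hneg a, hneg b] at h3
    have h4 : s a b + s b a = 0 := by
      have e : s a (sqClass (-1)) + s a b + (s b a + s b (sqClass (-1))) =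
        s a (sqClass (-1)) + s b (sqClass (-1)) + (s a b + s b a) := by abel
      rw [e] at h3
      exact add_eq_left.1 h3
    exact eq_of_add_eq_zero h4
  have hlk' : ∀ a b c d : SqClass F, β (Additive.ofMul a) (Additive.ofMul b) =
      β (Additive.ofMul c) (Additive.ofMul d) → (QStr.ofField F).Lk a b c d := by
    intro a b c d h
    apply hlk
    rw [← hβ, ← hβ, h]
  refine ⟨W, inferInstance, inferInstance, hWfin, β, hβ0, hsymm, ?_, hlk', ?_⟩
  · intro a b c d h
    obtain ⟨w, hw1, hw2, hw3⟩ : FieldAx.FLk F (Additive.toMul a) (Additive.toMul b)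
      (Additive.toMul c) (Additive.toMul d) := hlk' _ _ _ _ h
    refine ⟨Additive.ofMul w, ?_, ?_⟩
    · have h3 : β a (b + Additive.ofMul w) = 0 :=
        (hβ0 (Additive.toMul a) (Additive.toMul b * w)).2 hw1
      rw [map_add] at h3
      exact (eq_of_add_eq_zero h3).symm
    · have h3 : β c (d + Additive.ofMul w) = 0 :=
        (hβ0 (Additive.toMul c) (Additive.toMul d * w)).2 hw2
      rw [map_add] at h3
      rw [h]
      exact (eq_of_add_eq_zero h3).symm
  · rw [eq_top_iff]
    rintro ⟨x, hx⟩ _
    have key : ∀ y ∈ W, ∃ hy : y ∈ W, (⟨y, hy⟩ : W) ∈ span (ZMod 2) {q | ∃ a b, β a b = q} := by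
      intro y hy
      refine Submodule.span_induction ?_ ?_ ?_ ?_ hy
      · rintro _ ⟨⟨a, b⟩, rfl⟩
        exact ⟨hmem a b, subset_span ⟨Additive.ofMul a, Additive.ofMul b, rfl⟩⟩
      · exact ⟨W.zero_mem, Submodule.zero_mem _⟩
      · rintro y z _ _ ⟨hy, hy'⟩ ⟨hz, hz'⟩
        exact ⟨W.add_mem hy hz, Submodule.add_mem _ hy' hz'⟩
      · rintro c y _ ⟨hy, hy'⟩
        exact ⟨W.smul_mem c hy, Submodule.smul_mem _ c hy'⟩
    exact (key x hx).2

end field

end Pool.Agent.Hhelper2.Codim
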