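import Pool.Agent.Hhelper2.Four

/-!
# Elementary type for fields all of whose value groups have order at most four
-/

namespace Pool.Agent.Hhelper2

universe u v w

/-- Reindexing a product. -/
theorem pi_reindex {κ κ' : Type v} (e : κ ≃ κ') (F : κ' → QStr.{u}) :
    Nonempty ((QStr.pi F).Iso (QStr.pi fun i => F (e i))) := by
  let f : (∀ j, (F j).G) →* ∀ i, (F (e i)).G :=
    { toFun := fun g i => g (e i)
      map_one' := rfl
      map_mul' := fun _ _ => rfl }
  have hf : Function.Bijective f := by
    constructor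
    · intro g h hgh
      funext j
      obtain ⟨i, rfl⟩ := e.surjective j
      exact congrFun hgh i
    · intro g
      refine ⟨Equiv.piCongrLeft (fun j => (F j).G) e g, ?_⟩
      funext i
      exact Equiv.piCongrLeft_apply_apply (fun j => (F j).G) e g i
  refine ⟨⟨MulEquiv.ofBijective f hf, rfl, ?_⟩⟩
  intro a b
  constructor
  · exact fun h i => h (e i)
  · intro h j
    obtain ⟨i, rfl⟩ := e.surjective j
    exact h i

theorem ElemType.pi (κ : Type v) [Finite κ] : ∀ (E : κ → QStr.{max u v}),
    (∀ i, ElemType (E i)) → ElemType (QStr.pi E) := by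
  refine Finite.induction_empty_option (P := fun κ : Type v => ∀ (E : κ → QStr.{max u v}),
    (∀ i, ElemType (E i)) → ElemType (QStr.pi E)) ?_ ?_ ?_ κ
  · intro α β e h E hE
    obtain ⟨f⟩ := pi_reindex e E
    exact (h _ (fun i => hE _)).congr f
  · intro E _
    refine ElemType.split _ ?_ ?_
    · intro a b i
      exact i.elim
    · intro a
      funext i
      exact i.elim
  · intro α _ h E hE
    have hE' : E = fun o : Option α => o.elim (E none) (fun i => E (some i)) := by
      funext o
      cases o <;> rfl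
    rw [hE']
    exact ElemType.prod _ _ _ (hE none) (h _ (fun i => hE (some i)))
      ⟨(QStr.optIso (E none) (fun i => E (some i))).symm⟩

namespace SmallEl

open Module Submodule Codim

theorem IsE.elemType {Q : Type v} [AddCommGroup Q] [Module (ZMod 2) Q] {E : QStr.{u}}
    (h : IsE Q 4 E) : ElemType E := by
  obtain ⟨V, _, _, β, e, _, symm, he, ⟨r, hr0, hr⟩, hcard, ⟨iso⟩⟩ := h
  refine ElemType.ext _ _ ?_ ⟨iso⟩
  obtain ⟨C, hC⟩ := Submodule.exists_isCompl (LinearMap.ker β)
  have hc := hC.symm
  have hK : ∀ w ∈ LinearMap.ker β, ∀ y, β w y = 0 := fun w hw y => by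
    rw [LinearMap.mem_ker.1 hw, LinearMap.zero_apply]
  obtain ⟨a, ha, w, hw, hew⟩ : ∃ a ∈ C, ∃ w ∈ LinearMap.ker β, a + w = e := by
    have : e ∈ C ⊔ LinearMap.ker β := by rw [hc.sup_eq_top]; trivial
    obtain ⟨a, ha, w, hw, h⟩ := Submodule.mem_sup.1 this
    exact ⟨a, ha, w, hw, h⟩
  obtain ⟨iso'⟩ := prod_iso symm hc (fun a _ w hw => by rw [symm]; exact hK w hw a)
    (fun a _ w hw y z h => by rw [h]; exact hK w hw z) ⟨a, ha⟩ ⟨w, hw⟩ hew.symm
  have hC2 : finrank (ZMod 2) C ≤ 1 := by
    have h1 := Submodule.finrank_add_eq_of_isCompl hc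
    have h2 := Module.natCard_eq_pow_finrank (K := ZMod 2) (V := V)
    rw [Nat.card_zmod] at h2
    rw [h2] at hcard
    have h3 : finrank (ZMod 2) V ≤ 2 := by
      by_contra h4
      have h5 : 2 ^ 3 ≤ 2 ^ finrank (ZMod 2) V := Nat.pow_le_pow_right (by norm_num) (by omega)
      omega
    have h4 : 0 < finrank (ZMod 2) (LinearMap.ker β) := by
      rw [Module.finrank_pos_iff]
      exact ⟨⟨⟨r, LinearMap.mem_ker.2 (LinearMap.ext hr)⟩, 0, fun h =>
        hr0 (congrArg Subtype.val h)⟩⟩
    omega
  have huniq : ∀ b c : C, b ≠ 0 → c ≠ 0 → b = c := by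
    intro b c hb hc0
    have h1 : finrank (ZMod 2) C = 1 := by
      have : 0 < finrank (ZMod 2) C := by
        rw [Module.finrank_pos_iff]
        exact ⟨⟨b, 0, hb⟩⟩
      omega
    obtain ⟨c', hc'⟩ := (finrank_eq_one_iff_of_nonzero' b hb).1 h1 c
    have key : ∀ c : ZMod 2, c = 0 ∨ c = 1 := by decide
    rcases key c' with rfl | rfl
    · rw [zero_smul] at hc'
      exact absurd hc'.symm hc0
    · rwa [one_smul] at hc'
  refine ElemType.prod _ _ _ (ElemType.local _ (isLocal_of (β := res β C) (e := ⟨a, ha⟩)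
    (fun x y => symm _ _) ?_ ?_ ?_)) (ElemType.split (str (res β (LinearMap.ker β)) ⟨w, hw⟩) ?_ ?_)
      ⟨iso'⟩
  · intro x
    show β x x = β x a
    have h1 : β (x : V) w = 0 := by rw [symm]; exact hK w hw x
    rw [he, ← hew, map_add, h1, add_zero]
  · intro x b c hb hc'
    have hb0 : b ≠ 0 := by rintro rfl; exact hb (map_zero _)
    have hc0 : c ≠ 0 := by rintro rfl; exact hc' (map_zero _)
    rw [huniq b c hb0 hc0, add_self, map_zero]
  · intro x hx
    have h1 : (x : V) ∈ LinearMap.ker β := by
      rw [LinearMap.mem_ker]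
      ext y
      have : y ∈ C ⊔ LinearMap.ker β := by rw [hc.sup_eq_top]; trivial
      obtain ⟨y1, hy1, y2, hy2, rfl⟩ := Submodule.mem_sup.1 this
      have h2 : β (x : V) y2 = 0 := by rw [symm]; exact hK y2 hy2 x
      have h3 : β (x : V) y1 = 0 := hx ⟨y1, hy1⟩
      rw [map_add, h2, h3, add_zero, LinearMap.zero_apply]
    exact Subtype.ext ((Submodule.disjoint_def.1 hc.disjoint) x x.2 h1)
  · intro a b
    exact hK _ (Multiplicative.toAdd a : LinearMap.ker β).2 _
  · intro a
    apply Multiplicative.toAdd.injective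
    exact add_self (E := LinearMap.ker β) (Multiplicative.toAdd a)

/-- Nondegenerate symbols without small elements whose value groups have order at most four. -/
theorem elemType_core {V : Type u} {Q : Type v} [AddCommGroup V] [Module (ZMod 2) V] [Finite V]
    [AddCommGroup Q] [Module (ZMod 2) Q] [Finite Q] {β : V →ₗ[ZMod 2] V →ₗ[ZMod 2] Q} {e : V}
    (P : Pre β e) (hnd : ∀ x, (∀ y, β x y = 0) → x = 0) (hs : ∀ m q, ¬ Sm β m q)
    (hr : ∀ a, Nat.card (LinearMap.range (β a)) ≤ 4) : ElemType (str β e) := by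
  by_cases hV : ∃ y : V, y ≠ 0
  · have h2 : ∀ x : V, x ≠ 0 → finrank (ZMod 2) (LinearMap.range (β x)) = 2 := by
      intro x hx
      have h3 := hr x
      have h4 := Module.natCard_eq_pow_finrank (K := ZMod 2) (V := LinearMap.range (β x))
      rw [Nat.card_zmod] at h4
      rw [h4] at h3
      have h5 : finrank (ZMod 2) (LinearMap.range (β x)) ≤ 2 := by
        by_contra h6
        have h7 : 2 ^ 3 ≤ 2 ^ finrank (ZMod 2) (LinearMap.range (β x)) :=
          Nat.pow_le_pow_right (by norm_num) (by omega)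
        omega
      obtain ⟨y, hy⟩ : ∃ y, β x y ≠ 0 := by
        by_contra hcon
        push Not at hcon
        exact hx (hnd x hcon)
      have h6 : finrank (ZMod 2) (LinearMap.range (β x)) ≠ 0 := by
        intro h7
        have h8 := Submodule.finrank_eq_zero.1 h7
        have h9 : β x y ∈ LinearMap.range (β x) := ⟨y, rfl⟩
        rw [h8, Submodule.mem_bot] at h9
        exact hy h9
      have h7 : finrank (ZMod 2) (LinearMap.range (β x)) ≠ 1 := by
        intro h8
        apply hs x (β x y)
        refine ⟨hy, ?_, ⟨y, rfl⟩⟩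
        intro z
        obtain ⟨c, hc⟩ := (finrank_eq_one_iff_of_nonzero'
          (⟨β x y, y, rfl⟩ : LinearMap.range (β x))
          (fun h => hy (congrArg Subtype.val h))).1 h8 ⟨β x z, z, rfl⟩
        have h9 : c • β x y = β x z := congrArg Subtype.val hc
        have key : ∀ c : ZMod 2, c = 0 ∨ c = 1 := by decide
        rcases key c with rfl | rfl
        · left; rw [← h9, zero_smul]
        · right; rw [← h9, one_smul]
      omega
    obtain ⟨S, h3, -, h4⟩ := three_dim P h2 (finrank_le_three P h2) hV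
    exact ElemType.ext S _ (ElemType.local S h3) h4
  · push Not at hV
    refine ElemType.split _ ?_ ?_
    · intro a b
      show β _ _ = 0
      rw [hV (Multiplicative.toAdd a), map_zero, LinearMap.zero_apply]
    · intro a
      apply Multiplicative.toAdd.injective
      exact add_self (E := V) (Multiplicative.toAdd a)

theorem elemType_of_four (F : Type u) [Field F] (h2 : (2 : F) ≠ 0) [Finite (SqClass F)]
    (h4 : ∀ a : SqClass F,
      Nat.card (SqClass F) ≤ 4 * Nat.card {b : SqClass F // FieldSplit F a b}) :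
    ElemType (QStr.ofField F) := by
  obtain ⟨Q, _, _, _, V', _, _, _, β', e', κ, _, E, ι, _, L, R, hG, hnd, hs, hr, hE, hL, hR, hR',
    ⟨iso⟩, -⟩ := main_decomp F h2 4 h4
  have h1 : ElemType (str β' e') := elemType_core hG.toPre hnd hs hr
  have h3 : ElemType (QStr.pi E) := ElemType.pi.{u, 0} κ E (fun i => (hE i).elemType)
  have h5 : ElemType (QStr.pi L) := ElemType.pi.{u, u} ι L (fun i => ElemType.local _ (hL i))
  have h6 := ElemType.prod _ _ _ h1 h3 ⟨QStr.Iso.refl _⟩
  have h7 := ElemType.prod _ _ _ h6 (ElemType.split R hR hR') ⟨QStr.Iso.refl _⟩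
  exact ElemType.prod _ _ _ h7 h5 ⟨iso⟩

end SmallEl

end Pool.Agent.Hhelper2
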