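import Pool.Agent.Hhelper2.SmallG

/-!
# Symbols for which the tower theorem holds
-/

namespace Pool.Agent.Hhelper2.SmallEl

open Module Submodule Codim

universe u v

section

variable {V : Type u} {Q : Type v} [AddCommGroup V] [Module (ZMod 2) V]
  [AddCommGroup Q] [Module (ZMod 2) Q]

variable {β : V →ₗ[ZMod 2] V →ₗ[ZMod 2] Q} {e m : V} {q : Q}

/-- Symbols for which the conclusions of the tower theorem hold for all small elements. -/
structure Good (β : V →ₗ[ZMod 2] V →ₗ[ZMod 2] Q) (e : V) : Prop extends Pre β e where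
  tw : ∀ m q, Sm β m q → Tw β m q

/-- Restriction of a symbol. -/
def res (β : V →ₗ[ZMod 2] V →ₗ[ZMod 2] Q) (A : Submodule (ZMod 2) V) :
    A →ₗ[ZMod 2] A →ₗ[ZMod 2] Q := β.domRestrict₁₂ A A

lemma res_apply (A : Submodule (ZMod 2) V) (a b : A) : res β A a b = β a b := rfl

/-- `A` together with its orthogonal generates everything. -/
def Fac (β : V →ₗ[ZMod 2] V →ₗ[ZMod 2] Q) (A : Submodule (ZMod 2) V) : Prop :=
  ∀ y, ∃ y' : A, ∀ a : A, β a y = β a y'

lemma Fac.range_eq {A : Submodule (ZMod 2) V} (hA : Fac β A) (a : A) :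
    LinearMap.range (res β A a) = LinearMap.range (β a) := by
  ext r
  constructor
  · rintro ⟨y, rfl⟩
    exact ⟨y, rfl⟩
  · rintro ⟨y, rfl⟩
    obtain ⟨y', hy'⟩ := hA y
    exact ⟨y', (hy' a).symm⟩

lemma Fac.pre {A : Submodule (ZMod 2) V} (hA : Fac β A) (G : Pre β e) {e' : A}
    (he' : ∀ a : A, β a e = β a e') : Pre (res β A) e' where
  symm x y := G.symm _ _
  cs a b c d h := by
    obtain ⟨w, h1, h2⟩ := G.cs a b c d h
    obtain ⟨w', hw'⟩ := hA w
    exact ⟨w', (hw' a).symm.trans h1, (hw' c).symm.trans h2⟩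
  he x := (G.he x).trans (he' x)

lemma Fac.sm {A : Submodule (ZMod 2) V} (hA : Fac β A) {m : A} {q : Q}
    (S : Sm (res β A) m q) : Sm β (m : V) q where
  q0 := S.q0
  small y := by
    obtain ⟨y', hy'⟩ := hA y
    rw [hy' m]
    exact S.small y'
  ex := by
    obtain ⟨y, hy⟩ := S.ex
    exact ⟨y, hy⟩

lemma Fac.good {A : Submodule (ZMod 2) V} (hA : Fac β A) (G : Good β e) {e' : A}
    (he' : ∀ a : A, β a e = β a e') : Good (res β A) e' where
  toPre := hA.pre G.toPre he'
  tw m q S := by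
    have T := G.tw m q (hA.sm S)
    have hQ : ∀ x : A, Qv (res β A) q x ↔ Qv β q (x : V) := by
      intro x
      constructor
      · rintro ⟨y, hy⟩
        exact ⟨y, hy⟩
      · rintro ⟨y, hy⟩
        obtain ⟨y', hy'⟩ := hA y
        exact ⟨y', (hy' x).symm.trans hy⟩
    have hS : ∀ x : A, Sf (res β A) m x ↔ Sf β (m : V) (x : V) := by
      intro x
      constructor
      · intro h y hy
        obtain ⟨y', hy'⟩ := hA y
        rw [hy' m]
        exact h y' ((hy' x).symm.trans hy)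
      · intro h y hy
        exact h y hy
    have hI : ∀ x : A, InW (res β A) m q x ↔ InW β (m : V) q (x : V) := by
      intro x
      unfold InW
      rw [hQ, hS]
    constructor
    · intro d hd
      obtain ⟨z, h1, h2, h3⟩ := T.C d ((hQ d).1 hd)
      obtain ⟨z', hz'⟩ := hA z
      exact ⟨z', fun w hw => (hz' w).symm.trans (h1 w ((hI w).1 hw)), (hz' d).symm.trans h2,
        (hz' m).symm.trans h3⟩
    · obtain ⟨B, h1, h2⟩ := T.B
      exact ⟨B, h1, fun w hw y => h2 w ((hI w).1 hw) y⟩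

/-- Complementary orthogonal subspaces are factors. -/
lemma fac_of_sup {A W : Submodule (ZMod 2) V} (hsup : A ⊔ W = ⊤)
    (horth : ∀ a ∈ A, ∀ w ∈ W, β a w = 0) : Fac β A := by
  intro y
  have : y ∈ A ⊔ W := by rw [hsup]; trivial
  obtain ⟨a, ha, w, hw, rfl⟩ := Submodule.mem_sup.1 this
  refine ⟨⟨a, ha⟩, fun b => ?_⟩
  rw [map_add, horth b b.2 w hw, add_zero]

end

/-- The universal symbol of a field. -/
theorem good_field {F : Type u} [Field F] (h2 : (2 : F) ≠ 0) [Finite (SqClass F)]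
    {Q : Type u} [AddCommGroup Q] [Module (ZMod 2) Q]
    {β : Additive (SqClass F) →ₗ[ZMod 2] Additive (SqClass F) →ₗ[ZMod 2] Q}
    (hβ : ∀ a b : SqClass F, β (Additive.ofMul a) (Additive.ofMul b) = 0 ↔ FieldSplit F a b)
    (symm : ∀ x y, β x y = β y x)
    (cs : ∀ a b c d, β a b = β c d → ∃ w, β a w = β a b ∧ β c w = β a b)
    (huniv : ∀ b : Additive (SqClass F) →ₗ[ZMod 2] Additive (SqClass F) →ₗ[ZMod 2] ZMod 2,
        (∀ x y, β x y = 0 → b x y = 0) → ∃ B : Dual (ZMod 2) Q, ∀ x y, B (β x y) = b x y) :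
    Good β (Additive.ofMul (sqClass (-1))) := by
  have hSp : ∀ x y, β x y = 0 ↔ Tower.Sp F x y := fun x y => hβ (Additive.toMul x) _
  have P : Pre β (Additive.ofMul (sqClass (-1))) := by
    refine ⟨symm, cs, fun x => ?_⟩
    have h3 : β x (Additive.ofMul (sqClass (-1)) + x) = 0 :=
      (hβ (Additive.toMul x) (sqClass (-1) * Additive.toMul x)).2
        ((QStr.ofField_axioms F h2).neg _)
    rw [map_add] at h3
    exact (eq_of_add_eq_zero h3).symm
  refine ⟨P, ?_⟩
  intro m q S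
  have H : Tower.Hyp (Tower.Sp F) m (W P S) {x | Qv β q x} (fun z => β m z = q) := by
    refine ⟨?_, ?_, ?_, ?_, ?_⟩
    · intro x hx w hw
      exact Qv_add P S hx hw
    · intro y z h h1
      rw [← hSp, map_add] at h
      rw [← eq_of_add_eq_zero h]
      exact h1
    · intro w hw y h
      rw [← hSp, map_add, LinearMap.add_apply] at h
      exact (hSp _ _).1 (w3 S hw y y (eq_of_add_eq_zero h))
    · intro w hw g
      obtain ⟨g', h1, h3⟩ := w4 S hw g
      exact ⟨g', (hSp _ _).1 h1, (hSp _ _).1 (by rw [map_add, h3, add_self])⟩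
    · intro d hd
      obtain ⟨y, hy⟩ := hd
      obtain ⟨y0, hy0⟩ := S.ex
      obtain ⟨z, h1, h3⟩ := P.cs' hy hy0
      exact ⟨z, (hSp _ _).1 (by rw [map_add, LinearMap.add_apply, h1, h3, add_self]), h3⟩
  obtain ⟨hC, hB⟩ := Tower.tower _ F h2 m (W P S) _ _ H le_rfl
  constructor
  · intro d hd
    obtain ⟨z, h6, h7, h8⟩ := hC d hd
    refine ⟨z, fun w hw => (hSp _ _).2 (h7 w hw), ?_, h8⟩
    rw [← hSp, map_add, LinearMap.add_apply] at h6
    rw [← eq_of_add_eq_zero h6]
    exact h8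
  · obtain ⟨y0, hy0⟩ := S.ex
    obtain ⟨b, -, h3, h4, h5⟩ := hB y0 (by
      rw [← hSp, hy0]
      exact S.q0)
    obtain ⟨B, hB⟩ := huniv b (fun x y h => h3 x y ((hSp _ _).1 h))
    refine ⟨B, ?_, ?_⟩
    · rw [← hy0, hB, h4]
    · intro w hw y
      rw [hB]
      exact h5 w hw y

end Pool.Agent.Hhelper2.SmallEl
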