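import Mathlib

/-!
# Graphs (with loops) in which any two vertices have exactly one common neighbour
-/

namespace Pool.Agent.Hhelper2.Graph

open Finset

variable {V : Type*} [Fintype V] (r : V → V → Prop) [DecidableEq V] [DecidableRel r]

/-- The degree; a loop counts once. -/
def deg (x : V) : ℕ := (univ.filter (r x)).card

variable (hs : ∀ x y, r x y → r y x) (hex : ∀ x y, x ≠ y → ∃ z, r x z ∧ r y z)
  (hu : ∀ x y, x ≠ y → ∀ z z', r x z → r y z → r x z' → r y z' → z = z')

include hs hex hu in
lemma deg_le (x y : V) (hxy : x ≠ y) (h : ¬ r x y) : deg r x ≤ deg r y := by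
  classical
  have hne : ∀ u, r x u → u ≠ y := by
    rintro u hu' rfl
    exact h hu'
  have hch : ∀ u : V, ∃ z, r x u → (r u z ∧ r y z) := by
    intro u
    by_cases hxu : r x u
    · obtain ⟨z, hz⟩ := hex u y (hne u hxu)
      exact ⟨z, fun _ => hz⟩
    · exact ⟨u, fun h => absurd h hxu⟩
  choose f hf using hch
  refine Finset.card_le_card_of_injOn f ?_ ?_
  · intro u hu'
    simp only [coe_filter, mem_univ, true_and, Set.mem_ofPred_eq] at hu' ⊢
    exact (hf u hu').2
  · intro u hu1 u' hu2 he
    simp only [coe_filter, mem_univ, true_and, Set.mem_ofPred_eq] at hu1 hu2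
    by_contra hne'
    have h1 := hf u hu1
    have h2 := hf u' hu2
    have := hu u u' hne' x (f u) (hs _ _ hu1) (hs _ _ hu2) h1.1 (by rw [he]; exact h2.1)
    apply h
    have h3 := h1.2
    rw [← this] at h3
    exact hs _ _ h3

include hs hex hu in
lemma deg_eq (x y : V) (hxy : x ≠ y) (h : ¬ r x y) : deg r x = deg r y :=
  le_antisymm (deg_le r hs hex hu x y hxy h)
    (deg_le r hs hex hu y x hxy.symm fun h' => h (hs _ _ h'))

omit hs in
include hu in
lemma deg_le_two (a : V) (hall : ∀ x, x ≠ a → r a x) (x : V) (hx : x ≠ a) : deg r x ≤ 2 := by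
  classical
  by_cases h : ∃ z, z ≠ a ∧ r x z
  · obtain ⟨z, hza, hxz⟩ := h
    have : univ.filter (r x) ⊆ {a, z} := by
      intro w hw
      simp only [mem_filter, mem_univ, true_and] at hw
      simp only [mem_insert, mem_singleton]
      by_cases hwa : w = a
      · exact Or.inl hwa
      · exact Or.inr (hu x a hx w z hw (hall w hwa) hxz (hall z hza))
    exact (card_le_card this).trans card_le_two
  · push Not at h
    have : univ.filter (r x) ⊆ {a} := by
      intro w hw
      simp only [mem_filter, mem_univ, true_and] at hw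
      simp only [mem_singleton]
      by_contra hwa
      exact h w hwa hw
    exact (card_le_card this).trans (by simp)

include hs hu in
lemma deg_le_one (a : V) (hall : ∀ x, x ≠ a → r a x) (haa : r a a) (x : V) (hx : x ≠ a) :
    deg r x ≤ 1 := by
  classical
  have : univ.filter (r x) ⊆ {a} := by
    intro w hw
    simp only [mem_filter, mem_univ, true_and] at hw
    simp only [mem_singleton]
    by_contra hwa
    exact hwa (hu x a hx w a hw (hall w hwa) (hs _ _ (hall x hx)) haa)
  exact (card_le_card this).trans (by simp)

include hs hex hu in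
/-- Either `a` is adjacent to all other vertices, or the graph is regular (if `deg a ≥ 3`). -/
lemma regular_of_not (a : V) (ha : 3 ≤ deg r a) (y : V) (hya : y ≠ a) (hy : ¬ r a y) :
    ∀ x, deg r x = deg r a := by
  have hdy : deg r y = deg r a := (deg_eq r hs hex hu a y hya.symm hy).symm
  have main : ∀ z, ¬ (r z a ∧ r z y) → deg r z = deg r a := by
    intro z hz
    by_cases h1 : z = a
    · rw [h1]
    by_cases h2 : z = y
    · rw [h2, hdy]
    by_cases h3 : r z a
    · have h4 : ¬ r z y := fun h => hz ⟨h3, h⟩
      rw [deg_eq r hs hex hu z y h2 h4, hdy]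
    · exact deg_eq r hs hex hu z a h1 h3
  intro x
  by_cases hx : r x a ∧ r x y
  · by_cases hall : ∀ z, z ≠ x → r x z
    · exfalso
      have hax : a ≠ x := by
        rintro rfl
        exact hy hx.2
      have := deg_le_two r hu x hall a hax
      omega
    · push Not at hall
      obtain ⟨z, hzx, hz⟩ := hall
      rw [deg_eq r hs hex hu x z hzx.symm hz]
      apply main
      rintro ⟨h1, h2⟩
      apply hzx
      exact hu a y hya.symm z x (hs _ _ h1) (hs _ _ h2) (hs _ _ hx.1) (hs _ _ hx.2)
  · exact main x hx

include hs hex hu in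
/-- Counting the vertices from a vertex `a`. -/
lemma card_eq (a : V) : Fintype.card V = 1 + ∑ x ∈ univ.filter (r a), (deg r x - 1) := by
  classical
  have h1 : (univ : Finset V) = insert a ((univ.filter (r a)).biUnion
      fun x => (univ.filter (r x)).erase a) := by
    ext y
    simp only [mem_univ, mem_insert, mem_biUnion, mem_filter, true_and, mem_erase, true_iff]
    by_cases hy : y = a
    · exact Or.inl hy
    · right
      obtain ⟨z, hz1, hz2⟩ := hex y a hy
      exact ⟨z, hz2, hy, hs _ _ hz1⟩
  have h2 : Fintype.card V = (insert a ((univ.filter (r a)).biUnion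
      fun x => (univ.filter (r x)).erase a)).card := by
    rw [← h1]; rfl
  rw [h2, card_insert_of_notMem (by simp), card_biUnion, add_comm]
  · congr 1
    refine sum_congr rfl fun x hx => ?_
    simp only [mem_filter, mem_univ, true_and] at hx
    rw [card_erase_of_mem (by simp [hs _ _ hx])]
    rfl
  · intro x hx x' hx' hne
    simp only [coe_filter, mem_univ, true_and, Set.mem_ofPred_eq] at hx hx'
    rw [Function.onFun, disjoint_left]
    intro y hy hy'
    simp only [mem_erase, mem_filter, mem_univ, true_and] at hy hy'
    exact hne (hu y a hy.1 x x' (hs _ _ hy.2) hx (hs _ _ hy'.2) hx')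

end Pool.Agent.Hhelper2.Graph
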