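import Pool.Agent.Hhelper2.Tower

/-!
# Splitting off a factor of local type: linear algebra
-/

namespace Pool.Agent.Hhelper2.LocalCore

open Module Submodule Codim

universe u v

variable {V : Type u} {Q : Type v} [AddCommGroup V] [Module (ZMod 2) V] [Finite V]
  [AddCommGroup Q] [Module (ZMod 2) Q] [Finite Q]

/-- If every element outside `W` is nonorthogonal to some element of `Lp`, where `W` is the kernel
of `b`, then `Lp` and `W` generate everything. -/
theorem sup_top (W Lp : Submodule (ZMod 2) V) (b : V →ₗ[ZMod 2] V →ₗ[ZMod 2] ZMod 2)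
    (bs : ∀ x y, b x y = b y x) (hbW : ∀ w ∈ W, ∀ x, b w x = 0)
    (hC : ∀ d, d ∉ W → ∃ z ∈ Lp, b d z = 1) : Lp ⊔ W = ⊤ := by
  set Ψ : Lp →ₗ[ZMod 2] Dual (ZMod 2) V := b.domRestrict Lp with hΨ
  have hkerΨ : finrank (ZMod 2) (Lp ⊓ W : Submodule (ZMod 2) V) ≤
      finrank (ZMod 2) (LinearMap.ker Ψ) := by
    let g : (Lp ⊓ W : Submodule (ZMod 2) V) →ₗ[ZMod 2] LinearMap.ker Ψ :=
      { toFun := fun z => ⟨⟨z, z.2.1⟩, by
          rw [LinearMap.mem_ker]
          ext y
          exact hbW z z.2.2 y⟩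
        map_add' := fun _ _ => rfl
        map_smul' := fun _ _ => rfl }
    apply LinearMap.finrank_le_finrank_of_injective (f := g)
    intro x y h
    have := congrArg (fun t : LinearMap.ker Ψ => ((t : Lp) : V)) h
    exact Subtype.ext this
  set Φ : V →ₗ[ZMod 2] Dual (ZMod 2) Lp := Ψ.dualMap ∘ₗ Dual.eval (ZMod 2) V with hΦ
  have hΦa : ∀ d (z : Lp), Φ d z = b d z := by
    intro d z
    show b z d = b d z
    exact bs _ _
  have hkerΦ : LinearMap.ker Φ ≤ W := by
    intro d hd
    by_contra hdW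
    obtain ⟨z, hz, h1⟩ := hC d hdW
    have h2 := LinearMap.congr_fun (LinearMap.mem_ker.1 hd) ⟨z, hz⟩
    rw [hΦa, h1] at h2
    exact one_ne_zero h2
  have h1 : finrank (ZMod 2) (LinearMap.range Φ) ≤ finrank (ZMod 2) (LinearMap.range Ψ) := by
    rw [← LinearMap.finrank_range_dualMap_eq_finrank_range Ψ]
    exact Submodule.finrank_mono (LinearMap.range_comp_le_range _ _)
  have h2 := LinearMap.finrank_range_add_finrank_ker Φ
  have h3 := LinearMap.finrank_range_add_finrank_ker Ψ
  have h4 := Submodule.finrank_mono hkerΦ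
  have h5 := Submodule.finrank_sup_add_finrank_inf_eq Lp W
  apply Submodule.eq_top_of_finrank_eq
  apply le_antisymm (Submodule.finrank_le _)
  omega

/-- Functionals which vanish on the kernel of a symmetric form are represented. -/
theorem exists_repr (W : Submodule (ZMod 2) V) (b : V →ₗ[ZMod 2] V →ₗ[ZMod 2] ZMod 2)
    (bs : ∀ x y, b x y = b y x) (hb : ∀ x, x ∈ W ↔ b x = 0) (f : Dual (ZMod 2) V)
    (hf : ∀ w ∈ W, f w = 0) : ∃ t, b t = f := by
  have h1 : LinearMap.range b ≤ W.dualAnnihilator := by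
    rintro _ ⟨t, rfl⟩
    rw [Submodule.mem_dualAnnihilator]
    intro w hw
    rw [bs, (hb w).1 hw, LinearMap.zero_apply]
  have h2 := LinearMap.finrank_range_add_finrank_ker b
  have h3 : LinearMap.ker b = W := by
    ext x
    rw [LinearMap.mem_ker, hb]
  have h4 : finrank (ZMod 2) W + finrank (ZMod 2) W.dualAnnihilator = finrank (ZMod 2) V :=
    Subspace.finrank_add_finrank_dualAnnihilator_eq W
  rw [h3] at h2
  have h5 : LinearMap.range b = W.dualAnnihilator := by
    have h6 : finrank (ZMod 2) (LinearMap.range b) =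
        finrank (ZMod 2) W.dualAnnihilator := by omega
    exact Submodule.eq_of_le_of_finrank_eq h1 h6
  have h6 : f ∈ W.dualAnnihilator := (Submodule.mem_dualAnnihilator f).2 hf
  rw [← h5] at h6
  exact h6

variable {β : V →ₗ[ZMod 2] V →ₗ[ZMod 2] Q}

omit [Finite V] [Finite Q] in
/-- The form `b` takes the value one on the pairs with symbol `q`. -/
theorem b_eq_one (cs : ∀ a b c d, β a b = β c d → ∃ w, β a w = β a b ∧ β c w = β a b)
    {m m' : V} (b : V →ₗ[ZMod 2] V →ₗ[ZMod 2] ZMod 2)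
    (bsp : ∀ x y, β x y = 0 → b x y = 0) (bm : b m m' = 1) {x y : V} (h : β x y = β m m') :
    b x y = 1 := by
  obtain ⟨w, h1, h2⟩ := cs _ _ _ _ h
  have e1 : b x (y + w) = 0 := bsp _ _ (by rw [map_add, h1, add_self])
  have e2 : b (x + m) w = 0 := bsp _ _ (by
    rw [map_add, LinearMap.add_apply, h1, h2, add_self])
  have e3 : b m (w + m') = 0 := bsp _ _ (by rw [map_add, h2, ← h, add_self])
  rw [map_add] at e1 e2 e3
  rw [LinearMap.add_apply] at e2
  rw [eq_of_add_eq_zero e1, eq_of_add_eq_zero e2, eq_of_add_eq_zero e3, bm]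

/-- The output of the splitting. -/
structure Splits (β : V →ₗ[ZMod 2] V →ₗ[ZMod 2] Q) (q : Q) (W : Submodule (ZMod 2) V)
    (b : V →ₗ[ZMod 2] V →ₗ[ZMod 2] ZMod 2) : Prop where
  memW : ∀ x, x ∈ W ↔ ∀ y, β x y ≠ q
  bs : ∀ x y, b x y = b y x
  bsp : ∀ x y, β x y = 0 → b x y = 0
  bq : ∀ x y, β x y = q → b x y = 1
  ker : ∀ x, x ∈ W ↔ b x = 0
  sup : Lq β q ⊔ W = ⊤

omit [Finite Q] in
/-- The local factor theorem, linear algebra part. -/
theorem splits (symm : ∀ x y, β x y = β y x)
    (cs : ∀ a b c d, β a b = β c d → ∃ w, β a w = β a b ∧ β c w = β a b)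
    {m m' : V} {q : Q} (hmm : β m m' = q)
    (W : Submodule (ZMod 2) V) (hW : ∀ x, x ∈ W ↔ ∀ y, β x y ≠ q)
    (hC : ∀ d, d ∉ W → ∃ z, (∀ w ∈ W, β w z = 0) ∧ β d z = q)
    (b : V →ₗ[ZMod 2] V →ₗ[ZMod 2] ZMod 2)
    (bs : ∀ x y, b x y = b y x) (bsp : ∀ x y, β x y = 0 → b x y = 0) (bm : b m m' = 1)
    (hbW : ∀ w ∈ W, ∀ x, b w x = 0) : Splits β q W b := by
  have bq : ∀ x y, β x y = q → b x y = 1 := fun x y h => by
    rw [← hmm] at h
    exact b_eq_one cs b bsp bm h
  have hker : ∀ x, x ∈ W ↔ b x = 0 := by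
    intro x
    constructor
    · intro hx
      ext y
      rw [hbW x hx y, LinearMap.zero_apply]
    · intro hx
      by_contra hxW
      obtain ⟨z, -, hz⟩ := hC x hxW
      have := bq x z hz
      rw [hx, LinearMap.zero_apply] at this
      exact zero_ne_one this
  refine ⟨hW, bs, bsp, bq, hker, ?_⟩
  let Lp : Submodule (ZMod 2) V :=
    { carrier := {x | ∀ w ∈ W, β w x = 0}
      add_mem' := by
        intro x y hx hy w hw
        rw [map_add, hx w hw, hy w hw, add_zero]
      zero_mem' := fun w _ => map_zero _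
      smul_mem' := by
        intro c x hx w hw
        rw [map_smul, hx w hw, smul_zero] }
  have hLp : ∀ x, x ∈ Lp ↔ ∀ w ∈ W, β w x = 0 := fun x => Iff.rfl
  have hsup : Lp ⊔ W = ⊤ := by
    apply sup_top W Lp b bs hbW
    intro d hd
    obtain ⟨z, h1, h2⟩ := hC d hd
    exact ⟨z, h1, bq _ _ h2⟩
  have hle : Lp ≤ Lq β q := by
    intro x hx y
    by_contra hcon
    push Not at hcon
    obtain ⟨B, hB1, hB2⟩ := exists_sep hcon.1 hcon.2
    obtain ⟨t, ht⟩ := exists_repr W b bs hker (B ∘ₗ β x) (by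
      intro w hw
      rw [LinearMap.comp_apply, symm, hx w hw, map_zero])
    have htW : t ∉ W := by
      intro h
      rw [hker, ht] at h
      have := LinearMap.congr_fun h y
      rw [LinearMap.comp_apply, hB1, LinearMap.zero_apply] at this
      exact one_ne_zero this
    have hxW : x ∉ W := by
      intro h
      have h1 : β x y = 0 := by
        have h2 : (y : V) ∈ Lp ⊔ W := by rw [hsup]; trivial
        obtain ⟨l, hl, w, hw, rfl⟩ := Submodule.mem_sup.1 h2
        rw [map_add, hl x h, symm x w, hx w hw, add_zero]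
      exact hcon.1 h1
    have e1 : ∃ z, β t z = q := by
      by_contra h
      push Not at h
      exact htW ((hW t).2 h)
    have e2 : ∃ z, β x z = q := by
      by_contra h
      push Not at h
      exact hxW ((hW x).2 h)
    obtain ⟨z1, hz1⟩ := e1
    obtain ⟨z2, hz2⟩ := e2
    obtain ⟨z, h3, h4⟩ := cs _ _ _ _ (hz1.trans hz2.symm)
    rw [hz1] at h3 h4
    have h5 := LinearMap.congr_fun ht z
    rw [LinearMap.comp_apply, h4, hB2, bq _ _ h3] at h5
    exact one_ne_zero h5
  rw [eq_top_iff, ← hsup]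
  exact sup_le_sup_right hle _

omit [Finite V] [Finite Q] in
/-- Elements of `Lq β q` are orthogonal to `W`. -/
theorem Splits.orth {q : Q} {W : Submodule (ZMod 2) V}
    {b : V →ₗ[ZMod 2] V →ₗ[ZMod 2] ZMod 2} (symm : ∀ x y, β x y = β y x)
    (h : Splits β q W b) {x w : V} (hx : x ∈ Lq β q) (hw : w ∈ W) : β x w = 0 := by
  rcases hx w with h1 | h1
  · exact h1
  · exact absurd (by rw [symm]; exact h1) ((h.memW w).1 hw x)

end Pool.Agent.Hhelper2.LocalCore
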