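import Pool.Agent.Hhelper2.LocalMain

/-!
# Splitting off the local factors of the quaternionic structure of a field

Let `F` be a field of characteristic not two with finitely many square classes.  Its quaternionic
structure is the direct product of structures `L i` of local type, of a totally split structure `R`
and of a nondegenerate structure `T` in which any two classes whose value groups have order at most
two have a split product.  If all the groups `D⟨1, - a⟩` have index at most `s` in
`G = F^* / F^* ^ 2`, then the order of `T` is bounded by a function of `s`.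
-/

namespace Pool.Agent.Hhelper2.LocalFactorsOld

open Pool.Agent.Hhelper2 Pool.Agent.Hhelper2.Codim Pool.Agent.Hhelper2.LocalCore Module

universe u

/-- The decomposition of the quaternionic structure of `F` into a core `T`, a totally split
structure `R`, and structures `L i` of local type. -/
structure IsDecomp (F : Type u) [Field F] {ι : Type u} (T R : QStr.{u}) (L : ι → QStr.{u}) :
    Prop where
  iso : Nonempty ((QStr.ofField F).Iso ((T.prod R).prod (QStr.pi L)))
  isLocal : ∀ i, (L i).IsLocal
  split : ∀ a b, R.Split a b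
  nondeg : ∀ t : T.G, t ≠ 1 → ∃ t', ¬ T.Split t t'
  small : ∀ a b, T.IsSmall a → T.IsSmall b → T.Split a b

theorem result : ∃ c : ℕ → ℕ, ∀ (F : Type u) [Field F], (2 : F) ≠ 0 → Finite (SqClass F) →
    ∃ (ι : Type u) (T R : QStr.{u}) (L : ι → QStr.{u}), Finite ι ∧ IsDecomp F T R L ∧
      ∀ s : ℕ, (∀ a : SqClass F,
        Nat.card (SqClass F) ≤ s * Nat.card {b : SqClass F // FieldSplit F a b}) →
        Nat.card T.G ≤ c s := by
  refine ⟨fun s => 2 ^ ((bnd (s ^ 2) (s ^ 2) 0 + 2 ^ (s ^ 2)) * (s ^ 2 + 1) +
    2 * 2 ^ (s ^ 2) + 1), ?_⟩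
  intro F _ h2 _
  have hfin : Finite (Additive (SqClass F)) := inferInstanceAs (Finite (SqClass F))
  obtain ⟨Q, _, _, _, β, hβ0, hsymm, hcs, hlk, hspan⟩ := exists_bilin F h2
  have ax := QStr.ofField_axioms F h2
  set e : Additive (SqClass F) := Additive.ofMul (sqClass (-1)) with he'
  have he : ∀ x : Additive (SqClass F), β x x = β x e := by
    intro x
    have h3 : β x (Additive.ofMul (sqClass (-1)) + x) = 0 :=
      (hβ0 (Additive.toMul x) (sqClass (-1) * Additive.toMul x)).2 (ax.neg _)
    rw [map_add] at h3
    exact (eq_of_add_eq_zero h3).symm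
  obtain ⟨C, hC⟩ := Submodule.exists_isCompl (LinearMap.ker β)
  have hex : ∀ q : LocVal β, ∃ W b, Splits β q.1 W b := by
    rintro ⟨q, hq, m, hm, m', hm', hmm⟩
    exact field_splits h2 hβ0 hsymm hcs hq hm hm' hmm
  choose W b hWb using hex
  let A : AllSplit β := ⟨C, hC, W, b, hWb⟩
  have := Fintype.ofFinite (LocVal β)
  refine ⟨LocVal β, sub β A.T (A.equiv.symm e).1.1,
    sub β (LinearMap.ker β) (A.equiv.symm e).1.2,
    fun q => sub β (A.L q) ((A.equiv.symm e).2 q), inferInstance, ⟨⟨⟨?_, ?_, ?_⟩⟩, ?_, ?_, ?_, ?_⟩,
    ?_⟩
  · exact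
      { toFun := fun x => ((Multiplicative.ofAdd (A.equiv.symm (Additive.ofMul x)).1.1,
            Multiplicative.ofAdd (A.equiv.symm (Additive.ofMul x)).1.2),
            fun q => Multiplicative.ofAdd ((A.equiv.symm (Additive.ofMul x)).2 q))
        invFun := fun y => Additive.toMul (A.equiv ((Multiplicative.toAdd y.1.1,
          Multiplicative.toAdd y.1.2), fun q => Multiplicative.toAdd (y.2 q)))
        left_inv := by
          intro x
          show Additive.toMul (A.equiv (A.equiv.symm (Additive.ofMul x))) = x
          rw [LinearEquiv.apply_symm_apply]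
          rfl
        right_inv := by
          intro y
          show ((Multiplicative.ofAdd (A.equiv.symm (A.equiv _)).1.1,
            Multiplicative.ofAdd (A.equiv.symm (A.equiv _)).1.2),
            fun q => Multiplicative.ofAdd ((A.equiv.symm (A.equiv _)).2 q)) = y
          rw [LinearEquiv.symm_apply_apply]
          rfl
        map_mul' := by
          intro x y
          have h : A.equiv.symm (Additive.ofMul (x * y)) = A.equiv.symm (Additive.ofMul x) +
            A.equiv.symm (Additive.ofMul y) := by
            rw [← map_add]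
            rfl
          show ((Multiplicative.ofAdd (A.equiv.symm (Additive.ofMul (x * y))).1.1,
            Multiplicative.ofAdd (A.equiv.symm (Additive.ofMul (x * y))).1.2),
            fun q => Multiplicative.ofAdd ((A.equiv.symm (Additive.ofMul (x * y))).2 q)) = _
          rw [h]
          rfl }
  · rfl
  · intro x y
    have h := A.split_iff hsymm (A.equiv.symm (Additive.ofMul x))
      (A.equiv.symm (Additive.ofMul y))
    have e1 : ∀ z, A.f (A.equiv.symm z) = z := fun z => A.equiv.apply_symm_apply z
    rw [e1, e1, hβ0] at h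
    constructor
    · intro hxy
      obtain ⟨h3, h4⟩ := h.1 hxy
      refine ⟨⟨h3, ?_⟩, h4⟩
      show β ((A.equiv.symm (Additive.ofMul x)).1.2 : Additive (SqClass F)) _ = 0
      rw [LinearMap.mem_ker.1 (A.equiv.symm (Additive.ofMul x)).1.2.2, LinearMap.zero_apply]
    · rintro ⟨⟨h3, -⟩, h4⟩
      exact h.2 ⟨h3, h4⟩
  · exact fun q => isLocal hsymm e he A q
  · intro a b
    show β ((Multiplicative.toAdd a : LinearMap.ker β) : Additive (SqClass F)) _ = 0
    rw [LinearMap.mem_ker.1 (Multiplicative.toAdd a : LinearMap.ker β).2, LinearMap.zero_apply]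
  · exact fun t ht => T_nondeg hsymm A _ t ht
  · exact fun a b ha hb => T_small hsymm A _ a b ha hb
  · intro s hs
    have hk : Module.finrank (ZMod 2) Q ≤ s ^ 2 := by
      apply finrank_le_sq β hsymm hspan s
      intro a
      refine (hs (Additive.toMul a)).trans (le_of_eq ?_)
      congr 1
      apply Nat.card_congr
      exact
        { toFun := fun b => ⟨Additive.ofMul b.1, (hβ0 _ _).2 b.2⟩
          invFun := fun b => ⟨Additive.toMul b.1, (hβ0 _ _).1 b.2⟩
          left_inv := fun _ => rfl
          right_inv := fun _ => rfl }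
    have hN := small_span β hsymm hcs hk
    obtain ⟨ι, _, u, v, B, R, h1, h3, h4, h5, h6, h7, h8, h9⟩ :=
      exists_structure hsymm (Additive.ofMul (sqClass (-1))) he hk hN
    have h10 : finrank (ZMod 2) A.T ≤ finrank (ZMod 2) B := by
      refine finrank_T_le A hsymm h4 h5 h6 h7 ?_ h9
      intro i
      obtain ⟨b, hb, b', hb', h10, h11⟩ := h8 i
      rw [h10]
      exact h11
    show Nat.card A.T ≤ _
    rw [Module.natCard_eq_pow_finrank (K := ZMod 2) (V := A.T)]
    simp only [Nat.card_zmod]
    exact Nat.pow_le_pow_right (by norm_num) (h10.trans h3)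

end Pool.Agent.Hhelper2.LocalFactorsOld
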