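import Pool.Agent.Hhelper2.FieldDecomp

/-!
# Square classes and quaternion symbols in a quadratic extension

Restriction and norm maps on square classes for a quadratic extension `E = K(√a)`, with the
projection formula, the norm principle, and the description of the symbols killed by `E`.
-/

namespace Pool.Agent.Hhelper2.QuadExt

open FieldAx QuadraticAlgebra

universe u

section elements

variable {K : Type u} [Field K] {a : K}


/-- Projection formula. -/
lemma elt_norm {x : K} {y : (QuadraticAlgebra K a 0)} (h : ∃ p q : (QuadraticAlgebra K a 0), y = p ^ 2 - algebraMap K (QuadraticAlgebra K a 0) x * q ^ 2) :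
    ∃ p q : K, QuadraticAlgebra.norm y = p ^ 2 - x * q ^ 2 := by
  obtain ⟨p, q, rfl⟩ := h
  refine ⟨(p.re ^ 2 - a * p.im ^ 2) + x * (q.re ^ 2 - a * q.im ^ 2),
    2 * (p.re * q.re - a * p.im * q.im), ?_⟩
  simp [norm_def, sq]
  ring

variable [Fact (∀ r : K, r ^ 2 ≠ a + 0 * r)]

lemma two_ne (h2 : (2 : K) ≠ 0) : (2 : (QuadraticAlgebra K a 0)) ≠ 0 := by
  intro h
  apply h2
  have := congrArg QuadraticAlgebra.re h
  simpa using this

/-- The norm principle. -/
lemma elt_principle (h2 : (2 : K) ≠ 0) {x : K} {y : (QuadraticAlgebra K a 0)} (hy : y ≠ 0) {z₀ z₁ : K}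
    (h : QuadraticAlgebra.norm y = z₀ ^ 2 - x * z₁ ^ 2) :
    ∃ h : K, h ≠ 0 ∧ ∃ p q : (QuadraticAlgebra K a 0), y * algebraMap K (QuadraticAlgebra K a 0) h = p ^ 2 - algebraMap K (QuadraticAlgebra K a 0) x * q ^ 2 := by
  have key : ∀ z₀ : K, QuadraticAlgebra.norm y = z₀ ^ 2 - x * z₁ ^ 2 → y.re + z₀ ≠ 0 →
      ∃ h : K, h ≠ 0 ∧ ∃ p q : (QuadraticAlgebra K a 0), y * algebraMap K (QuadraticAlgebra K a 0) h = p ^ 2 - algebraMap K (QuadraticAlgebra K a 0) x * q ^ 2 := by
    intro z₀ h h0
    refine ⟨2 * (y.re + z₀), mul_ne_zero h2 h0, y + algebraMap K (QuadraticAlgebra K a 0) z₀, algebraMap K (QuadraticAlgebra K a 0) z₁, ?_⟩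
    rw [norm_def] at h
    ext
    · simp [sq]
      linear_combination h
    · simp [sq]
      ring
  by_cases h0 : y.re + z₀ = 0
  · by_cases h1 : y.re = 0
    · have hz0 : z₀ = 0 := by linear_combination h0 - h1
      rw [norm_def, h1, hz0] at h
      have hy1 : y.im ≠ 0 := by
        intro h3
        apply hy
        ext
        · simpa using h1
        · simpa using h3
      have hz1 : z₁ ≠ 0 := by
        rintro rfl
        have ha : a = 0 := by
          have : a * y.im ^ 2 = 0 := by linear_combination -h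
          rcases mul_eq_zero.1 this with h4 | h4
          · exact h4
          · exact absurd (pow_eq_zero_iff (two_ne_zero) |>.1 h4) hy1
        apply (Fact.out : ∀ r : K, r ^ 2 ≠ a + 0 * r) 0
        rw [ha]; ring
      -- `x` is a square in `(QuadraticAlgebra K a 0)`
      set r : (QuadraticAlgebra K a 0) := ⟨0, y.im / z₁⟩ with hr
      have hr2 : algebraMap K (QuadraticAlgebra K a 0) x = r ^ 2 := by
        ext
        · simp [sq, hr]
          field_simp
          linear_combination h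
        · simp [sq, hr]
      have hr0 : r ≠ 0 := by
        intro h4
        have := congrArg QuadraticAlgebra.im h4
        simp [hr] at this
        tauto
      have h2' : (2 : (QuadraticAlgebra K a 0)) ≠ 0 := two_ne h2
      refine ⟨1, one_ne_zero, (1 + y) / 2, (y - 1) / (2 * r), ?_⟩
      rw [hr2, map_one]
      field_simp
      ring
    · refine key (-z₀) (by rw [h]; ring) ?_
      intro h3
      apply h1
      have : 2 * y.re = 0 := by linear_combination h0 + h3
      rcases mul_eq_zero.1 this with h4 | h4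
      · exact absurd h4 h2
      · exact h4
  · exact key z₀ h h0

/-- An element whose norm is a square is a square up to the base field. -/
lemma elt_ker (h2 : (2 : K) ≠ 0) {y : (QuadraticAlgebra K a 0)} (hy : y ≠ 0) {c : K}
    (h : QuadraticAlgebra.norm y = c ^ 2) :
    ∃ h : K, h ≠ 0 ∧ ∃ t : (QuadraticAlgebra K a 0), y * algebraMap K (QuadraticAlgebra K a 0) h = t ^ 2 := by
  have key : ∀ c : K, QuadraticAlgebra.norm y = c ^ 2 → y.re + c ≠ 0 →
      ∃ h : K, h ≠ 0 ∧ ∃ t : (QuadraticAlgebra K a 0), y * algebraMap K (QuadraticAlgebra K a 0) h = t ^ 2 := by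
    intro c h h0
    refine ⟨2 * (y.re + c), mul_ne_zero h2 h0, y + algebraMap K (QuadraticAlgebra K a 0) c, ?_⟩
    rw [norm_def] at h
    ext
    · simp [sq]
      linear_combination h
    · simp [sq]
      ring
  by_cases h0 : y.re + c = 0
  · refine key (-c) (by rw [h]; ring) ?_
    intro h3
    have h4 : 2 * c = 0 := by linear_combination h0 - h3
    have hc : c = 0 := (mul_eq_zero.1 h4).resolve_left h2
    rw [hc] at h
    apply hy
    rw [← norm_eq_zero_iff_eq_zero, h]; ring
  · exact key c h h0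

/-- Symbols from the base field which split in the quadratic extension. -/
lemma elt_killed (h2 : (2 : K) ≠ 0) {x h : K} (ha : a ≠ 0) (hx : x ≠ 0) (hh : h ≠ 0)
    (hs : ∃ p q : (QuadraticAlgebra K a 0), algebraMap K (QuadraticAlgebra K a 0) h = p ^ 2 - algebraMap K (QuadraticAlgebra K a 0) x * q ^ 2) :
    ∃ w : K, w ≠ 0 ∧ (∃ p q : K, h * w = p ^ 2 - x * q ^ 2) ∧
      ∃ p q : K, w = p ^ 2 - a * x * q ^ 2 := by
  obtain ⟨p, q, hs⟩ := hs
  have h1 := congrArg QuadraticAlgebra.re hs
  have h3 := congrArg QuadraticAlgebra.im hs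
  simp [sq] at h1 h3
  have h3' : p.re * p.im = x * (q.re * q.im) := by
    have : 2 * (p.re * p.im - x * (q.re * q.im)) = 0 := by linear_combination -h3
    rcases mul_eq_zero.1 this with h4 | h4
    · exact absurd h4 h2
    · linear_combination h4
  by_cases hp : p.re = 0
  · rw [hp] at h1 h3'
    have hq : q.re = 0 ∨ q.im = 0 := by
      have : x * (q.re * q.im) = 0 := by rw [← h3']; ring
      rcases mul_eq_zero.1 this with h4 | h4
      · exact absurd h4 hx
      · exact mul_eq_zero.1 h4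
    rcases hq with hq | hq
    · rw [hq] at h1
      refine ⟨-(a * x), neg_ne_zero.2 (mul_ne_zero ha hx),
        ⟨x * a * q.im, a * p.im, ?_⟩, ⟨0, 1, by ring⟩⟩
      rw [h1]; ring
    · rw [hq] at h1
      refine ⟨q.re ^ 2 - a * x * (p.im / x) ^ 2, ?_,
        ⟨0, q.re ^ 2 - a * x * (p.im / x) ^ 2, ?_⟩, ⟨q.re, p.im / x, rfl⟩⟩
      · intro h4
        apply hh
        rw [h1]
        field_simp at h4
        linear_combination (-1) * h4
      · rw [h1]
        field_simp
        ring
  · have hw : h = (p.re ^ 2 - x * q.re ^ 2) * (1 - a * x * (q.im / p.re) ^ 2) := by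
      field_simp
      rw [h1]
      linear_combination (a * p.im * p.re + a * x * q.re * q.im) * h3'
    have hw0 : (1 - a * x * (q.im / p.re) ^ 2) ≠ 0 := by
      intro h4
      rw [h4, mul_zero] at hw
      exact hh hw
    refine ⟨1 - a * x * (q.im / p.re) ^ 2, hw0,
      ⟨p.re * (1 - a * x * (q.im / p.re) ^ 2), q.re * (1 - a * x * (q.im / p.re) ^ 2), ?_⟩,
      ⟨1, q.im / p.re, by ring⟩⟩
    conv_lhs => rw [hw]
    ring

lemma elt_sqrt (s : K) : algebraMap K (QuadraticAlgebra K a 0) (a * s ^ 2) = (⟨0, s⟩ : (QuadraticAlgebra K a 0)) ^ 2 := by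
  ext
  · rw [sq (⟨0, s⟩ : (QuadraticAlgebra K a 0)), re_mul, algebraMap_re]
    ring
  · rw [sq (⟨0, s⟩ : (QuadraticAlgebra K a 0)), im_mul, algebraMap_im]
    ring

/-- Elements of the base field which become squares. -/
lemma elt_sq (h2 : (2 : K) ≠ 0) {x : K} (hs : ∃ t : (QuadraticAlgebra K a 0), algebraMap K (QuadraticAlgebra K a 0) x = t ^ 2) :
    ∃ s : K, x = s ^ 2 ∨ x = a * s ^ 2 := by
  obtain ⟨t, ht⟩ := hs
  have h1 := congrArg QuadraticAlgebra.re ht
  have h3 := congrArg QuadraticAlgebra.im ht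
  simp [sq] at h1 h3
  have : 2 * (t.re * t.im) = 0 := by linear_combination -h3
  rcases mul_eq_zero.1 this with h4 | h4
  · exact absurd h4 h2
  rcases mul_eq_zero.1 h4 with h5 | h5
  · exact ⟨t.im, Or.inr (by rw [h1, h5]; ring)⟩
  · exact ⟨t.re, Or.inl (by rw [h1, h5]; ring)⟩

end elements

/-! ### Square classes -/

/-- A homomorphism of unit groups induces a homomorphism of square classes. -/
noncomputable def scMap {F L : Type u} [Field F] [Field L] (f : Fˣ →* Lˣ) :
    SqClass F →* SqClass L :=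
  QuotientGroup.map _ _ f (by
    intro x hx
    rw [Subgroup.mem_comap, Subgroup.mem_square]
    rw [Subgroup.mem_square] at hx
    obtain ⟨s, hs⟩ := hx
    exact ⟨f s, by rw [hs, map_mul]⟩)

lemma scMap_mk {F L : Type u} [Field F] [Field L] (f : Fˣ →* Lˣ) (x : Fˣ) :
    scMap f (sqClass x) = sqClass (f x) := rfl

lemma exists_rep {F : Type u} [Field F] (x : SqClass F) : ∃ y : Fˣ, sqClass y = x :=
  QuotientGroup.mk_surjective x

lemma one_iff {F : Type u} [Field F] (x : Fˣ) : sqClass x = 1 ↔ ∃ s : F, (x : F) = s ^ 2 := by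
  rw [show (1 : SqClass F) = sqClass 1 from rfl, eq_comm, sqClass_eq]
  constructor
  · rintro ⟨s, hs⟩
    exact ⟨s, by rw [hs]; simp⟩
  · rintro ⟨s, hs⟩
    have hs0 : s ≠ 0 := by
      rintro rfl
      apply x.ne_zero
      rw [hs]; ring
    exact ⟨Units.mk0 s hs0, by ext; simp [hs]⟩

lemma eq_iff_mul {F : Type u} [Field F] (x y : SqClass F) : x = y ↔ x * y = 1 := by
  constructor
  · rintro rfl
    exact Codim.sqClass_mul_self x
  · intro h
    have := Codim.sqClass_mul_self y
    calc x = x * (y * y) := by rw [this, mul_one]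
      _ = (x * y) * y := by rw [mul_assoc]
      _ = y := by rw [h, one_mul]

/-- The data of a quadratic extension on the level of square classes. -/
structure QE (K E : Type u) [Field K] [Field E] (a : SqClass K) where
  /-- restriction -/
  res : SqClass K →* SqClass E
  /-- norm -/
  nm : SqClass E →* SqClass K
  two_ne : (2 : E) ≠ 0
  res_one : ∀ x, res x = 1 ↔ x = 1 ∨ x = a
  res_split : ∀ x y, FieldSplit K x y → FieldSplit E (res x) (res y)
  nm_res : ∀ x, nm (res x) = 1
  proj : ∀ x y, FieldSplit E (res x) y → FieldSplit K x (nm y)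
  principle : ∀ x y, FieldSplit K x (nm y) → ∃ h, FieldSplit E (res x) (y * res h)
  ker_nm : ∀ y, nm y = 1 → ∃ h, y = res h
  range_nm : ∀ y, FieldSplit K a y → ∃ z, nm z = y
  nm_split : ∀ z, FieldSplit K a (nm z)
  killed : ∀ x h, FieldSplit E (res x) (res h) →
    ∃ w, FieldSplit K x (h * w) ∧ FieldSplit K (a * x) w

/-- For every nontrivial square class there is a quadratic extension. -/
theorem exists_ext (K : Type u) [Field K] (h2 : (2 : K) ≠ 0) (a : SqClass K) (ha : a ≠ 1) :
    ∃ (E : Type u) (_ : Field E), Nonempty (QE K E a) := by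
  obtain ⟨a₀, rfl⟩ := exists_rep a
  have hns : ∀ r : K, r ^ 2 ≠ (a₀ : K) + 0 * r := by
    intro r hr
    apply ha
    rw [one_iff]
    exact ⟨r, by rw [hr]; ring⟩
  have : Fact (∀ r : K, r ^ 2 ≠ (a₀ : K) + 0 * r) := ⟨hns⟩
  let E := QuadraticAlgebra K (a₀ : K) 0
  have h2E : (2 : E) ≠ 0 := two_ne h2
  let res : SqClass K →* SqClass E := scMap (Units.map (algebraMap K E).toMonoidHom)
  let nm : SqClass E →* SqClass K := scMap (Units.map (QuadraticAlgebra.norm (R := K)
    (a := (a₀ : K)) (b := 0)))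
  have hres : ∀ x : Kˣ, res (sqClass x) = sqClass (Units.map (algebraMap K E).toMonoidHom x) :=
    fun x => rfl
  have hnm : ∀ x : Eˣ, nm (sqClass x) = sqClass (Units.map (QuadraticAlgebra.norm (R := K)
    (a := (a₀ : K)) (b := 0)) x) := fun x => rfl
  have hsolv : ∀ (x : Kˣ) (y : Eˣ), FieldSplit E (res (sqClass x)) (sqClass y) ↔
      ∃ p q : E, (y : E) = p ^ 2 - algebraMap K E x * q ^ 2 := by
    intro x y
    rw [hres, split_mk, solv_iff h2E (Units.ne_zero _) y.ne_zero]
    rfl
  have hsolvK : ∀ (x y : Kˣ), FieldSplit K (sqClass x) (sqClass y) ↔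
      ∃ p q : K, (y : K) = p ^ 2 - (x : K) * q ^ 2 := by
    intro x y
    rw [split_mk, solv_iff h2 x.ne_zero y.ne_zero]
  refine ⟨E, inferInstance, ⟨⟨res, nm, h2E, ?_, ?_, ?_, ?_, ?_, ?_, ?_, ?_, ?_⟩⟩⟩
  · intro x
    obtain ⟨x, rfl⟩ := exists_rep x
    rw [hres, one_iff, one_iff, eq_comm (a := sqClass x), sqClass_eq]
    constructor
    · intro h
      obtain ⟨s, hs | hs⟩ := elt_sq h2 h
      · exact Or.inl ⟨s, hs⟩
      · right
        have hs0 : s ≠ 0 := by
          rintro rfl
          apply x.ne_zero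
          rw [hs]; ring
        exact ⟨Units.mk0 s hs0, by ext; simp [hs]⟩
    · rintro (⟨s, hs⟩ | ⟨s, hs⟩)
      · exact ⟨algebraMap K E s, by
          show algebraMap K E x = _
          rw [hs, map_pow]⟩
      · refine ⟨⟨0, s⟩, ?_⟩
        show algebraMap K E x = _
        rw [hs]
        exact elt_sqrt (s : K)
  · intro x y h
    obtain ⟨x, rfl⟩ := exists_rep x
    obtain ⟨y, rfl⟩ := exists_rep y
    rw [hres y, hsolv]
    obtain ⟨p, q, hpq⟩ := (hsolvK x y).1 h
    refine ⟨algebraMap K E p, algebraMap K E q, ?_⟩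
    show algebraMap K E y = _
    rw [hpq]
    simp
  · intro x
    obtain ⟨x, rfl⟩ := exists_rep x
    rw [hres, hnm, one_iff]
    exact ⟨x, by
      show QuadraticAlgebra.norm (algebraMap K E x) = _
      rw [QuadraticAlgebra.norm_algebraMap]⟩
  · intro x y h
    obtain ⟨x, rfl⟩ := exists_rep x
    obtain ⟨y, rfl⟩ := exists_rep y
    rw [hnm, hsolvK]
    exact elt_norm ((hsolv x y).1 h)
  · intro x y h
    obtain ⟨x, rfl⟩ := exists_rep x
    obtain ⟨y, rfl⟩ := exists_rep y
    rw [hnm, hsolvK] at h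
    obtain ⟨z₀, z₁, h⟩ := h
    obtain ⟨h, hh, hpq⟩ := elt_principle h2 y.ne_zero h
    refine ⟨sqClass (Units.mk0 h hh), ?_⟩
    rw [hres (Units.mk0 h hh), ← QuotientGroup.mk_mul, hsolv]
    exact hpq
  · intro y h
    obtain ⟨y, rfl⟩ := exists_rep y
    rw [hnm, one_iff] at h
    obtain ⟨c, h⟩ := h
    obtain ⟨h, hh, t, ht⟩ := elt_ker h2 y.ne_zero h
    refine ⟨sqClass (Units.mk0 h hh), ?_⟩
    rw [eq_iff_mul, hres (Units.mk0 h hh), ← QuotientGroup.mk_mul, one_iff]
    exact ⟨t, ht⟩
  · intro y h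
    obtain ⟨y, rfl⟩ := exists_rep y
    obtain ⟨p, q, hpq⟩ := (hsolvK a₀ y).1 h
    have hn : QuadraticAlgebra.norm (⟨p, q⟩ : E) = y := by
      rw [norm_def, hpq]
      simp
      ring
    have hne : (⟨p, q⟩ : E) ≠ 0 := by
      intro h0
      rw [h0] at hn
      apply y.ne_zero
      rw [← hn]
      simp
    refine ⟨sqClass (Units.mk0 _ hne), ?_⟩
    rw [hnm]
    congr 1
    ext
    exact hn
  · intro z
    obtain ⟨z, rfl⟩ := exists_rep z
    rw [hnm, hsolvK]
    refine ⟨(z : E).re, (z : E).im, ?_⟩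
    show QuadraticAlgebra.norm (z : E) = _
    rw [norm_def]
    ring
  · intro x h hs
    obtain ⟨x, rfl⟩ := exists_rep x
    obtain ⟨h, rfl⟩ := exists_rep h
    rw [hres h, hsolv] at hs
    obtain ⟨w, hw, h1, h3⟩ := elt_killed h2 a₀.ne_zero x.ne_zero h.ne_zero hs
    refine ⟨sqClass (Units.mk0 w hw), ?_, ?_⟩
    · rw [← QuotientGroup.mk_mul, hsolvK]
      exact h1
    · rw [← QuotientGroup.mk_mul, hsolvK]
      simpa using h3

end Pool.Agent.Hhelper2.QuadExt
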