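import Pool.Agent.Hhelper2.Univ

/-!
# Small elements: basic facts

`m` is a small element with value `q`: the values of `β m` are `0` and `q`.  The elements `w` whose
values meet those of `m` trivially and whose kernel generates everything together with the kernel
of `m` form a group.
-/

namespace Pool.Agent.Hhelper2.SmallEl

open Module Submodule Codim

universe u v

variable {V : Type u} {Q : Type v} [AddCommGroup V] [Module (ZMod 2) V]
  [AddCommGroup Q] [Module (ZMod 2) Q]

/-- `q` is a value of `x`. -/
def Qv (β : V →ₗ[ZMod 2] V →ₗ[ZMod 2] Q) (q : Q) (x : V) : Prop := ∃ y, β x y = q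

/-- The kernel of `x` is contained in the kernel of `m`. -/
def Sf (β : V →ₗ[ZMod 2] V →ₗ[ZMod 2] Q) (m x : V) : Prop := ∀ y, β x y = 0 → β m y = 0

/-- `x` is independent of the small element `m` with value `q`. -/
def InW (β : V →ₗ[ZMod 2] V →ₗ[ZMod 2] Q) (m : V) (q : Q) (x : V) : Prop :=
  ¬ Qv β q x ∧ ¬ Sf β m x

/-- `m` is a small element with value `q`. -/
structure Sm (β : V →ₗ[ZMod 2] V →ₗ[ZMod 2] Q) (m : V) (q : Q) : Prop where
  q0 : q ≠ 0
  small : ∀ y, β m y = 0 ∨ β m y = q
  ex : ∃ y, β m y = q

/-- Symmetric bilinear symbols with the common slot property. -/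
structure Pre (β : V →ₗ[ZMod 2] V →ₗ[ZMod 2] Q) (e : V) : Prop where
  symm : ∀ x y, β x y = β y x
  cs : ∀ a b c d, β a b = β c d → ∃ w, β a w = β a b ∧ β c w = β a b
  he : ∀ x, β x x = β x e

variable {β : V →ₗ[ZMod 2] V →ₗ[ZMod 2] Q} {e m : V} {q : Q}

lemma Pre.cs' (P : Pre β e) {a b c d : V} {r : Q} (h : β a b = r) (h' : β c d = r) :
    ∃ w, β a w = r ∧ β c w = r := by
  obtain ⟨w, h1, h2⟩ := P.cs _ _ _ _ (h.trans h'.symm)
  exact ⟨w, h1.trans h, h2.trans h⟩

lemma Sm.eq (S : Sm β m q) {y : V} (h : β m y ≠ 0) : β m y = q := (S.small y).resolve_left h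

lemma Sm.ne (S : Sm β m q) {y : V} (h : β m y = q) : β m y ≠ 0 := by rw [h]; exact S.q0

lemma w3 (S : Sm β m q) {w : V} (hw : InW β m q w) (x y : V) (h : β m x = β w y) :
    β m x = 0 := by
  by_contra h1
  exact hw.1 ⟨y, by rw [← h, S.eq h1]⟩

lemma w4 (S : Sm β m q) {w : V} (hw : InW β m q w) (g : V) :
    ∃ g', β w g' = 0 ∧ β m g' = β m g := by
  rcases S.small g with h | h
  · exact ⟨0, map_zero _, by rw [map_zero, h]⟩
  · have h1 : ∃ y, β w y = 0 ∧ β m y ≠ 0 := by
      by_contra hcon
      push Not at hcon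
      exact hw.2 hcon
    obtain ⟨y, h2, h3⟩ := h1
    exact ⟨y, h2, by rw [S.eq h3, h]⟩

lemma w4' (S : Sm β m q) {w : V} (hw : InW β m q w) : ∃ g, β w g = 0 ∧ β m g = q := by
  obtain ⟨y, hy⟩ := S.ex
  obtain ⟨g, h1, h2⟩ := w4 S hw y
  exact ⟨g, h1, h2.trans hy⟩

/-- Simultaneous lifting. -/
lemma w44 (P : Pre β e) (S : Sm β m q) {w a : V} (hw : InW β m q w) (ha : InW β m q a) (g : V) :
    ∃ z, β w z = 0 ∧ β a z = 0 ∧ β m z = β m g := by
  obtain ⟨g₁, h1, h2⟩ := w4 S hw g
  obtain ⟨g₂, h3, h4⟩ := w4 S ha g
  have e1 : β (m + w) g₁ = β m g := by linear_combination (norm := ((try simp only [map_add, LinearMap.add_apply, map_smul, LinearMap.smul_apply]); match_scalars <;> (first | rfl | decide))) ((1 : ZMod 2) • (h1) + (1 : ZMod 2) • (h2))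
  have e2 : β (m + a) g₂ = β m g := by linear_combination (norm := ((try simp only [map_add, LinearMap.add_apply, map_smul, LinearMap.smul_apply]); match_scalars <;> (first | rfl | decide))) ((1 : ZMod 2) • (h3) + (1 : ZMod 2) • (h4))
  obtain ⟨z, h5, h6⟩ := P.cs' e1 e2
  have key : ∀ c : V, InW β m q c → ∀ g' : V, β c g' = 0 → β m g' = β m g →
      β (m + c) z = β m g → β c z = 0 ∧ β m z = β m g := by
    intro c hc g' h7 h8 h9
    have h10 : β m (z + g') = β c (z + g') := by
      linear_combination (norm := ((try simp only [map_add, LinearMap.add_apply, map_smul, LinearMap.smul_apply]); match_scalars <;> (first | rfl | decide))) ((1 : ZMod 2) • (h7) + (1 : ZMod 2) • (h8) + (1 : ZMod 2) • (h9))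
    have h11 := w3 S hc _ _ h10
    have h12 : β m z = β m g := by linear_combination (norm := ((try simp only [map_add, LinearMap.add_apply, map_smul, LinearMap.smul_apply]); match_scalars <;> (first | rfl | decide))) ((1 : ZMod 2) • (h11) + (1 : ZMod 2) • (h8))
    refine ⟨?_, h12⟩
    linear_combination (norm := ((try simp only [map_add, LinearMap.add_apply, map_smul, LinearMap.smul_apply]); match_scalars <;> (first | rfl | decide))) ((1 : ZMod 2) • (h9) + (1 : ZMod 2) • (h12))
  exact ⟨z, (key w hw g₁ h1 h2 h5).1, (key a ha g₂ h3 h4 h6).1, (key w hw g₁ h1 h2 h5).2⟩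

/-- The group of the elements independent of `m`. -/
def W (P : Pre β e) (S : Sm β m q) : Submodule (ZMod 2) V where
  carrier := {x | InW β m q x}
  add_mem' := by
    intro w a hw ha
    obtain ⟨y0, hy0⟩ := S.ex
    constructor
    · rintro ⟨y, hy⟩
      obtain ⟨z, h1, h2⟩ := P.cs' hy hy0
      have h3 : β m z = β w z + β a z := by linear_combination (norm := ((try simp only [map_add, LinearMap.add_apply, map_smul, LinearMap.smul_apply]); match_scalars <;> (first | rfl | decide))) ((1 : ZMod 2) • (h1) + (1 : ZMod 2) • (h2))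
      have h4 := Tower.I3t' β P.cs (w3 S hw) (w4 S hw) (w3 S ha) (w4 S ha) h3
      exact S.ne h2 h4
    · intro hs
      obtain ⟨z, h1, h2, h3⟩ := w44 P S hw ha y0
      have h4 := hs z (by linear_combination (norm := ((try simp only [map_add, LinearMap.add_apply, map_smul, LinearMap.smul_apply]); match_scalars <;> (first | rfl | decide))) ((1 : ZMod 2) • (h1) + (1 : ZMod 2) • (h2)))
      rw [h3] at h4
      exact S.ne hy0 h4
  zero_mem' := by
    constructor
    · rintro ⟨y, hy⟩
      rw [map_zero, LinearMap.zero_apply] at hy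
      exact S.q0 hy.symm
    · intro hs
      obtain ⟨y, hy⟩ := S.ex
      exact S.ne hy (hs y (by rw [map_zero, LinearMap.zero_apply]))
  smul_mem' := by
    intro c w hw
    have key : ∀ c : ZMod 2, c = 0 ∨ c = 1 := by decide
    rcases key c with rfl | rfl
    · rw [zero_smul]
      constructor
      · rintro ⟨y, hy⟩
        rw [map_zero, LinearMap.zero_apply] at hy
        exact S.q0 hy.symm
      · intro hs
        obtain ⟨y, hy⟩ := S.ex
        exact S.ne hy (hs y (by rw [map_zero, LinearMap.zero_apply]))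
    · rw [one_smul]
      exact hw

lemma mem_W (P : Pre β e) (S : Sm β m q) {x : V} : x ∈ W P S ↔ InW β m q x := Iff.rfl

/-- `W` is orthogonal to `m`. -/
lemma W_orth (P : Pre β e) (S : Sm β m q) {w : V} (hw : InW β m q w) : β m w = 0 :=
  w3 S hw w m (P.symm _ _)

lemma Qv_add (P : Pre β e) (S : Sm β m q) {x w : V} (hx : Qv β q x) (hw : InW β m q w) :
    Qv β q (x + w) := by
  obtain ⟨y, hy⟩ := hx
  obtain ⟨g, hg1, hg2⟩ := w4' S hw
  have e1 : β (m + w) g = q := by linear_combination (norm := ((try simp only [map_add, LinearMap.add_apply, map_smul, LinearMap.smul_apply]); match_scalars <;> (first | rfl | decide))) ((1 : ZMod 2) • (hg1) + (1 : ZMod 2) • (hg2))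
  obtain ⟨z, h1, h2⟩ := P.cs' e1 hy
  rcases S.small z with h | h
  · exact absurd ⟨z, by linear_combination (norm := ((try simp only [map_add, LinearMap.add_apply, map_smul, LinearMap.smul_apply]); match_scalars <;> (first | rfl | decide))) ((1 : ZMod 2) • (h1) + (1 : ZMod 2) • (h))⟩ hw.1
  · exact ⟨z, by linear_combination (norm := ((try simp only [map_add, LinearMap.add_apply, map_smul, LinearMap.smul_apply]); match_scalars <;> (first | rfl | decide))) ((1 : ZMod 2) • (h1) + (1 : ZMod 2) • (h2) + (1 : ZMod 2) • (h))⟩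

lemma Sf_add (P : Pre β e) (S : Sm β m q) {x w : V} (hx : Sf β m x) (hw : InW β m q w) :
    Sf β m (x + w) := by
  intro y hy
  by_contra hy0
  have hy1 := S.eq hy0
  obtain ⟨y', h1, h2⟩ := w4' S hw
  have e1 : β (m + w) (y + y') = β x y := by
    linear_combination (norm := ((try simp only [map_add, LinearMap.add_apply, map_smul, LinearMap.smul_apply]); match_scalars <;> (first | rfl | decide))) ((1 : ZMod 2) • (hy) + (1 : ZMod 2) • (h1) + (1 : ZMod 2) • (h2) + (1 : ZMod 2) • (hy1))
  obtain ⟨z, h3, h4⟩ := P.cs' e1 rfl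
  have h5 := hx (z + y) (by linear_combination (norm := ((try simp only [map_add, LinearMap.add_apply, map_smul, LinearMap.smul_apply]); match_scalars <;> (first | rfl | decide))) ((1 : ZMod 2) • (h4)))
  have h6 : β m z = q := by linear_combination (norm := ((try simp only [map_add, LinearMap.add_apply, map_smul, LinearMap.smul_apply]); match_scalars <;> (first | rfl | decide))) ((1 : ZMod 2) • (h5) + (1 : ZMod 2) • (hy1))
  exact hw.1 ⟨z + y, by linear_combination (norm := ((try simp only [map_add, LinearMap.add_apply, map_smul, LinearMap.smul_apply]); match_scalars <;> (first | rfl | decide))) ((1 : ZMod 2) • (h3) + (1 : ZMod 2) • (hy) + (1 : ZMod 2) • (h6))⟩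

lemma Sf.f0 (P : Pre β e) (hme : β m m = 0) {x : V} (hx : Sf β m x) :
    β m x = 0 := by
  have h1 := hx (x + e) (by linear_combination (norm := ((try simp only [map_add, LinearMap.add_apply, map_smul, LinearMap.smul_apply]); match_scalars <;> (first | rfl | decide))) ((1 : ZMod 2) • (P.he x)))
  linear_combination (norm := ((try simp only [map_add, LinearMap.add_apply, map_smul, LinearMap.smul_apply]); match_scalars <;> (first | rfl | decide))) ((1 : ZMod 2) • (h1) + (1 : ZMod 2) • (P.he m) + (1 : ZMod 2) • (hme))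

lemma D_of_f1 (P : Pre β e) (S : Sm β m q) (hme : β m m = 0) {x : V} (h : β m x = q) :
    Qv β q x ∧ ¬ Sf β m x :=
  ⟨⟨m, by rw [P.symm]; exact h⟩, fun hs => S.ne h (hs.f0 P hme)⟩

lemma Qv_m (S : Sm β m q) : Qv β q m := S.ex

/-- Translates of elements of `W` by `m`. -/
lemma W_add_m (S : Sm β m q) {w : V} (hw : InW β m q w) :
    Qv β q (w + m) ∧ Sf β m (w + m) := by
  constructor
  · obtain ⟨g, h1, h2⟩ := w4' S hw
    exact ⟨g, by linear_combination (norm := ((try simp only [map_add, LinearMap.add_apply, map_smul, LinearMap.smul_apply]); match_scalars <;> (first | rfl | decide))) ((1 : ZMod 2) • (h1) + (1 : ZMod 2) • (h2))⟩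
  · intro y hy
    exact w3 S hw y y (by linear_combination (norm := ((try simp only [map_add, LinearMap.add_apply, map_smul, LinearMap.smul_apply]); match_scalars <;> (first | rfl | decide))) ((1 : ZMod 2) • (hy)))

lemma add_m_W (P : Pre β e) (S : Sm β m q) {x : V} (h1 : Qv β q x) (h2 : Sf β m x) :
    InW β m q (x + m) := by
  obtain ⟨y0, hy0⟩ := S.ex
  obtain ⟨y1, hy1⟩ := h1
  obtain ⟨z, h3, h4⟩ := P.cs' hy1 hy0
  constructor
  · rintro ⟨y, hy⟩
    rcases S.small y with h | h
    · have h5 := h2 (y + z) (by linear_combination (norm := ((try simp only [map_add, LinearMap.add_apply, map_smul, LinearMap.smul_apply]); match_scalars <;> (first | rfl | decide))) ((1 : ZMod 2) • (hy) + (1 : ZMod 2) • (h) + (1 : ZMod 2) • (h3)))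
      have : q = 0 := by linear_combination (norm := ((try simp only [map_add, LinearMap.add_apply, map_smul, LinearMap.smul_apply]); match_scalars <;> (first | rfl | decide))) ((1 : ZMod 2) • (h5) + (1 : ZMod 2) • (h) + (1 : ZMod 2) • (h4))
      exact S.q0 this
    · have h5 := h2 y (by linear_combination (norm := ((try simp only [map_add, LinearMap.add_apply, map_smul, LinearMap.smul_apply]); match_scalars <;> (first | rfl | decide))) ((1 : ZMod 2) • (hy) + (1 : ZMod 2) • (h)))
      exact S.ne h h5
  · intro hs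
    exact S.ne h4 (hs z (by linear_combination (norm := ((try simp only [map_add, LinearMap.add_apply, map_smul, LinearMap.smul_apply]); match_scalars <;> (first | rfl | decide))) ((1 : ZMod 2) • (h3) + (1 : ZMod 2) • (h4))))

/-- The third class is stable under translation by `m`. -/
lemma Ds_add_m (S : Sm β m q) {s : V} (h1 : ¬ Qv β q s) (h2 : Sf β m s) :
    ¬ Qv β q (s + m) ∧ Sf β m (s + m) := by
  constructor
  · rintro ⟨y, hy⟩
    rcases S.small y with h | h
    · exact h1 ⟨y, by linear_combination (norm := ((try simp only [map_add, LinearMap.add_apply, map_smul, LinearMap.smul_apply]); match_scalars <;> (first | rfl | decide))) ((1 : ZMod 2) • (hy) + (1 : ZMod 2) • (h))⟩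
    · exact S.ne h (h2 y (by linear_combination (norm := ((try simp only [map_add, LinearMap.add_apply, map_smul, LinearMap.smul_apply]); match_scalars <;> (first | rfl | decide))) ((1 : ZMod 2) • (hy) + (1 : ZMod 2) • (h))))
  · intro y hy
    by_contra h0
    have h := S.eq h0
    exact h1 ⟨y, by linear_combination (norm := ((try simp only [map_add, LinearMap.add_apply, map_smul, LinearMap.smul_apply]); match_scalars <;> (first | rfl | decide))) ((1 : ZMod 2) • (hy) + (1 : ZMod 2) • (h))⟩

lemma add_self_cancel (x y : V) : x + y + y = x := by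
  rw [add_assoc, add_self, add_zero]

/-- The fourth class is stable under translation by `m`. -/
lemma D_add_m (P : Pre β e) (S : Sm β m q) {d : V} (h1 : Qv β q d) (h2 : ¬ Sf β m d) :
    Qv β q (d + m) ∧ ¬ Sf β m (d + m) := by
  have h0 := add_self_cancel d m
  constructor
  · by_contra h3
    by_cases h4 : Sf β m (d + m)
    · have h5 := Ds_add_m S h3 h4
      rw [h0] at h5
      exact h5.1 h1
    · have h5 := W_add_m S (w := d + m) ⟨h3, h4⟩
      rw [h0] at h5
      exact h2 h5.2
  · intro h4
    by_cases h3 : Qv β q (d + m)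
    · have h5 := add_m_W P S h3 h4
      rw [h0] at h5
      exact h5.1 h1
    · have h5 := Ds_add_m S h3 h4
      rw [h0] at h5
      exact h5.1 h1

end Pool.Agent.Hhelper2.SmallEl
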