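import Pool.Agent.Hhelper2.SmallP

/-!
# Small elements without partners

Let `m` be a small element with value `q` such that every element which has the value `q` and is
orthogonal to `m` has its kernel contained in the kernel of `m`.  Then the group `W` of the elements
independent of `m` and its orthogonal `A` decompose the structure, and `A` is a group extension.
-/

namespace Pool.Agent.Hhelper2.SmallEl

open Module Submodule Codim

universe u v

variable {V : Type u} {Q : Type v} [AddCommGroup V] [Module (ZMod 2) V]
  [AddCommGroup Q] [Module (ZMod 2) Q]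

variable {β : V →ₗ[ZMod 2] V →ₗ[ZMod 2] Q} {e m : V} {q : Q}

/-- A factor which is a group extension. -/
structure ExtF (β : V →ₗ[ZMod 2] V →ₗ[ZMod 2] Q) (e m : V) (q : Q)
    (A W : Submodule (ZMod 2) V) : Prop where
  mA : m ∈ A
  sup : A ⊔ W = ⊤
  orth : ∀ a ∈ A, ∀ w ∈ W, β a w = 0
  ind : ∀ a ∈ A, ∀ w ∈ W, ∀ y z, β a y = β w z → β a y = 0
  sf : ∀ s ∈ A, β m s = 0 → s ∉ W → ∀ y, β s y = 0 → β m y = 0
  t : ∃ t ∈ A, β m t = q
  nt : ∀ a ∈ A, β m a = q → ∀ y, β a y = 0 → y ∈ W ∨ y + (e + a) ∈ W

/-- The hypotheses. -/
structure GHyp (β : V →ₗ[ZMod 2] V →ₗ[ZMod 2] Q) (e m : V) (q : Q) : Prop where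
  P : Pre β e
  S : Sm β m q
  hme : β m m = 0
  C : ∀ d, Qv β q d → ∃ z, (∀ w, InW β m q w → β w z = 0) ∧ β d z = q ∧ β m z = q
  D : ∀ d, β m d = 0 → Qv β q d → Sf β m d

namespace GHyp

lemma me (H : GHyp β e m q) : β m e = 0 := by rw [← H.P.he]; exact H.hme

lemma sf (H : GHyp β e m q) {s : V} (h : β m s = 0) (hW : ¬ InW β m q s) : Sf β m s := by
  by_cases h1 : Qv β q s
  · exact H.D s h h1
  · by_contra h2
    exact hW ⟨h1, h2⟩

lemma nt (H : GHyp β e m q) {t : V} (ht : β m t = q) {y : V} (hy : β t y = 0) :
    InW β m q y ∨ InW β m q (y + (e + t)) := by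
  have key : ∀ y, β t y = 0 → β m y = 0 → InW β m q y := by
    intro y h1 h2
    by_contra h3
    exact H.S.ne ht (H.sf h2 h3 t (by rw [H.P.symm]; exact h1))
  rcases H.S.small y with h | h
  · exact Or.inl (key y hy h)
  · exact Or.inr (key _ (by linear_combination (norm := ((try simp only [map_add, LinearMap.add_apply, map_smul, LinearMap.smul_apply]); match_scalars <;> (first | rfl | decide))) ((1 : ZMod 2) • (hy) + (1 : ZMod 2) • (H.P.he t))) (by linear_combination (norm := ((try simp only [map_add, LinearMap.add_apply, map_smul, LinearMap.smul_apply]); match_scalars <;> (first | rfl | decide))) ((1 : ZMod 2) • (h) + (1 : ZMod 2) • (H.me) + (1 : ZMod 2) • (ht))))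

lemma g1 (H : GHyp β e m q) {t : V} (ht : β m t = q) {s y z : V} (hs : β m s = 0)
    (hsW : ¬ InW β m q s) (hy : β m y = 0) (hz : β m z = 0) (h : β t s = β y z) : False := by
  have hsS := H.sf hs hsW
  by_cases hyW : InW β m q y
  · have e1 : β s t = β y z := by rw [H.P.symm]; exact h
    obtain ⟨v, h1, h2⟩ := H.P.cs' e1 rfl
    have h3 := hsS (v + t) (by linear_combination (norm := ((try simp only [map_add, LinearMap.add_apply, map_smul, LinearMap.smul_apply]); match_scalars <;> (first | rfl | decide))) ((1 : ZMod 2) • (h1) + (1 : ZMod 2) • (e1)))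
    have h4 : β m v = q := by linear_combination (norm := ((try simp only [map_add, LinearMap.add_apply, map_smul, LinearMap.smul_apply]); match_scalars <;> (first | rfl | decide))) ((1 : ZMod 2) • (h3) + (1 : ZMod 2) • (ht))
    exact H.S.ne h4 (Sf_add H.P H.S hsS hyW v (by linear_combination (norm := ((try simp only [map_add, LinearMap.add_apply, map_smul, LinearMap.smul_apply]); match_scalars <;> (first | rfl | decide))) ((1 : ZMod 2) • (h1) + (1 : ZMod 2) • (h2))))
  · obtain ⟨v, h1, h2⟩ := H.P.cs' h rfl
    have h3 := H.sf hy hyW (v + z) (by linear_combination (norm := ((try simp only [map_add, LinearMap.add_apply, map_smul, LinearMap.smul_apply]); match_scalars <;> (first | rfl | decide))) ((1 : ZMod 2) • (h2)))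
    have h4 : β m v = 0 := by linear_combination (norm := ((try simp only [map_add, LinearMap.add_apply, map_smul, LinearMap.smul_apply]); match_scalars <;> (first | rfl | decide))) ((1 : ZMod 2) • (h3) + (1 : ZMod 2) • (hz))
    have h5 : InW β m q (v + s) := by
      rcases H.nt ht (y := v + s) (by linear_combination (norm := ((try simp only [map_add, LinearMap.add_apply, map_smul, LinearMap.smul_apply]); match_scalars <;> (first | rfl | decide))) ((1 : ZMod 2) • (h1) + (1 : ZMod 2) • (h))) with h6 | h6
      · exact h6
      · exfalso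
        have h7 := W_orth H.P H.S h6
        exact H.S.q0 (by linear_combination (norm := ((try simp only [map_add, LinearMap.add_apply, map_smul, LinearMap.smul_apply]); match_scalars <;> (first | rfl | decide))) ((1 : ZMod 2) • (h7) + (1 : ZMod 2) • (h4) + (1 : ZMod 2) • (hs) + (1 : ZMod 2) • (H.me) + (1 : ZMod 2) • (ht)))
    have h6 : ¬ InW β m q v := by
      intro h7
      apply hsW
      have h8 := (W H.P H.S).add_mem (show v ∈ W H.P H.S from h7)
        (show v + s ∈ W H.P H.S from h5)
      rwa [← add_assoc, add_self, zero_add] at h8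
    have h7 := H.sf h4 h6 (t + y) (by linear_combination (norm := ((try simp only [map_add, LinearMap.add_apply, map_smul, LinearMap.smul_apply]); match_scalars <;> (first | rfl | decide))) ((1 : ZMod 2) • (h1) + (1 : ZMod 2) • (h2) + (1 : ZMod 2) • (H.P.symm v t) + (1 : ZMod 2) • (H.P.symm v y)))
    exact H.S.q0 (by linear_combination (norm := ((try simp only [map_add, LinearMap.add_apply, map_smul, LinearMap.smul_apply]); match_scalars <;> (first | rfl | decide))) ((1 : ZMod 2) • (h7) + (1 : ZMod 2) • (ht) + (1 : ZMod 2) • (hy)))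

lemma g2 (H : GHyp β e m q) {s w y z : V} (hs : β m s = 0) (hsW : ¬ InW β m q s)
    (hw : InW β m q w) (hy : β m y = q) (h : β s y = β w z) : False := by
  have hsS := H.sf hs hsW
  obtain ⟨v, h1, h2⟩ := H.P.cs' h rfl
  have h3 := hsS (v + y) (by linear_combination (norm := ((try simp only [map_add, LinearMap.add_apply, map_smul, LinearMap.smul_apply]); match_scalars <;> (first | rfl | decide))) ((1 : ZMod 2) • (h1) + (1 : ZMod 2) • (h)))
  have h4 : β m v = q := by linear_combination (norm := ((try simp only [map_add, LinearMap.add_apply, map_smul, LinearMap.smul_apply]); match_scalars <;> (first | rfl | decide))) ((1 : ZMod 2) • (h3) + (1 : ZMod 2) • (hy))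
  exact H.S.ne h4 (Sf_add H.P H.S hsS hw v (by linear_combination (norm := ((try simp only [map_add, LinearMap.add_apply, map_smul, LinearMap.smul_apply]); match_scalars <;> (first | rfl | decide))) ((1 : ZMod 2) • (h1) + (1 : ZMod 2) • (h2))))

/-- The orthogonal of `W`. -/
def A (H : GHyp β e m q) : Submodule (ZMod 2) V where
  carrier := {x | ∀ w, InW β m q w → β w x = 0}
  add_mem' := by
    intro x y hx hy w hw
    rw [map_add, hx w hw, hy w hw, add_zero]
  zero_mem' := fun w _ => map_zero _
  smul_mem' := by
    intro c x hx w hw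
    rw [map_smul, hx w hw, smul_zero]

lemma mA (H : GHyp β e m q) : m ∈ H.A := fun w hw => by
  rw [H.P.symm]
  exact W_orth H.P H.S hw

lemma exists_t (H : GHyp β e m q) : ∃ t ∈ H.A, β m t = q := by
  obtain ⟨t, h1, h2, -⟩ := H.C m H.S.ex
  exact ⟨t, h1, h2⟩

lemma e_add_s (H : GHyp β e m q) {s : V} (hs : β m s = 0) : e + s ∈ H.A ⊔ W H.P H.S := by
  obtain ⟨t, htA, ht⟩ := H.exists_t
  have htm : β t m = q := by rw [H.P.symm]; exact ht
  have hsm : β s m = 0 := by rw [H.P.symm]; exact hs
  obtain ⟨z, h1, h2, h3⟩ := H.C (t + s) ⟨m, by linear_combination (norm := ((try simp only [map_add, LinearMap.add_apply, map_smul, LinearMap.smul_apply]); match_scalars <;> (first | rfl | decide))) ((1 : ZMod 2) • (htm) + (1 : ZMod 2) • (hsm))⟩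
  have hzA : z ∈ H.A := h1
  -- `y₁ = z + m + t`
  have e1 : β t (e + (z + m + t) + s) = β s (z + m + t) := by
    linear_combination (norm := ((try simp only [map_add, LinearMap.add_apply, map_smul, LinearMap.smul_apply]); match_scalars <;> (first | rfl | decide))) ((1 : ZMod 2) • (H.P.he t) + (1 : ZMod 2) • (h2) + (1 : ZMod 2) • (htm) + (1 : ZMod 2) • (hsm) + (1 : ZMod 2) • (H.P.symm t s))
  have h4 : InW β m q (e + (z + m + t) + s) := by
    by_contra h5
    exact H.g1 ht (by linear_combination (norm := ((try simp only [map_add, LinearMap.add_apply, map_smul, LinearMap.smul_apply]); match_scalars <;> (first | rfl | decide))) ((1 : ZMod 2) • (H.me) + (1 : ZMod 2) • (h3) + (1 : ZMod 2) • (H.hme) + (1 : ZMod 2) • (ht) + (1 : ZMod 2) • (hs))) h5 hs (by linear_combination (norm := ((try simp only [map_add, LinearMap.add_apply, map_smul, LinearMap.smul_apply]); match_scalars <;> (first | rfl | decide))) ((1 : ZMod 2) • (h3) + (1 : ZMod 2) • (H.hme) + (1 : ZMod 2) • (ht))) e1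
  have e2 : e + s = (z + m + t) + (e + (z + m + t) + s) := by linear_combination (norm := ((try simp only [map_add, LinearMap.add_apply, map_smul, LinearMap.smul_apply]); match_scalars <;> (first | rfl | decide))) ((1 : ZMod 2) • ((rfl : e = e)))
  rw [e2]
  exact Submodule.add_mem_sup (H.A.add_mem (H.A.add_mem hzA H.mA) htA) h4

lemma sup (H : GHyp β e m q) : H.A ⊔ W H.P H.S = ⊤ := by
  rw [eq_top_iff]
  intro x _
  have key : ∀ s, β m s = 0 → s ∈ H.A ⊔ W H.P H.S := by
    intro s hs
    have h1 := H.e_add_s hs
    have h2 := H.e_add_s (s := 0) (map_zero _)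
    have h3 := Submodule.add_mem _ h1 h2
    have e1 : s = e + s + (e + 0) := by linear_combination (norm := ((try simp only [map_add, LinearMap.add_apply, map_smul, LinearMap.smul_apply]); match_scalars <;> (first | rfl | decide))) ((1 : ZMod 2) • ((rfl : e = e)))
    rw [e1]
    exact h3
  rcases H.S.small x with h | h
  · exact key x h
  · obtain ⟨t, htA, ht⟩ := H.exists_t
    have h1 := key (x + t) (by linear_combination (norm := ((try simp only [map_add, LinearMap.add_apply, map_smul, LinearMap.smul_apply]); match_scalars <;> (first | rfl | decide))) ((1 : ZMod 2) • (h) + (1 : ZMod 2) • (ht)))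
    have h2 := Submodule.add_mem _ h1 (Submodule.mem_sup_left htA)
    rwa [add_self_cancel] at h2

lemma ind (H : GHyp β e m q) {a : V} (ha : a ∈ H.A) {w : V} (hw : InW β m q w) (y z : V)
    (h : β a y = β w z) : β a y = 0 := by
  obtain ⟨t, htA, ht⟩ := H.exists_t
  have haW : ∀ w, InW β m q w → β a w = 0 := fun w hw => by rw [H.P.symm]; exact ha w hw
  -- we may assume that `z ∈ W`
  obtain ⟨zA, hzA, zW, hzW, rfl⟩ : ∃ zA ∈ H.A, ∃ zW ∈ W H.P H.S, zA + zW = z := by
    have : z ∈ H.A ⊔ W H.P H.S := by rw [H.sup]; trivial
    obtain ⟨zA, hzA, zW, hzW, h⟩ := Submodule.mem_sup.1 this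
    exact ⟨zA, hzA, zW, hzW, h⟩
  have hzW' : InW β m q zW := hzW
  have h' : β a y = β w zW := by
    linear_combination (norm := ((try simp only [map_add, LinearMap.add_apply, map_smul, LinearMap.smul_apply]); match_scalars <;> (first | rfl | decide))) ((1 : ZMod 2) • (h) + (1 : ZMod 2) • (hzA w hw))
  clear h
  -- the main case
  have main : ∀ y, β a y = β w zW → β m y = 0 → β a y = 0 := by
    intro y h hy
    by_cases haW' : InW β m q a
    · have : y ∈ H.A ⊔ W H.P H.S := by rw [H.sup]; trivial
      obtain ⟨yA, hyA, yW, hyW, rfl⟩ := Submodule.mem_sup.1 this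
      linear_combination (norm := ((try simp only [map_add, LinearMap.add_apply, map_smul, LinearMap.smul_apply]); match_scalars <;> (first | rfl | decide))) ((1 : ZMod 2) • (hyA a haW') + (1 : ZMod 2) • (haW yW hyW))
    by_cases hyW : InW β m q y
    · exact haW y hyW
    rcases H.S.small a with hma | hma
    · have haS := H.sf hma haW'
      have e1 : β (t + w) zW = β a y := by
        linear_combination (norm := ((try simp only [map_add, LinearMap.add_apply, map_smul, LinearMap.smul_apply]); match_scalars <;> (first | rfl | decide))) ((1 : ZMod 2) • (h) + (1 : ZMod 2) • (H.P.symm t zW) + (1 : ZMod 2) • (htA zW hzW'))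
      obtain ⟨v, h1, h2⟩ := H.P.cs' e1 rfl
      have h3 := haS (v + y) (by linear_combination (norm := ((try simp only [map_add, LinearMap.add_apply, map_smul, LinearMap.smul_apply]); match_scalars <;> (first | rfl | decide))) ((1 : ZMod 2) • (h2)))
      have h4 : β m v = 0 := by linear_combination (norm := ((try simp only [map_add, LinearMap.add_apply, map_smul, LinearMap.smul_apply]); match_scalars <;> (first | rfl | decide))) ((1 : ZMod 2) • (h3) + (1 : ZMod 2) • (hy))
      have hmz := W_orth H.P H.S hzW'
      have h5 : InW β m q (v + zW) := by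
        by_contra h6
        exact H.g1 ht (s := v + zW) (y := w) (z := v + zW) (by linear_combination (norm := ((try simp only [map_add, LinearMap.add_apply, map_smul, LinearMap.smul_apply]); match_scalars <;> (first | rfl | decide))) ((1 : ZMod 2) • (h4) + (1 : ZMod 2) • (hmz))) h6
          (W_orth H.P H.S hw) (by linear_combination (norm := ((try simp only [map_add, LinearMap.add_apply, map_smul, LinearMap.smul_apply]); match_scalars <;> (first | rfl | decide))) ((1 : ZMod 2) • (h4) + (1 : ZMod 2) • (hmz))) (by linear_combination (norm := ((try simp only [map_add, LinearMap.add_apply, map_smul, LinearMap.smul_apply]); match_scalars <;> (first | rfl | decide))) ((1 : ZMod 2) • (h1) + (1 : ZMod 2) • (e1)))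
      have h6 : InW β m q v := by
        have h8 := (W H.P H.S).add_mem (show v + zW ∈ W H.P H.S from h5)
          (show zW ∈ W H.P H.S from hzW')
        rwa [add_self_cancel] at h8
      rw [← h2]
      exact haW v h6
    · exfalso
      exact H.g2 hy hyW hw hma (by rw [H.P.symm]; exact h)
  rcases H.S.small y with hy | hy
  · exact main y h' hy
  · rcases H.S.small a with hma | hma
    · by_cases haW' : InW β m q a
      · have : y ∈ H.A ⊔ W H.P H.S := by rw [H.sup]; trivial
        obtain ⟨yA, hyA, yW, hyW, rfl⟩ := Submodule.mem_sup.1 this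
        linear_combination (norm := ((try simp only [map_add, LinearMap.add_apply, map_smul, LinearMap.smul_apply]); match_scalars <;> (first | rfl | decide))) ((1 : ZMod 2) • (hyA a haW') + (1 : ZMod 2) • (haW yW hyW))
      · exfalso
        exact H.g2 hma haW' hw hy h'
    · have e1 : β a (y + a + e) = β a y := by linear_combination (norm := ((try simp only [map_add, LinearMap.add_apply, map_smul, LinearMap.smul_apply]); match_scalars <;> (first | rfl | decide))) ((1 : ZMod 2) • (H.P.he a))
      have h1 := main (y + a + e) (by rw [e1]; exact h') (by linear_combination (norm := ((try simp only [map_add, LinearMap.add_apply, map_smul, LinearMap.smul_apply]); match_scalars <;> (first | rfl | decide))) ((1 : ZMod 2) • (hy) + (1 : ZMod 2) • (hma) + (1 : ZMod 2) • (H.me)))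
      rw [e1] at h1
      exact h1

/-- The extension factor. -/
theorem extF (H : GHyp β e m q) : ExtF β e m q H.A (W H.P H.S) where
  mA := H.mA
  sup := H.sup
  orth a ha w hw := by rw [H.P.symm]; exact ha w hw
  ind a ha w hw y z h := H.ind ha hw y z h
  sf s _ hs hsW := H.sf hs hsW
  t := H.exists_t
  nt a _ h y hy := H.nt h hy

end GHyp

/-- A small element without partner belongs to a factor which is a group extension. -/
theorem exists_extF [Finite V] (P : Pre β e) (S : Sm β m q) (T : Tw β m q)
    (hN : ∀ u ∈ Lq β q, ∀ n ∈ Lq β q, β u n ≠ q) : ∃ A W, ExtF β e m q A W := by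
  have hme : β m m = 0 := by
    rcases S.small m with h | h
    · exact h
    · exact absurd h (hN m S.small m S.small)
  have H : GHyp β e m q := by
    refine ⟨P, S, hme, T.C, ?_⟩
    intro d h1 h2
    by_contra h3
    obtain ⟨u, hu, n, hn, h⟩ := partner P S T h2 h3 h1
    exact hN u hu n hn h
  exact ⟨_, _, H.extF⟩

end Pool.Agent.Hhelper2.SmallEl
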