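import Pool.Agent.Hhelper2.Small

/-!
# Small elements: partners

Let `m` be a small element with value `q`.  If some element `d` which has the value `q` and is
orthogonal to `m` has a kernel which is not contained in the kernel of `m`, then there are small
elements `u, n` with values in `{0, q}` and `β u n = q`.
-/

namespace Pool.Agent.Hhelper2.SmallEl

open Module Submodule Codim

universe u v

variable {V : Type u} {Q : Type v} [AddCommGroup V] [Module (ZMod 2) V]
  [AddCommGroup Q] [Module (ZMod 2) Q]

variable {β : V →ₗ[ZMod 2] V →ₗ[ZMod 2] Q} {e m : V} {q : Q}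

/-- The two consequences of the tower theorem. -/
structure Tw (β : V →ₗ[ZMod 2] V →ₗ[ZMod 2] Q) (m : V) (q : Q) : Prop where
  C : ∀ d, Qv β q d → ∃ z, (∀ w, InW β m q w → β w z = 0) ∧ β d z = q ∧ β m z = q
  B : ∃ B : Dual (ZMod 2) Q, B q = 1 ∧ ∀ w, InW β m q w → ∀ y, B (β w y) = 0

/-- The situation of the partner theorem. -/
structure PHyp (β : V →ₗ[ZMod 2] V →ₗ[ZMod 2] Q) (e m : V) (q : Q) (B : Dual (ZMod 2) Q)
    (x : V) : Prop where
  P : Pre β e
  S : Sm β m q
  hme : β m m = 0
  C : ∀ d, Qv β q d → ∃ z, (∀ w, InW β m q w → β w z = 0) ∧ β d z = q ∧ β m z = q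
  Bq : B q = 1
  BW : ∀ w, InW β m q w → ∀ y, B (β w y) = 0
  xW : ∀ w, InW β m q w → β w x = 0
  xm : β m x = q

/-- Elements orthogonal to `x` and `m`. -/
def InK (β : V →ₗ[ZMod 2] V →ₗ[ZMod 2] Q) (m x u : V) : Prop := β x u = 0 ∧ β m u = 0

/-- Elements orthogonal to `m`, and orthogonal to the kernel of `x` for the form `B ∘ β`. -/
def InC (β : V →ₗ[ZMod 2] V →ₗ[ZMod 2] Q) (m : V) (B : Dual (ZMod 2) Q) (x c : V) : Prop :=
  β m c = 0 ∧ ∀ y, β x y = 0 → B (β c y) = 0

variable {B : Dual (ZMod 2) Q} {x : V}

/-- Gluing functionals. -/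
lemma Pre.glue (P : Pre β e) {B C : Dual (ZMod 2) Q} {x z : V}
    (h : ∀ y, B (β x y) = C (β z y)) :
    ∃ E : Dual (ZMod 2) Q, (∀ y, E (β x y) = B (β x y)) ∧ ∀ y, E (β z y) = C (β z y) := by
  obtain ⟨D, h1, h2⟩ := glue_functional (LinearMap.range (β x)) (LinearMap.range (β z)) B C (by
    rintro _ ⟨y, rfl⟩ ⟨y', hy'⟩
    obtain ⟨w, hw1, hw2⟩ := P.cs x y z y' hy'.symm
    have h3 := h w
    rw [hw1, hw2] at h3
    exact h3)
  exact ⟨D, fun y => h1 _ ⟨y, rfl⟩, fun y => h2 _ ⟨y, rfl⟩⟩

namespace PHyp

lemma me (H : PHyp β e m q B x) : β m e = 0 := by rw [← H.P.he]; exact H.hme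

lemma mex (H : PHyp β e m q B x) : β m (e + x) = q := by
  linear_combination (norm := ((try simp only [map_add, LinearMap.add_apply, map_smul, LinearMap.smul_apply]); match_scalars <;> (first | rfl | decide))) ((1 : ZMod 2) • (H.me) + (1 : ZMod 2) • (H.xm))

lemma xex (H : PHyp β e m q B x) : β x (e + x) = 0 := by
  linear_combination (norm := ((try simp only [map_add, LinearMap.add_apply, map_smul, LinearMap.smul_apply]); match_scalars <;> (first | rfl | decide))) ((1 : ZMod 2) • (H.P.he x))

lemma K1 (H : PHyp β e m q B x) {u : V} (hu : InK β m x u) (hW : ¬ InW β m q u) :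
    Qv β q u ∧ ¬ Sf β m u := by
  have h1 : ¬ Sf β m u := fun hs => H.S.ne H.xm (hs x (by rw [H.P.symm]; exact hu.1))
  refine ⟨?_, h1⟩
  by_contra h2
  exact hW ⟨h2, h1⟩

lemma one (H : PHyp β e m q B x) {u : V} (h1 : Qv β q u) (h2 : β m u = 0) :
    ∃ k, β x k = 0 ∧ β u k = q := by
  obtain ⟨y, hy⟩ := h1
  have hx : β x m = q := by rw [H.P.symm]; exact H.xm
  have hu : β u m = 0 := by rw [H.P.symm]; exact h2
  obtain ⟨z, h3, h4⟩ := H.P.cs' hy hx
  exact ⟨z + m, by linear_combination (norm := ((try simp only [map_add, LinearMap.add_apply, map_smul, LinearMap.smul_apply]); match_scalars <;> (first | rfl | decide))) ((1 : ZMod 2) • (h4) + (1 : ZMod 2) • (hx)), by linear_combination (norm := ((try simp only [map_add, LinearMap.add_apply, map_smul, LinearMap.smul_apply]); match_scalars <;> (first | rfl | decide))) ((1 : ZMod 2) • (h3) + (1 : ZMod 2) • (hu))⟩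

lemma K2 (H : PHyp β e m q B x) {u : V} (hu : InK β m x u) (hW : ¬ InW β m q u) :
    ∃ k, InK β m x k ∧ β u k = q := by
  obtain ⟨k, h1, h2⟩ := H.one (H.K1 hu hW).1 hu.2
  rcases H.S.small k with h | h
  · exact ⟨k, ⟨h1, h⟩, h2⟩
  · refine ⟨k + (e + x) + u, ⟨?_, ?_⟩, ?_⟩
    · linear_combination (norm := ((try simp only [map_add, LinearMap.add_apply, map_smul, LinearMap.smul_apply]); match_scalars <;> (first | rfl | decide))) ((1 : ZMod 2) • (h1) + (1 : ZMod 2) • (H.P.he x) + (1 : ZMod 2) • (hu.1))
    · linear_combination (norm := ((try simp only [map_add, LinearMap.add_apply, map_smul, LinearMap.smul_apply]); match_scalars <;> (first | rfl | decide))) ((1 : ZMod 2) • (h) + (1 : ZMod 2) • (H.me) + (1 : ZMod 2) • (H.xm) + (1 : ZMod 2) • (hu.2))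
    · linear_combination (norm := ((try simp only [map_add, LinearMap.add_apply, map_smul, LinearMap.smul_apply]); match_scalars <;> (first | rfl | decide))) ((1 : ZMod 2) • (h2) + (1 : ZMod 2) • (H.P.he u) + (1 : ZMod 2) • (H.P.symm u x) + (1 : ZMod 2) • (hu.1))

lemma KC (H : PHyp β e m q B x) {u : V} (hu : InK β m x u) (hc : InC β m B x u) :
    InW β m q u := by
  by_contra hW
  obtain ⟨k, h1, h2⟩ := H.K2 hu hW
  have h3 := hc.2 k h1.1
  rw [h2, H.Bq] at h3
  exact one_ne_zero h3

lemma CD (H : PHyp β e m q B x) {c : V} (hc : InC β m B x c) (hW : ¬ InW β m q c) :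
    ¬ Qv β q c ∧ Sf β m c := by
  have h1 : ¬ Qv β q c := by
    intro h
    obtain ⟨k, h2, h3⟩ := H.one h hc.1
    have h4 := hc.2 k h2
    rw [h3, H.Bq] at h4
    exact one_ne_zero h4
  refine ⟨h1, ?_⟩
  by_contra h2
  exact hW ⟨h1, h2⟩

lemma B1 (H : PHyp β e m q B x) {y : V} (h : B (β m y) = 0) : β m y = 0 := by
  by_contra h0
  rw [H.S.eq h0, H.Bq] at h
  exact one_ne_zero h

/-- The decomposition of the kernel of `m`. -/
lemma dec [Finite V] (H : PHyp β e m q B x) {c : V} (hc : β m c = 0) :
    ∃ u c', InK β m x u ∧ InC β m B x c' ∧ (c = u + c' ∨ c = u + m + c') := by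
  let Ks : Submodule (ZMod 2) V := LinearMap.ker (β x) ⊓ LinearMap.ker (β m)
  have hKs : ∀ u, u ∈ Ks ↔ InK β m x u := fun u => Iff.rfl
  let b : Ks →ₗ[ZMod 2] Ks →ₗ[ZMod 2] ZMod 2 := (β.compr₂ B).domRestrict₁₂ Ks Ks
  have hb : ∀ u k : Ks, b u k = B (β u k) := fun _ _ => rfl
  obtain ⟨t, ht⟩ := LocalCore.exists_repr ((W H.P H.S).comap Ks.subtype) b
    (by
      intro u k
      rw [hb, hb, H.P.symm])
    (by
      intro u
      constructor
      · intro hu
        ext k
        rw [hb]
        exact H.BW _ hu _
      · intro hu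
        by_contra hW
        obtain ⟨k, h1, h2⟩ := H.K2 (u := (u : V)) u.2 hW
        have h3 := LinearMap.congr_fun hu (⟨k, h1⟩ : Ks)
        rw [hb] at h3
        have h4 : B (β (u : V) k) = 0 := h3
        rw [h2, H.Bq] at h4
        exact one_ne_zero h4)
    ((B ∘ₗ β c).domRestrict Ks)
    (by
      intro w hw
      show B (β c w) = 0
      rw [H.P.symm]
      exact H.BW _ hw _)
  have ht' : ∀ k, InK β m x k → B (β (t : V) k) = B (β c k) := by
    intro k hk
    exact LinearMap.congr_fun ht (⟨k, hk⟩ : Ks)
  have key : ∀ c' : V, β m c' = 0 → (∀ k, InK β m x k → B (β c' k) = 0) →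
      B (β c' (e + x)) = 0 → InC β m B x c' := by
    intro c' h1 h2 h3
    refine ⟨h1, fun y hy => ?_⟩
    rcases H.S.small y with h | h
    · exact h2 y ⟨hy, h⟩
    · have h4 := h2 (y + (e + x)) ⟨by linear_combination (norm := ((try simp only [map_add, LinearMap.add_apply, map_smul, LinearMap.smul_apply]); match_scalars <;> (first | rfl | decide))) ((1 : ZMod 2) • (hy) + (1 : ZMod 2) • (H.xex)), by linear_combination (norm := ((try simp only [map_add, LinearMap.add_apply, map_smul, LinearMap.smul_apply]); match_scalars <;> (first | rfl | decide))) ((1 : ZMod 2) • (h) + (1 : ZMod 2) • (H.mex))⟩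
      rw [map_add, map_add, h3, add_zero] at h4
      exact h4
  have htK : InK β m x (t : V) := t.2
  by_cases h : B (β (c + t) (e + x)) = 0
  · refine ⟨t, c + t, htK, key _ ?_ ?_ h, Or.inl ?_⟩
    · linear_combination (norm := ((try simp only [map_add, LinearMap.add_apply, map_smul, LinearMap.smul_apply]); match_scalars <;> (first | rfl | decide))) ((1 : ZMod 2) • (hc) + (1 : ZMod 2) • (htK.2))
    · intro k hk
      rw [map_add, LinearMap.add_apply, map_add, ht' k hk]
      exact add_self _
    · linear_combination (norm := ((try simp only [map_add, LinearMap.add_apply, map_smul, LinearMap.smul_apply]); match_scalars <;> (first | rfl | decide))) ((1 : ZMod 2) • ((rfl : c = c)))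
  · have h' : B (β (c + t) (e + x)) = 1 := by
      have key : ∀ c : ZMod 2, c ≠ 0 → c = 1 := by decide
      exact key _ h
    refine ⟨t, c + t + m, htK, key _ ?_ ?_ ?_, Or.inr ?_⟩
    · linear_combination (norm := ((try simp only [map_add, LinearMap.add_apply, map_smul, LinearMap.smul_apply]); match_scalars <;> (first | rfl | decide))) ((1 : ZMod 2) • (hc) + (1 : ZMod 2) • (htK.2) + (1 : ZMod 2) • (H.hme))
    · intro k hk
      rw [map_add, LinearMap.add_apply, hk.2, add_zero, map_add, LinearMap.add_apply, map_add,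
        ht' k hk]
      exact add_self _
    · rw [map_add β, LinearMap.add_apply, map_add B, h', H.mex, H.Bq]
      decide
    · linear_combination (norm := ((try simp only [map_add, LinearMap.add_apply, map_smul, LinearMap.smul_apply]); match_scalars <;> (first | rfl | decide))) ((1 : ZMod 2) • ((rfl : c = c)))

/-- Functionals vanishing on `q` and on the values of `u` on `C` vanish on all values of `u`. -/
lemma three [Finite V] (H : PHyp β e m q B x) {u : V} (hu : InK β m x u) (hW : ¬ InW β m q u)
    (C : Dual (ZMod 2) Q) (hCq : C q = 0) (hC : ∀ c, InC β m B x c → C (β u c) = 0) (y : V) :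
    C (β u y) = 0 := by
  obtain ⟨v, hv⟩ := LocalCore.exists_repr (LinearMap.ker (β.compr₂ B)) (β.compr₂ B)
    (by
      intro u k
      rw [LinearMap.compr₂_apply, LinearMap.compr₂_apply, H.P.symm])
    (fun _ => LinearMap.mem_ker) (C ∘ₗ β u)
    (by
      intro r hr
      have hr' : ∀ y, B (β r y) = 0 := fun y => LinearMap.congr_fun (LinearMap.mem_ker.1 hr) y
      exact hC r ⟨H.B1 (by rw [H.P.symm]; exact hr' m), fun y _ => hr' y⟩)
  have hv' : ∀ y, B (β v y) = C (β u y) := fun y => LinearMap.congr_fun hv y
  have hum : β u m = 0 := by rw [H.P.symm]; exact hu.2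
  have hmv : β m v = 0 := H.B1 (by rw [H.P.symm, hv', hum, map_zero])
  obtain ⟨u', c', hu', hc', hvd⟩ := H.dec hmv
  -- `c'` is in the kernel of the form
  have hcc : ∀ c'', InC β m B x c'' → B (β c' c'') = 0 := by
    intro c'' hc''
    have h1 : B (β v c'') = 0 := by rw [hv', hC _ hc'']
    have h2 : B (β u' c'') = 0 := by rw [H.P.symm]; exact hc''.2 _ hu'.1
    have h3 : B (β m c'') = 0 := by rw [hc''.1, map_zero]
    rcases hvd with h | h
    · rw [h] at h1
      linear_combination (norm := ((try simp only [map_add, LinearMap.add_apply, map_smul, LinearMap.smul_apply]); match_scalars <;> (first | rfl | decide))) ((1 : ZMod 2) • (h1) + (1 : ZMod 2) • (h2))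
    · rw [h] at h1
      linear_combination (norm := ((try simp only [map_add, LinearMap.add_apply, map_smul, LinearMap.smul_apply]); match_scalars <;> (first | rfl | decide))) ((1 : ZMod 2) • (h1) + (1 : ZMod 2) • (h2) + (1 : ZMod 2) • (h3))
  have hc0 : ∀ y, β m y = 0 → B (β c' y) = 0 := by
    intro y hy
    obtain ⟨k, c'', hk, hc'', hyd⟩ := H.dec hy
    have h1 : B (β c' k) = 0 := hc'.2 _ hk.1
    have h2 : B (β c' m) = 0 := by rw [H.P.symm, hc'.1, map_zero]
    have h3 := hcc _ hc''
    rcases hyd with h | h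
    · rw [h]
      linear_combination (norm := ((try simp only [map_add, LinearMap.add_apply, map_smul, LinearMap.smul_apply]); match_scalars <;> (first | rfl | decide))) ((1 : ZMod 2) • (h1) + (1 : ZMod 2) • (h3))
    · rw [h]
      linear_combination (norm := ((try simp only [map_add, LinearMap.add_apply, map_smul, LinearMap.smul_apply]); match_scalars <;> (first | rfl | decide))) ((1 : ZMod 2) • (h1) + (1 : ZMod 2) • (h2) + (1 : ZMod 2) • (h3))
  have hc : ∀ y, B (β c' y) = 0 := by
    intro y
    rcases H.S.small y with h | h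
    · exact hc0 y h
    · have h1 := hc0 (y + (e + x)) (by linear_combination (norm := ((try simp only [map_add, LinearMap.add_apply, map_smul, LinearMap.smul_apply]); match_scalars <;> (first | rfl | decide))) ((1 : ZMod 2) • (h) + (1 : ZMod 2) • (H.mex)))
      have h2 := hc'.2 _ H.xex
      rw [map_add, map_add, h2, add_zero] at h1
      exact h1
  -- the value `q` of `u` and of `v'`
  have hQu := H.K1 hu hW
  have key : ∀ v' : V, (∀ y, B (β v' y) = C (β u y)) → Qv β q v' → False := by
    intro v' h1 h2
    obtain ⟨E, h3, h4⟩ := H.P.glue h1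
    obtain ⟨y1, hy1⟩ := h2
    obtain ⟨y2, hy2⟩ := hQu.1
    have h5 := h3 y1
    have h6 := h4 y2
    rw [hy1, H.Bq] at h5
    rw [hy2, hCq, h5] at h6
    exact one_ne_zero h6
  by_cases hW' : InW β m q u'
  · rcases hvd with h | h
    · rw [← hv' y, h]
      linear_combination (norm := ((try simp only [map_add, LinearMap.add_apply, map_smul, LinearMap.smul_apply]); match_scalars <;> (first | rfl | decide))) ((1 : ZMod 2) • (H.BW _ hW' y) + (1 : ZMod 2) • (hc y))
    · exfalso
      have h1 : ∀ y, B (β m y) = C (β u y) := by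
        intro y
        have h2 := hv' y
        rw [h] at h2
        linear_combination (norm := ((try simp only [map_add, LinearMap.add_apply, map_smul, LinearMap.smul_apply]); match_scalars <;> (first | rfl | decide))) ((1 : ZMod 2) • (h2) + (1 : ZMod 2) • (H.BW _ hW' y) + (1 : ZMod 2) • (hc y))
      have h3 := h1 u
      rw [hu.2, map_zero] at h3
      have h4 := h1 (e + x)
      rw [H.mex, H.Bq] at h4
      have h5 : β u (e + x) = β u u := by
        linear_combination (norm := ((try simp only [map_add, LinearMap.add_apply, map_smul, LinearMap.smul_apply]); match_scalars <;> (first | rfl | decide))) ((1 : ZMod 2) • (H.P.he u) + (1 : ZMod 2) • (H.P.symm u x) + (1 : ZMod 2) • (hu.1))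
      rw [h5, ← h3] at h4
      exact one_ne_zero h4
  · exfalso
    have hQu' := H.K1 hu' hW'
    rcases hvd with h | h
    · refine key u' ?_ hQu'.1
      intro y
      have h2 := hv' y
      rw [h] at h2
      linear_combination (norm := ((try simp only [map_add, LinearMap.add_apply, map_smul, LinearMap.smul_apply]); match_scalars <;> (first | rfl | decide))) ((1 : ZMod 2) • (h2) + (1 : ZMod 2) • (hc y))
    · refine key (u' + m) ?_ (D_add_m H.P H.S hQu'.1 hQu'.2).1
      intro y
      have h2 := hv' y
      rw [h] at h2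
      linear_combination (norm := ((try simp only [map_add, LinearMap.add_apply, map_smul, LinearMap.smul_apply]); match_scalars <;> (first | rfl | decide))) ((1 : ZMod 2) • (h2) + (1 : ZMod 2) • (hc y))

/-- The group `C`. -/
def Cs (β : V →ₗ[ZMod 2] V →ₗ[ZMod 2] Q) (m : V) (B : Dual (ZMod 2) Q) (x : V) :
    Submodule (ZMod 2) V where
  carrier := {c | InC β m B x c}
  add_mem' := by
    intro a b ha hb
    refine ⟨by linear_combination (norm := ((try simp only [map_add, LinearMap.add_apply, map_smul, LinearMap.smul_apply]); match_scalars <;> (first | rfl | decide))) ((1 : ZMod 2) • (ha.1) + (1 : ZMod 2) • (hb.1)), fun y hy => ?_⟩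
    linear_combination (norm := ((try simp only [map_add, LinearMap.add_apply, map_smul, LinearMap.smul_apply]); match_scalars <;> (first | rfl | decide))) ((1 : ZMod 2) • (ha.2 y hy) + (1 : ZMod 2) • (hb.2 y hy))
  zero_mem' := ⟨map_zero _, fun y _ => by rw [map_zero, LinearMap.zero_apply, map_zero]⟩
  smul_mem' := by
    intro c a ha
    refine ⟨by rw [map_smul, ha.1, smul_zero], fun y hy => ?_⟩
    rw [map_smul, LinearMap.smul_apply, map_smul, ha.2 y hy, smul_zero]

lemma three' [Finite V] (H : PHyp β e m q B x) {u : V} (hu : InK β m x u)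
    (hW : ¬ InW β m q u) (y : V) :
    ∃ c, InC β m B x c ∧ (β u y = β u c ∨ β u y = q + β u c) := by
  by_cases hmem : β u y ∈ span (ZMod 2) {q} ⊔ (Cs β m B x).map (β u)
  · obtain ⟨s, hs, t, ht, hst⟩ := Submodule.mem_sup.1 hmem
    obtain ⟨c, hc, rfl⟩ := ht
    refine ⟨c, hc, ?_⟩
    obtain ⟨r, rfl⟩ := Submodule.mem_span_singleton.1 hs
    have key : ∀ c : ZMod 2, c = 0 ∨ c = 1 := by decide
    rcases key r with rfl | rfl
    · left; rw [← hst, zero_smul, zero_add]
    · right; rw [← hst, one_smul]
  · exfalso
    obtain ⟨f, hf, hk⟩ := Submodule.exists_le_ker_of_notMem hmem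
    apply hf
    apply H.three hu hW f
    · exact hk (Submodule.mem_sup_left (Submodule.mem_span_singleton_self q))
    · intro c hc
      exact hk (Submodule.mem_sup_right ⟨c, hc, rfl⟩)

lemma four [Finite V] (H : PHyp β e m q B x) {u c : V} (hu : InK β m x u)
    (huW : ¬ InW β m q u) (hc : InC β m B x c) (hcW : ¬ InW β m q c) : Sf β m (c + u) := by
  by_contra hS
  have hcD := H.CD hc hcW
  have h1 : ¬ InW β m q (c + u) := by
    intro h
    apply hcW
    apply H.KC _ hc
    have e1 : c = (c + u) + u := by linear_combination (norm := ((try simp only [map_add, LinearMap.add_apply, map_smul, LinearMap.smul_apply]); match_scalars <;> (first | rfl | decide))) ((1 : ZMod 2) • ((rfl : c = c)))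
    have h2 := H.xW _ h
    rw [e1]
    exact ⟨by linear_combination (norm := ((try simp only [map_add, LinearMap.add_apply, map_smul, LinearMap.smul_apply]); match_scalars <;> (first | rfl | decide))) ((1 : ZMod 2) • (h2) + (1 : ZMod 2) • (H.P.symm x (c + u)) + (1 : ZMod 2) • (hu.1)), by linear_combination (norm := ((try simp only [map_add, LinearMap.add_apply, map_smul, LinearMap.smul_apply]); match_scalars <;> (first | rfl | decide))) ((1 : ZMod 2) • (hc.1))⟩
  have h2 : Qv β q (c + u) := by
    by_contra h3
    exact h1 ⟨h3, hS⟩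
  obtain ⟨z, hz1, hz2, hz3⟩ := H.C _ (D_add_m H.P H.S h2 hS).1
  have hcu : β c z = β u z := by linear_combination (norm := ((try simp only [map_add, LinearMap.add_apply, map_smul, LinearMap.smul_apply]); match_scalars <;> (first | rfl | decide))) ((1 : ZMod 2) • (hz2) + (1 : ZMod 2) • (hz3))
  obtain ⟨c', hc', h3⟩ := H.three' hu huW z
  have hadd : InC β m B x (c + c') := (Cs β m B x).add_mem hc hc'
  rcases h3 with h3 | h3
  · -- `β c z = β c' u`
    have h4 : β c' u = β c z := by rw [H.P.symm c' u, ← h3, hcu]
    obtain ⟨y, h5, h6⟩ := H.P.cs' (rfl : β c z = β c z) h4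
    have h7 := hcD.2 (y + z) (by linear_combination (norm := ((try simp only [map_add, LinearMap.add_apply, map_smul, LinearMap.smul_apply]); match_scalars <;> (first | rfl | decide))) ((1 : ZMod 2) • (h5)))
    have h8 : β m y = q := by linear_combination (norm := ((try simp only [map_add, LinearMap.add_apply, map_smul, LinearMap.smul_apply]); match_scalars <;> (first | rfl | decide))) ((1 : ZMod 2) • (h7) + (1 : ZMod 2) • (hz3))
    have h9 : ¬ Sf β m (c + c') := fun hs => H.S.ne h8 (hs y (by linear_combination (norm := ((try simp only [map_add, LinearMap.add_apply, map_smul, LinearMap.smul_apply]); match_scalars <;> (first | rfl | decide))) ((1 : ZMod 2) • (h5) + (1 : ZMod 2) • (h6))))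
    have h10 : InW β m q (c + c') := by
      by_contra h11
      exact h9 (H.CD hadd h11).2
    have h12 : β c' z = β c z := by linear_combination (norm := ((try simp only [map_add, LinearMap.add_apply, map_smul, LinearMap.smul_apply]); match_scalars <;> (first | rfl | decide))) ((1 : ZMod 2) • (hz1 _ h10))
    have h13 : ¬ InW β m q c' := by
      intro h14
      apply hcW
      have := (W H.P H.S).add_mem (show c + c' ∈ W H.P H.S from h10)
        (show c' ∈ W H.P H.S from h14)
      rwa [add_self_cancel] at this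
    have h15 := (H.CD hc' h13).2 (z + u) (by linear_combination (norm := ((try simp only [map_add, LinearMap.add_apply, map_smul, LinearMap.smul_apply]); match_scalars <;> (first | rfl | decide))) ((1 : ZMod 2) • (h12) + (1 : ZMod 2) • (h4)))
    exact H.S.ne hz3 (by linear_combination (norm := ((try simp only [map_add, LinearMap.add_apply, map_smul, LinearMap.smul_apply]); match_scalars <;> (first | rfl | decide))) ((1 : ZMod 2) • (h15) + (1 : ZMod 2) • (hu.2)))
  · have h4 : β (c + m) z = β c' u := by
      linear_combination (norm := ((try simp only [map_add, LinearMap.add_apply, map_smul, LinearMap.smul_apply]); match_scalars <;> (first | rfl | decide))) ((1 : ZMod 2) • (H.P.symm c' u) + (1 : ZMod 2) • (h3) + (1 : ZMod 2) • (hcu) + (1 : ZMod 2) • (hz3))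
    obtain ⟨y, h5, h6⟩ := H.P.cs' (rfl : β (c + m) z = β (c + m) z) h4.symm
    have hcm := Ds_add_m H.S hcD.1 hcD.2
    have h7 := hcm.2 (y + z) (by linear_combination (norm := ((try simp only [map_add, LinearMap.add_apply, map_smul, LinearMap.smul_apply]); match_scalars <;> (first | rfl | decide))) ((1 : ZMod 2) • (h5)))
    have h8 : β m y = q := by linear_combination (norm := ((try simp only [map_add, LinearMap.add_apply, map_smul, LinearMap.smul_apply]); match_scalars <;> (first | rfl | decide))) ((1 : ZMod 2) • (h7) + (1 : ZMod 2) • (hz3))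
    have h9 : β (c + c' + m) y = 0 := by linear_combination (norm := ((try simp only [map_add, LinearMap.add_apply, map_smul, LinearMap.smul_apply]); match_scalars <;> (first | rfl | decide))) ((1 : ZMod 2) • (h5) + (1 : ZMod 2) • (h6))
    have h10 : ¬ Sf β m (c + c' + m) := fun hs => H.S.ne h8 (hs y h9)
    by_cases h11 : InW β m q (c + c')
    · exact h10 (W_add_m H.S h11).2
    · have h12 := H.CD hadd h11
      exact h10 (Ds_add_m H.S h12.1 h12.2).2

lemma five [Finite V] (H : PHyp β e m q B x) {u : V} (hu : β m u = 0) (hQ : Qv β q u)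
    (hS : ¬ Sf β m u) : β u x = 0 ∨ β u x = q := by
  obtain ⟨u', c, hu', hc, hud⟩ := H.dec hu
  -- `u' + c` is in the same class as `u`
  have h1 : Qv β q (c + u') ∧ ¬ Sf β m (c + u') := by
    rcases hud with h | h
    · rw [add_comm c u', ← h]
      exact ⟨hQ, hS⟩
    · have h2 := D_add_m H.P H.S hQ hS
      have e1 : c + u' = u + m := by rw [h]; linear_combination (norm := ((try simp only [map_add, LinearMap.add_apply, map_smul, LinearMap.smul_apply]); match_scalars <;> (first | rfl | decide))) ((1 : ZMod 2) • ((rfl : c = c)))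
      rw [e1]
      exact h2
  have hcW : InW β m q c := by
    by_contra hcW
    by_cases hu'W : InW β m q u'
    · have h2 := (H.CD hc hcW)
      have h3 : Sf β m (c + u') := Sf_add H.P H.S h2.2 hu'W
      exact h1.2 h3
    · exact h1.2 (H.four hu' hu'W hc hcW)
  have h2 := H.xW _ hcW
  have h3 : β u' x = 0 := by rw [H.P.symm]; exact hu'.1
  rcases hud with h | h
  · left
    rw [h]
    linear_combination (norm := ((try simp only [map_add, LinearMap.add_apply, map_smul, LinearMap.smul_apply]); match_scalars <;> (first | rfl | decide))) ((1 : ZMod 2) • (h2) + (1 : ZMod 2) • (h3))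
  · right
    rw [h]
    linear_combination (norm := ((try simp only [map_add, LinearMap.add_apply, map_smul, LinearMap.smul_apply]); match_scalars <;> (first | rfl | decide))) ((1 : ZMod 2) • (h2) + (1 : ZMod 2) • (h3) + (1 : ZMod 2) • (H.xm))

lemma fiveb [Finite V] (H : PHyp β e m q B x) {c : V} (hc : InC β m B x c)
    (hcW : ¬ InW β m q c) :
    ∃ z, PHyp β e m q B z ∧ InK β m x (e + (z + x) + c + m) := by
  have hcD := H.CD hc hcW
  have h1 := D_of_f1 H.P H.S H.hme (x := x + c) (by linear_combination (norm := ((try simp only [map_add, LinearMap.add_apply, map_smul, LinearMap.smul_apply]); match_scalars <;> (first | rfl | decide))) ((1 : ZMod 2) • (H.xm) + (1 : ZMod 2) • (hc.1)))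
  obtain ⟨z, hz1, hz2, hz3⟩ := H.C _ h1.1
  refine ⟨z, ⟨H.P, H.S, H.hme, H.C, H.Bq, H.BW, hz1, hz3⟩, ?_⟩
  set a := e + (z + x) + c + m with ha
  have hxm : β x m = q := by rw [H.P.symm]; exact H.xm
  have hcm : β c m = 0 := by rw [H.P.symm]; exact hc.1
  have hma : β m a = 0 := by
    rw [ha]
    linear_combination (norm := ((try simp only [map_add, LinearMap.add_apply, map_smul, LinearMap.smul_apply]); match_scalars <;> (first | rfl | decide))) ((1 : ZMod 2) • (H.me) + (1 : ZMod 2) • (hz3) + (1 : ZMod 2) • (H.xm) + (1 : ZMod 2) • (hc.1) + (1 : ZMod 2) • (H.hme))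
  refine ⟨?_, hma⟩
  -- `β x a = β c a`
  have hxa : β x a = β c a := by
    rw [ha]
    linear_combination (norm := ((try simp only [map_add, LinearMap.add_apply, map_smul, LinearMap.smul_apply]); match_scalars <;> (first | rfl | decide))) ((1 : ZMod 2) • (hz2) + (1 : ZMod 2) • (hxm) + (1 : ZMod 2) • (hcm) + (1 : ZMod 2) • (H.P.he x) + (1 : ZMod 2) • (H.P.he c) + (1 : ZMod 2) • (H.P.symm x c))
  obtain ⟨k, c', hk, hc', had⟩ := H.dec hma
  rcases had with h | h
  · -- `β c' x = β c a`
    have h2 : β c' x = β c a := by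
      rw [← hxa, h]
      linear_combination (norm := ((try simp only [map_add, LinearMap.add_apply, map_smul, LinearMap.smul_apply]); match_scalars <;> (first | rfl | decide))) ((1 : ZMod 2) • (hk.1) + (1 : ZMod 2) • (H.P.symm c' x))
    by_cases hcW' : InW β m q c'
    · rw [hxa, ← h2]
      exact H.xW _ hcW'
    · exfalso
      obtain ⟨y, h3, h4⟩ := H.P.cs' h2 (rfl : β c a = β c a)
      have h5 := hcD.2 (y + a) (by linear_combination (norm := ((try simp only [map_add, LinearMap.add_apply, map_smul, LinearMap.smul_apply]); match_scalars <;> (first | rfl | decide))) ((1 : ZMod 2) • (h4)))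
      have h6 := (H.CD hc' hcW').2 (y + x) (by linear_combination (norm := ((try simp only [map_add, LinearMap.add_apply, map_smul, LinearMap.smul_apply]); match_scalars <;> (first | rfl | decide))) ((1 : ZMod 2) • (h3) + (1 : ZMod 2) • (h2)))
      exact H.S.ne H.xm (by linear_combination (norm := ((try simp only [map_add, LinearMap.add_apply, map_smul, LinearMap.smul_apply]); match_scalars <;> (first | rfl | decide))) ((1 : ZMod 2) • (h5) + (1 : ZMod 2) • (h6) + (1 : ZMod 2) • (hma)))
  · exfalso
    have h2 : β (c' + m) x = β c a := by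
      rw [← hxa, h]
      linear_combination (norm := ((try simp only [map_add, LinearMap.add_apply, map_smul, LinearMap.smul_apply]); match_scalars <;> (first | rfl | decide))) ((1 : ZMod 2) • (hk.1) + (1 : ZMod 2) • (H.P.symm c' x) + (1 : ZMod 2) • (H.P.symm m x))
    obtain ⟨y, h3, h4⟩ := H.P.cs' h2 (rfl : β c a = β c a)
    have h5 := hcD.2 (y + a) (by linear_combination (norm := ((try simp only [map_add, LinearMap.add_apply, map_smul, LinearMap.smul_apply]); match_scalars <;> (first | rfl | decide))) ((1 : ZMod 2) • (h4)))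
    have hs : Sf β m (c' + m) := by
      by_cases hcW' : InW β m q c'
      · exact (W_add_m H.S hcW').2
      · have := H.CD hc' hcW'
        exact (Ds_add_m H.S this.1 this.2).2
    have h6 := hs (y + x) (by linear_combination (norm := ((try simp only [map_add, LinearMap.add_apply, map_smul, LinearMap.smul_apply]); match_scalars <;> (first | rfl | decide))) ((1 : ZMod 2) • (h3) + (1 : ZMod 2) • (h2)))
    exact H.S.ne H.xm (by linear_combination (norm := ((try simp only [map_add, LinearMap.add_apply, map_smul, LinearMap.smul_apply]); match_scalars <;> (first | rfl | decide))) ((1 : ZMod 2) • (h5) + (1 : ZMod 2) • (h6) + (1 : ZMod 2) • (hma)))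

lemma fivec [Finite V] (H : PHyp β e m q B x) {u : V} (hu : InK β m x u)
    (huW : ∀ w, InW β m q w → β w u = 0) {k : V} (hk : InK β m x k) :
    β u k = 0 ∨ β u k = q := by
  by_cases hkW : InW β m q k
  · left
    rw [H.P.symm]
    exact huW _ hkW
  · have H' : PHyp β e m q B (x + u) := ⟨H.P, H.S, H.hme, H.C, H.Bq, H.BW,
      fun w hw => by linear_combination (norm := ((try simp only [map_add, LinearMap.add_apply, map_smul, LinearMap.smul_apply]); match_scalars <;> (first | rfl | decide))) ((1 : ZMod 2) • (H.xW w hw) + (1 : ZMod 2) • (huW w hw)), by linear_combination (norm := ((try simp only [map_add, LinearMap.add_apply, map_smul, LinearMap.smul_apply]); match_scalars <;> (first | rfl | decide))) ((1 : ZMod 2) • (H.xm) + (1 : ZMod 2) • (hu.2))⟩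
    have h1 := H.K1 hk hkW
    have h2 : β k x = 0 := by rw [H.P.symm]; exact hk.1
    have h3 : β u k = β k (x + u) := by linear_combination (norm := ((try simp only [map_add, LinearMap.add_apply, map_smul, LinearMap.smul_apply]); match_scalars <;> (first | rfl | decide))) ((1 : ZMod 2) • (h2) + (1 : ZMod 2) • (H.P.symm u k))
    rw [h3]
    exact H'.five hk.2 h1.1 h1.2

lemma InK.add {u k : V} (hu : InK β m x u) (hk : InK β m x k) : InK β m x (u + k) :=
  ⟨by linear_combination (norm := ((try simp only [map_add, LinearMap.add_apply, map_smul, LinearMap.smul_apply]); match_scalars <;> (first | rfl | decide))) ((1 : ZMod 2) • (hu.1) + (1 : ZMod 2) • (hk.1)), by linear_combination (norm := ((try simp only [map_add, LinearMap.add_apply, map_smul, LinearMap.smul_apply]); match_scalars <;> (first | rfl | decide))) ((1 : ZMod 2) • (hu.2) + (1 : ZMod 2) • (hk.2))⟩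

/-- Elements of `K` orthogonal to `W` are small. -/
lemma mem_Lq [Finite V] (H : PHyp β e m q B x) {u : V} (hu : InK β m x u)
    (huW : ∀ w, InW β m q w → β w u = 0) (huW' : ¬ InW β m q u) (y : V) :
    β u y = 0 ∨ β u y = q := by
  have hC : ∀ c, InC β m B x c → β u c = 0 ∨ β u c = q := by
    intro c hc
    by_cases hcW : InW β m q c
    · left
      rw [H.P.symm]
      exact huW _ hcW
    · obtain ⟨z, Hz, ha⟩ := H.fiveb hc hcW
      have h1 := H.K1 hu huW'
      have h2 := Hz.five hu.2 h1.1 h1.2
      have h3 := H.fivec hu huW (InK.add hu ha)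
      have hux : β u x = 0 := by rw [H.P.symm]; exact hu.1
      have hum : β u m = 0 := by rw [H.P.symm]; exact hu.2
      have h4 : β u c = β u (u + (e + (z + x) + c + m)) + β u z := by
        linear_combination (norm := ((try simp only [map_add, LinearMap.add_apply, map_smul, LinearMap.smul_apply]); match_scalars <;> (first | rfl | decide))) ((1 : ZMod 2) • (hux) + (1 : ZMod 2) • (hum) + (1 : ZMod 2) • (H.P.he u))
      rw [h4]
      rcases h2 with h2 | h2 <;> rcases h3 with h3 | h3 <;> rw [h2, h3]
      · left; rw [add_zero]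
      · right; rw [add_zero]
      · right; rw [zero_add]
      · left; exact add_self q
  obtain ⟨c, hc, h⟩ := H.three' hu huW' y
  rcases hC c hc with h1 | h1 <;> rcases h with h | h <;> rw [h, h1]
  · left; rfl
  · right; rw [add_zero]
  · right; rfl
  · left; exact add_self q

/-- First half of the partner theorem. -/
lemma half [Finite V] (H : PHyp β e m q B x) {d : V} (hQ : Qv β q d) (hS : ¬ Sf β m d)
    (hmd : β m d = 0) :
    ∃ n, β d n = q ∧ (∀ y, β n y = 0 ∨ β n y = q) ∧ Qv β q n ∧ ¬ Sf β m n ∧ β m n = 0 := by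
  obtain ⟨z1, h1, h2, h3⟩ := H.C d hQ
  obtain ⟨z2, h4, h5, h6⟩ := H.C (d + m) (D_add_m H.P H.S hQ hS).1
  have hdz2 : β d z2 = 0 := by linear_combination (norm := ((try simp only [map_add, LinearMap.add_apply, map_smul, LinearMap.smul_apply]); match_scalars <;> (first | rfl | decide))) ((1 : ZMod 2) • (h5) + (1 : ZMod 2) • (h6))
  set n := z1 + z2 with hn
  have hnW : ∀ w, InW β m q w → β w n = 0 := fun w hw => by
    rw [hn]
    linear_combination (norm := ((try simp only [map_add, LinearMap.add_apply, map_smul, LinearMap.smul_apply]); match_scalars <;> (first | rfl | decide))) ((1 : ZMod 2) • (h1 w hw) + (1 : ZMod 2) • (h4 w hw))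
  have hmn : β m n = 0 := by rw [hn]; linear_combination (norm := ((try simp only [map_add, LinearMap.add_apply, map_smul, LinearMap.smul_apply]); match_scalars <;> (first | rfl | decide))) ((1 : ZMod 2) • (h3) + (1 : ZMod 2) • (h6))
  have hdn : β d n = q := by rw [hn]; linear_combination (norm := ((try simp only [map_add, LinearMap.add_apply, map_smul, LinearMap.smul_apply]); match_scalars <;> (first | rfl | decide))) ((1 : ZMod 2) • (h2) + (1 : ZMod 2) • (hdz2))
  have hdm : β d m = 0 := by rw [H.P.symm]; exact hmd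
  have hQn : Qv β q n := ⟨d, by rw [H.P.symm]; exact hdn⟩
  have hSn : ¬ Sf β m n := by
    intro hs
    have h7 := add_m_W H.P H.S hQn hs
    exact h7.1 ⟨d, by linear_combination (norm := ((try simp only [map_add, LinearMap.add_apply, map_smul, LinearMap.smul_apply]); match_scalars <;> (first | rfl | decide))) ((1 : ZMod 2) • (hdn) + (1 : ZMod 2) • (H.P.symm d n) + (1 : ZMod 2) • (hmd))⟩
  have hmW : ∀ w, InW β m q w → β w m = 0 := fun w hw => by
    rw [H.P.symm]
    exact W_orth H.P H.S hw
  have key : ∀ n' : V, InK β m x n' → (∀ w, InW β m q w → β w n' = 0) → Qv β q n' →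
      ¬ Sf β m n' → β d n' = q →
      ∃ n, β d n = q ∧ (∀ y, β n y = 0 ∨ β n y = q) ∧ Qv β q n ∧ ¬ Sf β m n ∧ β m n = 0 := by
    intro n' h7 h8 h9 h10 h11
    exact ⟨n', h11, H.mem_Lq h7 h8 (fun hW => hW.1 h9), h9, h10, h7.2⟩
  rcases H.five hmn hQn hSn with h | h
  · exact key n ⟨by rw [H.P.symm]; exact h, hmn⟩ hnW hQn hSn hdn
  · have h7 := D_add_m H.P H.S hQn hSn
    refine key (n + m) ⟨?_, ?_⟩ ?_ h7.1 h7.2 ?_
    · linear_combination (norm := ((try simp only [map_add, LinearMap.add_apply, map_smul, LinearMap.smul_apply]); match_scalars <;> (first | rfl | decide))) ((1 : ZMod 2) • (h) + (1 : ZMod 2) • (H.P.symm n x) + (1 : ZMod 2) • (H.xm) + (1 : ZMod 2) • (H.P.symm m x))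
    · linear_combination (norm := ((try simp only [map_add, LinearMap.add_apply, map_smul, LinearMap.smul_apply]); match_scalars <;> (first | rfl | decide))) ((1 : ZMod 2) • (hmn) + (1 : ZMod 2) • (H.hme))
    · intro w hw
      linear_combination (norm := ((try simp only [map_add, LinearMap.add_apply, map_smul, LinearMap.smul_apply]); match_scalars <;> (first | rfl | decide))) ((1 : ZMod 2) • (hnW w hw) + (1 : ZMod 2) • (hmW w hw))
    · linear_combination (norm := ((try simp only [map_add, LinearMap.add_apply, map_smul, LinearMap.smul_apply]); match_scalars <;> (first | rfl | decide))) ((1 : ZMod 2) • (hdn) + (1 : ZMod 2) • (hdm))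

end PHyp

/-- The partner theorem. -/
theorem partner [Finite V] (P : Pre β e) (S : Sm β m q) (T : Tw β m q) {d : V}
    (hQ : Qv β q d) (hS : ¬ Sf β m d) (hmd : β m d = 0) :
    ∃ u ∈ Lq β q, ∃ n ∈ Lq β q, β u n = q := by
  by_cases hme : β m m = 0
  · obtain ⟨B, hBq, hBW⟩ := T.B
    obtain ⟨x, hx1, hx2, -⟩ := T.C m S.ex
    have H : PHyp β e m q B x := ⟨P, S, hme, T.C, hBq, hBW, hx1, hx2⟩
    obtain ⟨u, h1, h2, h3, h4, h5⟩ := H.half hQ hS hmd
    obtain ⟨n, h6, h7, h8, h9, h10⟩ := H.half h3 h4 h5
    exact ⟨u, h2, n, h7, h6⟩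
  · exact ⟨m, S.small, m, S.small, S.eq hme⟩

end Pool.Agent.Hhelper2.SmallEl
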