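import Pool.Agent.Hhelper2.QuadExt

/-!
# The tower argument

An element `m` whose values meet those of a group `W` of square classes trivially keeps this
property in towers of quadratic extensions obtained by adjoining the square roots of elements of
`W`, and one can descend the information found at the top of the tower.
-/

namespace Pool.Agent.Hhelper2.Tower

open Module Submodule

universe u v

/-- The hypotheses of the tower argument, at one level. -/
structure Hyp {V : Type*} [AddCommGroup V] [Module (ZMod 2) V] (Sp : V → V → Prop) (m : V)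
    (W : Submodule (ZMod 2) V) (X : Set V) (P : V → Prop) : Prop where
  XW : ∀ x ∈ X, ∀ w ∈ W, x + w ∈ X
  congr : ∀ y z, Sp m (y + z) → P y → P z
  I3 : ∀ w ∈ W, ∀ y, Sp (m + w) y → Sp m y
  I4 : ∀ w ∈ W, ∀ g, ∃ g', Sp w g' ∧ Sp m (g + g')
  I2 : ∀ d ∈ X, ∃ z, Sp (m + d) z ∧ P z

section abstract

variable {V : Type u} {Q : Type v} [AddCommGroup V] [Module (ZMod 2) V]
  [AddCommGroup Q] [Module (ZMod 2) Q]
  (β : V →ₗ[ZMod 2] V →ₗ[ZMod 2] Q)
  (cs : ∀ a b c d, β a b = β c d → ∃ w, β a w = β a b ∧ β c w = β a b)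
  {Sp : V → V → Prop} (hSp : ∀ x y, β x y = 0 ↔ Sp x y)
  {m : V} {W : Submodule (ZMod 2) V} {X : Set V} {P : V → Prop} (H : Hyp Sp m W X P)

include cs hSp H

lemma I3v {w : V} (hw : w ∈ W) {x y : V} (h : β m x = β w y) : β m x = 0 := by
  obtain ⟨z, h1, h2⟩ := cs _ _ _ _ h
  have h3 : β (m + w) z = 0 := by
    rw [map_add, LinearMap.add_apply, h1, h2, Codim.add_self]
  rw [← h1, hSp]
  exact H.I3 w hw z ((hSp _ _).1 h3)

omit cs in
lemma I4v {w : V} (hw : w ∈ W) (g : V) : ∃ g', β w g' = 0 ∧ β m g' = β m g := by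
  obtain ⟨g', h1, h2⟩ := H.I4 w hw g
  refine ⟨g', (hSp _ _).2 h1, ?_⟩
  rw [← hSp, map_add] at h2
  exact (Codim.eq_of_add_eq_zero h2).symm

lemma I4t {w a : V} (hw : w ∈ W) (ha : a ∈ W) (g : V) :
    ∃ z, β w z = 0 ∧ β a z = 0 ∧ β m z = β m g := by
  obtain ⟨g₁, h1, h2⟩ := I4v β hSp H hw g
  obtain ⟨g₂, h3, h4⟩ := I4v β hSp H ha g
  have e1 : β (m + w) g₁ = β m g := by rw [map_add, LinearMap.add_apply, h1, add_zero, h2]
  have e2 : β (m + a) g₂ = β m g := by rw [map_add, LinearMap.add_apply, h3, add_zero, h4]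
  obtain ⟨z, h5, h6⟩ := cs _ _ _ _ (e1.trans e2.symm)
  rw [e1] at h5 h6
  have key : ∀ c ∈ W, ∀ g' : V, β c g' = 0 → β m g' = β m g → β (m + c) z = β m g →
      β c z = 0 ∧ β m z = β m g := by
    intro c hc g' h7 h8 h9
    have h10 : β (m + c) (z + g') = 0 := by
      rw [map_add, h9, map_add, LinearMap.add_apply, h7, add_zero, h8, Codim.add_self]
    have h11 : β m (z + g') = 0 := (hSp _ _).2 (H.I3 c hc _ ((hSp _ _).1 h10))
    rw [map_add] at h11
    have h12 : β m z = β m g := (Codim.eq_of_add_eq_zero h11).trans h8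
    refine ⟨?_, h12⟩
    rw [map_add, LinearMap.add_apply, h12] at h9
    simpa using h9
  exact ⟨z, (key w hw g₁ h1 h2 h5).1, (key a ha g₂ h3 h4 h6).1, (key w hw g₁ h1 h2 h5).2⟩

omit H hSp in
/-- Elementwise version of `I3t`. -/
lemma I3t' {w a : V} (w3 : ∀ x y, β m x = β w y → β m x = 0)
    (w4 : ∀ g, ∃ g', β w g' = 0 ∧ β m g' = β m g)
    (a3 : ∀ x y, β m x = β a y → β m x = 0)
    (a4 : ∀ g, ∃ g', β a g' = 0 ∧ β m g' = β m g)
    {h h' t : V} (e : β m h = β w h' + β a t) :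
    β m h = 0 := by
  obtain ⟨g, h1, h2⟩ := a4 h
  obtain ⟨gt, h3, h4⟩ := a4 t
  obtain ⟨gh, h5, h6⟩ := w4 h'
  have e1 : β (m + w) (h' + gh) = β w h' := by
    rw [map_add β, LinearMap.add_apply, map_add, map_add, h5, h6, Codim.add_self, zero_add,
      add_zero]
  have e2 : β (m + a) (g + (t + gt)) = β w h' := by
    rw [map_add β, LinearMap.add_apply, map_add, map_add, map_add, map_add, h1, h2, h3, h4,
      Codim.add_self, e]
    rw [add_zero, add_zero, zero_add, add_assoc, Codim.add_self, add_zero]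
  obtain ⟨z, h7, h8⟩ := cs _ _ _ _ (e1.trans e2.symm)
  rw [e1, map_add, LinearMap.add_apply] at h7 h8
  have h9 : β m z = β w (z + h') := by
    rw [map_add, ← h7, add_comm (β m z), ← add_assoc, Codim.add_self, zero_add]
  have h10 := w3 _ _ h9
  rw [h10, zero_add] at h8
  have h11 : β m h = β a (z + t) := by
    rw [map_add, h8, e]
  exact a3 _ _ h11

lemma I3t {w a : V} (hw : w ∈ W) (ha : a ∈ W) {h h' t : V} (e : β m h = β w h' + β a t) :
    β m h = 0 :=
  I3t' β cs (fun _ _ => I3v β cs hSp H hw) (I4v β hSp H hw) (fun _ _ => I3v β cs hSp H ha)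
    (I4v β hSp H ha) e

lemma I2t {d a : V} (hd : d ∈ X) (ha : a ∈ W) :
    ∃ z, β (m + d) z = 0 ∧ β a z = 0 ∧ P z := by
  obtain ⟨z', h1, h2⟩ := H.I2 (d + a) (H.XW d hd a ha)
  rw [← hSp, map_add, LinearMap.add_apply] at h1
  have h1' := Codim.eq_of_add_eq_zero h1
  obtain ⟨g, h3, h4⟩ := I4v β hSp H ha z'
  have e1 : β (m + a) g = β m z' := by rw [map_add, LinearMap.add_apply, h3, add_zero, h4]
  obtain ⟨z, h5, h6⟩ := cs _ _ _ _ (e1.trans h1')
  rw [e1] at h5 h6
  have h7 : β (m + a) (z + g) = 0 := by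
    rw [map_add, h5, e1, Codim.add_self]
  have h8 : β m (z + g) = 0 := (hSp _ _).2 (H.I3 a ha _ ((hSp _ _).1 h7))
  rw [map_add] at h8
  have h9 : β m z = β m z' := (Codim.eq_of_add_eq_zero h8).trans h4
  have h10 : β a z = 0 := by
    rw [map_add, LinearMap.add_apply, h9] at h5
    simpa using h5
  have h11 : β d z = β m z' := by
    rw [map_add, LinearMap.add_apply, h10, add_zero] at h6
    exact h6
  refine ⟨z, ?_, h10, H.congr z' z ?_ h2⟩
  · rw [map_add, LinearMap.add_apply, h9, h11, Codim.add_self]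
  · rw [← hSp, map_add, h9, Codim.add_self]

end abstract

section field

open QuadExt Additive

/-- Splitting of quaternion algebras, in additive notation. -/
def Sp (K : Type u) [Field K] (x y : Additive (SqClass K)) : Prop :=
  FieldSplit K (toMul x) (toMul y)

/-- The linear map of a homomorphism of square class groups. -/
noncomputable def lin {K E : Type u} [Field K] [Field E] (f : SqClass K →* SqClass E) :
    Additive (SqClass K) →ₗ[ZMod 2] Additive (SqClass E) :=
  (MonoidHom.toAdditive f).toZModLinearMap 2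

lemma lin_apply {K E : Type u} [Field K] [Field E] (f : SqClass K →* SqClass E)
    (x : Additive (SqClass K)) : lin f x = ofMul (f (toMul x)) := rfl

variable {K E : Type u} [Field K] [Field E] {a : SqClass K} (qe : QE K E a)

include qe in
theorem finite_ext [Finite (SqClass K)] : Finite (SqClass E) := by
  classical
  let s : SqClass K → SqClass E := fun n => if h : ∃ y, qe.nm y = n then h.choose else 1
  have hs : ∀ y, qe.nm (s (qe.nm y)) = qe.nm y := by
    intro y
    have h : ∃ y', qe.nm y' = qe.nm y := ⟨y, rfl⟩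
    show qe.nm (if h : ∃ y', qe.nm y' = qe.nm y then h.choose else 1) = qe.nm y
    rw [dif_pos h]
    exact h.choose_spec
  apply Finite.of_surjective (fun p : SqClass K × SqClass K => s p.1 * qe.res p.2)
  intro y
  obtain ⟨h, hh⟩ := qe.ker_nm ((s (qe.nm y))⁻¹ * y) (by
    rw [map_mul, map_inv, hs, inv_mul_cancel])
  refine ⟨(qe.nm y, h), ?_⟩
  show s (qe.nm y) * qe.res h = y
  rw [← hh, mul_inv_cancel_left]

/-- One step of the tower. -/
theorem step (h2 : (2 : K) ≠ 0) [Finite (SqClass K)]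
    {m : Additive (SqClass K)} {W : Submodule (ZMod 2) (Additive (SqClass K))}
    {X : Set (Additive (SqClass K))} {P : Additive (SqClass K) → Prop}
    (ha : ofMul a ∈ W) (H : Hyp (Sp K) m W X P) :
    Hyp (Sp E) (lin qe.res m) (W.map (lin qe.res)) (lin qe.res '' X)
      (fun y => P (lin qe.nm y)) := by
  have := finite_ext qe
  obtain ⟨Q, _, _, _, β, hβ, -, cs, -, -⟩ := Codim.exists_bilin K h2
  obtain ⟨QE', _, _, _, βE, hβE, -, -, -, -⟩ := Codim.exists_bilin E qe.two_ne
  have hSp : ∀ x y, β x y = 0 ↔ Sp K x y := fun x y => hβ (toMul x) (toMul y)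
  have hSpE : ∀ x y, βE x y = 0 ↔ Sp E x y := fun x y => hβE (toMul x) (toMul y)
  set r := lin qe.res with hr
  set N := lin qe.nm with hN
  -- properties of the extension, in additive notation
  have n1 : ∀ x, N (r x) = 0 := fun x => qe.nm_res (toMul x)
  have n2 : ∀ x y, βE (r x) y = 0 → β x (N y) = 0 := by
    intro x y h
    exact (hSp _ _).2 (qe.proj (toMul x) (toMul y) ((hSpE _ _).1 h))
  have n3 : ∀ x y, β x (N y) = 0 → ∃ h, βE (r x) (y + r h) = 0 := by
    intro x y h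
    obtain ⟨t, ht⟩ := qe.principle (toMul x) (toMul y) ((hSp _ _).1 h)
    exact ⟨ofMul t, (hSpE _ _).2 ht⟩
  have n4 : ∀ y, N y = 0 → ∃ h, y = r h := by
    intro y h
    obtain ⟨t, ht⟩ := qe.ker_nm (toMul y) h
    exact ⟨ofMul t, ht⟩
  have n5 : ∀ y, β (ofMul a) y = 0 → ∃ z, N z = y := by
    intro y h
    obtain ⟨t, ht⟩ := qe.range_nm (toMul y) ((hSp _ _).1 h)
    exact ⟨ofMul t, ht⟩
  have n5' : ∀ z, β (ofMul a) (N z) = 0 := fun z => (hSp _ _).2 (qe.nm_split (toMul z))
  have n0 : ∀ x y, β x y = 0 → βE (r x) (r y) = 0 := fun x y h =>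
    (hSpE _ _).2 (qe.res_split _ _ ((hSp _ _).1 h))
  have n6 : ∀ x h, βE (r x) (r h) = 0 → ∃ w, β x h = β (ofMul a) w := by
    intro x h hh
    obtain ⟨w, h3, h4⟩ := qe.killed (toMul x) (toMul h) ((hSpE _ _).1 hh)
    have h3' : β x (h + ofMul w) = 0 := (hSp _ _).2 h3
    have h4' : β (ofMul a + x) (ofMul w) = 0 := (hSp _ _).2 h4
    refine ⟨ofMul w, ?_⟩
    rw [map_add] at h3' h4'
    rw [LinearMap.add_apply] at h4'
    rw [Codim.eq_of_add_eq_zero h3', Codim.eq_of_add_eq_zero h4']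
  -- lifting an element of `N(w) ∩ N(a)`
  have lift1 : ∀ x n, β x n = 0 → β (ofMul a) n = 0 → ∃ y, N y = n ∧ βE (r x) y = 0 := by
    intro x n h1 h3
    obtain ⟨y, rfl⟩ := n5 n h3
    obtain ⟨h, hh⟩ := n3 x y h1
    exact ⟨y + r h, by rw [map_add, n1, add_zero], hh⟩
  -- simultaneous lifting
  have lift2 : ∀ w ∈ W, ∀ n, β w n = 0 → β m n = 0 → β (ofMul a) n = 0 →
      ∃ y, N y = n ∧ βE (r w) y = 0 ∧ βE (r m) y = 0 := by
    intro w hw n h1 h3 h4
    obtain ⟨y, hy, hwy⟩ := lift1 w n h1 h4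
    obtain ⟨h', hh'⟩ := n3 m y (by rw [hy]; exact h3)
    obtain ⟨h₂, h5, h6⟩ := I4v β hSp H hw h'
    refine ⟨y + r h₂, by rw [map_add, n1, add_zero, hy], ?_, ?_⟩
    · rw [map_add, hwy, n0 _ _ h5, add_zero]
    · have h7 : β m (h' + h₂) = 0 := by rw [map_add, h6, Codim.add_self]
      have h8 := n0 _ _ h7
      have h9 : βE (r m) (y + r h₂) = βE (r m) (y + r h') + βE (r m) (r (h' + h₂)) := by
        rw [← map_add, map_add r, ← add_assoc, add_assoc y, Codim.add_self, add_zero]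
      rw [h9, hh', h8, add_zero]
  refine ⟨?_, ?_, ?_, ?_, ?_⟩
  · rintro _ ⟨x, hx, rfl⟩ _ ⟨w, hw, rfl⟩
    exact ⟨x + w, H.XW x hx w hw, by rw [map_add]⟩
  · intro y z h hP
    refine H.congr (N y) (N z) ?_ hP
    rw [← hSp, ← map_add]
    exact n2 _ _ ((hSpE _ _).2 h)
  · rintro _ ⟨w, hw, rfl⟩ y h
    have hw' : w ∈ W := hw
    rw [← hSpE, ← map_add] at h
    have h1 : β (m + w) (N y) = 0 := n2 _ _ h
    have h3 : β m (N y) = 0 := (hSp _ _).2 (H.I3 w hw' _ ((hSp _ _).1 h1))
    have h4 : β w (N y) = 0 := by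
      rw [map_add, LinearMap.add_apply, h3, zero_add] at h1
      exact h1
    obtain ⟨y₀, h5, h6, h7⟩ := lift2 w hw' (N y) h4 h3 (n5' y)
    obtain ⟨t, ht⟩ := n4 (y + y₀) (by rw [map_add, h5, Codim.add_self])
    have h8 : βE (r (m + w)) (r t) = 0 := by
      rw [← ht, map_add, h, zero_add, map_add r, map_add βE, LinearMap.add_apply, h6, h7, add_zero]
    obtain ⟨u, hu⟩ := n6 _ _ h8
    have h9 : β m t = 0 := by
      apply I3t β cs hSp H hw' ha (h' := t) (t := u)
      rw [map_add, LinearMap.add_apply] at hu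
      rw [← hu, add_comm (β m t), ← add_assoc, Codim.add_self, zero_add]
    have h10 := n0 _ _ h9
    rw [← ht, map_add, h7, add_zero] at h10
    exact (hSpE _ _).1 h10
  · rintro _ ⟨w, hw, rfl⟩ y
    have hw' : w ∈ W := hw
    obtain ⟨g₁, h1, h3, h4⟩ := I4t β cs hSp H hw' ha (N y)
    obtain ⟨y₁, h5, h6⟩ := lift1 w g₁ h1 h3
    obtain ⟨y₂, h7, h8⟩ := lift1 m (N y + g₁) (by rw [map_add, h4, Codim.add_self])
      (by rw [map_add, n5', h3, add_zero])
    obtain ⟨t, ht⟩ := n4 (y + (y₁ + y₂)) (by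
      rw [map_add, map_add, h5, h7, add_comm g₁, add_assoc, Codim.add_self, add_zero,
        Codim.add_self])
    obtain ⟨t', h9, h10⟩ := I4v β hSp H hw' t
    refine ⟨y₁ + r t', ?_, ?_⟩
    · rw [← hSpE, map_add, h6, n0 _ _ h9, add_zero]
    · have h11 : β m (t + t') = 0 := by rw [map_add, h10, Codim.add_self]
      have h12 := n0 _ _ h11
      rw [map_add r, ← ht] at h12
      have h13 : y + (y₁ + r t') = (y + (y₁ + y₂) + r t') + y₂ := by
        have : y + (y₁ + y₂) + r t' + y₂ = y + (y₁ + r t') + (y₂ + y₂) := by abel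
        rw [this, Codim.add_self, add_zero]
      rw [← hSpE, h13, map_add, h12, h8, add_zero]
  · rintro _ ⟨d, hd, rfl⟩
    obtain ⟨z, h1, h3, h4⟩ := I2t β cs hSp H hd ha
    obtain ⟨y, h5, h6⟩ := lift1 _ z h1 h3
    refine ⟨y, ?_, ?_⟩
    · rw [← hSpE, ← map_add]
      exact h6
    · show P (N y)
      rw [h5]
      exact h4

/-- The tower theorem. -/
theorem tower (n : ℕ) : ∀ (K : Type u) [Field K] (_ : (2 : K) ≠ 0) [Finite (SqClass K)]
    (m : Additive (SqClass K)) (W : Submodule (ZMod 2) (Additive (SqClass K)))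
    (X : Set (Additive (SqClass K))) (P : Additive (SqClass K) → Prop) (_ : Hyp (Sp K) m W X P)
    (_ : finrank (ZMod 2) W ≤ n),
    (∀ d ∈ X, ∃ z, Sp K (m + d) z ∧ (∀ w ∈ W, Sp K w z) ∧ P z) ∧
    (∀ y, ¬ Sp K m y → ∃ b : Additive (SqClass K) →ₗ[ZMod 2] Additive (SqClass K) →ₗ[ZMod 2] ZMod 2,
      (∀ x y, b x y = b y x) ∧ (∀ x y, Sp K x y → b x y = 0) ∧ b m y = 1 ∧
      ∀ w ∈ W, ∀ x, b w x = 0) := by
  induction n with
  | zero =>
    intro K _ h2 _ m W X P H hn
    have hfin : Finite (Additive (SqClass K)) := inferInstanceAs (Finite (SqClass K))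
    have hW : W = ⊥ := Submodule.finrank_eq_zero.1 (Nat.le_zero.1 hn)
    obtain ⟨Q, _, _, _, β, hβ, symm, cs, -, -⟩ := Codim.exists_bilin K h2
    have hSp : ∀ x y, β x y = 0 ↔ Sp K x y := fun x y => hβ (toMul x) (toMul y)
    subst hW
    refine ⟨fun d hd => ?_, fun y hy => ?_⟩
    · obtain ⟨z, h1, h3⟩ := H.I2 d hd
      refine ⟨z, h1, fun w hw => ?_, h3⟩
      rw [Submodule.mem_bot] at hw
      rw [← hSp, hw, map_zero, LinearMap.zero_apply]
    · have h0 : β m y ≠ 0 := fun h => hy ((hSp _ _).1 h)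
      obtain ⟨D, hD, -⟩ := Codim.exists_sep (q := (0 : Q)) h0 h0
      refine ⟨LinearMap.compr₂ β D, ?_, ?_, ?_, ?_⟩
      · intro x y
        rw [LinearMap.compr₂_apply, LinearMap.compr₂_apply, symm]
      · intro x y h
        rw [LinearMap.compr₂_apply, (hSp x y).2 h, map_zero]
      · exact hD
      · intro w hw x
        rw [Submodule.mem_bot] at hw
        rw [hw, map_zero, LinearMap.zero_apply]
  | succ n ih =>
    intro K _ h2 _ m W X P H hn
    have hfin : Finite (Additive (SqClass K)) := inferInstanceAs (Finite (SqClass K))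
    by_cases hW : W = ⊥
    · exact ih K h2 m W X P H (by rw [hW]; simp)
    obtain ⟨a', ha', ha0⟩ := (Submodule.ne_bot_iff W).1 hW
    have ha1 : toMul a' ≠ 1 := ha0
    obtain ⟨E, _, ⟨qe⟩⟩ := exists_ext K h2 (toMul a') ha1
    have := finite_ext qe
    have H' := step qe h2 ha' H
    obtain ⟨Q, _, _, _, β, hβ, symm, cs, -, -⟩ := Codim.exists_bilin K h2
    have hSp : ∀ x y, β x y = 0 ↔ Sp K x y := fun x y => hβ (toMul x) (toMul y)
    have hlt : finrank (ZMod 2) (W.map (lin qe.res)) ≤ n := by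
      have h3 := LinearMap.finrank_range_add_finrank_ker ((lin qe.res).domRestrict W)
      rw [LinearMap.range_domRestrict] at h3
      have h4 : 0 < finrank (ZMod 2) (LinearMap.ker ((lin qe.res).domRestrict W)) := by
        rw [Module.finrank_pos_iff]
        refine ⟨⟨⟨⟨a', ha'⟩, ?_⟩, 0, ?_⟩⟩
        · rw [LinearMap.mem_ker, LinearMap.domRestrict_apply]
          exact (qe.res_one (toMul a')).2 (Or.inr rfl)
        · intro h
          apply ha0
          exact congrArg (fun t => ((t : LinearMap.ker ((lin qe.res).domRestrict W)) :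
            W).val) h
      omega
    obtain ⟨hC, hB⟩ := ih E qe.two_ne _ _ _ _ H' hlt
    constructor
    · intro d hd
      obtain ⟨z, h3, h4, h5⟩ := hC _ ⟨d, hd, rfl⟩
      refine ⟨lin qe.nm z, ?_, ?_, h5⟩
      · rw [← map_add] at h3
        exact qe.proj _ _ h3
      · intro w hw
        exact qe.proj _ _ (h4 _ ⟨w, hw, rfl⟩)
    · intro y hy
      obtain ⟨b, h3, h4, h5, h6⟩ := hB (lin qe.res y) (by
        intro h
        obtain ⟨w, h7, h8⟩ := qe.killed _ _ h
        have h7' : β m (y + ofMul w) = 0 := (hSp _ _).2 h7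
        have h8' : β (a' + m) (ofMul w) = 0 := (hSp _ _).2 h8
        rw [map_add] at h7' h8'
        rw [LinearMap.add_apply] at h8'
        have h9 : β m y = β a' (ofMul w) := by
          rw [Codim.eq_of_add_eq_zero h7', Codim.eq_of_add_eq_zero h8']
        exact hy ((hSp _ _).1 (I3v β cs hSp H ha' h9)))
      refine ⟨(b.compl₁₂ (lin qe.res) (lin qe.res)), ?_, ?_, ?_, ?_⟩
      · intro x y
        exact h3 _ _
      · intro x y hxy
        exact h4 _ _ (qe.res_split _ _ hxy)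
      · exact h5
      · intro w hw x
        exact h6 _ ⟨w, hw, rfl⟩ _

end field

end Pool.Agent.Hhelper2.Tower
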