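import Pool.Agent.Hhelper2.FieldAxioms
import Pool.Agent.Hhelper2.Graph

/-!
# Slots of a quaternion algebra which are uniquely linked
-/

namespace Pool.Agent.Hhelper2

universe u

open Finset Classical

namespace QStr

variable {S : QStr.{u}}

/-- The number of `x` such that `(a, x)` is split. -/
noncomputable def dg [Fintype S.G] (a : S.G) : ℕ := (univ.filter (S.Split a)).card

namespace Axioms

variable (h : S.Axioms)

include h

lemma mulsq (a b : S.G) : a * (a * b) = b := by rw [← mul_assoc, h.sq, one_mul]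

lemma inv (a : S.G) : a⁻¹ = a := inv_eq_of_mul_eq_one_left (h.sq a)

lemma split_one (a : S.G) : S.Split 1 a := h.symm _ _ (h.one a)

lemma mul_left {a b c : S.G} (h1 : S.Split a c) (h2 : S.Split b c) : S.Split (a * b) c :=
  h.symm _ _ (h.mul _ _ _ (h.symm _ _ h1) (h.symm _ _ h2))

/-- cancellation on the right -/
lemma cancel {a b c : S.G} (h1 : S.Split a b) (h2 : S.Split a (b * c)) : S.Split a c := by
  have := h.mul _ _ _ h1 h2
  rwa [h.mulsq] at this

/-- cancellation on the left -/
lemma cancel_left {a b c : S.G} (h1 : S.Split a c) (h2 : S.Split (a * b) c) : S.Split b c :=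
  h.symm _ _ (h.cancel (h.symm _ _ h1) (h.symm _ _ h2))

lemma lk_self (a b : S.G) : S.Lk a b a b :=
  ⟨b, by rw [h.sq]; exact h.one _, by rw [h.sq]; exact h.one _, by rw [h.sq]; exact h.split_one _⟩

omit h in
lemma lk_symm {a b c d : S.G} (hl : S.Lk a b c d) : S.Lk c d a b := by
  obtain ⟨w, h1, h2, h3⟩ := hl
  exact ⟨w, h2, h1, by rwa [mul_comm]⟩

lemma lk_move {a b c d d' : S.G} (hl : S.Lk a b c d) (hd : S.Split c (d * d')) :
    S.Lk a b c d' := by
  obtain ⟨w, h1, h2, h3⟩ := hl
  refine ⟨w, h1, ?_, h3⟩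
  have := h.mul _ _ _ hd h2
  have e : d * d' * (d * w) = d' * w := by
    rw [mul_mul_mul_comm, h.sq, one_mul]
  rwa [e] at this

lemma nonsplit_ne_one {a b : S.G} (hns : ¬ S.Split a b) : a ≠ 1 := by
  rintro rfl
  exact hns (h.split_one b)

lemma slot_ne_one {a b c d : S.G} (hns : ¬ S.Split a b) (hl : S.Lk a b c d) : c ≠ 1 :=
  h.nonsplit_ne_one (h.lk_nonsplit _ _ _ _ hns hl)

/-- `N(a)` as a subgroup. -/
def N (a : S.G) : Subgroup S.G where
  carrier := {x | S.Split a x}
  mul_mem' := h.mul _ _ _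
  one_mem' := h.one a
  inv_mem' := by
    intro x hx
    rw [h.inv]; exact hx

/-- The group of reduced norms. -/
def D {a b : S.G} (hns : ¬ S.Split a b) : Subgroup S.G where
  carrier := {n | ∃ c d, S.Lk a b c d ∧ S.Split c n}
  mul_mem' := by
    rintro n n' ⟨c, d, h1, h2⟩ ⟨c', d', h3, h4⟩
    exact h.lk_grp _ _ _ _ _ _ _ _ hns h1 h2 h3 h4
  one_mem' := ⟨a, b, h.lk_self a b, h.one a⟩
  inv_mem' := by
    intro x hx
    rw [h.inv]; exact hx

lemma isPGroup : IsPGroup 2 S.G := by
  intro g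
  exact ⟨1, by rw [pow_one, _root_.sq]; exact h.sq g⟩

section fin
variable [Fintype S.G]

lemma card_subgroup (K : Subgroup S.G) : ∃ k, Nat.card K = 2 ^ k :=
  (IsPGroup.iff_card).1 (h.isPGroup.to_subgroup K)

lemma dg_pow (a : S.G) : ∃ k, dg a = 2 ^ k := by
  obtain ⟨k, hk⟩ := h.card_subgroup (h.N a)
  refine ⟨k, ?_⟩
  rw [← hk, dg, Nat.card_eq_fintype_card, Fintype.card_subtype]
  rfl

/-- The neighbours of a slot. -/
lemma card_nb {a b c d : S.G} (hns : ¬ S.Split a b) (hl : S.Lk a b c d) :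
    (univ.filter (S.Lk a b c)).card = dg c := by
  symm
  refine Finset.card_bij (fun n _ => d * n) ?_ ?_ ?_
  · intro n hn
    simp only [mem_filter, mem_univ, true_and] at hn ⊢
    exact h.lk_move hl (by rw [h.mulsq]; exact hn)
  · intro n _ n' _ he
    exact mul_left_cancel he
  · intro e he
    simp only [mem_filter, mem_univ, true_and] at he
    refine ⟨d * e, ?_, h.mulsq _ _⟩
    simp only [mem_filter, mem_univ, true_and]
    exact h.lk_eq _ _ _ _ _ hns hl he

end fin

end Axioms

/-- The type of slots of the quaternion algebra `(a, b)`. -/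
abbrev Slot (S : QStr.{u}) (a b : S.G) : Type u := {c : S.G // ∃ d, S.Lk a b c d}

/-- adjacency of slots -/
abbrev adj {a b : S.G} (x y : S.Slot a b) : Prop := S.Lk a b x y

namespace Axioms

variable (h : S.Axioms)
include h

lemma adj_symm {a b : S.G} (hns : ¬ S.Split a b) (x y : S.Slot a b) (hxy : adj x y) : adj y x :=
  h.lk_swap _ _ _ _ hns hxy

lemma adj_common {a b : S.G} (hns : ¬ S.Split a b) (x y : S.Slot a b) (hxy : x ≠ y) :
    ∃ z : S.Slot a b, adj x z ∧ adj y z := by
  obtain ⟨d, hd⟩ := x.2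
  obtain ⟨d', hd'⟩ := y.2
  obtain ⟨w, h1, h2⟩ := h.lk_common _ _ _ _ _ _ hns hd hd' (fun he => hxy (Subtype.ext he))
  exact ⟨⟨w, x, h.lk_swap _ _ _ _ hns h1⟩, h1, h2⟩

section fin
variable [Fintype S.G]

lemma deg_eq_dg {a b : S.G} (hns : ¬ S.Split a b) (x : S.Slot a b) :
    Graph.deg (adj (S := S) (a := a) (b := b)) x = dg x.1 := by
  obtain ⟨d, hd⟩ := x.2
  rw [← h.card_nb hns hd, Graph.deg]
  refine Finset.card_bij (fun y _ => y.1) ?_ ?_ ?_
  · intro y hy
    simpa using hy
  · intro y _ y' _ he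
    exact Subtype.ext he
  · intro e he
    simp only [mem_filter, mem_univ, true_and] at he
    exact ⟨⟨e, x, h.lk_swap _ _ _ _ hns he⟩, by simpa using he, rfl⟩

/-- Uniquely linked slots: at most one of them has degree at least three. -/
theorem unique_slots {a b : S.G} (hns : ¬ S.Split a b)
    (huniq : ∀ c c' z z', c ≠ c' → S.Lk a b c z → S.Lk a b c' z → S.Lk a b c z' →
      S.Lk a b c' z' → z = z')
    (x : S.Slot a b) (hx : 3 ≤ dg x.1) (y : S.Slot a b) (hyx : y ≠ x) :
    adj x y ∧ dg y.1 ≤ 2 ∧ (adj x x → dg y.1 ≤ 1) := by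
  have hs := h.adj_symm hns
  have hex := h.adj_common hns
  have hu : ∀ x y : S.Slot a b, x ≠ y → ∀ z z' : S.Slot a b, adj x z → adj y z → adj x z' →
      adj y z' → z = z' := by
    intro x y hxy z z' h1 h2 h3 h4
    exact Subtype.ext (huniq _ _ _ _ (fun he => hxy (Subtype.ext he)) h1 h2 h3 h4)
  by_cases hall : ∀ z, z ≠ x → adj x z
  · refine ⟨hall y hyx, ?_, ?_⟩
    · rw [← h.deg_eq_dg hns]
      exact Graph.deg_le_two _ hu x hall y hyx
    · intro hxx
      rw [← h.deg_eq_dg hns]
      exact Graph.deg_le_one _ hs hu x hall hxx y hyx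
  · exfalso
    push Not at hall
    obtain ⟨z, hzx, hz⟩ := hall
    have hx' : 3 ≤ Graph.deg (adj (S := S) (a := a) (b := b)) x := by rwa [h.deg_eq_dg hns]
    have hreg := Graph.regular_of_not _ hs hex hu x hx' z hzx hz
    set d := dg x.1 with hd
    have hreg' : ∀ w : S.Slot a b, dg w.1 = d := by
      intro w
      rw [← h.deg_eq_dg hns, hreg, h.deg_eq_dg hns]
    -- number of slots
    have hcard : Fintype.card (S.Slot a b) = 1 + d * (d - 1) := by
      rw [Graph.card_eq _ hs hex hu x]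
      congr 1
      rw [Finset.sum_congr rfl (fun w _ => by rw [hreg w, h.deg_eq_dg hns]), Finset.sum_const,
        smul_eq_mul]
      congr 1
      exact h.deg_eq_dg hns x
    -- the group of norms
    have hD : Nat.card (h.D hns) = 1 + (1 + d * (d - 1)) * (d - 1) := by
      have e1 : Nat.card (h.D hns) = (univ.filter (fun n => n ∈ h.D hns)).card := by
        rw [Nat.card_eq_fintype_card, Fintype.card_subtype]
      have e2 : (univ.filter (fun n => n ∈ h.D hns)) = insert 1
          ((univ : Finset (S.Slot a b)).biUnion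
            fun c => (univ.filter (S.Split c.1)).erase 1) := by
        ext n
        simp only [mem_filter, mem_univ, true_and, mem_insert, mem_biUnion, mem_erase]
        constructor
        · rintro ⟨c, e, h1, h2⟩
          by_cases hn : n = 1
          · exact Or.inl hn
          · exact Or.inr ⟨⟨c, e, h1⟩, hn, h2⟩
        · rintro (rfl | ⟨⟨c, e, h1⟩, _, h2⟩)
          · exact (h.D hns).one_mem
          · exact ⟨c, e, h1, h2⟩
      rw [e1, e2, card_insert_of_notMem (by simp), card_biUnion, add_comm]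
      · congr 1
        rw [Finset.sum_congr rfl (fun w _ => by
          rw [card_erase_of_mem (by simp [h.one])]), ← hcard]
        rw [Finset.sum_congr rfl (fun (w : S.Slot a b) _ => by
          rw [show (univ.filter (S.Split w.1)).card = dg w.1 from rfl, hreg' w]),
          Finset.sum_const, smul_eq_mul]
        rfl
      · intro c _ c' _ hne
        rw [Function.onFun, disjoint_left]
        intro n hn hn'
        simp only [mem_erase, mem_filter, mem_univ, true_and] at hn hn'
        obtain ⟨w, hw1, hw2⟩ := hex c c' hne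
        apply hn.1
        have hw1' : S.Lk a b c (w.1 * n) := h.lk_move hw1 (by rw [h.mulsq]; exact hn.2)
        have hw2' : S.Lk a b c' (w.1 * n) := h.lk_move hw2 (by rw [h.mulsq]; exact hn'.2)
        have := huniq _ _ _ _ (fun he => hne (Subtype.ext he)) hw1 hw2 hw1' hw2'
        rw [eq_comm, mul_eq_left] at this
        exact this
    obtain ⟨m, hm⟩ := h.card_subgroup (h.D hns)
    obtain ⟨k, hk⟩ := h.dg_pow x.1
    rw [← hd] at hk
    -- `d` is divisible by four
    have hk2 : 2 ≤ k := by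
      by_contra hlt
      have : k = 0 ∨ k = 1 := by omega
      rcases this with rfl | rfl
      · rw [hk] at hx; norm_num at hx
      · rw [hk] at hx; norm_num at hx
    obtain ⟨e, he⟩ : ∃ e, d = 4 * (e + 1) := by
      obtain ⟨j, rfl⟩ := Nat.exists_eq_add_of_le hk2
      have hj : 0 < 2 ^ j := by positivity
      exact ⟨2 ^ j - 1, by rw [hk, pow_add]; omega⟩
    have heq : 2 ^ m = 8 * (e + 1) * (8 * (e + 1) ^ 2 - 4 * (e + 1) + 1) := by
      rw [← hm, hD, he]
      have h1 : 4 * (e + 1) - 1 = 4 * e + 3 := by omega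
      have h2 : 8 * (e + 1) ^ 2 - 4 * (e + 1) = 8 * e ^ 2 + 12 * e + 4 := by
        have : 8 * (e + 1) ^ 2 = 8 * e ^ 2 + 12 * e + 4 + 4 * (e + 1) := by ring
        omega
      rw [h1, h2]; ring
    have hodd : (8 * (e + 1) ^ 2 - 4 * (e + 1) + 1) ∣ 2 ^ m := ⟨8 * (e + 1), by rw [heq]; ring⟩
    obtain ⟨j, _, hj⟩ := (Nat.dvd_prime_pow Nat.prime_two).1 hodd
    have h2 : 8 * (e + 1) ^ 2 - 4 * (e + 1) = 8 * e ^ 2 + 12 * e + 4 := by
      have : 8 * (e + 1) ^ 2 = 8 * e ^ 2 + 12 * e + 4 + 4 * (e + 1) := by ring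
      omega
    rw [h2] at hj
    rcases Nat.eq_zero_or_pos j with rfl | hjpos
    · norm_num at hj
    · obtain ⟨i, rfl⟩ := Nat.exists_eq_succ_of_ne_zero (Nat.pos_iff_ne_zero.1 hjpos)
      have h3 : 2 ^ (i + 1) = 2 * 2 ^ i := by ring
      rw [Nat.succ_eq_add_one, h3] at hj
      omega

end fin

end Axioms

end QStr

end Pool.Agent.Hhelper2
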