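import Pool.Agent.Hhelper2.FieldAxioms
import Pool.Agent.Hhelper2.BasicPart
import Pool.Agent.Hhelper2.ExtTower
import Pool.Agent.Hhelper2.Elem

/-!
# Fields whose quaternion algebras are uniquely linked
-/

namespace Pool.Agent.Hhelper2.QStr

universe u

open Finset Classical

variable {S : QStr.{u}}

/-- Structures in which two distinct slots of a division algebra are linked by a unique third
slot are of elementary type. -/
theorem Axioms.isElementary_of_unique (h : S.Axioms) [Fintype S.G]
    (hu : ∀ a c x y : S.G, a ≠ c → ¬ S.Split a x → S.Split (a * c) x → S.Split a (x * y) →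
      S.Split c (x * y) → x = y) : IsElementary S := by
  -- slots of all nonsplit algebras are uniquely linked
  have huniq : ∀ a b, ¬ S.Split a b → ∀ c c' z z', c ≠ c' → S.Lk a b c z → S.Lk a b c' z →
      S.Lk a b c z' → S.Lk a b c' z' → z = z' := by
    intro a b hns c c' z z' hcc h1 h2 h3 h4
    apply hu c c' z z' hcc (h.lk_nonsplit _ _ _ _ hns h1) ?_ (h.lk_eq _ _ _ _ _ hns h1 h3)
      (h.lk_eq _ _ _ _ _ hns h2 h4)
    exact h.symm _ _
      (h.lk_eq _ _ _ _ _ hns (h.lk_swap _ _ _ _ hns h1) (h.lk_swap _ _ _ _ hns h2))
  -- two elements of large degree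
  have hbig : ∀ a c, 3 ≤ dg a → 3 ≤ dg c → S.Split a c := by
    intro a c ha hc
    by_contra hns
    by_cases hac : a = c
    · subst hac
      have hself : S.Lk a a a a := h.lk_self a a
      -- all neighbours different from `a` are equal to `-1`
      have hall : ∀ n, S.Split a n → n = 1 ∨ n = S.neg * a := by
        intro n hn
        by_cases hn1 : n = 1
        · exact Or.inl hn1
        right
        have hl : S.Lk a a a (a * n) := h.lk_move hself (by rw [h.mulsq]; exact hn)
        have hl' : S.Lk a a (a * n) a := h.lk_swap _ _ _ _ hns hl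
        have hne : (⟨a * n, a, hl'⟩ : S.Slot a a) ≠ ⟨a, a, hself⟩ := by
          intro he
          have := congrArg Subtype.val he
          exact hn1 (by simpa using this)
        have h1 := (h.unique_slots hns (huniq a a hns) ⟨a, a, hself⟩ ha ⟨a * n, a, hl'⟩ hne).2.2
          hself
        have h2 : a * n = S.neg := by
          by_contra hcon
          have := h.two_le_dg hcon
          exact absurd h1 (by show ¬ dg (a * n) ≤ 1; omega)
        rw [← h2, mul_comm a n, mul_assoc, h.sq, mul_one]
      have : univ.filter (S.Split a) ⊆ {1, S.neg * a} := by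
        intro x hx
        simp only [mem_filter, mem_univ, true_and] at hx
        simpa using hall x hx
      have h3 := (card_le_card this).trans card_le_two
      exact absurd ha (by show ¬ 3 ≤ (univ.filter (S.Split a)).card; omega)
    · have := h.unique_slots hns (huniq a c hns) ⟨a, c, h.lk_self a c⟩ ha
        ⟨c, a, h.lk_swap _ _ _ _ hns (h.lk_self a c)⟩ (fun he => hac (congrArg Subtype.val he).symm)
      exact absurd this.2.1 (by show ¬ dg c ≤ 2; omega)
  by_cases hcase : ∃ a, a ≠ 1 ∧ a ≠ S.neg ∧ 3 ≤ dg a
  · obtain ⟨a, ha1, han, ha3⟩ := hcase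
    have haa : S.Split a a := hbig a a ha3 ha3
    have hneg : S.Split a S.neg := by
      have := h.mul _ _ _ haa (h.neg a)
      rwa [mul_left_comm, h.sq, mul_one] at this
    have hrig : ∀ t ∉ h.N a, ∀ x, S.Split t x ↔ x = 1 ∨ x = S.neg * t := by
      intro t ht x
      have ht' : ¬ S.Split a t := ht
      have htn : t ≠ S.neg := by
        rintro rfl
        exact ht' hneg
      have htd : dg t ≤ 2 := by
        by_contra hcon
        exact ht' (hbig a t ha3 (by omega))
      exact h.rigid_of_dg htn htd x
    -- all elements of `N(a)` have the same value group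
    have hN : ∀ x, S.Split a x → x ≠ 1 → ∀ y, S.Split a y → S.Split x y := by
      intro x hx hx1 y hy
      by_cases hxa : x = a
      · rw [hxa]; exact hy
      by_contra hcon
      have e : x * (a * x) = a := by rw [mul_left_comm, h.sq, mul_one]
      have hyy : y = y * a := by
        refine hu x (a * x) y (y * a) ?_ hcon (by rw [e]; exact hy) ?_ ?_
        · intro he
          exact ha1 (by rwa [eq_comm, mul_eq_right] at he)
        · rw [h.mulsq]; exact h.symm _ _ hx
        · rw [h.mulsq]
          exact h.symm _ _ (h.mul _ _ _ haa hx)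
      exact ha1 (by rwa [eq_comm, mul_eq_left] at hyy)
    obtain ⟨m, hm⟩ := exists_extPow (Nat.card S.G) S inferInstance rfl h.sq h.symm h.one
      (h.N a) hneg hrig
    refine isElementary_of_iso _ S (isElementary_extPow _ ?_ m) hm
    refine isElementary_totallySplit _ _ (inferInstanceAs (Finite (h.N a))) rfl
      (fun x => Subtype.ext (h.sq x.1)) ?_
    intro x y
    show S.Split x.1 y.1
    by_cases hx1 : x.1 = 1
    · rw [hx1]; exact h.split_one _
    · exact hN x.1 x.2 hx1 y.1 y.2
  · push Not at hcase
    let H : Subgroup S.G :=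
      { carrier := {x | x = 1 ∨ x = S.neg}
        mul_mem' := by
          rintro x y (rfl | rfl) (rfl | rfl)
          · left; rw [one_mul]
          · right; rw [one_mul]
          · right; rw [mul_one]
          · left; exact h.sq _
        one_mem' := Or.inl rfl
        inv_mem' := by
          intro x hx
          rw [h.inv]; exact hx }
    have hnH : S.neg ∈ H := Or.inr rfl
    have hrig : ∀ t ∉ H, ∀ x, S.Split t x ↔ x = 1 ∨ x = S.neg * t := by
      intro t ht x
      have ht1 : t ≠ 1 := fun he => ht (Or.inl he)
      have htn : t ≠ S.neg := fun he => ht (Or.inr he)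
      have := hcase t ht1 htn
      exact h.rigid_of_dg htn (by omega) x
    obtain ⟨m, hm⟩ := exists_extPow (Nat.card S.G) S inferInstance rfl h.sq h.symm h.one
      H hnH hrig
    refine isElementary_of_iso _ S (isElementary_extPow _ ?_ m) hm
    refine isElementary_of_two _ ?_ (Subtype.ext (h.sq _)) (fun x => h.split_one _)
      (fun x => h.one _)
    rintro ⟨x, hx | hx⟩
    · exact Or.inl (Subtype.ext hx)
    · exact Or.inr (Subtype.ext hx)

end Pool.Agent.Hhelper2.QStr

namespace Pool.Agent.Hhelper2.UniquelyLinkedOld

open Pool.Agent.Hhelper2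

universe u

theorem result (F : Type u) [Field F] (h2 : (2 : F) ≠ 0) [Finite (SqClass F)]
    (hu : ∀ a c x y : SqClass F, a ≠ c → ¬ FieldSplit F a x → FieldSplit F (a * c) x →
      FieldSplit F a (x * y) → FieldSplit F c (x * y) → x = y) :
    IsElementary (QStr.ofField F) := by
  have h : (QStr.ofField F).Axioms := QStr.ofField_axioms F h2
  have : Finite (QStr.ofField F).G := inferInstanceAs (Finite (SqClass F))
  have : Fintype (QStr.ofField F).G := Fintype.ofFinite _
  exact h.isElementary_of_unique hu

end Pool.Agent.Hhelper2.UniquelyLinkedOld
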