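import Pool.Agent.Hhelper2.LocalMain

/-!
# The universal symbol of a field with finitely many square classes
-/

namespace Pool.Agent.Hhelper2.Codim

open Module Submodule TensorProduct

universe u

/-- The universal bilinear symbol: every bilinear form which vanishes on the split pairs factors
through it. -/
theorem exists_univ (F : Type u) [Field F] (h2 : (2 : F) ≠ 0) [Finite (SqClass F)] :
    ∃ (Q : Type u) (_ : AddCommGroup Q) (_ : Module (ZMod 2) Q) (_ : Finite Q)
      (β : Additive (SqClass F) →ₗ[ZMod 2] Additive (SqClass F) →ₗ[ZMod 2] Q),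
      (∀ a b : SqClass F, β (Additive.ofMul a) (Additive.ofMul b) = 0 ↔ FieldSplit F a b) ∧
      (∀ x y, β x y = β y x) ∧
      (∀ a b c d, β a b = β c d → ∃ w, β a w = β a b ∧ β c w = β a b) ∧
      span (ZMod 2) {q | ∃ a b, β a b = q} = ⊤ ∧
      ∀ b : Additive (SqClass F) →ₗ[ZMod 2] Additive (SqClass F) →ₗ[ZMod 2] ZMod 2,
        (∀ x y, β x y = 0 → b x y = 0) → ∃ B : Dual (ZMod 2) Q, ∀ x y, B (β x y) = b x y := by
  have hfin : Finite (Additive (SqClass F)) := inferInstanceAs (Finite (SqClass F))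
  obtain ⟨Q, _, _, _, β, hβ0, hsymm, hcs, hlk, hspan⟩ := exists_bilin F h2
  set V := Additive (SqClass F) with hV
  let K : Submodule (ZMod 2) (V ⊗[ZMod 2] V) := span (ZMod 2) {t | ∃ x y, β x y = 0 ∧
    t = x ⊗ₜ[ZMod 2] y}
  let γ : V →ₗ[ZMod 2] V →ₗ[ZMod 2] ((V ⊗[ZMod 2] V) ⧸ K) :=
    LinearMap.compr₂ (TensorProduct.mk (ZMod 2) V V) K.mkQ
  have hγ : ∀ x y, γ x y = K.mkQ (x ⊗ₜ[ZMod 2] y) := fun x y => rfl
  have hlift : ∀ {P : Type u} [AddCommGroup P] [Module (ZMod 2) P]
      (b : V →ₗ[ZMod 2] V →ₗ[ZMod 2] P), (∀ x y, β x y = 0 → b x y = 0) →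
      ∃ B : ((V ⊗[ZMod 2] V) ⧸ K) →ₗ[ZMod 2] P, ∀ x y, B (γ x y) = b x y := by
    intro P _ _ b hb
    refine ⟨K.liftQ (TensorProduct.lift b) ?_, ?_⟩
    · apply span_le.2
      rintro _ ⟨x, y, hxy, rfl⟩
      rw [SetLike.mem_coe, LinearMap.mem_ker, TensorProduct.lift.tmul]
      exact hb x y hxy
    · intro x y
      rw [hγ]
      rw [Submodule.mkQ_apply, Submodule.liftQ_apply, TensorProduct.lift.tmul]
  obtain ⟨φ, hφ⟩ := hlift β (fun _ _ h => h)
  have hzero : ∀ x y, γ x y = 0 ↔ β x y = 0 := by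
    intro x y
    constructor
    · intro h
      rw [← hφ, h, map_zero]
    · intro h
      rw [hγ, Submodule.mkQ_apply, Submodule.Quotient.mk_eq_zero]
      exact subset_span ⟨x, y, h, rfl⟩
  have heq : ∀ x y x' y', γ x y = γ x' y' ↔ β x y = β x' y' := by
    intro x y x' y'
    constructor
    · intro h
      rw [← hφ, h, hφ]
    · intro h
      obtain ⟨w, h1, h3⟩ := hcs _ _ _ _ h
      have e1 : γ x (y + w) = 0 := by rw [hzero, map_add, h1, add_self]
      have e2 : γ (x + x') w = 0 := by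
        rw [hzero, map_add, LinearMap.add_apply, h1, h3, add_self]
      have e3 : γ x' (w + y') = 0 := by rw [hzero, map_add, h3, ← h, add_self]
      rw [map_add] at e1 e2 e3
      rw [LinearMap.add_apply] at e2
      rw [eq_of_add_eq_zero e1, eq_of_add_eq_zero e2, eq_of_add_eq_zero e3]
  have hVfd : FiniteDimensional (ZMod 2) V := Module.Finite.of_finite
  have hfd : FiniteDimensional (ZMod 2) (V ⊗[ZMod 2] V) := inferInstance
  have hfinT : Finite (V ⊗[ZMod 2] V) := Module.finite_of_finite (ZMod 2)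
  refine ⟨(V ⊗[ZMod 2] V) ⧸ K, inferInstance, inferInstance, ?_, γ, ?_, ?_, ?_, ?_, ?_⟩
  · exact Finite.of_surjective _ (Submodule.mkQ_surjective K)
  · intro a b
    rw [hzero]
    exact hβ0 a b
  · intro x y
    rw [heq]
    exact hsymm x y
  · intro a b c d h
    rw [heq] at h
    obtain ⟨w, h1, h3⟩ := hcs _ _ _ _ h
    exact ⟨w, (heq _ _ _ _).2 h1, (heq _ _ _ _).2 h3⟩
  · rw [eq_top_iff]
    intro t _
    obtain ⟨s, rfl⟩ := Submodule.mkQ_surjective K t
    induction s using TensorProduct.induction_on with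
    | zero => rw [map_zero]; exact Submodule.zero_mem _
    | tmul x y => exact subset_span ⟨x, y, rfl⟩
    | add s t hs ht =>
      rw [map_add]
      exact Submodule.add_mem _ (hs trivial) (ht trivial)
  · intro b hb
    have hlift' : ∃ B : ((V ⊗[ZMod 2] V) ⧸ K) →ₗ[ZMod 2] ZMod 2, ∀ x y, B (γ x y) = b x y := by
      refine ⟨K.liftQ (TensorProduct.lift b) ?_, ?_⟩
      · apply span_le.2
        rintro _ ⟨x, y, hxy, rfl⟩
        rw [SetLike.mem_coe, LinearMap.mem_ker, TensorProduct.lift.tmul]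
        exact hb x y ((hzero x y).2 hxy)
      · intro x y
        rw [hγ]
        rw [Submodule.mkQ_apply, Submodule.liftQ_apply, TensorProduct.lift.tmul]
    exact hlift'

end Pool.Agent.Hhelper2.Codim
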