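import Pool.Agent.Hhelper2.WittRel

/-!
# The elements of the Witt ring are the Witt classes of quadratic forms

This file justifies the definition of `WittRing F`: for a field `F` of characteristic not two every
nondegenerate quadratic form is isometric to a diagonal form, every element of `WittRing F` is the
class of a diagonal form, two diagonal forms have the same class if and only if they are Witt
equivalent, and sum and product are induced by orthogonal sum and tensor product.
-/

namespace Pool.Agent.Hhelper2.Witt

open QuadraticMap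

universe u v w

variable {F : Type u} [Field F]

/-- Every nondegenerate quadratic form over a field of characteristic not two is isometric to a
diagonal form. -/
theorem exists_diag (h2 : (2 : F) ≠ 0) {V : Type v} [AddCommGroup V] [Module F V]
    [FiniteDimensional F V] (Q : QuadraticForm F V)
    (hQ : ∀ x, (∀ y, polar Q x y = 0) → x = 0) : ∃ a : List Fˣ, Q.Equivalent (diag a) := by
  have : Invertible (2 : F) := invertibleOfNonzero h2
  have h : (associated (R := F) Q).SeparatingLeft := by
    intro x hx
    apply hQ
    intro y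
    have := hx y
    rw [associated_apply] at this
    have h4 := congrArg (fun t => (2 : Module.End F F) • t) this
    simp only [smul_smul, mul_invOf_self, one_smul, smul_zero] at h4
    exact h4
  obtain ⟨w, hw⟩ := QuadraticForm.equivalent_weightedSumSquares_units_of_nondegenerate' Q h
  refine ⟨List.ofFn w, hw.trans ?_⟩
  have e : (List.ofFn w).length = Module.finrank F V := List.length_ofFn
  refine ⟨{ LinearEquiv.funCongrLeft F F (finCongr e) with map_app' := ?_ }⟩
  intro m
  show diag (List.ofFn w) (fun i => m (finCongr e i)) = _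
  unfold diag
  rw [QuadraticMap.weightedSumSquares_apply, QuadraticMap.weightedSumSquares_apply]
  refine Fintype.sum_equiv (finCongr e) _ _ ?_
  intro i
  rw [List.get_ofFn]
  rfl

/-! ### Isometry of diagonal forms -/

/-- Isometry of diagonal forms. -/
def Isomt (a b : List Fˣ) : Prop := (diag a).Equivalent (diag b)

lemma Isomt.refl (a : List Fˣ) : Isomt a a := QuadraticMap.Equivalent.refl _

lemma Isomt.symm {a b : List Fˣ} (h : Isomt a b) : Isomt b a := QuadraticMap.Equivalent.symm h

lemma Isomt.trans {a b c : List Fˣ} (h : Isomt a b) (h' : Isomt b c) : Isomt a c :=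
  QuadraticMap.Equivalent.trans h h'

lemma Isomt.cons (x : Fˣ) {a b : List Fˣ} (h : Isomt a b) : Isomt (x :: a) (x :: b) :=
  (diag_cons x a).trans ((pform_congr _ h).trans (diag_cons x b).symm)

lemma Isomt.of_perm {a b : List Fˣ} (h : a.Perm b) : Isomt a b := by
  induction h with
  | nil => exact Isomt.refl _
  | cons x _ ih => exact ih.cons x
  | swap x y l => exact (Eqv.swap y x l).1
  | trans _ _ ih1 ih2 => exact ih1.trans ih2

lemma Isomt.append_left (c : List Fˣ) {a b : List Fˣ} (h : Isomt a b) :
    Isomt (c ++ a) (c ++ b) := by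
  induction c with
  | nil => exact h
  | cons x c ih => exact ih.cons x

lemma Isomt.append_right (c : List Fˣ) {a b : List Fˣ} (h : Isomt a b) :
    Isomt (a ++ c) (b ++ c) :=
  (Isomt.of_perm List.perm_append_comm).trans ((h.append_left c).trans
    (Isomt.of_perm List.perm_append_comm))

lemma Isomt.append {a b a' b' : List Fˣ} (h : Isomt a b) (h' : Isomt a' b') :
    Isomt (a ++ a') (b ++ b') :=
  (h.append_right a').trans (h'.append_left b)

lemma hyp_add (m n : ℕ) : (hyp F m ++ hyp F n).Perm (hyp F (m + n)) := by
  have := List.Perm.append_left (List.replicate m (1 : Fˣ)) (List.Perm.append_right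
    (List.replicate n (-1 : Fˣ)) (List.perm_append_comm (l₁ := List.replicate m (-1 : Fˣ))
      (l₂ := List.replicate n (1 : Fˣ))))
  simp only [hyp, List.replicate_add, List.append_assoc] at this ⊢
  exact this

lemma WittEquiv.of_isomt {a b : List Fˣ} (h : Isomt a b) : WittEquiv a b :=
  ⟨0, 0, h.append_right _⟩

lemma WittEquiv.refl (a : List Fˣ) : WittEquiv a a := .of_isomt (.refl a)

lemma WittEquiv.symm {a b : List Fˣ} (h : WittEquiv a b) : WittEquiv b a := by
  obtain ⟨m, n, h⟩ := h
  exact ⟨n, m, h.symm⟩

lemma perm_aux (a b c : List Fˣ) : (a ++ b ++ c).Perm (a ++ c ++ b) := by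
  rw [List.append_assoc, List.append_assoc]
  exact List.Perm.append_left a List.perm_append_comm

lemma WittEquiv.trans {a b c : List Fˣ} (h : WittEquiv a b) (h' : WittEquiv b c) :
    WittEquiv a c := by
  obtain ⟨m, n, h⟩ := h
  obtain ⟨m', n', h'⟩ := h'
  refine ⟨m + m', n + n', ?_⟩
  have h1 : Isomt (a ++ hyp F m ++ hyp F m') (b ++ hyp F n ++ hyp F m') :=
    Isomt.append_right _ h
  have h2 : Isomt (b ++ hyp F m' ++ hyp F n) (c ++ hyp F n' ++ hyp F n) :=
    Isomt.append_right _ h'
  have h3 : Isomt (a ++ hyp F (m + m')) (a ++ hyp F m ++ hyp F m') := by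
    rw [List.append_assoc]
    exact Isomt.of_perm ((hyp_add m m').symm.append_left a)
  have h4 : Isomt (c ++ hyp F n' ++ hyp F n) (c ++ hyp F (n + n')) := by
    rw [List.append_assoc, Nat.add_comm n n']
    exact Isomt.of_perm ((hyp_add n' n).append_left c)
  exact h3.trans (h1.trans ((Isomt.of_perm (perm_aux _ _ _)).trans (h2.trans h4)))

lemma WittEquiv.append {a b a' b' : List Fˣ} (h : WittEquiv a b) (h' : WittEquiv a' b') :
    WittEquiv (a ++ a') (b ++ b') := by
  obtain ⟨m, n, h⟩ := h
  obtain ⟨m', n', h'⟩ := h'
  refine ⟨m + m', n + n', ?_⟩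
  have key : ∀ (a a' : List Fˣ) (m m' : ℕ), Isomt ((a ++ a') ++ hyp F (m + m'))
      ((a ++ hyp F m) ++ (a' ++ hyp F m')) := by
    intro a a' m m'
    apply Isomt.of_perm
    have h1 := (hyp_add (F := F) m m').symm.append_left (a ++ a')
    refine h1.trans ?_
    have h2 := List.Perm.append_left a (List.Perm.append_right (hyp F m')
      (List.perm_append_comm (l₁ := a') (l₂ := hyp F m)))
    simpa [List.append_assoc] using h2
  exact (key a a' m m').trans ((Isomt.append h h').trans (key b b' n n').symm)

/-! ### Scaling -/

/-- The scaled form `x a`. -/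
def scale (x : Fˣ) (a : List Fˣ) : List Fˣ := a.map fun y => x * y

lemma smul_congr {V : Type v} {W : Type w} [AddCommGroup V] [Module F V] [AddCommGroup W]
    [Module F W] (x : F) {Q : QuadraticForm F V} {R : QuadraticForm F W} (h : Q.Equivalent R) :
    (x • Q).Equivalent (x • R) := by
  obtain ⟨f⟩ := h
  refine ⟨{ f.toLinearEquiv with map_app' := ?_ }⟩
  intro m
  show x • R (f m) = x • Q m
  rw [f.map_app]

lemma diag_scale (x : Fˣ) (a : List Fˣ) : (diag (scale x a)).Equivalent ((x : F) • diag a) := by
  induction a with
  | nil =>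
    refine ⟨{ LinearEquiv.refl F _ with map_app' := ?_ }⟩
    intro m
    show (x : F) • diag ([] : List Fˣ) m = diag ([] : List Fˣ) m
    rw [diag_nil, smul_zero]
  | cons y a ih =>
    refine (diag_cons (x * y) (scale x a)).trans ((pform_congr _ ih).trans ?_)
    refine QuadraticMap.Equivalent.trans ?_ (smul_congr (x : F) (diag_cons y a)).symm
    refine ⟨{ LinearEquiv.refl F _ with map_app' := ?_ }⟩
    intro m
    show (x : F) • pform (y : F) (diag a) m = pform ((x * y : Fˣ) : F) ((x : F) • diag a) m
    rw [pform_apply, pform_apply]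
    simp only [smul_eq_mul, Units.val_mul, _root_.smul_apply]
    ring

lemma Isomt.scale (x : Fˣ) {a b : List Fˣ} (h : Isomt a b) : Isomt (scale x a) (scale x b) :=
  (diag_scale x a).trans ((smul_congr _ h).trans (diag_scale x b).symm)

lemma hyp_plane (h2 : (2 : F) ≠ 0) (x : Fˣ) (a : List Fˣ) :
    Isomt (x :: -x :: a) (1 :: -1 :: a) := by
  have hx := x.ne_zero
  have h1 := (Eqv.bin x (-x) 1 ((1 + (x : F)⁻¹) / 2) ((1 - (x : F)⁻¹) / 2) (by
    push_cast
    field_simp
    ring) a).1
  have e : (x * -x * 1 : Fˣ) = (-1) * x * x := by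
    apply Units.ext; push_cast; ring
  rw [e] at h1
  have h3 : Isomt ((-1) * x * x :: a) (-1 :: a) := (QuadraticMap.Equivalent.symm (Eqv.sq (-1) x a).1)
  exact Isomt.trans h1 (h3.cons 1)

lemma add_neg_hyp (h2 : (2 : F) ≠ 0) (a : List Fˣ) :
    Isomt (a ++ scale (-1) a) (hyp F a.length) := by
  induction a with
  | nil => exact Isomt.refl _
  | cons x a ih =>
    have h1 : Isomt ((x :: a) ++ scale (-1) (x :: a)) (x :: -x :: (a ++ scale (-1) a)) := by
      apply Isomt.of_perm
      show (x :: (a ++ ((-1) * x :: scale (-1) a))).Perm _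
      rw [neg_one_mul]
      exact List.Perm.cons x List.perm_middle
    have h3 : Isomt (1 :: -1 :: hyp F a.length) (hyp F (x :: a).length) := by
      apply Isomt.of_perm
      have := hyp_add (F := F) 1 a.length
      rw [Nat.add_comm] at this
      exact this
    exact h1.trans ((hyp_plane h2 x _).trans (((ih.cons (-1)).cons 1).trans h3))

lemma hyp_equiv_nil (m : ℕ) : WittEquiv (hyp F m) [] := ⟨0, m, by
  show Isomt _ _
  have : hyp F m ++ hyp F 0 = [] ++ hyp F m := by
    show hyp F m ++ [] = hyp F m
    rw [List.append_nil]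
  rw [this]; exact Isomt.refl _⟩

lemma WittEquiv.scale (h2 : (2 : F) ≠ 0) (x : Fˣ) {a b : List Fˣ} (h : WittEquiv a b) :
    WittEquiv (scale x a) (scale x b) := by
  obtain ⟨m, n, h⟩ := h
  have key : ∀ m, WittEquiv (Witt.scale x (hyp F m)) [] := by
    intro m
    induction m with
    | zero => exact .refl _
    | succ m ih =>
      have h1 : Isomt (Witt.scale x (hyp F (m + 1))) (x :: -x :: Witt.scale x (hyp F m)) := by
        have h3 : Isomt (hyp F (m + 1)) (1 :: -1 :: hyp F m) := by
          apply Isomt.of_perm
          have := (hyp_add (F := F) 1 m).symm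
          rw [Nat.add_comm] at this
          exact this
        have h4 := h3.scale x
        have h5 : Witt.scale x (1 :: -1 :: hyp F m) = x :: -x :: Witt.scale x (hyp F m) := by
          simp [Witt.scale]
        rwa [h5] at h4
      refine (WittEquiv.of_isomt (h1.trans (hyp_plane h2 x _))).trans ?_
      have h6 : WittEquiv (hyp F 1 ++ Witt.scale x (hyp F m)) ([] ++ []) :=
        (hyp_equiv_nil 1).append ih
      exact h6
  have h1 : Isomt (Witt.scale x (a ++ hyp F m)) (Witt.scale x (b ++ hyp F n)) := Isomt.scale x h
  have h3 : ∀ (c : List Fˣ) (k : ℕ), WittEquiv (Witt.scale x (c ++ hyp F k)) (Witt.scale x c) := by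
    intro c k
    have e : Witt.scale x (c ++ hyp F k) = Witt.scale x c ++ Witt.scale x (hyp F k) := by
      simp [Witt.scale]
    rw [e]
    have := (WittEquiv.refl (Witt.scale x c)).append (key k)
    rwa [List.append_nil] at this
  exact (h3 a m).symm.trans ((WittEquiv.of_isomt h1).trans (h3 b n))

/-! ### The Witt ideal -/

lemma formal_scale (x : Fˣ) (a : List Fˣ) :
    formal (scale x a) = MonoidAlgebra.of ℤ Fˣ x * formal a := by
  induction a with
  | nil => simp [scale, formal]
  | cons y a ih =>
    show formal ((x * y) :: scale x a) = _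
    rw [formal_cons, formal_cons, ih, map_mul]; ring

lemma mem_wittIdeal (h2 : (2 : F) ≠ 0) (x : MonoidAlgebra ℤ Fˣ) :
    x ∈ wittIdeal F ↔ ∃ a b : List Fˣ, WittEquiv a b ∧ x = formal a - formal b := by
  constructor
  · intro hx
    refine Submodule.span_induction ?_ ?_ ?_ ?_ hx
    · rintro _ ⟨a, b, h, rfl⟩
      exact ⟨a, b, h, rfl⟩
    · exact ⟨[], [], .refl _, by simp⟩
    · rintro _ _ - - ⟨a, b, h, rfl⟩ ⟨a', b', h', rfl⟩
      exact ⟨a ++ a', b ++ b', h.append h', by rw [formal_append, formal_append]; ring⟩
    · rintro r _ - ⟨a, b, h, rfl⟩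
      rw [smul_eq_mul]
      induction r using MonoidAlgebra.induction_on with
      | of g =>
        exact ⟨scale g a, scale g b, h.scale h2 g, by rw [formal_scale, formal_scale]; ring⟩
      | add r s hr hs =>
        obtain ⟨a1, b1, h1, e1⟩ := hr
        obtain ⟨a2, b2, h2', e2⟩ := hs
        exact ⟨a1 ++ a2, b1 ++ b2, h1.append h2', by
          rw [formal_append, formal_append, add_mul, e1, e2]; ring⟩
      | smul n r hr =>
        obtain ⟨a1, b1, h1, e1⟩ := hr
        have key : ∀ k : ℕ, ∃ a2 b2 : List Fˣ, WittEquiv a2 b2 ∧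
            (k : MonoidAlgebra ℤ Fˣ) * (formal a1 - formal b1) = formal a2 - formal b2 := by
          intro k
          induction k with
          | zero => exact ⟨[], [], .refl _, by simp⟩
          | succ k ih =>
            obtain ⟨a2, b2, h3, e3⟩ := ih
            refine ⟨a1 ++ a2, b1 ++ b2, h1.append h3, ?_⟩
            rw [formal_append, formal_append]
            push_cast
            linear_combination e3
        obtain ⟨a2, b2, h3, e3⟩ := key n.natAbs
        rcases Int.natAbs_eq n with hn | hn
        · refine ⟨a2, b2, h3, ?_⟩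
          have e : (n : MonoidAlgebra ℤ Fˣ) = (n.natAbs : MonoidAlgebra ℤ Fˣ) := by
            conv_lhs => rw [hn]
            exact Int.cast_natCast _
          rw [zsmul_eq_mul, mul_assoc, e1, e, e3]
        · refine ⟨b2, a2, h3.symm, ?_⟩
          have e : (n : MonoidAlgebra ℤ Fˣ) = -(n.natAbs : MonoidAlgebra ℤ Fˣ) := by
            conv_lhs => rw [hn]
            rw [Int.cast_neg, Int.cast_natCast]
          rw [zsmul_eq_mul, mul_assoc, e1, e]
          linear_combination -e3
  · rintro ⟨a, b, h, rfl⟩
    exact Ideal.subset_span ⟨a, b, h, rfl⟩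

lemma perm_of_formal_eq {a b : List Fˣ} (h : formal a = formal b) : a.Perm b := by
  classical
  rw [List.perm_iff_count]
  intro x
  have key : ∀ a : List Fˣ, (formal a).coeff x = (a.count x : ℤ) := by
    intro a
    induction a with
    | nil => simp [formal]
    | cons y a ih =>
      rw [formal_cons]
      by_cases hy : y = x
      · subst hy
        simp [ih, List.count_cons, MonoidAlgebra.of]
        ring
      · simp [ih, List.count_cons, MonoidAlgebra.of, hy]
  have := congrArg (fun z : MonoidAlgebra ℤ Fˣ => z.coeff x) h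
  simp only [key] at this
  exact_mod_cast this

/-- Two diagonal forms have the same class in the Witt ring if and only if they are Witt
equivalent. -/
theorem mk_formal_eq_iff (h2 : (2 : F) ≠ 0) (a b : List Fˣ) :
    (Ideal.Quotient.mk (wittIdeal F) (formal a) = Ideal.Quotient.mk (wittIdeal F) (formal b)) ↔
      WittEquiv a b := by
  rw [Ideal.Quotient.eq, mem_wittIdeal h2]
  constructor
  · rintro ⟨a', b', h, e⟩
    have e1 : formal (a ++ b') = formal (b ++ a') := by
      rw [formal_append, formal_append]
      linear_combination e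
    have h1 : WittEquiv (a ++ b') (b ++ a') := .of_isomt (Isomt.of_perm (perm_of_formal_eq e1))
    have h3 : WittEquiv (a ++ b') (b ++ b') := h1.trans ((WittEquiv.refl b).append h)
    have h4 : ∀ c : List Fˣ, WittEquiv (c ++ b' ++ scale (-1) b') c := by
      intro c
      rw [List.append_assoc]
      have := (WittEquiv.refl c).append ((WittEquiv.of_isomt (add_neg_hyp h2 b')).trans
        (hyp_equiv_nil _))
      rwa [List.append_nil] at this
    exact (h4 a).symm.trans ((h3.append (.refl _)).trans (h4 b))
  · intro h
    exact ⟨a, b, h, rfl⟩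

/-- Every element of the Witt ring is the class of a diagonal form. -/
theorem exists_mk_formal (h2 : (2 : F) ≠ 0) (x : WittRing F) :
    ∃ a : List Fˣ, x = Ideal.Quotient.mk (wittIdeal F) (formal a) := by
  obtain ⟨r, rfl⟩ := Ideal.Quotient.mk_surjective x
  have hneg : ∀ a : List Fˣ, Ideal.Quotient.mk (wittIdeal F) (formal (scale (-1) a)) =
      - Ideal.Quotient.mk (wittIdeal F) (formal a) := by
    intro a
    have h1 := (mk_formal_eq_iff h2 _ _).2 ((WittEquiv.of_isomt (add_neg_hyp h2 a)).trans
      (hyp_equiv_nil _))
    rw [formal_append, formal_nil, map_add, map_zero] at h1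
    exact (neg_eq_of_add_eq_zero_right h1).symm
  induction r using MonoidAlgebra.induction_on with
  | of g => exact ⟨[g], by rw [formal_cons, formal_nil, add_zero]⟩
  | add r s hr hs =>
    obtain ⟨a, ha⟩ := hr
    obtain ⟨b, hb⟩ := hs
    exact ⟨a ++ b, by rw [map_add, ha, hb, formal_append, map_add]⟩
  | smul n r hr =>
    obtain ⟨a, ha⟩ := hr
    have key : ∀ k : ℕ, ∃ b : List Fˣ, (k : WittRing F) * Ideal.Quotient.mk (wittIdeal F) r =
        Ideal.Quotient.mk (wittIdeal F) (formal b) := by
      intro k
      induction k with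
      | zero =>
        refine ⟨[], ?_⟩
        rw [formal_nil, map_zero, Nat.cast_zero]
        ring
      | succ k ih =>
        obtain ⟨b, hb⟩ := ih
        refine ⟨a ++ b, ?_⟩
        rw [formal_append, map_add, ← ha, ← hb]
        push_cast
        ring
    obtain ⟨b, hb⟩ := key n.natAbs
    rw [zsmul_eq_mul, map_mul, map_intCast]
    rcases Int.natAbs_eq n with hn | hn
    · refine ⟨b, ?_⟩
      have e : (n : WittRing F) = (n.natAbs : WittRing F) := by
        conv_lhs => rw [hn]
        exact Int.cast_natCast _
      rw [← hb, e]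
    · refine ⟨scale (-1) b, ?_⟩
      have e : (n : WittRing F) = -(n.natAbs : WittRing F) := by
        conv_lhs => rw [hn]
        rw [Int.cast_neg, Int.cast_natCast]
      rw [hneg, ← hb, e]
      ring

/-- The diagonal entries of the tensor product of two diagonal forms. -/
def tensor (a b : List Fˣ) : List Fˣ := a.flatMap fun x => scale x b

/-- The product of the Witt ring is induced by the tensor product. -/
theorem formal_tensor (a b : List Fˣ) : formal (tensor a b) = formal a * formal b := by
  induction a with
  | nil => simp [tensor, formal]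
  | cons x a ih =>
    have : tensor (x :: a) b = scale x b ++ tensor a b := by simp [tensor]
    rw [this, formal_append, formal_scale, ih, formal_cons]; ring

end Pool.Agent.Hhelper2.Witt
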