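import Mathlib

/-!
# The Witt ring of a field and rings of elementary type

The Witt ring of a field of characteristic not two, pairs `(R, e)` of a commutative ring `R` and a
surjective ring homomorphism `e : R → ℤ / 2`, their group ring extensions and fibre products, and
the class of rings of elementary type.
-/

namespace Pool.Agent.Hhelper2.Witt

universe u v w

/-! ### Diagonal forms and Witt equivalence -/

section Forms

variable {F : Type u} [Field F]

/-- The diagonal quadratic form `⟨a₁, …, aₙ⟩ = a₁ X₁ ^ 2 + … + aₙ Xₙ ^ 2` on `F ^ n`.  Every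
nondegenerate quadratic form over a field of characteristic not two is isometric to such a form. -/
def diag (a : List Fˣ) : QuadraticForm F (Fin a.length → F) :=
  QuadraticMap.weightedSumSquares F fun i => ((a.get i : Fˣ) : F)

/-- The hyperbolic form `⟨1, …, 1, -1, …, -1⟩` of dimension `2 m`. -/
def hyp (F : Type u) [Field F] (m : ℕ) : List Fˣ :=
  List.replicate m 1 ++ List.replicate m (-1)

/-- Witt equivalence of the forms `⟨a₁, …, aₙ⟩` and `⟨b₁, …, bₘ⟩`: they become isometric when
suitable hyperbolic forms are added to both of them. -/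
def WittEquiv (a b : List Fˣ) : Prop :=
  ∃ m n : ℕ, (diag (a ++ hyp F m)).Equivalent (diag (b ++ hyp F n))

/-- The formal sum `[a₁] + … + [aₙ]` in the integral group ring of `Fˣ`. -/
noncomputable def formal (a : List Fˣ) : MonoidAlgebra ℤ Fˣ :=
  (a.map fun x => MonoidAlgebra.of ℤ Fˣ x).sum

end Forms

/-- The ideal of the integral group ring of `Fˣ` generated by the differences
`([a₁] + … + [aₙ]) - ([b₁] + … + [bₘ])`, where `⟨a₁, …, aₙ⟩` and `⟨b₁, …, bₘ⟩` are Witt
equivalent. -/
noncomputable def wittIdeal (F : Type u) [Field F] : Ideal (MonoidAlgebra ℤ Fˣ) :=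
  Ideal.span {x | ∃ a b : List Fˣ, WittEquiv a b ∧ x = formal a - formal b}

/-- The Witt ring `W(F)` of a field `F` of characteristic not two: its elements are the Witt
classes of nondegenerate quadratic forms, the sum is induced by the orthogonal sum and the product
by the tensor product of forms. -/
abbrev WittRing (F : Type u) [Field F] : Type u := MonoidAlgebra ℤ Fˣ ⧸ wittIdeal F

/-- The augmentation modulo two of an integral group ring. -/
noncomputable def aug (G : Type u) [Monoid G] : MonoidAlgebra ℤ G →+* ZMod 2 :=
  MonoidAlgebra.liftNCRingHom (Int.castRingHom (ZMod 2)) (1 : G →* ZMod 2)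
    (fun _ _ => Commute.all _ _)

lemma aug_of {G : Type u} [Monoid G] (g : G) : aug G (MonoidAlgebra.of ℤ G g) = 1 := by
  simp [aug]

lemma aug_formal {F : Type u} [Field F] (a : List Fˣ) : aug Fˣ (formal a) = a.length := by
  induction a with
  | nil => simp [formal]
  | cons x a ih =>
    have : formal (x :: a) = MonoidAlgebra.of ℤ Fˣ x + formal a := by simp [formal]
    rw [this, map_add, ih, aug_of]
    push_cast [List.length_cons]
    ring

lemma length_hyp (F : Type u) [Field F] (m : ℕ) : (hyp F m).length = m + m := by
  simp [hyp]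

lemma length_eq_of_equivalent {F : Type u} [Field F] {a b : List Fˣ}
    (h : (diag a).Equivalent (diag b)) : a.length = b.length := by
  obtain ⟨f⟩ := h
  have := LinearEquiv.finrank_eq f.toLinearEquiv
  simpa using this

lemma aug_wittIdeal {F : Type u} [Field F] : ∀ x ∈ wittIdeal F, aug Fˣ x = 0 := by
  intro x hx
  have : wittIdeal F ≤ RingHom.ker (aug Fˣ) := by
    refine Ideal.span_le.2 ?_
    rintro _ ⟨a, b, ⟨m, n, h⟩, rfl⟩
    have h1 := length_eq_of_equivalent h
    simp only [List.length_append, length_hyp] at h1
    have h2 : ((a.length + (m + m) : ℕ) : ZMod 2) = ((b.length + (n + n) : ℕ) : ZMod 2) := by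
      rw [h1]
    push_cast at h2
    have h3 : ∀ z : ZMod 2, z + z = 0 := by decide
    rw [h3, h3, add_zero, add_zero] at h2
    show aug Fˣ (formal a - formal b) = 0
    rw [map_sub, aug_formal, aug_formal, h2, sub_self]
  exact this hx

/-- The homomorphism `W(F) → ℤ / 2` given by the dimension modulo two. -/
noncomputable def dimMod (F : Type u) [Field F] : WittRing F →+* ZMod 2 :=
  Ideal.Quotient.lift (wittIdeal F) (aug Fˣ) aug_wittIdeal

/-! ### Pairs -/

lemma surjective_zmod {R : Type u} [CommRing R] (e : R →+* ZMod 2) : Function.Surjective e := by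
  intro x
  have : x = 0 ∨ x = 1 := by revert x; decide
  rcases this with rfl | rfl
  · exact ⟨0, map_zero e⟩
  · exact ⟨1, map_one e⟩

/-- Pairs `(R, e)` of a commutative ring `R` and a surjective ring homomorphism `e : R → ℤ / 2`. -/
structure Pair : Type (u + 1) where
  /-- the ring -/
  R : Type u
  [ring : CommRing R]
  /-- the homomorphism -/
  e : R →+* ZMod 2
  surj : Function.Surjective e

attribute [instance] Pair.ring

/-- Isomorphism of pairs: a ring isomorphism which is compatible with the homomorphisms to
`ℤ / 2`. -/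
def Pair.Isom (P : Pair.{u}) (Q : Pair.{v}) : Prop :=
  ∃ f : P.R ≃+* Q.R, ∀ x, Q.e (f x) = P.e x

/-- The homomorphism `R[C₂] → ℤ / 2`, `a + b g ↦ e(a) + e(b)`. -/
noncomputable def groupRingMap {R : Type u} [CommRing R] (e : R →+* ZMod 2) :
    MonoidAlgebra R (Multiplicative (ZMod 2)) →+* ZMod 2 :=
  MonoidAlgebra.liftNCRingHom e (1 : Multiplicative (ZMod 2) →* ZMod 2)
    (fun _ _ => Commute.all _ _)

/-- The group ring extension `(R, e) ↦ (R[C₂], e')`, where `C₂ = {1, g}` and
`e'(a + b g) = e(a) + e(b)`. -/
noncomputable def Pair.groupRing (P : Pair.{u}) : Pair.{u} where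
  R := MonoidAlgebra P.R (Multiplicative (ZMod 2))
  e := groupRingMap P.e
  surj := surjective_zmod _

/-- The fibre product `R₁ ×_{ℤ/2} R₂ = {(x, y) : e₁(x) = e₂(y)}` with the homomorphism
`(x, y) ↦ e₁(x)`. -/
def Pair.fibre (P Q : Pair.{u}) : Pair.{u} where
  R := RingHom.eqLocus (P.e.comp (RingHom.fst P.R Q.R)) (Q.e.comp (RingHom.snd P.R Q.R))
  e := (P.e.comp (RingHom.fst P.R Q.R)).comp (Subring.subtype _)
  surj := surjective_zmod _

/-- The pair `(W(F), e_F)` of the Witt ring of a field and the dimension modulo two. -/
noncomputable def wittPair (F : Type u) [Field F] : Pair.{u} where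
  R := WittRing F
  e := dimMod F
  surj := surjective_zmod _

/-- Pairs of elementary type: the smallest class of pairs, closed under isomorphism, which contains
the pairs `(W(K), e_K)` for `K = ℂ`, `K = ℝ`, `K = 𝔽₃` and for all finite extensions `K` of `ℚ₂`,
and which is closed under group ring extensions and fibre products. -/
inductive IsElementaryPair : Pair.{u} → Prop
  | complex (P : Pair.{u}) : P.Isom (wittPair ℂ) → IsElementaryPair P
  | real (P : Pair.{u}) : P.Isom (wittPair ℝ) → IsElementaryPair P
  | three (P : Pair.{u}) : P.Isom (wittPair (ZMod 3)) → IsElementaryPair P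
  | dyadic (P : Pair.{u}) (K : Type) [Field K] [Algebra ℚ_[2] K] [FiniteDimensional ℚ_[2] K] :
      P.Isom (wittPair K) → IsElementaryPair P
  | groupRing (P Q : Pair.{u}) : IsElementaryPair P → Q.Isom P.groupRing → IsElementaryPair Q
  | fibre (P₁ P₂ Q : Pair.{u}) : IsElementaryPair P₁ → IsElementaryPair P₂ →
      Q.Isom (P₁.fibre P₂) → IsElementaryPair Q

/-- A commutative ring is of elementary type if it is isomorphic to the ring `R` of a pair `(R, e)`
of elementary type. -/
def IsElementaryType (R : Type u) [CommRing R] : Prop :=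
  ∃ P : Pair.{u}, IsElementaryPair P ∧ Nonempty (R ≃+* P.R)

end Pool.Agent.Hhelper2.Witt
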