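import Pool.Agent.Hhelper2.WittOps

/-!
# The weak elementary type conjecture for Witt rings: final form

This file is a draft of the final hand-in; `weak` is the theorem for quaternionic structures.
-/

namespace Pool.Agent.Hhelper2.Witt

universe u

/-- The form of the final statement. -/
theorem final_of_weak
    (weak : ∀ (F : Type u) [Field F], (2 : F) ≠ 0 → Finite (SqClass F) →
      IsElementary (QStr.ofField F))
    (F : Type u) [Field F] (h2 : (2 : F) ≠ 0) (hfin : Finite (Fˣ ⧸ Subgroup.square Fˣ)) :
    IsElementaryType (WittRing F) :=
  isElementaryType_of_isElementary F h2 (weak F h2 hfin)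

end Pool.Agent.Hhelper2.Witt
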