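import Pool.Agent.Hhelper2.WittDef

/-!
# Isometry of diagonal forms: Witt cancellation and the presentation of the Witt ring
-/

namespace Pool.Agent.Hhelper2.Witt

open QuadraticMap

universe u v w

variable {F : Type u} [Field F]

/-! ### The form `⟨x⟩ ⊥ Q` -/

/-- The form `⟨x⟩ ⊥ Q`. -/
def pform {V : Type v} [AddCommGroup V] [Module F V] (x : F) (Q : QuadraticForm F V) :
    QuadraticForm F (F × V) :=
  (x • QuadraticMap.sq).prod Q

lemma pform_apply {V : Type v} [AddCommGroup V] [Module F V] (x : F) (Q : QuadraticForm F V)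
    (p : F × V) : pform x Q p = x * (p.1 * p.1) + Q p.2 := by
  simp [pform]

lemma diag_cons (x : Fˣ) (a : List Fˣ) : (diag (x :: a)).Equivalent (pform (x : F) (diag a)) := by
  refine ⟨{ (Fin.consLinearEquiv F (fun _ : Fin (a.length + 1) => F)).symm with
    map_app' := ?_ }⟩
  intro m
  have : diag (x :: a) m = (x : F) * (m 0 * m 0) + diag a (fun i => m i.succ) := by
    unfold diag
    rw [QuadraticMap.weightedSumSquares_apply, QuadraticMap.weightedSumSquares_apply]
    exact Fin.sum_univ_succ _
  rw [this, pform_apply]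
  rfl

lemma diag_nil (x : Fin ([] : List Fˣ).length → F) : diag ([] : List Fˣ) x = 0 := by
  unfold diag
  rw [QuadraticMap.weightedSumSquares_apply]
  simp

lemma pform_congr {V : Type v} {W : Type w} [AddCommGroup V] [Module F V] [AddCommGroup W]
    [Module F W] (x : F) {Q : QuadraticForm F V} {R : QuadraticForm F W} (h : Q.Equivalent R) :
    (pform x Q).Equivalent (pform x R) :=
  QuadraticMap.Equivalent.prod (QuadraticMap.Equivalent.refl _) h

lemma pform_swap {V : Type v} [AddCommGroup V] [Module F V] (x y : F) (Q : QuadraticForm F V) :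
    (pform x (pform y Q)).Equivalent (pform y (pform x Q)) := by
  refine ⟨{ toFun := fun p => (p.2.1, (p.1, p.2.2))
            invFun := fun p => (p.2.1, (p.1, p.2.2))
            map_add' := ?_, map_smul' := ?_, left_inv := ?_, right_inv := ?_, map_app' := ?_ }⟩
  · intro p q; rfl
  · intro c p; rfl
  · intro p; rfl
  · intro p; rfl
  · intro p
    simp only [pform_apply]
    ring

lemma pform_bin {V : Type v} [AddCommGroup V] [Module F V] (x y z X Y : F) (hz : z ≠ 0)
    (h : z = x * X ^ 2 + y * Y ^ 2) (Q : QuadraticForm F V) :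
    (pform x (pform y Q)).Equivalent (pform z (pform (x * y * z) Q)) := by
  refine ⟨{ toFun := fun p => ((x * X * p.1 + y * Y * p.2.1) / z,
              ((X * p.2.1 - Y * p.1) / z, p.2.2))
            invFun := fun p => (p.1 * X - p.2.1 * y * Y, (p.1 * Y + p.2.1 * x * X, p.2.2))
            map_add' := ?_, map_smul' := ?_, left_inv := ?_, right_inv := ?_, map_app' := ?_ }⟩
  · rintro ⟨a, b, c⟩ ⟨a', b', c'⟩
    simp only [Prod.mk_add_mk, Prod.mk.injEq, and_true]
    constructor <;> ring
  · rintro t ⟨a, b, c⟩
    simp only [Prod.smul_mk, smul_eq_mul, Prod.mk.injEq, and_true, RingHom.id_apply]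
    constructor <;> ring
  · rintro ⟨a, b, c⟩
    simp only [Prod.mk.injEq, and_true]
    constructor
    · field_simp
      rw [h]; ring
    · field_simp
      rw [h]; ring
  · rintro ⟨a, b, c⟩
    simp only [Prod.mk.injEq, and_true]
    constructor
    · field_simp
      rw [h]; ring
    · field_simp
      rw [h]; ring
  · rintro ⟨a, b, c⟩
    simp only [pform_apply]
    field_simp
    rw [h]; ring

lemma pform_sq {V : Type v} [AddCommGroup V] [Module F V] (x s : F) (hs : s ≠ 0)
    (Q : QuadraticForm F V) : (pform (x * s * s) Q).Equivalent (pform x Q) := by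
  refine ⟨{ toFun := fun p => (s * p.1, p.2)
            invFun := fun p => (p.1 / s, p.2)
            map_add' := ?_, map_smul' := ?_, left_inv := ?_, right_inv := ?_, map_app' := ?_ }⟩
  · rintro ⟨a, b⟩ ⟨a', b'⟩
    simp only [Prod.mk_add_mk, Prod.mk.injEq, and_true]
    ring
  · rintro t ⟨a, b⟩
    simp only [Prod.smul_mk, smul_eq_mul, Prod.mk.injEq, and_true, RingHom.id_apply]
    ring
  · rintro ⟨a, b⟩
    simp only [Prod.mk.injEq, and_true]
    field_simp
  · rintro ⟨a, b⟩
    simp only [Prod.mk.injEq, and_true]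
    field_simp
  · rintro ⟨a, b⟩
    simp only [pform_apply]
    ring

/-! ### Witt cancellation -/

section Cancel

variable {V : Type v} {W : Type w} [AddCommGroup V] [Module F V] [AddCommGroup W] [Module F W]

/-- The reflection in an anisotropic vector. -/
lemma exists_reflection (Q : QuadraticForm F V) (u : V) (hu : Q u ≠ 0) :
    ∃ f : Q.IsometryEquiv Q, ∀ x, f x = x - (polar Q x u / Q u) • u := by
  let φ : Module.Dual F V := (Q u)⁻¹ • (polarBilin Q).flip u
  have hφ : ∀ x, φ x = polar Q x u / Q u := by
    intro x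
    show (Q u)⁻¹ * polar Q x u = _
    rw [div_eq_mul_inv, mul_comm]
  have h2 : φ u = 2 := by
    rw [hφ, polar_self]
    simp only [nsmul_eq_mul, Nat.cast_ofNat]
    field_simp
  refine ⟨{ Module.reflection h2 with map_app' := ?_ }, ?_⟩
  · intro x
    show Q (Module.reflection h2 x) = Q x
    rw [Module.reflection_apply, sub_eq_add_neg, QuadraticMap.map_add Q, QuadraticMap.map_neg,
      QuadraticMap.map_smul, polar_neg_right, polar_smul_right, hφ]
    simp only [smul_eq_mul]
    field_simp
    ring
  · intro x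
    show Module.reflection h2 x = _
    rw [Module.reflection_apply, hφ]

lemma exists_isometry (h2 : (2 : F) ≠ 0) (Q : QuadraticForm F V) (v w : V) (hv : Q v ≠ 0)
    (h : Q v = Q w) : ∃ f : Q.IsometryEquiv Q, f v = w := by
  have key : Q (v - w) + Q (v + w) = 4 * Q v := by
    rw [sub_eq_add_neg, QuadraticMap.map_add Q, QuadraticMap.map_add Q, QuadraticMap.map_neg,
      polar_neg_right, ← h]
    ring
  by_cases h1 : Q (v - w) = 0
  · have h3 : Q (v + w) ≠ 0 := by
      intro h3
      rw [h1, h3] at key
      have : (4 : F) ≠ 0 := by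
        have : (4 : F) = 2 * 2 := by norm_num
        rw [this]; exact mul_ne_zero h2 h2
      exact mul_ne_zero this hv (by rw [← key]; ring)
    obtain ⟨f, hf⟩ := exists_reflection Q (v + w) h3
    have h4 : Q (v + w) = 2 * Q v + polar Q v w := by
      rw [QuadraticMap.map_add Q, ← h]; ring
    have h5 : polar Q v (v + w) = 2 * Q v + polar Q v w := by
      rw [polar_add_right, polar_self]; simp
    have h6 : f v = - w := by
      rw [hf, h5, ← h4, div_self h3, one_smul]; abel
    let g : Q.IsometryEquiv Q := { LinearEquiv.neg F with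
      map_app' := fun m => by
        show Q (-m) = Q m
        exact QuadraticMap.map_neg Q m }
    refine ⟨f.trans g, ?_⟩
    show - (f v) = w
    rw [h6, neg_neg]
  · obtain ⟨f, hf⟩ := exists_reflection Q (v - w) h1
    refine ⟨f, ?_⟩
    have h4 : Q (v - w) = 2 * Q v - polar Q v w := by
      rw [sub_eq_add_neg, QuadraticMap.map_add Q, QuadraticMap.map_neg, polar_neg_right, ← h]; ring
    have h5 : polar Q v (v - w) = 2 * Q v - polar Q v w := by
      rw [polar_sub_right, polar_self]; simp
    rw [hf, h5, ← h4, div_self h1, one_smul]; abel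

lemma polar_pform (b : F) (Q : QuadraticForm F V) (p q : F × V) :
    polar (pform b Q) p q = 2 * b * p.1 * q.1 + polar Q p.2 q.2 := by
  simp only [polar, pform_apply, Prod.fst_add, Prod.snd_add]
  ring

/-- Witt cancellation of a one dimensional form. -/
theorem pform_cancel (h2 : (2 : F) ≠ 0) (b : F) (hb : b ≠ 0) (Q : QuadraticForm F V)
    (R : QuadraticForm F W) (h : (pform b Q).Equivalent (pform b R)) : Q.Equivalent R := by
  obtain ⟨φ⟩ := h
  have e1 : ∀ (x : F × W), pform b R x = b * (x.1 * x.1) + R x.2 := pform_apply b R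
  have hv : pform b R (φ (1, 0)) = b := by
    rw [φ.map_app, pform_apply]; simp
  have hw : pform b R ((1, 0) : F × W) = b := by
    rw [pform_apply]; simp
  obtain ⟨σ, hσ⟩ := exists_isometry h2 (pform b R) (φ (1, 0)) (1, 0) (by rw [hv]; exact hb)
    (by rw [hv, hw])
  set ψ := φ.trans σ with hψ
  have hψ1 : ψ (1, 0) = (1, 0) := hσ
  have hψ2 : ψ.symm (1, 0) = (1, 0) := by
    rw [← hψ1, ψ.symm_apply_apply]
  have pol : ∀ p q, polar (pform b R) (ψ p) (ψ q) = polar (pform b Q) p q := by
    intro p q
    unfold polar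
    rw [← map_add, ψ.map_app, ψ.map_app, ψ.map_app]
  have pol' : ∀ p q, polar (pform b Q) (ψ.symm p) (ψ.symm q) = polar (pform b R) p q := by
    intro p q
    rw [← pol, ψ.apply_symm_apply, ψ.apply_symm_apply]
  have k1 : ∀ x : V, (ψ (0, x)).1 = 0 := by
    intro x
    have := pol (0, x) (1, 0)
    rw [hψ1, polar_pform, polar_pform] at this
    simp only [mul_one, mul_zero, polar_zero_right, add_zero, zero_mul] at this
    exact (mul_eq_zero.1 this).resolve_left (mul_ne_zero h2 hb)
  have k2 : ∀ x : W, (ψ.symm (0, x)).1 = 0 := by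
    intro x
    have := pol' (0, x) (1, 0)
    rw [hψ2, polar_pform, polar_pform] at this
    simp only [mul_one, mul_zero, polar_zero_right, add_zero, zero_mul] at this
    exact (mul_eq_zero.1 this).resolve_left (mul_ne_zero h2 hb)
  have k3 : ∀ x : V, ψ (0, x) = (0, (ψ (0, x)).2) := fun x => Prod.ext (k1 x) rfl
  have k4 : ∀ x : W, ψ.symm (0, x) = (0, (ψ.symm (0, x)).2) := fun x => Prod.ext (k2 x) rfl
  refine ⟨{ toFun := fun x => (ψ (0, x)).2
            invFun := fun x => (ψ.symm (0, x)).2
            map_add' := ?_, map_smul' := ?_, left_inv := ?_, right_inv := ?_, map_app' := ?_ }⟩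
  · intro x y
    have : ((0 : F), x + y) = (0, x) + (0, y) := by simp
    show (ψ (0, x + y)).2 = _
    rw [this, map_add]; rfl
  · intro c x
    have : ((0 : F), c • x) = c • (0, x) := by simp
    show (ψ (0, c • x)).2 = _
    rw [this, map_smul]; rfl
  · intro x
    show (ψ.symm (0, (ψ (0, x)).2)).2 = x
    rw [← k3, ψ.symm_apply_apply]
  · intro x
    show (ψ (0, (ψ.symm (0, x)).2)).2 = x
    rw [← k4, ψ.apply_symm_apply]
  · intro x
    show R (ψ (0, x)).2 = Q x
    have h7 : pform b R (ψ (0, x)) = pform b Q (0, x) := ψ.map_app _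
    rw [pform_apply, pform_apply, k1] at h7
    simpa using h7

end Cancel

end Pool.Agent.Hhelper2.Witt
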