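import Pool.Agent.Hhelper2.WittStr

/-!
# Witt rings of direct products and group extensions of quaternionic structures
-/

namespace Pool.Agent.Hhelper2.Witt

universe u v w

/-! ### Direct products -/

section Prod

variable (S T : QStr.{u})

lemma isom_of_bijective {P : Pair.{u}} {Q : Pair.{v}} (f : P.R →+* Q.R)
    (h1 : Function.Injective f) (h2 : Function.Surjective f)
    (h3 : ∀ x, Q.e (f x) = P.e x) : P.Isom Q :=
  ⟨RingEquiv.ofBijective f ⟨h1, h2⟩, h3⟩

/-- Elements of the ideal of relations, mapped to a ring. -/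
lemma ideal_map {R : Type v} [CommRing R] (S : QStr.{u}) (α : S.G →* R) (c : R)
    (hc : c = 1 + α S.neg) (h1 : ∀ a, α a * c = c)
    (h2 : ∀ a b, S.Split a b → (1 - α a) * (1 - α b) = 0) :
    ∀ y ∈ sIdeal S, ∃ m : ℤ, eps S.G y = 2 * m ∧ gHom α y = m * c := by
  have h3 : ∀ x : MonoidAlgebra ℤ S.G, gHom α x * c = (eps S.G x : ℤ) * c := by
    intro x
    induction x using MonoidAlgebra.induction_on with
    | of g => rw [gHom_of, eps_of, h1]; simp
    | add x y hx hy => rw [map_add, map_add, add_mul, hx, hy]; push_cast; ring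
    | smul r x hx =>
      rw [zsmul_eq_mul, map_mul, map_mul, map_intCast, map_intCast, mul_assoc, hx]
      push_cast
      ring
  intro y hy
  refine Submodule.span_induction ?_ ?_ ?_ ?_ hy
  · rintro _ (rfl | ⟨a, b, h, rfl⟩)
    · refine ⟨1, ?_, ?_⟩
      · rw [map_add, map_one, eps_of]; rfl
      · rw [map_add, map_one, gHom_of, hc]; simp
    · refine ⟨0, ?_, ?_⟩
      · rw [map_mul, map_sub, map_sub, map_one, eps_of, eps_of]; rfl
      · rw [map_mul, map_sub, map_sub, map_one, gHom_of, gHom_of, h2 a b h]; simp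
  · exact ⟨0, by simp, by simp⟩
  · rintro x y - - ⟨m, h4, h5⟩ ⟨n, h6, h7⟩
    refine ⟨m + n, ?_, ?_⟩
    · rw [map_add, h4, h6]; ring
    · rw [map_add, h5, h7]; push_cast; ring
  · rintro a x - ⟨m, h4, h5⟩
    refine ⟨eps S.G a * m, ?_, ?_⟩
    · rw [smul_eq_mul, map_mul, h4]; ring
    · rw [smul_eq_mul, map_mul, h5, mul_left_comm, h3]; push_cast; ring

theorem sPair_prod (hS1 : ∀ a, S.Split a 1) (hT1 : ∀ a, T.Split a 1)
    (hT2 : ∀ a, T.Split 1 a) : (sPair (S.prod T)).Isom ((sPair S).fibre (sPair T)) := by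
  set P := S.prod T with hP
  -- the homomorphism to the fibre product
  obtain ⟨f1, hf1⟩ := exists_hom P ((cl S).comp (MonoidHom.fst S.G T.G)) (cl_neg S)
    (fun a b h => cl_split S h.1)
  obtain ⟨f2, hf2⟩ := exists_hom P ((cl T).comp (MonoidHom.snd S.G T.G)) (cl_neg T)
    (fun a b h => cl_split T h.2)
  have hf : ∀ x, sAug S (f1 x) = sAug T (f2 x) := by
    intro x
    have : (sAug S).comp f1 = (sAug T).comp f2 := by
      apply sring_ext
      intro a
      show sAug S (f1 (cl P a)) = sAug T (f2 (cl P a))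
      rw [hf1, hf2]
      exact (sAug_cl S _).trans (sAug_cl T _).symm
    exact congrArg (fun k : SRing P →+* ZMod 2 => k x) this
  let f : SRing P →+* ((sPair S).fibre (sPair T)).R :=
    RingHom.codRestrict (f1.prod f2) _ hf
  -- homomorphisms on the group rings
  let p1 : MonoidAlgebra ℤ P.G →+* MonoidAlgebra ℤ S.G :=
    gHom ((MonoidAlgebra.of ℤ S.G).comp (MonoidHom.fst S.G T.G))
  let p2 : MonoidAlgebra ℤ P.G →+* MonoidAlgebra ℤ T.G :=
    gHom ((MonoidAlgebra.of ℤ T.G).comp (MonoidHom.snd S.G T.G))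
  have hp1 : ∀ x : MonoidAlgebra ℤ P.G, f1 (Ideal.Quotient.mk _ x) = Ideal.Quotient.mk _ (p1 x) := by
    intro x
    have : f1.comp (Ideal.Quotient.mk _) = (Ideal.Quotient.mk (sIdeal S)).comp p1 := by
      apply hom_ext
      intro a
      show f1 (cl P a) = Ideal.Quotient.mk _ (gHom _ _)
      rw [hf1, gHom_of]
      rfl
    exact congrArg (fun k : MonoidAlgebra ℤ P.G →+* SRing S => k x) this
  have hp2 : ∀ x : MonoidAlgebra ℤ P.G, f2 (Ideal.Quotient.mk _ x) = Ideal.Quotient.mk _ (p2 x) := by
    intro x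
    have : f2.comp (Ideal.Quotient.mk _) = (Ideal.Quotient.mk (sIdeal T)).comp p2 := by
      apply hom_ext
      intro a
      show f2 (cl P a) = Ideal.Quotient.mk _ (gHom _ _)
      rw [hf2, gHom_of]
      rfl
    exact congrArg (fun k : MonoidAlgebra ℤ P.G →+* SRing T => k x) this
  have he1 : ∀ x, eps S.G (p1 x) = eps P.G x := by
    intro x
    have : (eps S.G).comp p1 = eps P.G := by
      apply hom_ext
      intro a
      show eps S.G (gHom _ _) = _
      rw [gHom_of, eps_of]
      exact eps_of _
    exact congrArg (fun k : MonoidAlgebra ℤ P.G →+* ℤ => k x) this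
  have he2 : ∀ x, eps T.G (p2 x) = eps P.G x := by
    intro x
    have : (eps T.G).comp p2 = eps P.G := by
      apply hom_ext
      intro a
      show eps T.G (gHom _ _) = _
      rw [gHom_of, eps_of]
      exact eps_of _
    exact congrArg (fun k : MonoidAlgebra ℤ P.G →+* ℤ => k x) this
  -- the embeddings
  let α : S.G →* SRing P := (cl P).comp (MonoidHom.inl S.G T.G)
  let β : T.G →* SRing P := (cl P).comp (MonoidHom.inr S.G T.G)
  have hαβ : ∀ a b, (1 - α a) * (1 - β b) = 0 := by
    intro a b
    exact cl_split P (a := (a, 1)) (b := (1, b)) ⟨hS1 a, hT2 b⟩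
  have hmul : ∀ a b, cl P (a, b) = α a * β b := by
    intro a b
    show _ = cl P (a, 1) * cl P (1, b)
    rw [← map_mul]
    congr 1
    show (a, b) = (a * 1, 1 * b)
    rw [mul_one, one_mul]
  have hab : ∀ a b, cl P (a, b) = α a + β b - 1 := by
    intro a b
    rw [hmul]
    linear_combination hαβ a b
  have hneg : α S.neg + β T.neg = 0 := by
    have h1 := hab S.neg T.neg
    have h2 : cl P (S.neg, T.neg) = -1 := cl_neg P
    rw [h2] at h1
    linear_combination -h1
  have hβneg : β T.neg = - α S.neg := by linear_combination hneg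
  have key : ∀ x : MonoidAlgebra ℤ P.G, Ideal.Quotient.mk (sIdeal P) x =
      gHom α (p1 x) + gHom β (p2 x) - (eps P.G x : ℤ) := by
    intro x
    induction x using MonoidAlgebra.induction_on with
    | of g =>
      obtain ⟨a, b⟩ := g
      have h1 : p1 (MonoidAlgebra.of ℤ P.G (a, b)) = MonoidAlgebra.of ℤ S.G a := gHom_of _ _
      have h2 : p2 (MonoidAlgebra.of ℤ P.G (a, b)) = MonoidAlgebra.of ℤ T.G b := gHom_of _ _
      rw [h1, h2, gHom_of, gHom_of, eps_of]
      have := hab a b
      rw [cl_apply] at this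
      rw [this]; simp
    | add x y hx hy =>
      rw [map_add, map_add, map_add, map_add, map_add, map_add, hx, hy]; push_cast; ring
    | smul r x hx =>
      rw [zsmul_eq_mul]
      simp only [map_mul, map_intCast]
      rw [hx]
      push_cast
      ring
  have k1 := ideal_map S α (1 + α S.neg) rfl (by
    intro a
    have := hαβ a T.neg
    rw [hβneg] at this
    linear_combination -this) (fun a b h => cl_split P (a := (a, 1)) (b := (b, 1)) ⟨h, hT1 1⟩)
  have k2 := ideal_map T β (1 + β T.neg) rfl (by
    intro b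
    have := hαβ S.neg b
    have h3 : α S.neg = - β T.neg := by linear_combination hneg
    rw [h3] at this
    linear_combination -this) (fun a b h => cl_split P (a := (1, a)) (b := (1, b)) ⟨hS1 1, h⟩)
  refine isom_of_bijective (P := sPair P) (Q := (sPair S).fibre (sPair T)) f ?_ ?_ ?_
  · -- injectivity
    rw [injective_iff_map_eq_zero]
    intro w hw
    obtain ⟨x, rfl⟩ := Ideal.Quotient.mk_surjective w
    have hw' : (f1 (Ideal.Quotient.mk _ x), f2 (Ideal.Quotient.mk _ x)) = (0, 0) :=
      congrArg Subtype.val hw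
    rw [Prod.mk.injEq, hp1, hp2, Ideal.Quotient.eq_zero_iff_mem,
      Ideal.Quotient.eq_zero_iff_mem] at hw'
    obtain ⟨m, hm1, hm2⟩ := k1 _ hw'.1
    obtain ⟨n, hn1, hn2⟩ := k2 _ hw'.2
    rw [he1] at hm1
    rw [he2] at hn1
    have hmn : n = m := by linarith
    show Ideal.Quotient.mk (sIdeal P) x = (0 : SRing P)
    rw [key, hm2, hn2, hm1, hmn, hβneg]
    push_cast
    ring
  · -- surjectivity
    rintro ⟨⟨u', v'⟩, huv⟩
    obtain ⟨x, rfl⟩ := Ideal.Quotient.mk_surjective (I := sIdeal S) u'
    obtain ⟨y, rfl⟩ := Ideal.Quotient.mk_surjective (I := sIdeal T) v'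
    have h1 : aug S.G x = aug T.G y := huv
    rw [aug_eq, aug_eq, ZMod.intCast_eq_intCast_iff_dvd_sub] at h1
    obtain ⟨m, hm⟩ := h1
    push_cast at hm
    set x' := x + (m : MonoidAlgebra ℤ S.G) * (1 + MonoidAlgebra.of ℤ S.G S.neg) with hx'
    have hxe : eps S.G x' = eps T.G y := by
      rw [hx', map_add, map_mul, map_add, map_intCast, map_one, eps_of]
      simp only [Int.cast_id]
      linarith
    have hxx : Ideal.Quotient.mk (sIdeal S) x' = Ideal.Quotient.mk (sIdeal S) x := by
      apply Ideal.Quotient.eq.2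
      rw [hx', add_sub_cancel_left]
      exact (sIdeal S).mul_mem_left _ (Ideal.subset_span (Or.inl rfl))
    let i1 : MonoidAlgebra ℤ S.G →+* MonoidAlgebra ℤ P.G :=
      gHom ((MonoidAlgebra.of ℤ P.G).comp (MonoidHom.inl S.G T.G))
    let i2 : MonoidAlgebra ℤ T.G →+* MonoidAlgebra ℤ P.G :=
      gHom ((MonoidAlgebra.of ℤ P.G).comp (MonoidHom.inr S.G T.G))
    have c11 : ∀ z, p1 (i1 z) = z := by
      intro z
      have : p1.comp i1 = RingHom.id _ := by
        apply hom_ext
        intro a
        show p1 (gHom _ _) = _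
        rw [gHom_of]
        exact gHom_of _ _
      exact congrArg (fun k : MonoidAlgebra ℤ S.G →+* MonoidAlgebra ℤ S.G => k z) this
    have c22 : ∀ z, p2 (i2 z) = z := by
      intro z
      have : p2.comp i2 = RingHom.id _ := by
        apply hom_ext
        intro a
        show p2 (gHom _ _) = _
        rw [gHom_of]
        exact gHom_of _ _
      exact congrArg (fun k : MonoidAlgebra ℤ T.G →+* MonoidAlgebra ℤ T.G => k z) this
    have c12 : ∀ z, p1 (i2 z) = ((eps T.G z : ℤ) : MonoidAlgebra ℤ S.G) := by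
      intro z
      have : p1.comp i2 = (Int.castRingHom _).comp (eps T.G) := by
        apply hom_ext
        intro a
        show p1 (gHom _ _) = ((eps T.G _ : ℤ) : MonoidAlgebra ℤ S.G)
        rw [gHom_of, eps_of]
        refine (gHom_of _ _).trans ?_
        show MonoidAlgebra.of ℤ S.G 1 = _
        rw [map_one]; simp
      exact congrArg (fun k : MonoidAlgebra ℤ T.G →+* MonoidAlgebra ℤ S.G => k z) this
    have c21 : ∀ z, p2 (i1 z) = ((eps S.G z : ℤ) : MonoidAlgebra ℤ T.G) := by
      intro z
      have : p2.comp i1 = (Int.castRingHom _).comp (eps S.G) := by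
        apply hom_ext
        intro a
        show p2 (gHom _ _) = ((eps S.G _ : ℤ) : MonoidAlgebra ℤ T.G)
        rw [gHom_of, eps_of]
        refine (gHom_of _ _).trans ?_
        show MonoidAlgebra.of ℤ T.G 1 = _
        rw [map_one]; simp
      exact congrArg (fun k : MonoidAlgebra ℤ S.G →+* MonoidAlgebra ℤ T.G => k z) this
    refine ⟨Ideal.Quotient.mk _ (i1 x' + i2 y - ((eps S.G x' : ℤ) : MonoidAlgebra ℤ P.G)), ?_⟩
    apply Subtype.ext
    show (f1 _, f2 _) = (Ideal.Quotient.mk _ x, Ideal.Quotient.mk _ y)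
    rw [hp1, hp2]
    refine Prod.ext ?_ ?_
    · show Ideal.Quotient.mk _ _ = Ideal.Quotient.mk _ _
      rw [map_sub, map_add, c11, c12, map_intCast, hxe, add_sub_cancel_right, hxx]
    · show Ideal.Quotient.mk _ _ = Ideal.Quotient.mk _ _
      rw [map_sub, map_add, c22, c21, map_intCast, add_sub_cancel_left]
  · intro x
    have : (sAug S).comp f1 = sAug P := by
      apply sring_ext
      intro a
      show sAug S (f1 (cl P a)) = sAug P (cl P a)
      rw [hf1]
      exact (sAug_cl S _).trans (sAug_cl P _).symm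
    exact congrArg (fun k : SRing P →+* ZMod 2 => k x) this

end Prod

/-! ### Group extensions -/

section Ext

lemma groupRingMap_single {R : Type u} [CommRing R] (e : R →+* ZMod 2)
    (t : Multiplicative (ZMod 2)) (r : R) :
    groupRingMap e (MonoidAlgebra.single t r) = e r := by
  simp [groupRingMap]

lemma c2_eq : ∀ s t : Multiplicative (ZMod 2), s ≠ 1 → t ≠ 1 → t = s := by decide

lemma c2_sq : ∀ s : Multiplicative (ZMod 2), s * s = 1 := by decide

lemma liftNC_single {R : Type u} {A : Type v} [CommRing R] [CommRing A] (f : R →+* A)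
    (τ : Multiplicative (ZMod 2) →* A) (h : ∀ x y, Commute (f x) (τ y))
    (t : Multiplicative (ZMod 2)) (r : R) :
    MonoidAlgebra.liftNCRingHom f τ h (MonoidAlgebra.single t r) = f r * τ t := by
  exact MonoidAlgebra.liftNC_single (f : R →+ A) τ t r

theorem sPair_ext (S : QStr.{u}) (hS : ∀ a : S.G, a * a = 1) :
    (sPair S.ext).Isom (sPair S).groupRing := by
  set E := S.ext with hE
  let A := MonoidAlgebra (SRing S) (Multiplicative (ZMod 2))
  -- forward
  let φ : E.G →* A :=
    { toFun := fun x => MonoidAlgebra.single x.2 (cl S x.1)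
      map_one' := by
        show MonoidAlgebra.single (1 : Multiplicative (ZMod 2)) (cl S 1) = 1
        rw [map_one]; rfl
      map_mul' := by
        intro x y
        show MonoidAlgebra.single (x.2 * y.2) (cl S (x.1 * y.1)) = _
        rw [MonoidAlgebra.single_mul_single, map_mul] }
  have hφ1 : φ E.neg = -1 := by
    show MonoidAlgebra.single (1 : Multiplicative (ZMod 2)) (cl S S.neg) = -1
    rw [cl_neg]
    have : (-1 : A) = - MonoidAlgebra.single (1 : Multiplicative (ZMod 2)) (1 : SRing S) := rfl
    rw [this]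
    ext t
    simp
  have hφ2 : ∀ a b, E.Split a b → (1 - φ a) * (1 - φ b) = 0 := by
    rintro ⟨a, s⟩ ⟨b, t⟩ (⟨h1, h2, h3⟩ | h | h | ⟨h1, h2, h3⟩)
    · have h1' : s = 1 := h1
      have h2' : t = 1 := h2
      subst h1' h2'
      show (1 - MonoidAlgebra.single (1 : Multiplicative (ZMod 2)) (cl S a)) *
        (1 - MonoidAlgebra.single (1 : Multiplicative (ZMod 2)) (cl S b)) = (0 : A)
      have e1 : ∀ c : SRing S, (1 : A) - MonoidAlgebra.single (1 : Multiplicative (ZMod 2)) c =
          MonoidAlgebra.singleOneRingHom (1 - c) := by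
        intro c
        rw [map_sub, map_one]; rfl
      rw [e1, e1, ← map_mul, cl_split S h3, map_zero]
    · have e : φ (a, s) = 1 := (congrArg φ (show ((a, s) : E.G) = 1 from h)).trans (map_one φ)
      rw [e, sub_self, zero_mul]
    · have e : φ (b, t) = 1 := (congrArg φ (show ((b, t) : E.G) = 1 from h)).trans (map_one φ)
      rw [e, sub_self, mul_zero]
    · have h1' : s ≠ 1 := h1
      have h2' : t ≠ 1 := h2
      have h3' : b = S.neg * a := h3
      have hst : t = s := c2_eq s t h1' h2'
      subst h3' hst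
      have e1 : φ (S.neg * a, t) = - φ (a, t) := by
        show MonoidAlgebra.single t (cl S (S.neg * a)) = - MonoidAlgebra.single t (cl S a)
        have e0 : cl S (S.neg * a) = - cl S a := by
          rw [map_mul, cl_neg]; ring
        rw [e0, MonoidAlgebra.single_neg]
      have e2 : φ (a, t) * φ (a, t) = 1 := by
        have : ((a, t) : E.G) * ((a, t) : E.G) = 1 := Prod.ext (hS a) (c2_sq t)
        exact (map_mul φ _ _).symm.trans ((congrArg φ this).trans (map_one φ))
      rw [e1]
      linear_combination (-1 : A) * e2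
  obtain ⟨f, hf⟩ := exists_hom (R := A) E φ hφ1 hφ2
  -- backward
  let α : S.G →* SRing E := (cl E).comp (MonoidHom.inl S.G (Multiplicative (ZMod 2)))
  obtain ⟨g0, hg0⟩ := exists_hom (R := SRing E) S α (cl_neg E) (fun a b h =>
    cl_split E (a := (a, 1)) (b := (b, 1)) (Or.inl ⟨rfl, rfl, h⟩))
  let τ : Multiplicative (ZMod 2) →* SRing E :=
    (cl E).comp (MonoidHom.inr S.G (Multiplicative (ZMod 2)))
  let g : A →+* SRing E := MonoidAlgebra.liftNCRingHom g0 τ (fun _ _ => Commute.all _ _)
  have hg : ∀ t r, g (MonoidAlgebra.single t r) = g0 r * τ t := by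
    intro t r
    exact liftNC_single g0 τ _ t r
  refine isom_of (P := sPair E) (Q := (sPair S).groupRing) f g ?_ ?_ ?_
  · apply MonoidAlgebra.ringHom_ext
    · intro r
      have : (f.comp g).comp MonoidAlgebra.singleOneRingHom =
          (MonoidAlgebra.singleOneRingHom : SRing S →+* A) := by
        apply sring_ext
        intro a
        show f (g (MonoidAlgebra.single 1 (cl S a))) = MonoidAlgebra.single 1 (cl S a)
        rw [hg, hg0, map_one, mul_one]
        show f (cl E (a, 1)) = _
        rw [hf]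
        rfl
      exact congrArg (fun k : SRing S →+* A => k r) this
    · intro t
      show f (g (MonoidAlgebra.single t 1)) = MonoidAlgebra.single t 1
      rw [hg, map_one, one_mul]
      show f (cl E (1, t)) = _
      rw [hf]
      show MonoidAlgebra.single t (cl S 1) = _
      rw [map_one]
  · apply sring_ext
    rintro ⟨a, t⟩
    show g (f (cl E (a, t))) = cl E (a, t)
    rw [hf]
    show g (MonoidAlgebra.single t (cl S a)) = _
    rw [hg, hg0]
    show cl E (a, 1) * cl E (1, t) = _
    rw [← map_mul]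
    congr 1
    show (a * 1, 1 * t) = (a, t)
    rw [mul_one, one_mul]
  · apply sring_ext
    rintro ⟨a, t⟩
    show groupRingMap (sAug S) (f (cl E (a, t))) = sAug E (cl E (a, t))
    rw [hf, sAug_cl]
    show groupRingMap (sAug S) (MonoidAlgebra.single t (cl S a)) = 1
    rw [groupRingMap_single, sAug_cl]

end Ext

/-! ### Structures of elementary type -/

lemma IsElementaryPair.of_isom {P : Pair.{u}} {Q : Pair.{u}} (h : IsElementaryPair P)
    (f : Q.Isom P) : IsElementaryPair Q := by
  cases h with
  | complex _ h => exact .complex _ (f.trans h)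
  | real _ h => exact .real _ (f.trans h)
  | three _ h => exact .three _ (f.trans h)
  | dyadic _ K h => exact .dyadic _ K (f.trans h)
  | groupRing P' _ h1 h2 => exact .groupRing P' _ h1 (f.trans h2)
  | fibre P₁ P₂ _ h1 h2 h3 => exact .fibre P₁ P₂ _ h1 h2 (f.trans h3)

/-- The elementary properties of structures used below. -/
structure Nice (S : QStr.{u}) : Prop where
  sq : ∀ a : S.G, a * a = 1
  one_split : ∀ a, S.Split 1 a
  split_one : ∀ a, S.Split a 1

lemma Nice.of_iso {S : QStr.{u}} {T : QStr.{v}} (f : S.Iso T) (h : Nice T) : Nice S where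
  sq a := by
    apply f.e.injective
    rw [map_mul, map_one, h.sq]
  one_split a := by
    rw [f.map_split, map_one]; exact h.one_split _
  split_one a := by
    rw [f.map_split, map_one]; exact h.split_one _

lemma nice_ofField (F : Type u) [Field F] : Nice (QStr.ofField F) where
  sq := QStr.ofField_sq F
  one_split := QStr.ofField_one_split F
  split_one := QStr.ofField_split_one F

theorem isElementaryPair_sPair {S : QStr.{u}} (h : IsElementary S) :
    Nice S ∧ IsElementaryPair (sPair S) := by
  induction h with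
  | complex S h =>
    obtain ⟨f⟩ := h
    exact ⟨Nice.of_iso f (nice_ofField _), .complex _
      ((sPair_iso f).trans (wittPair_iso ℂ two_ne_zero).symm)⟩
  | real S h =>
    obtain ⟨f⟩ := h
    exact ⟨Nice.of_iso f (nice_ofField _), .real _
      ((sPair_iso f).trans (wittPair_iso ℝ two_ne_zero).symm)⟩
  | three S h =>
    obtain ⟨f⟩ := h
    exact ⟨Nice.of_iso f (nice_ofField _), .three _
      ((sPair_iso f).trans (wittPair_iso (ZMod 3) (by decide)).symm)⟩
  | dyadic S K h =>
    obtain ⟨f⟩ := h
    have : CharZero K := charZero_of_injective_algebraMap (algebraMap ℚ_[2] K).injective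
    exact ⟨Nice.of_iso f (nice_ofField _), .dyadic _ K
      ((sPair_iso f).trans (wittPair_iso K two_ne_zero).symm)⟩
  | prod S T U h1 h2 h3 ih1 ih2 =>
    obtain ⟨f⟩ := h3
    refine ⟨Nice.of_iso f ⟨?_, ?_, ?_⟩, .fibre _ _ _ ih1.2 ih2.2
      ((sPair_iso f).trans (sPair_prod S T ih1.1.split_one ih2.1.split_one ih2.1.one_split))⟩
    · rintro ⟨a, b⟩
      exact Prod.ext (ih1.1.sq a) (ih2.1.sq b)
    · rintro ⟨a, b⟩
      exact ⟨ih1.1.one_split a, ih2.1.one_split b⟩
    · rintro ⟨a, b⟩
      exact ⟨ih1.1.split_one a, ih2.1.split_one b⟩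
  | ext S U h1 h2 ih =>
    obtain ⟨f⟩ := h2
    refine ⟨Nice.of_iso f ⟨?_, ?_, ?_⟩, .groupRing _ _ ih.2
      ((sPair_iso f).trans (sPair_ext S ih.1.sq))⟩
    · rintro ⟨a, t⟩
      exact Prod.ext (ih.1.sq a) (c2_sq t)
    · intro a
      exact Or.inr (Or.inl rfl)
    · intro a
      exact Or.inr (Or.inr (Or.inl rfl))

/-- If the quaternionic structure of a field is of elementary type, then so is its Witt ring. -/
theorem isElementaryType_of_isElementary (F : Type u) [Field F] (h2 : (2 : F) ≠ 0)
    (h : IsElementary (QStr.ofField F)) : IsElementaryType (WittRing F) := by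
  obtain ⟨f, hf⟩ := wittPair_iso F h2
  exact ⟨sPair (QStr.ofField F), (isElementaryPair_sPair h).2, ⟨f⟩⟩

end Pool.Agent.Hhelper2.Witt
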