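import Pool.Agent.Hhelper2.WittIso

/-!
# The presentation of the Witt ring
-/

namespace Pool.Agent.Hhelper2.Witt

open QuadraticMap

universe u v w

variable {F : Type u} [Field F]

/-- The form `⟨x, y⟩` represents one. -/
def USplit (x y : Fˣ) : Prop := ∃ X Y : F, (x : F) * X ^ 2 + (y : F) * Y ^ 2 = 1

/-- The ideal of the defining relations of the Witt ring. -/
noncomputable def relIdeal (F : Type u) [Field F] : Ideal (MonoidAlgebra ℤ Fˣ) :=
  Ideal.span ({z | ∃ x y : Fˣ, z = MonoidAlgebra.of ℤ Fˣ (x * y * y) - MonoidAlgebra.of ℤ Fˣ x} ∪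
    ({1 + MonoidAlgebra.of ℤ Fˣ (-1)} ∪
    {z | ∃ x y : Fˣ, USplit x y ∧
      z = (1 - MonoidAlgebra.of ℤ Fˣ x) * (1 - MonoidAlgebra.of ℤ Fˣ y)}))

lemma rel_sq (x y : Fˣ) :
    MonoidAlgebra.of ℤ Fˣ (x * y * y) - MonoidAlgebra.of ℤ Fˣ x ∈ relIdeal F :=
  Ideal.subset_span (Or.inl ⟨x, y, rfl⟩)

lemma rel_neg : 1 + MonoidAlgebra.of ℤ Fˣ (-1) ∈ relIdeal F :=
  Ideal.subset_span (Or.inr (Or.inl rfl))

lemma rel_split {x y : Fˣ} (h : USplit x y) :
    (1 - MonoidAlgebra.of ℤ Fˣ x) * (1 - MonoidAlgebra.of ℤ Fˣ y) ∈ relIdeal F :=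
  Ideal.subset_span (Or.inr (Or.inr ⟨x, y, h, rfl⟩))

/-- `⟨x⟩ + ⟨y⟩ = ⟨z⟩ + ⟨x y z⟩` if `z` is represented by `⟨x, y⟩`. -/
lemma rel_bin (x y z : Fˣ) (X Y : F) (h : (z : F) = x * X ^ 2 + y * Y ^ 2) :
    (MonoidAlgebra.of ℤ Fˣ x + MonoidAlgebra.of ℤ Fˣ y) -
      (MonoidAlgebra.of ℤ Fˣ z + MonoidAlgebra.of ℤ Fˣ (x * y * z)) ∈ relIdeal F := by
  have hz : (z : F) ≠ 0 := z.ne_zero
  have hs : USplit (x * z) (y * z) := by
    refine ⟨X / z, Y / z, ?_⟩
    push_cast
    field_simp
    exact h.symm
  have h1 := (relIdeal F).mul_mem_left (- MonoidAlgebra.of ℤ Fˣ z) (rel_split hs)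
  have h2 := rel_sq x z
  have h3 := rel_sq y z
  have h4 := rel_sq (x * y * z) z
  have h5 := (relIdeal F).sub_mem ((relIdeal F).sub_mem ((relIdeal F).add_mem h1 h4) h2) h3
  convert h5 using 1
  have e1 : MonoidAlgebra.of ℤ Fˣ z * MonoidAlgebra.of ℤ Fˣ (x * z) =
      MonoidAlgebra.of ℤ Fˣ (x * z * z) := by
    rw [← map_mul]; congr 1; exact Units.ext (by push_cast; ring)
  have e2 : MonoidAlgebra.of ℤ Fˣ z * MonoidAlgebra.of ℤ Fˣ (y * z) =
      MonoidAlgebra.of ℤ Fˣ (y * z * z) := by
    rw [← map_mul]; congr 1; exact Units.ext (by push_cast; ring)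
  have e3 : MonoidAlgebra.of ℤ Fˣ z * (MonoidAlgebra.of ℤ Fˣ (x * z) *
      MonoidAlgebra.of ℤ Fˣ (y * z)) = MonoidAlgebra.of ℤ Fˣ (x * y * z * z * z) := by
    
    rw [← map_mul, ← map_mul]; congr 1; exact Units.ext (by push_cast; ring)
  linear_combination e3 - e1 - e2

lemma formal_cons (x : Fˣ) (a : List Fˣ) :
    formal (x :: a) = MonoidAlgebra.of ℤ Fˣ x + formal a := by simp [formal]

lemma formal_append (a b : List Fˣ) : formal (a ++ b) = formal a + formal b := by
  simp [formal]

lemma formal_replicate (m : ℕ) (x : Fˣ) :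
    formal (List.replicate m x) = m • MonoidAlgebra.of ℤ Fˣ x := by
  rw [formal, List.map_replicate, List.sum_replicate]

lemma formal_nil : formal ([] : List Fˣ) = 0 := by simp [formal]

/-- Isometric diagonal forms whose formal sums agree modulo the defining relations. -/
def Eqv (a b : List Fˣ) : Prop :=
  (diag a).Equivalent (diag b) ∧ formal a - formal b ∈ relIdeal F

lemma Eqv.refl (a : List Fˣ) : Eqv a a := ⟨QuadraticMap.Equivalent.refl _, by simp⟩

lemma Eqv.trans {a b c : List Fˣ} (h : Eqv a b) (h' : Eqv b c) : Eqv a c :=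
  ⟨h.1.trans h'.1, by
    have := (relIdeal F).add_mem h.2 h'.2
    rwa [sub_add_sub_cancel] at this⟩

lemma Eqv.cons {a b : List Fˣ} (x : Fˣ) (h : Eqv a b) : Eqv (x :: a) (x :: b) :=
  ⟨(diag_cons x a).trans ((pform_congr _ h.1).trans (diag_cons x b).symm), by
    rw [formal_cons, formal_cons, add_sub_add_left_eq_sub]; exact h.2⟩

lemma diag_cons_cons (x y : Fˣ) (a : List Fˣ) :
    (diag (x :: y :: a)).Equivalent (pform (x : F) (pform (y : F) (diag a))) :=
  (diag_cons x (y :: a)).trans (pform_congr _ (diag_cons y a))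

lemma Eqv.swap (x y : Fˣ) (a : List Fˣ) : Eqv (x :: y :: a) (y :: x :: a) :=
  ⟨(diag_cons_cons x y a).trans ((pform_swap _ _ _).trans (diag_cons_cons y x a).symm), by
    simp only [formal_cons]
    convert (relIdeal F).zero_mem using 1
    abel⟩

lemma Eqv.bin (x y z : Fˣ) (X Y : F) (h : (z : F) = x * X ^ 2 + y * Y ^ 2) (a : List Fˣ) :
    Eqv (x :: y :: a) (z :: (x * y * z) :: a) :=
  ⟨(diag_cons_cons x y a).trans ((pform_bin (x : F) y z X Y z.ne_zero h (diag a)).trans (by
      have := (diag_cons_cons z (x * y * z) a).symm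
      push_cast at this
      exact this)), by
    have := rel_bin x y z X Y h
    simp only [formal_cons]
    convert this using 1
    abel⟩

lemma Eqv.sq (x s : Fˣ) (a : List Fˣ) : Eqv (x :: a) ((x * s * s) :: a) :=
  ⟨(diag_cons x a).trans ((pform_sq (x : F) s s.ne_zero (diag a)).symm.trans (by
      have := (diag_cons (x * s * s) a).symm
      push_cast at this
      exact this)), by
    have := (relIdeal F).neg_mem (rel_sq x s)
    simp only [formal_cons]
    convert this using 1
    abel⟩

/-- A form which represents `β` is chain equivalent to a form with first entry `β`. -/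
theorem exists_eqv (β : Fˣ) : ∀ (a : List Fˣ) (x : Fin a.length → F), diag a x = β →
    ∃ c : List Fˣ, Eqv a (β :: c) := by
  intro a
  induction a generalizing β with
  | nil =>
    intro x hx
    rw [diag_nil] at hx
    exact absurd hx.symm β.ne_zero
  | cons x a ih =>
    intro w hw
    obtain ⟨φ⟩ := diag_cons x a
    have h1 : pform (x : F) (diag a) (φ w) = β := by rw [φ.map_app, hw]
    rw [pform_apply] at h1
    set s := (φ w).1 with hs
    set v := (φ w).2 with hv
    by_cases h2 : s = 0
    · rw [h2] at h1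
      obtain ⟨c, hc⟩ := ih β v (by simpa using h1)
      exact ⟨x :: c, (hc.cons x).trans (Eqv.swap x β c)⟩
    · by_cases h3 : diag a v = 0
      · rw [h3, add_zero] at h1
        have : β = x * Units.mk0 s h2 * Units.mk0 s h2 := by
          ext
          push_cast
          rw [← h1]; simp; ring
        refine ⟨a, ?_⟩
        rw [this]
        exact Eqv.sq x _ a
      · obtain ⟨c, hc⟩ := ih (Units.mk0 _ h3) v (by simp)
        refine ⟨_, (hc.cons x).trans (Eqv.bin x (Units.mk0 _ h3) β s 1 ?_ c)⟩
        rw [← h1]; simp; ring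

/-- Isometric diagonal forms have the same formal sum modulo the defining relations. -/
theorem rel_of_equivalent (h2 : (2 : F) ≠ 0) : ∀ (b a : List Fˣ), (diag a).Equivalent (diag b) →
    formal a - formal b ∈ relIdeal F := by
  intro b
  induction b with
  | nil =>
    intro a h
    have := length_eq_of_equivalent h
    rw [List.length_nil, List.length_eq_zero_iff] at this
    subst this
    simp
  | cons β b ih =>
    intro a h
    obtain ⟨φ⟩ := (diag_cons β b).symm.trans h.symm
    have h1 : diag a (φ (1, 0)) = β := by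
      rw [φ.map_app, pform_apply]; simp
    obtain ⟨c, hc⟩ := exists_eqv β a _ h1
    have h3 : (pform (β : F) (diag c)).Equivalent (pform (β : F) (diag b)) :=
      (diag_cons β c).symm.trans (hc.1.symm.trans (h.trans (diag_cons β b)))
    have h4 := ih c (pform_cancel h2 _ β.ne_zero _ _ h3)
    have h5 := (relIdeal F).add_mem hc.2 h4
    rw [formal_cons] at h5 ⊢
    convert h5 using 1
    abel

lemma formal_hyp (m : ℕ) : formal (hyp F m) ∈ relIdeal F := by
  have : formal (hyp F m) = (m : MonoidAlgebra ℤ Fˣ) * (1 + MonoidAlgebra.of ℤ Fˣ (-1)) := by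
    rw [hyp, formal_append, formal_replicate, formal_replicate, map_one, nsmul_eq_mul,
      nsmul_eq_mul, mul_add]
  rw [this]
  exact (relIdeal F).mul_mem_left _ rel_neg

/-- The ideal of Witt relations is generated by the standard relations. -/
theorem wittIdeal_eq (h2 : (2 : F) ≠ 0) : wittIdeal F = relIdeal F := by
  apply le_antisymm
  · refine Ideal.span_le.2 ?_
    rintro _ ⟨a, b, ⟨m, n, h⟩, rfl⟩
    have h1 := rel_of_equivalent h2 _ _ h
    rw [formal_append, formal_append] at h1
    have h3 := (relIdeal F).add_mem ((relIdeal F).sub_mem h1 (formal_hyp m)) (formal_hyp n)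
    show formal a - formal b ∈ relIdeal F
    convert h3 using 1
    abel
  · refine Ideal.span_le.2 ?_
    have key : ∀ a b : List Fˣ, (diag a).Equivalent (diag b) → formal a - formal b ∈ wittIdeal F := by
      intro a b h
      refine Ideal.subset_span ⟨a, b, ⟨0, 0, ?_⟩, rfl⟩
      have e : hyp F 0 = [] := rfl
      rw [e, List.append_nil, List.append_nil]
      exact h
    rintro _ (⟨x, y, rfl⟩ | rfl | ⟨x, y, ⟨X, Y, h⟩, rfl⟩)
    · have := key _ _ (Eqv.sq x y []).1
      rw [formal_cons, formal_cons, formal_nil, add_zero, add_zero] at this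
      have := (wittIdeal F).neg_mem this
      rwa [neg_sub] at this
    · have : formal [1, -1] - formal [] ∈ wittIdeal F := by
        refine Ideal.subset_span ⟨[1, -1], [], ⟨0, 1, ?_⟩, rfl⟩
        exact QuadraticMap.Equivalent.refl _
      rw [formal_cons, formal_cons, formal_nil, add_zero, sub_zero, map_one] at this
      exact this
    · have := key _ _ (Eqv.bin x y 1 X Y (by rw [h]; simp) []).1
      simp only [formal_cons, formal_nil, add_zero, map_one, mul_one] at this
      have := (wittIdeal F).neg_mem this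
      show _ ∈ wittIdeal F
      convert this using 1
      rw [map_mul]
      ring

end Pool.Agent.Hhelper2.Witt
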