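import Pool.Agent.Hhelper2.WittRel
import Pool.Agent.Hhelper2.Elem

/-!
# The Witt ring of a quaternionic structure
-/

namespace Pool.Agent.Hhelper2.Witt

universe u v w

/-! ### Generalities on homomorphisms from group rings -/

section Hom

variable {G : Type u} [Monoid G] {R : Type v} [Ring R]

lemma hom_ext {f g : MonoidAlgebra ℤ G →+* R}
    (h : ∀ x : G, f (MonoidAlgebra.of ℤ G x) = g (MonoidAlgebra.of ℤ G x)) : f = g := by
  apply MonoidAlgebra.ringHom_ext
  · intro r
    have : f.comp MonoidAlgebra.singleOneRingHom = g.comp MonoidAlgebra.singleOneRingHom :=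
      RingHom.ext_int _ _
    exact congrArg (fun k : ℤ →+* R => k r) this
  · exact h

/-- The ring homomorphism from a group ring given by a homomorphism of monoids. -/
noncomputable def gHom (φ : G →* R) : MonoidAlgebra ℤ G →+* R :=
  MonoidAlgebra.liftNCRingHom (Int.castRingHom R) φ (fun x _ => Int.cast_commute x _)

lemma gHom_of (φ : G →* R) (x : G) : gHom φ (MonoidAlgebra.of ℤ G x) = φ x := by
  simp [gHom]

/-- The augmentation with values in the integers. -/
noncomputable def eps (G : Type u) [Monoid G] : MonoidAlgebra ℤ G →+* ℤ := gHom 1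

lemma eps_of (x : G) : eps G (MonoidAlgebra.of ℤ G x) = 1 := by
  rw [eps, gHom_of]; rfl

lemma aug_eq (x : MonoidAlgebra ℤ G) : aug G x = ((eps G x : ℤ) : ZMod 2) := by
  have : aug G = (Int.castRingHom (ZMod 2)).comp (eps G) := by
    apply hom_ext
    intro x
    rw [RingHom.comp_apply, eps_of, aug_of]; simp
  rw [this]; rfl

end Hom

/-- The defining ideal of the Witt ring of a quaternionic structure. -/
noncomputable def sIdeal (S : QStr.{u}) : Ideal (MonoidAlgebra ℤ S.G) :=
  Ideal.span ({1 + MonoidAlgebra.of ℤ S.G S.neg} ∪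
    {z | ∃ a b : S.G, S.Split a b ∧
      z = (1 - MonoidAlgebra.of ℤ S.G a) * (1 - MonoidAlgebra.of ℤ S.G b)})

/-- The Witt ring of a quaternionic structure. -/
abbrev SRing (S : QStr.{u}) : Type u := MonoidAlgebra ℤ S.G ⧸ sIdeal S

/-- The class of a group element in the Witt ring. -/
noncomputable def cl (S : QStr.{u}) : S.G →* SRing S :=
  (Ideal.Quotient.mk (sIdeal S)).toMonoidHom.comp (MonoidAlgebra.of ℤ S.G)

lemma cl_apply (S : QStr.{u}) (a : S.G) :
    cl S a = Ideal.Quotient.mk (sIdeal S) (MonoidAlgebra.of ℤ S.G a) := rfl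

lemma cl_neg (S : QStr.{u}) : cl S S.neg = -1 := by
  have : (1 : SRing S) + cl S S.neg = 0 := by
    rw [cl_apply, ← map_one (Ideal.Quotient.mk (sIdeal S)), ← map_add]
    exact Ideal.Quotient.eq_zero_iff_mem.2 (Ideal.subset_span (Or.inl rfl))
  exact (neg_eq_of_add_eq_zero_right this).symm

lemma cl_split (S : QStr.{u}) {a b : S.G} (h : S.Split a b) : (1 - cl S a) * (1 - cl S b) = 0 := by
  rw [cl_apply, cl_apply, ← map_one (Ideal.Quotient.mk (sIdeal S)), ← map_sub, ← map_sub,
    ← map_mul]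
  exact Ideal.Quotient.eq_zero_iff_mem.2 (Ideal.subset_span (Or.inr ⟨a, b, h, rfl⟩))

/-- Homomorphisms from the Witt ring of a structure. -/
lemma exists_hom (S : QStr.{u}) {R : Type v} [CommRing R] (φ : S.G →* R) (h1 : φ S.neg = -1)
    (h2 : ∀ a b, S.Split a b → (1 - φ a) * (1 - φ b) = 0) :
    ∃ f : SRing S →+* R, ∀ a, f (cl S a) = φ a := by
  refine ⟨Ideal.Quotient.lift (sIdeal S) (gHom φ) ?_, ?_⟩
  · intro x hx
    have : sIdeal S ≤ RingHom.ker (gHom φ) := by
      refine Ideal.span_le.2 ?_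
      rintro _ (rfl | ⟨a, b, h, rfl⟩)
      · show gHom φ _ = 0
        rw [map_add, map_one, gHom_of, h1]; ring
      · show gHom φ _ = 0
        rw [map_mul, map_sub, map_sub, map_one, gHom_of, gHom_of, h2 a b h]
    exact this hx
  · intro a
    rw [cl_apply, Ideal.Quotient.lift_mk, gHom_of]

lemma sring_ext (S : QStr.{u}) {R : Type v} [Ring R] {f g : SRing S →+* R}
    (h : ∀ a, f (cl S a) = g (cl S a)) : f = g := by
  apply Ideal.Quotient.ringHom_ext
  apply hom_ext
  exact h

/-- The homomorphism to `ℤ / 2`. -/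
noncomputable def sAug (S : QStr.{u}) : SRing S →+* ZMod 2 :=
  Ideal.Quotient.lift (sIdeal S) (aug S.G) (by
    intro x hx
    have : sIdeal S ≤ RingHom.ker (aug S.G) := by
      refine Ideal.span_le.2 ?_
      rintro _ (rfl | ⟨a, b, h, rfl⟩)
      · show aug _ _ = 0
        rw [map_add, map_one, aug_of]; decide
      · show aug _ _ = 0
        rw [map_mul, map_sub, map_sub, map_one, aug_of, aug_of]; decide
    exact this hx)

lemma sAug_cl (S : QStr.{u}) (a : S.G) : sAug S (cl S a) = 1 := by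
  rw [sAug, cl_apply, Ideal.Quotient.lift_mk, aug_of]

/-- The pair of a quaternionic structure. -/
noncomputable def sPair (S : QStr.{u}) : Pair.{u} where
  R := SRing S
  e := sAug S
  surj := surjective_zmod _

/-- A criterion for isomorphism. -/
lemma isom_of {P : Pair.{u}} {Q : Pair.{v}} (f : P.R →+* Q.R) (g : Q.R →+* P.R)
    (h1 : f.comp g = RingHom.id _) (h2 : g.comp f = RingHom.id _)
    (h3 : Q.e.comp f = P.e) : P.Isom Q :=
  ⟨RingEquiv.ofRingHom f g h1 h2, fun x => congrArg (fun k : P.R →+* ZMod 2 => k x) h3⟩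

lemma Pair.Isom.symm {P : Pair.{u}} {Q : Pair.{v}} (h : P.Isom Q) : Q.Isom P := by
  obtain ⟨f, hf⟩ := h
  refine ⟨f.symm, fun x => ?_⟩
  rw [← hf, f.apply_symm_apply]

lemma Pair.Isom.trans {P : Pair.{u}} {Q : Pair.{v}} {R : Pair.{w}} (h : P.Isom Q)
    (h' : Q.Isom R) : P.Isom R := by
  obtain ⟨f, hf⟩ := h
  obtain ⟨g, hg⟩ := h'
  refine ⟨f.trans g, fun x => ?_⟩
  rw [← hf, ← hg]; rfl

theorem sPair_iso {S : QStr.{u}} {T : QStr.{v}} (f : S.Iso T) : (sPair S).Isom (sPair T) := by
  obtain ⟨φ, hφ⟩ := exists_hom S ((cl T).comp f.e.toMonoidHom) (by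
    show cl T (f.e S.neg) = -1
    rw [f.map_neg, cl_neg]) (fun a b h => cl_split T ((f.map_split a b).1 h))
  obtain ⟨ψ, hψ⟩ := exists_hom T ((cl S).comp f.e.symm.toMonoidHom) (by
    show cl S (f.e.symm T.neg) = -1
    rw [← f.map_neg, f.e.symm_apply_apply, cl_neg]) (fun a b h => cl_split S (by
      show S.Split (f.e.symm a) (f.e.symm b)
      rw [f.map_split, f.e.apply_symm_apply, f.e.apply_symm_apply]; exact h))
  refine isom_of (P := sPair S) (Q := sPair T) φ ψ ?_ ?_ ?_
  · apply sring_ext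
    intro a
    show φ (ψ (cl T a)) = cl T a
    rw [hψ]
    show φ (cl S (f.e.symm a)) = _
    rw [hφ]
    show cl T (f.e (f.e.symm a)) = _
    rw [f.e.apply_symm_apply]
  · apply sring_ext
    intro a
    show ψ (φ (cl S a)) = cl S a
    rw [hφ]
    show ψ (cl T (f.e a)) = _
    rw [hψ]
    show cl S (f.e.symm (f.e a)) = _
    rw [f.e.symm_apply_apply]
  · apply sring_ext
    intro a
    show sAug T (φ (cl S a)) = sAug S (cl S a)
    rw [hφ, sAug_cl]
    exact sAug_cl T _

/-! ### Fields -/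

theorem wittPair_iso (F : Type u) [Field F] (h2 : (2 : F) ≠ 0) :
    (wittPair F).Isom (sPair (QStr.ofField F)) := by
  set S := QStr.ofField F with hS
  have hsplit : ∀ x y : Fˣ, USplit x y → S.Split (sqClass x) (sqClass y) := fun x y h =>
    ⟨x, y, rfl, rfl, h⟩
  -- the forward map
  let q : Fˣ →* S.G := QuotientGroup.mk' (Subgroup.square Fˣ)
  have hq : ∀ x, q x = sqClass x := fun _ => rfl
  obtain ⟨φ, hφ⟩ : ∃ φ : WittRing F →+* SRing S, ∀ x : Fˣ,
      φ (Ideal.Quotient.mk _ (MonoidAlgebra.of ℤ Fˣ x)) = cl S (sqClass x) := by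
    refine ⟨Ideal.Quotient.lift (wittIdeal F) (gHom ((cl S).comp q)) ?_, ?_⟩
    · intro x hx
      rw [wittIdeal_eq h2] at hx
      have : relIdeal F ≤ RingHom.ker (gHom ((cl S).comp q)) := by
        refine Ideal.span_le.2 ?_
        rintro _ (⟨x, y, rfl⟩ | rfl | ⟨x, y, h, rfl⟩)
        · show gHom _ _ = 0
          rw [map_sub, gHom_of, gHom_of, sub_eq_zero]
          show cl S (q (x * y * y)) = cl S (q x)
          congr 1
          rw [mul_assoc, map_mul]
          have : q (y * y) = 1 := (QStr.sqClass_eq_one_iff (y * y)).2 ⟨y, rfl⟩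
          rw [this, mul_one]
        · show gHom _ _ = 0
          rw [map_add, map_one, gHom_of]
          show 1 + cl S S.neg = 0
          rw [cl_neg]; ring
        · show gHom _ _ = 0
          rw [map_mul, map_sub, map_sub, map_one, gHom_of, gHom_of]
          exact cl_split S (hsplit x y h)
      exact this hx
    · intro x
      rw [Ideal.Quotient.lift_mk, gHom_of]; rfl
  -- the backward map
  let μ : Fˣ →* WittRing F :=
    (Ideal.Quotient.mk (wittIdeal F)).toMonoidHom.comp (MonoidAlgebra.of ℤ Fˣ)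
  have hμ : ∀ x, μ x = Ideal.Quotient.mk _ (MonoidAlgebra.of ℤ Fˣ x) := fun _ => rfl
  have hμsq : ∀ x y : Fˣ, μ (x * y * y) = μ x := by
    intro x y
    rw [hμ, hμ]
    apply Ideal.Quotient.eq.2
    rw [wittIdeal_eq h2]
    exact rel_sq x y
  have hμneg : μ (-1) = -1 := by
    have : (1 : WittRing F) + μ (-1) = 0 := by
      rw [hμ, ← map_one (Ideal.Quotient.mk (wittIdeal F)), ← map_add]
      apply Ideal.Quotient.eq_zero_iff_mem.2
      rw [wittIdeal_eq h2]
      exact rel_neg
    exact (neg_eq_of_add_eq_zero_right this).symm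
  have hμsplit : ∀ x y : Fˣ, USplit x y → (1 - μ x) * (1 - μ y) = 0 := by
    intro x y h
    rw [hμ, hμ, ← map_one (Ideal.Quotient.mk (wittIdeal F)), ← map_sub, ← map_sub, ← map_mul]
    apply Ideal.Quotient.eq_zero_iff_mem.2
    rw [wittIdeal_eq h2]
    exact rel_split h
  let ν : S.G →* (WittRing F)ˣ := QuotientGroup.lift (Subgroup.square Fˣ) μ.toHomUnits (by
    intro x hx
    obtain ⟨y, rfl⟩ := (QStr.sqClass_eq_one_iff x).1 ((QuotientGroup.eq_one_iff x).2 hx)
    apply Units.ext
    show μ (y * y) = 1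
    rw [← one_mul (y * y), ← mul_assoc, hμsq, map_one])
  let ν' : S.G →* WittRing F := (Units.coeHom _).comp ν
  have hν : ∀ x : Fˣ, ν' (sqClass x) = μ x := fun x => rfl
  have hn1 : ν' S.neg = -1 := hμneg
  have hn2 : ∀ a b, S.Split a b → (1 - ν' a) * (1 - ν' b) = 0 := by
    rintro _ _ ⟨x, y, rfl, rfl, h⟩
    exact hμsplit x y h
  obtain ⟨ψ, hψ⟩ := exists_hom (R := WittRing F) S ν' hn1 hn2
  refine isom_of (P := wittPair F) (Q := sPair S) φ ψ ?_ ?_ ?_
  · apply sring_ext
    intro a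
    obtain ⟨x, rfl⟩ := QuotientGroup.mk_surjective a
    show φ (ψ (cl S (sqClass x))) = cl S (sqClass x)
    rw [hψ, hν, hμ, hφ]
  · apply Ideal.Quotient.ringHom_ext
    apply hom_ext
    intro x
    show ψ (φ (Ideal.Quotient.mk _ (MonoidAlgebra.of ℤ Fˣ x))) = Ideal.Quotient.mk _ _
    rw [hφ, hψ, hν, hμ]
  · apply Ideal.Quotient.ringHom_ext
    apply hom_ext
    intro x
    show sAug S (φ (Ideal.Quotient.mk _ (MonoidAlgebra.of ℤ Fˣ x))) =
      dimMod F (Ideal.Quotient.mk _ (MonoidAlgebra.of ℤ Fˣ x))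
    rw [hφ, sAug_cl, dimMod, Ideal.Quotient.lift_mk, aug_of]

end Pool.Agent.Hhelper2.Witt
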